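import Pool.Agent.Chern.Defs3

/-!
# Row CH1: the choice of `v` and of the chain
-/

set_option autoImplicit false

namespace Pool.Agent.Chern

universe u v

open scoped Pointwise

namespace CH1

/-- a path of a reflexive relation as a sequence -/
theorem path_seq {K : Type v} {r : K → K → Prop} (hrefl : ∀ a, r a a) {a b : K}
    (h : Relation.ReflTransGen r a b) :
    ∃ (m : ℕ) (p : ℕ → K), p 0 = a ∧ p m = b ∧ ∀ i, r (p i) (p (i + 1)) := by
  induction h with
  | refl => exact ⟨0, fun _ => a, rfl, rfl, fun _ => hrefl a⟩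
  | @tail b c _ hbc ih =>
    obtain ⟨m, p, h0, hm, hp⟩ := ih
    refine ⟨m + 1, fun i => if i ≤ m then p i else c, ?_, ?_, ?_⟩
    · simp [h0]
    · simp
    · intro i
      beta_reduce
      rcases Nat.lt_trichotomy i m with hi | hi | hi
      · rw [if_pos hi.le, if_pos (by omega)]
        exact hp i
      · subst hi
        rw [if_pos le_rfl, if_neg (by omega), hm]
        exact hbc
      · rw [if_neg (by omega), if_neg (by omega)]
        exact hrefl c

/-- a sequence through a finite set -/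
theorem tour {K : Type v} {r : K → K → Prop} (hrefl : ∀ a, r a a) (k0 : K)
    (hconn : ∀ a b, Relation.ReflTransGen r a b) (Y : Finset K) :
    ∃ (n : ℕ) (t : ℕ → K), (∀ j, r (t j) (t (j + 1))) ∧ ∀ y ∈ Y, ∃ j ≤ n, t j = y := by
  classical
  induction Y using Finset.induction_on with
  | empty => exact ⟨0, fun _ => k0, fun _ => hrefl k0, by simp⟩
  | insert y Y _ ih =>
    obtain ⟨n, t, ht, hY⟩ := ih
    obtain ⟨m, p, h0, hm, hp⟩ := path_seq hrefl (hconn (t n) y)
    refine ⟨n + m, fun j => if j ≤ n then t j else p (j - n), ?_, ?_⟩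
    · intro j
      beta_reduce
      rcases Nat.lt_trichotomy j n with hj | hj | hj
      · rw [if_pos hj.le, if_pos (by omega)]
        exact ht j
      · subst hj
        rw [if_pos le_rfl, if_neg (by omega), show j + 1 - j = 0 + 1 by omega, ← h0]
        exact hp 0
      · rw [if_neg (by omega), if_neg (by omega), show j + 1 - n = (j - n) + 1 by omega]
        exact hp _
    · intro y' hy'
      rw [Finset.mem_insert] at hy'
      rcases hy' with rfl | hy'
      · rcases Nat.eq_zero_or_pos m with hm0 | hm0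
        · refine ⟨n, by omega, ?_⟩
          beta_reduce
          rw [if_pos le_rfl, ← h0, ← hm, hm0]
        · refine ⟨n + m, le_rfl, ?_⟩
          beta_reduce
          rw [if_neg (by omega), show n + m - n = m by omega, hm]
      · obtain ⟨j, hj, hjy⟩ := hY y' hy'
        refine ⟨j, by omega, ?_⟩
        beta_reduce
        rw [if_pos hj]
        exact hjy

/-- `K` has no proper subgroups of finite index -/
theorem nfiK {H : Type u} {K : Type v} [Group H] [CommGroup K] {A : Subgroup H} (hA : NFI A)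
    {ι : K →* H} (hι : Function.Injective ι) (hr : ι.range = A) (V : Subgroup K)
    (hV : V.index ≠ 0) : V = ⊤ := by
  have h1 : (V.map ι).relIndex A ≠ 0 := by
    rw [← hr, ← Subgroup.index_comap, Subgroup.comap_map_eq_self_of_injective hι]
    exact hV
  have h2 := hA _ h1
  rw [eq_top_iff]
  intro k _
  have h3 : ι k ∈ V.map ι := h2 (hr ▸ ⟨k, rfl⟩)
  obtain ⟨k', hk', he⟩ := Subgroup.mem_map.1 h3
  rw [← hι he]
  exact hk'

/-- the elements of `K` commuting with `x` -/
def cz {H : Type u} {K : Type v} [Group H] [CommGroup K] (ι : K →* H) (x : H) : Subgroup K :=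
  (Subgroup.centralizer {x}).comap ι

theorem mem_cz {H : Type u} {K : Type v} [Group H] [CommGroup K] {ι : K →* H} {x : H} {k : K} :
    k ∈ cz ι x ↔ Commute x (ι k) := by
  unfold cz
  rw [Subgroup.mem_comap, Subgroup.mem_centralizer_singleton_iff]
  exact ⟨fun h => h.symm, fun h => h.symm⟩

theorem cz_mul {H : Type u} {K : Type v} [Group H] [CommGroup K] {A : Subgroup H} {ι : K →* H}
    (cA : ∀ x ∈ A, ∀ y ∈ A, x * y = y * x) (hr : ι.range = A) {x a : H} (ha : a ∈ A) :
    cz ι (x * a) = cz ι x := by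
  ext k
  rw [mem_cz, mem_cz]
  have hk : Commute a (ι k) := cA a ha _ (hr ▸ ⟨k, rfl⟩)
  constructor
  · intro h
    have := h.mul_left hk.inv_left
    rwa [mul_inv_cancel_right] at this
  · intro h
    exact h.mul_left hk

/-- finitely many subgroups `cz ι x`, `x ∈ N(A)` -/
theorem cz_finite {H : Type u} {K : Type v} [Group H] [CommGroup K] {A : Subgroup H} {ι : K →* H}
    (cA : ∀ x ∈ A, ∀ y ∈ A, x * y = y * x) (hr : ι.range = A)
    (hnor : A.relIndex (Subgroup.normalizer (A : Set H)) ≠ 0) :
    {V : Subgroup K | ∃ x ∈ Subgroup.normalizer (A : Set H), V = cz ι x}.Finite := by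
  set N := Subgroup.normalizer (A : Set H) with hN
  have hfi : (A.subgroupOf N).FiniteIndex := ⟨hnor⟩
  have hfin : Finite (N ⧸ A.subgroupOf N) := inferInstance
  refine (Set.finite_range fun q : N ⧸ A.subgroupOf N => cz ι ((Quotient.out q : N) : H)).subset ?_
  rintro V ⟨x, hx, rfl⟩
  set q : N ⧸ A.subgroupOf N := QuotientGroup.mk (⟨x, hx⟩ : N) with hq
  refine ⟨q, ?_⟩
  have h1 : (QuotientGroup.mk (Quotient.out q) : N ⧸ A.subgroupOf N) =
      QuotientGroup.mk (⟨x, hx⟩ : N) := by
    rw [QuotientGroup.out_eq']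
  rw [QuotientGroup.eq, Subgroup.mem_subgroupOf] at h1
  have h2 : x = ((Quotient.out q : N) : H) * ((((Quotient.out q)⁻¹ * ⟨x, hx⟩ : N)) : H) := by
    push_cast
    rw [mul_inv_cancel_left]
  show cz ι ((Quotient.out q : N) : H) = cz ι x
  conv_rhs => rw [h2]
  rw [cz_mul cA hr h1]

/-- Neumann's lemma with colours -/
theorem colour_class {K : Type v} [CommGroup K] (S : Set (Subgroup K)) (hS : S.Finite)
    (hinf : ∀ V ∈ S, V.index = 0) (n : ℕ) (χ : K → Fin n) :
    ∃ a b : K, χ a = χ b ∧ ∀ V ∈ S, a * b⁻¹ ∉ V := by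
  classical
  by_contra hcon
  push Not at hcon
  -- representatives
  let rep : Fin n → K := fun i => if h : ∃ a, χ a = i then h.choose else 1
  have hrep : ∀ a, χ (rep (χ a)) = χ a := by
    intro a
    have h : ∃ a', χ a' = χ a := ⟨a, rfl⟩
    show χ (if h : ∃ a', χ a' = χ a then h.choose else 1) = χ a
    rw [dif_pos h]
    exact h.choose_spec
  have hcov : ⋃ i ∈ (Finset.univ ×ˢ hS.toFinset : Finset (Fin n × Subgroup K)),
      (rep i.1) • (i.2 : Set K) = Set.univ := by
    rw [Set.eq_univ_iff_forall]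
    intro a
    obtain ⟨V, hV, hmem⟩ := hcon a (rep (χ a)) (hrep a).symm
    rw [Set.mem_iUnion₂]
    refine ⟨(χ a, V), ?_, ?_⟩
    · rw [Finset.mem_product]
      exact ⟨Finset.mem_univ _, hS.mem_toFinset.2 hV⟩
    · rw [mem_leftCoset_iff]
      show (rep (χ a))⁻¹ * a ∈ (V : Set K)
      rw [mul_comm]
      exact hmem
  obtain ⟨i, hi, hfi⟩ := Subgroup.exists_finiteIndex_of_leftCoset_cover hcov
  rw [Finset.mem_product] at hi
  exact hfi.index_ne_zero (hinf _ (hS.mem_toFinset.1 hi.2))

end CH1

/- ROW CH1 : the choice of `v` and of the chain -/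
theorem exists_chain {H : Type u} {K : Type v} [Group H] [CommGroup K] {A B T : Subgroup H} (h : Alg H A B T)
    {ι : K →* H} {z : H} {Gd : Finset K → Prop} (hι : Function.Injective ι) (hr : ι.range = A)
    (hR : Rec H K ι z Gd) (Y : Finset K) :
    ∃ (v : K) (n : ℕ) (t : ℕ → K), ι v ∉ Subgroup.normalizer (B : Set H) ∧
      (∀ x ∈ Subgroup.normalizer (A : Set H), Commute x (ι v) → ∀ k : K, Commute x (ι k)) ∧
      (∀ j ≤ n, ∀ W : Finset K, (∀ w ∈ W, w = t j ∨ w = t j * v ∨ w = t (j + 1) ∨ w = t (j + 1) * v) → Gd W) ∧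
      (∀ y ∈ Y, ∃ j ≤ n, t j = y) := by
  classical
  have hnfi := CH1.nfiK h.nfiA hι hr
  -- the bad subgroups
  set V0 : Subgroup K := (Subgroup.normalizer (B : Set H)).comap ι with hV0
  have hV0top : V0 ≠ ⊤ := by
    intro htop
    have h1 : A ≤ Subgroup.normalizer (B : Set H) := by
      intro a ha
      rw [← hr] at ha
      obtain ⟨k, rfl⟩ := ha
      have : k ∈ V0 := htop ▸ Subgroup.mem_top k
      exact this
    have h2 : B.relIndex A ≠ 0 := by
      intro hz
      exact h.norB (Subgroup.relIndex_eq_zero_of_le_right h1 hz)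
    have h3 : A ≤ B := h.nfiA B h2
    apply h.A1
    rw [eq_bot_iff]
    intro x hx
    rw [Subgroup.mem_bot]
    refine h.ne 1 x hx ?_
    exact ⟨x, h3 hx, by simp⟩
  set S : Set (Subgroup K) := insert V0
    {V | (∃ x ∈ Subgroup.normalizer (A : Set H), V = CH1.cz ι x) ∧ V ≠ ⊤} with hS
  have hSfin : S.Finite := by
    refine Set.Finite.insert _ ((CH1.cz_finite h.cA hr h.norA).subset ?_)
    rintro V ⟨h1, _⟩
    exact h1
  have hSinf : ∀ V ∈ S, V.index = 0 := by
    intro V hV
    by_contra hne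
    have htop := hnfi V hne
    rcases hV with rfl | ⟨_, h2⟩
    · exact hV0top htop
    · exact h2 htop
  -- the choice of v
  obtain ⟨n1, χ1, hχ1⟩ := hR.ret {1} hR.one
  obtain ⟨a, b, hab, hv⟩ := CH1.colour_class S hSfin hSinf n1 χ1
  set v := a * b⁻¹ with hvdef
  have hGv : Gd {1, v} := by
    refine hχ1 a b hab _ ?_
    intro w hw
    rw [Finset.mem_insert, Finset.mem_singleton] at hw
    rcases hw with rfl | rfl
    · exact Or.inl (Finset.mem_singleton_self _)
    · exact Or.inr ⟨1, Finset.mem_singleton_self _, by rw [mul_one]⟩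
  -- the steps
  obtain ⟨n2, χ2, hχ2⟩ := hR.ret {1, v} hGv
  set R2 : Set K := {t | Gd {1, v, t, t * v}} with hR2
  have hone : (1 : K) ∈ R2 := by
    show Gd {1, v, 1, 1 * v}
    refine hR.mono _ _ ?_ hGv
    intro w hw
    simp only [Finset.mem_insert, Finset.mem_singleton, one_mul] at hw ⊢
    tauto
  have hsymm : ∀ t ∈ R2, t⁻¹ ∈ R2 := by
    intro t ht
    refine hR.tr _ t⁻¹ ht _ ?_
    intro w hw
    simp only [Finset.mem_insert, Finset.mem_singleton] at hw
    rcases hw with rfl | rfl | rfl | rfl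
    · exact ⟨t, by simp, by simp⟩
    · exact ⟨t * v, by simp, by simp⟩
    · exact ⟨1, by simp, by simp⟩
    · exact ⟨v, by simp, rfl⟩
  have hcol : ∀ a b : K, χ2 a = χ2 b → a * b⁻¹ ∈ R2 := by
    intro a b hab
    refine hχ2 a b hab _ ?_
    intro w hw
    simp only [Finset.mem_insert, Finset.mem_singleton] at hw
    rcases hw with rfl | rfl | rfl | rfl
    · exact Or.inl (by simp)
    · exact Or.inl (by simp)
    · exact Or.inr ⟨1, by simp, by simp⟩
    · exact Or.inr ⟨v, by simp, rfl⟩
  have hgen : Subgroup.closure R2 = ⊤ := by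
    refine hnfi _ ?_
    have hfin : Finite (K ⧸ Subgroup.closure R2) := by
      refine Finite.of_injective (fun q : K ⧸ Subgroup.closure R2 => χ2 (Quotient.out q)) ?_
      intro q q' hqq
      have h1 := Subgroup.subset_closure (hcol _ _ hqq)
      rw [← QuotientGroup.out_eq' q, ← QuotientGroup.out_eq' q', QuotientGroup.eq]
      have h2 := (Subgroup.closure R2).inv_mem h1
      rw [mul_inv_rev, inv_inv, mul_comm] at h2
      exact h2
    exact Subgroup.index_ne_zero_of_finite
  have hconn : ∀ a b : K, Relation.ReflTransGen (fun a b => b * a⁻¹ ∈ R2) a b := by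
    have key : ∀ x ∈ Subgroup.closure R2, ∀ a : K,
        Relation.ReflTransGen (fun a b => b * a⁻¹ ∈ R2) a (x * a) := by
      intro x hx
      induction hx using Subgroup.closure_induction with
      | mem x hx =>
        intro a
        refine Relation.ReflTransGen.single ?_
        show x * a * a⁻¹ ∈ R2
        rw [mul_inv_cancel_right]
        exact hx
      | one => intro a; rw [one_mul]
      | mul x y _ _ hx hy =>
        intro a
        rw [mul_assoc]
        exact (hy a).trans (hx (y * a))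
      | inv x _ hx =>
        intro a
        have h1 := hx (x⁻¹ * a)
        rw [mul_inv_cancel_left] at h1
        refine Relation.reflTransGen_swap.1 (Relation.ReflTransGen.mono ?_ _ _ h1)
        intro c d hcd
        have := hsymm _ hcd
        rwa [mul_inv_rev, inv_inv] at this
    intro a b
    have := key (b * a⁻¹) (hgen ▸ Subgroup.mem_top _) a
    rwa [inv_mul_cancel_right] at this
  obtain ⟨n, t, ht, hY⟩ := CH1.tour (r := fun a b => b * a⁻¹ ∈ R2)
    (fun a => by show a * a⁻¹ ∈ R2; rw [mul_inv_cancel]; exact hone) 1 hconn Y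
  refine ⟨v, n, t, ?_, ?_, ?_, hY⟩
  · intro hmem
    exact hv V0 (Set.mem_insert _ _) hmem
  · intro x hx hcomm k
    by_contra hk
    refine hv (CH1.cz ι x) (Set.mem_insert_of_mem _ ⟨⟨x, hx, rfl⟩, ?_⟩) (CH1.mem_cz.2 hcomm)
    intro htop
    exact hk (CH1.mem_cz.1 (htop ▸ Subgroup.mem_top k))
  · intro j _ W hW
    have h1 : Gd {1, v, t (j + 1) * (t j)⁻¹, t (j + 1) * (t j)⁻¹ * v} := ht j
    have e : t j * (t (j + 1) * (t j)⁻¹) = t (j + 1) := by
      rw [mul_comm (t (j + 1)), mul_inv_cancel_left]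
    refine hR.tr _ (t j) h1 W ?_
    intro w hw
    rcases hW w hw with rfl | rfl | rfl | rfl
    · exact ⟨1, by simp, by rw [mul_one]⟩
    · exact ⟨v, by simp, rfl⟩
    · exact ⟨t (j + 1) * (t j)⁻¹, by simp, e.symm⟩
    · exact ⟨t (j + 1) * (t j)⁻¹ * v, by simp, by rw [← mul_assoc (t j), e]⟩

end Pool.Agent.Chern
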