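import Pool.Agent.Chern.Defs3

/-!
# Row CH2: pigeonhole and the finiteness of the classes
-/

set_option autoImplicit false

namespace Pool.Agent.Chern

universe u v

namespace CH2

section basic
variable {H : Type u} {K : Type v} [Group H] [CommGroup K]

theorem infinite_of_alg {A B T : Subgroup H} (h : Alg H A B T) {ι : K →* H} (hr : ι.range = A) : Infinite K := by
  by_contra hfin
  rw [not_infinite_iff_finite] at hfin
  have h1 : Finite ι.range := Finite.of_surjective ι.rangeRestrict ι.rangeRestrict_surjective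
  rw [hr] at h1
  have h2 : (⊥ : Subgroup H).relIndex A ≠ 0 := by
    rw [Subgroup.relIndex_bot_left]
    exact Nat.card_pos.ne'
  exact h.A1 (le_bot_iff.1 (h.nfiA ⊥ h2))

theorem zk_inj {A B T : Subgroup H} (h : Alg H A B T) {ι : K →* H} (hι : Function.Injective ι) (hr : ι.range = A)
    {z : H} (hz : z ∉ Subgroup.normalizer (A : Set H)) {x y : K} (hxy : zk ι z x = zk ι z y) : x = y := by
  by_contra hne
  apply hz
  have h1 : ι (x⁻¹ * y) ∈ A := by
    rw [← hr]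
    exact ⟨_, rfl⟩
  have h2 : ι (x⁻¹ * y) ≠ 1 := by
    intro h0
    apply hne
    have h3 : x⁻¹ * y = 1 := hι (by rw [h0, map_one])
    exact (inv_mul_eq_one.1 h3)
  apply h.cenA _ h1 h2
  rw [Subgroup.mem_centralizer_singleton_iff]
  have h4 : ι x * z * (ι x)⁻¹ = ι y * z * (ι y)⁻¹ := hxy
  rw [map_mul, map_inv]
  calc z * ((ι x)⁻¹ * ι y) = (ι x)⁻¹ * (ι x * z * (ι x)⁻¹) * ι y := by group
    _ = (ι x)⁻¹ * (ι y * z * (ι y)⁻¹) * ι y := by rw [h4]
    _ = (ι x)⁻¹ * ι y * z := by group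

theorem zk_mul (ι : K →* H) (z : H) (w m : K) : zk ι z (w * m) = ι w * zk ι z m * (ι w)⁻¹ := by
  unfold zk
  rw [map_mul]
  group

/-- equal colours give commutation -/
theorem comm_of_col {ι : K →* H} {z : H} {Gd : Finset K → Prop} (hR : Rec H K ι z Gd) {W : Finset K}
    {n : ℕ} {χ : K → Fin n} (hχ : ∀ a b : K, χ a = χ b →
      ∀ W' : Finset K, (∀ w ∈ W', w ∈ W ∨ ∃ w0 ∈ W, w = a * b⁻¹ * w0) → Gd W')
    {p p' m m' : K} (hp : χ p' = χ p) (hm : m' * m⁻¹ = p' * p⁻¹) {w w' : K} (hw : w ∈ W) (hw' : w' ∈ W) :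
    Commute (zk ι z (w * m)) (zk ι z (w' * m')) := by
  classical
  have h1 := hχ p' p hp (W ∪ W.image (fun x => p' * p⁻¹ * x)) (by
    intro x hx
    rcases Finset.mem_union.1 hx with hx | hx
    · exact Or.inl hx
    · obtain ⟨y, hy, rfl⟩ := Finset.mem_image.1 hx
      exact Or.inr ⟨y, hy, rfl⟩)
  have h2 := hR.tr _ m h1 ((W ∪ W.image (fun x => p' * p⁻¹ * x)).image (fun x => m * x)) (by
    intro x hx
    obtain ⟨y, hy, rfl⟩ := Finset.mem_image.1 hx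
    exact ⟨y, hy, rfl⟩)
  refine hR.com _ h2 _ ?_ _ ?_
  · exact Finset.mem_image.2 ⟨w, Finset.mem_union_left _ hw, mul_comm _ _⟩
  · refine Finset.mem_image.2 ⟨p' * p⁻¹ * w', Finset.mem_union_right _ (Finset.mem_image_of_mem _ hw'), ?_⟩
    have h3 : m' = p' * p⁻¹ * m := by rw [← hm]; group
    show m * (p' * p⁻¹ * w') = w' * m'
    rw [h3, mul_left_comm m, mul_comm m w', mul_left_comm w']

end basic

section fin
variable {H : Type u} [Group H]

theorem mem_cj' {g y : H} {Q : Subgroup H} : y ∈ cj g Q ↔ g⁻¹ * y * g ∈ Q := by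
  unfold cj
  rw [Subgroup.mem_map]
  constructor
  · rintro ⟨x, hx, rfl⟩
    show g⁻¹ * (g * x * g⁻¹) * g ∈ Q
    have e : g⁻¹ * (g * x * g⁻¹) * g = x := by group
    rwa [e]
  · intro h
    refine ⟨g⁻¹ * y * g, h, ?_⟩
    show g * (g⁻¹ * y * g) * g⁻¹ = y
    group

/-- the normaliser of a TI subgroup meets another conjugate in a finite set -/
theorem fin_meet {B : Subgroup H} {M : Subgroup H} (hM : B.relIndex M ≠ 0)
    {v : H} (hv : ∀ x ∈ B, x ∈ cj v B → x = 1) : {x : H | x ∈ M ∧ x ∈ cj v B}.Finite := by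
  have h1 : Finite (↥M ⧸ B.subgroupOf M) := by
    have : (B.subgroupOf M).FiniteIndex := ⟨hM⟩
    infer_instance
  have h2 : Function.Injective (fun x : {x : H | x ∈ M ∧ x ∈ cj v B} => ((⟨x.1, x.2.1⟩ : ↥M) : ↥M ⧸ B.subgroupOf M)) := by
    rintro ⟨x, hx1, hx2⟩ ⟨y, hy1, hy2⟩ hxy
    have h3 := (QuotientGroup.eq).1 hxy
    rw [Subgroup.mem_subgroupOf] at h3
    have h4 : x⁻¹ * y ∈ B := h3
    have h5 := hv _ h4 ((cj v B).mul_mem ((cj v B).inv_mem hx2) hy2)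
    exact Subtype.ext (inv_mul_eq_one.1 h5)
  exact Set.finite_coe_iff.1 (Finite.of_injective _ h2)

end fin

section main
variable {H : Type u} {K : Type v} [Group H] [CommGroup K]

/-- the classes of the indices are finite -/
theorem class_finite {A B T : Subgroup H} (h : Alg H A B T)
    {ι : K →* H} {z : H} (hι : Function.Injective ι) (hr : ι.range = A)
    (hz : z ∉ Subgroup.normalizer (A : Set H)) {v : K} (hv : ι v ∉ Subgroup.normalizer (B : Set H))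
    {t : K} {I : Set K}
    (hI : ∀ a ∈ I, ∀ b ∈ I, ∀ w w' : K, (w = t ∨ w = t * v) → (w' = t ∨ w' = t * v) →
      Commute (zk ι z (w * a)) (zk ι z (w' * b))) {a : K} (ha : a ∈ I) :
    {b | b ∈ I ∧ (zk ι z (t * a))⁻¹ * zk ι z (t * b) ∈ B}.Finite := by
  by_contra hinf
  have hinf' : {b | b ∈ I ∧ (zk ι z (t * a))⁻¹ * zk ι z (t * b) ∈ B}.Infinite := hinf
  set I3 := {b | b ∈ I ∧ (zk ι z (t * a))⁻¹ * zk ι z (t * b) ∈ B} with hI3
  -- `b ≠ a` in the class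
  obtain ⟨b, hb, hba⟩ := hinf'.exists_notMem_finite (Set.finite_singleton a)
  have hba' : b ≠ a := fun h0 => hba h0
  obtain ⟨hbI, hbB⟩ := hb
  have hne : (zk ι z (t * a))⁻¹ * zk ι z (t * b) ≠ 1 := by
    intro h0
    have h1 := zk_inj h hι hr hz (inv_mul_eq_one.1 h0)
    exact hba' (mul_left_cancel h1).symm
  -- the elements `z[t v c]` normalise `B`
  have hN : ∀ c ∈ I, zk ι z (t * v * c) ∈ Subgroup.normalizer (B : Set H) := by
    intro c hc
    apply h.cenB _ hbB hne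
    rw [Subgroup.mem_centralizer_singleton_iff]
    have h1 : Commute (zk ι z (t * a)) (zk ι z (t * v * c)) := hI a ha c hc t (t * v) (Or.inl rfl) (Or.inr rfl)
    have h2 : Commute (zk ι z (t * b)) (zk ι z (t * v * c)) := hI b hbI c hc t (t * v) (Or.inl rfl) (Or.inr rfl)
    exact ((h1.inv_left.mul_left h2).symm).eq
  have hfin : {x : H | x ∈ Subgroup.normalizer (B : Set H) ∧ x ∈ cj (ι v) B}.Finite := by
    apply fin_meet h.norB
    intro x hx hx2
    by_contra hx1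
    apply hv
    rw [mem_cj'] at hx2
    apply h.tiB (ι v) _ hx2
    · intro h0
      apply hx1
      have : x = ι v * ((ι v)⁻¹ * x * ι v) * (ι v)⁻¹ := by group
      rw [this, h0]
      group
    · have : ι v * ((ι v)⁻¹ * x * ι v) * (ι v)⁻¹ = x := by group
      rw [this]
      exact hx
  apply hinf'
  refine Set.Finite.of_finite_image (f := fun c => (zk ι z (t * v * a))⁻¹ * zk ι z (t * v * c)) (hfin.subset ?_) ?_
  · rintro - ⟨c, ⟨hcI, hcB⟩, rfl⟩
    refine ⟨Subgroup.mul_mem _ (Subgroup.inv_mem _ (hN a ha)) (hN c hcI), ?_⟩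
    rw [mem_cj']
    have e1 : ∀ k : K, zk ι z (t * v * k) = ι v * zk ι z (t * k) * (ι v)⁻¹ := by
      intro k
      rw [← zk_mul]
      congr 1
      rw [mul_comm t v, mul_assoc]
    show (ι v)⁻¹ * ((zk ι z (t * v * a))⁻¹ * zk ι z (t * v * c)) * ι v ∈ B
    rw [e1, e1]
    have e2 : (ι v)⁻¹ * ((ι v * zk ι z (t * a) * (ι v)⁻¹)⁻¹ * (ι v * zk ι z (t * c) * (ι v)⁻¹)) * ι v =
        (zk ι z (t * a))⁻¹ * zk ι z (t * c) := by group
    rw [e2]
    exact hcB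
  · intro c _ d _ hcd
    have h1 : zk ι z (t * v * c) = zk ι z (t * v * d) := mul_left_cancel hcd
    exact mul_left_cancel (zk_inj h hι hr hz h1)

end main

end CH2

/-- subsets of the set of indices -/
abbrev CH2.PJ (n : ℕ) : Type := {J : Finset ℕ // J ∈ (Finset.range (n + 1)).powerset}

open CH2 in
theorem exists_ab {H : Type u} {K : Type v} [Group H] [CommGroup K] {A B T : Subgroup H} (h : Alg H A B T)
    {ι : K →* H} {z : H} {Gd : Finset K → Prop} (hι : Function.Injective ι) (hr : ι.range = A)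
    (hz : z ∉ Subgroup.normalizer (A : Set H)) (hR : Rec H K ι z Gd) {v : K} (hv : ι v ∉ Subgroup.normalizer (B : Set H))
    (n : ℕ) (t : ℕ → K)
    (hW : ∀ j ≤ n, ∀ W : Finset K, (∀ w ∈ W, w = t j ∨ w = t j * v ∨ w = t (j + 1) ∨ w = t (j + 1) * v) → Gd W) :
    ∃ (τ : K) (s : ℕ → K) (ρ : K), (∀ j ≤ n, s j ≠ 1) ∧
      (∀ j ≤ n, (zk ι z (t j * τ * ρ))⁻¹ * ι (s j) * zk ι z (t j * τ) ∈ B) ∧
      (∀ j ≤ n, ∀ w w' : K, (w = t j ∨ w = t j * v ∨ w = t (j + 1) ∨ w = t (j + 1) * v) →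
        (w' = t j ∨ w' = t j * v ∨ w' = t (j + 1) ∨ w' = t (j + 1) * v) →
        ∀ m ∈ Box s ρ n, ∀ m' ∈ Box s ρ n, Commute (zk ι z (w * τ * m)) (zk ι z (w' * τ * m'))) := by
  classical
  have hK : Infinite K := infinite_of_alg h hr
  -- double cosets
  obtain ⟨S, hS⟩ := h.fdc
  have hS' : ∀ x : H, ∃ (s : {g // g ∈ S}) (a : K) (b : H), b ∈ B ∧ x = ι a * s * b := by
    intro x
    obtain ⟨g, hg, p, hp, q, hq, hx⟩ := hS x
    rw [← hr] at hp
    obtain ⟨a, rfl⟩ := hp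
    exact ⟨⟨g, hg⟩, a, q, hq, hx⟩
  choose cls al bb hbb hcls using hS'
  -- colours
  have hcol : ∀ j : Fin (n + 1), ∃ (m : ℕ) (χ : K → Fin m), ∀ a b : K, χ a = χ b →
      ∀ W' : Finset K, (∀ w ∈ W', w ∈ ({t j, t j * v, t (j + 1), t (j + 1) * v} : Finset K) ∨
        ∃ w0 ∈ ({t j, t j * v, t (j + 1), t (j + 1) * v} : Finset K), w = a * b⁻¹ * w0) → Gd W' := by
    intro j
    apply hR.ret
    apply hW j (Nat.lt_succ_iff.1 j.2)
    intro w hw
    simpa using hw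
  choose M χ hχ using hcol
  -- the words
  let F : (Fin 2 × Fin 2 × PJ n × PJ n) → K → K := fun w k =>
    k ^ (w.2.1 : ℕ) * (k ^ (w.1 : ℕ))⁻¹ * ((∏ i ∈ w.2.2.2.1, (al (zk ι z (t i * k)))⁻¹) *
      (∏ i ∈ w.2.2.1.1, (al (zk ι z (t i * k)))⁻¹)⁻¹)
  let col : K → (Fin (n + 1) → {g // g ∈ S}) × (∀ j : Fin (n + 1), (Fin 2 × Fin 2 × PJ n × PJ n) → Fin (M j)) := fun k =>
    (fun j => cls (zk ι z (t j * k)), fun j w => χ j (F w k))
  obtain ⟨y, hy⟩ := Finite.exists_infinite_fiber col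
  set I : Set K := col ⁻¹' {y} with hIdef
  have hIinf : I.Infinite := Set.infinite_coe_iff.1 hy
  -- colours agree on `I`
  have hIcol : ∀ a ∈ I, ∀ b ∈ I, (∀ j : Fin (n + 1), cls (zk ι z (t j * a)) = cls (zk ι z (t j * b))) ∧
      ∀ j : Fin (n + 1), ∀ w, χ j (F w a) = χ j (F w b) := by
    intro a ha b hb
    have h1 : col a = col b := (show col a = y from ha).trans (show col b = y from hb).symm
    exact ⟨fun j => congrFun (congrArg Prod.fst h1) j, fun j w => congrFun (congrFun (congrArg Prod.snd h1) j) w⟩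
  -- commutation
  have hcomm : ∀ j ≤ n, ∀ a ∈ I, ∀ b ∈ I, ∀ w w' : K, (w = t j ∨ w = t j * v ∨ w = t (j + 1) ∨ w = t (j + 1) * v) →
      (w' = t j ∨ w' = t j * v ∨ w' = t (j + 1) ∨ w' = t (j + 1) * v) → ∀ (x : Fin 2 × Fin 2 × PJ n × PJ n) (m m' : K),
      m' * m⁻¹ = F x b * (F x a)⁻¹ → Commute (zk ι z (w * m)) (zk ι z (w' * m')) := by
    intro j hj a ha b hb w w' hw hw' x m m' hm
    refine comm_of_col hR (hχ ⟨j, Nat.lt_succ_iff.2 hj⟩) ((hIcol b hb a ha).2 ⟨j, Nat.lt_succ_iff.2 hj⟩ x) hm ?_ ?_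
    · simpa using hw
    · simpa using hw'
  have hI1 : ∀ j ≤ n, ∀ a ∈ I, ∀ b ∈ I, ∀ w w' : K, (w = t j ∨ w = t j * v) → (w' = t j ∨ w' = t j * v) →
      Commute (zk ι z (w * a)) (zk ι z (w' * b)) := by
    intro j hj a ha b hb w w' hw hw'
    refine hcomm j hj a ha b hb w w' (hw.imp_right Or.inl) (hw'.imp_right Or.inl)
      (0, 1, ⟨∅, Finset.empty_mem_powerset _⟩, ⟨∅, Finset.empty_mem_powerset _⟩) a b ?_
    simp [F]
  obtain ⟨a, ha⟩ := hIinf.nonempty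
  have hfin : (⋃ j ∈ Finset.range (n + 1), {b | b ∈ I ∧ (zk ι z (t j * a))⁻¹ * zk ι z (t j * b) ∈ B}).Finite := by
    refine Set.Finite.biUnion (Finset.finite_toSet _) ?_
    intro j hj
    exact class_finite h hι hr hz hv (hI1 j (Nat.lt_succ_iff.1 (Finset.mem_range.1 hj))) ha
  obtain ⟨b, hb, hbn⟩ := hIinf.exists_notMem_finite hfin
  have hbn' : ∀ j ≤ n, (zk ι z (t j * a))⁻¹ * zk ι z (t j * b) ∉ B := by
    intro j hj h0
    apply hbn
    exact Set.mem_iUnion₂.2 ⟨j, Finset.mem_range.2 (Nat.lt_succ_iff.2 hj), hb, h0⟩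
  have hτ : ∀ w : K, w * a * (b * a⁻¹) = w * b := by
    intro w
    rw [mul_assoc, mul_comm a, inv_mul_cancel_right]
  have key : ∀ (x y : H), cls x = cls y → x⁻¹ * ι (al x * (al y)⁻¹) * y ∈ B := by
    intro x y hxy
    have h1 := hcls x
    have h2 := hcls y
    rw [← hxy] at h2
    have h3 : x⁻¹ * ι (al x * (al y)⁻¹) * y = (bb x)⁻¹ * bb y := by
      calc x⁻¹ * ι (al x * (al y)⁻¹) * y =
          (ι (al x) * cls x * bb x)⁻¹ * ι (al x * (al y)⁻¹) * (ι (al y) * cls x * bb y) := by rw [← h1, ← h2]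
        _ = (bb x)⁻¹ * bb y := by
          rw [map_mul, map_inv]
          group
    rw [h3]
    exact B.mul_mem (B.inv_mem (hbb x)) (hbb y)
  have hgB : ∀ j ≤ n, (zk ι z (t j * b))⁻¹ * ι (al (zk ι z (t j * b)) * (al (zk ι z (t j * a)))⁻¹) *
      zk ι z (t j * a) ∈ B := by
    intro j hj
    exact key _ _ ((hIcol a ha b hb).1 ⟨j, Nat.lt_succ_iff.2 hj⟩).symm
  refine ⟨a, fun j => al (zk ι z (t j * b)) * (al (zk ι z (t j * a)))⁻¹, b * a⁻¹, ?_, ?_, ?_⟩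
  · intro j hj h0
    apply hbn' j hj
    have h1 := hgB j hj
    rw [show al (zk ι z (t j * b)) * (al (zk ι z (t j * a)))⁻¹ = 1 from h0, map_one, mul_one] at h1
    have h2 := B.inv_mem h1
    rw [mul_inv_rev, inv_inv] at h2
    exact h2
  · intro j hj
    rw [hτ]
    exact hgB j hj
  · intro j hj w w' hw hw' m hm m' hm'
    obtain ⟨e, he, J, hJ, rfl⟩ := hm
    obtain ⟨e', he', J', hJ', rfl⟩ := hm'
    rw [mul_assoc w, mul_assoc w']
    refine hcomm j hj a ha b hb w w' hw hw'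
      (⟨e, Nat.lt_succ_iff.2 he⟩, ⟨e', Nat.lt_succ_iff.2 he'⟩, ⟨J, Finset.mem_powerset.2 hJ⟩,
        ⟨J', Finset.mem_powerset.2 hJ'⟩) _ _ ?_
    have hprod : ∀ J : Finset ℕ, ∏ i ∈ J, (al (zk ι z (t i * b)) * (al (zk ι z (t i * a)))⁻¹)⁻¹ =
        (∏ i ∈ J, (al (zk ι z (t i * b)))⁻¹) * (∏ i ∈ J, (al (zk ι z (t i * a)))⁻¹)⁻¹ := by
      intro J
      rw [← Finset.prod_inv_distrib, ← Finset.prod_mul_distrib]
      refine Finset.prod_congr rfl fun i _ => ?_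
      rw [mul_inv]
    show a * ((b * a⁻¹) ^ e' * ∏ i ∈ J', (al (zk ι z (t i * b)) * (al (zk ι z (t i * a)))⁻¹)⁻¹) *
      (a * ((b * a⁻¹) ^ e * ∏ i ∈ J, (al (zk ι z (t i * b)) * (al (zk ι z (t i * a)))⁻¹)⁻¹))⁻¹ =
      (b ^ e' * (b ^ e)⁻¹ * ((∏ i ∈ J', (al (zk ι z (t i * b)))⁻¹) * (∏ i ∈ J, (al (zk ι z (t i * b)))⁻¹)⁻¹)) *
      (a ^ e' * (a ^ e)⁻¹ * ((∏ i ∈ J', (al (zk ι z (t i * a)))⁻¹) * (∏ i ∈ J, (al (zk ι z (t i * a)))⁻¹)⁻¹))⁻¹
    rw [hprod, hprod, mul_pow, mul_pow, inv_pow, inv_pow]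
    generalize (∏ i ∈ J', (al (zk ι z (t i * b)))⁻¹) = p1
    generalize (∏ i ∈ J', (al (zk ι z (t i * a)))⁻¹) = p2
    generalize (∏ i ∈ J, (al (zk ι z (t i * b)))⁻¹) = p3
    generalize (∏ i ∈ J, (al (zk ι z (t i * a)))⁻¹) = p4
    generalize b ^ e' = q1
    generalize a ^ e' = q2
    generalize b ^ e = q3
    generalize a ^ e = q4
    have e1 : ∀ X Y : K, a * X * (a * Y)⁻¹ = X * Y⁻¹ := by
      intro X Y
      rw [mul_inv, mul_mul_mul_comm, mul_inv_cancel, one_mul]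
    rw [e1]
    simp only [mul_inv, inv_inv]
    ac_rfl

end Pool.Agent.Chern
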