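import Pool.Agent.Chern.Defs3

/-!
# Row CORE: the algebraic core of the general case

`x_j(m) = zk ι z (t j * m)`, `D_s(k) = k⁻¹ s⁻¹ k s`, `k_j = x_j(ρ s_j⁻¹)⁻¹ x_j(1)`.
-/

set_option autoImplicit false

namespace Pool.Agent.Chern

universe u v

namespace CORE

variable {H : Type u} {K : Type v} [Group H] [CommGroup K]

/-- `g⁻¹ (a⁻¹ g a)` -/
def Dd (a g : H) : H := g⁻¹ * (a⁻¹ * g * a)

/-- the subgroup generated by the elements `zk ι z (t * ρ ^ e * ∏ i ∈ J, (s i)⁻¹)` with `J ⊆ I` -/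
def GG (ι : K →* H) (z : H) (t : K) (s : ℕ → K) (ρ : K) (I : Finset ℕ) : Subgroup H :=
  Subgroup.closure {x : H | ∃ e : ℕ, e ≤ 1 ∧ ∃ J : Finset ℕ, J ⊆ I ∧ x = zk ι z (t * (ρ ^ e * ∏ i ∈ J, (s i)⁻¹))}

theorem zk_conj (ι : K →* H) (z : H) (a k : K) : (ι a)⁻¹ * zk ι z k * ι a = zk ι z (a⁻¹ * k) := by
  simp only [zk, map_mul, map_inv, mul_inv_rev, inv_inv, mul_assoc]

theorem GG_mono {ι : K →* H} {z : H} {t : K} {s : ℕ → K} {ρ : K} {I I' : Finset ℕ} (h : I ⊆ I') :
    GG ι z t s ρ I ≤ GG ι z t s ρ I' := by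
  apply Subgroup.closure_mono
  rintro x ⟨e, he, J, hJ, rfl⟩
  exact ⟨e, he, J, hJ.trans h, rfl⟩

/-- conjugation by `s i` -/
theorem GG_conj {ι : K →* H} {z : H} {t : K} {s : ℕ → K} {ρ : K} {I : Finset ℕ} {i : ℕ} (hi : i ∉ I)
    {g : H} (hg : g ∈ GG ι z t s ρ I) : (ι (s i))⁻¹ * g * ι (s i) ∈ GG ι z t s ρ (insert i I) := by
  have h : GG ι z t s ρ I ≤ (GG ι z t s ρ (insert i I)).comap (MulAut.conj (ι (s i))⁻¹).toMonoidHom := by
    rw [GG, Subgroup.closure_le]
    rintro x ⟨e, he, J, hJ, rfl⟩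
    refine Subgroup.subset_closure ⟨e, he, insert i J, Finset.insert_subset_insert _ hJ, ?_⟩
    have h1 : i ∉ J := fun h => hi (hJ h)
    simp only [MulEquiv.toMonoidHom_eq_coe, MonoidHom.coe_coe, MulAut.conj_apply, inv_inv]
    rw [zk_conj, Finset.prod_insert h1]
    congr 1
    rw [mul_left_comm, mul_left_comm (s i)⁻¹]
  have h2 := h hg
  simpa [MulAut.conj_apply] using h2

theorem GG_D {ι : K →* H} {z : H} {t : K} {s : ℕ → K} {ρ : K} {I : Finset ℕ} {i : ℕ} (hi : i ∉ I)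
    {g : H} (hg : g ∈ GG ι z t s ρ I) : Dd (ι (s i)) g ∈ GG ι z t s ρ (insert i I) :=
  Subgroup.mul_mem _ (Subgroup.inv_mem _ (GG_mono (Finset.subset_insert _ _) hg)) (GG_conj hi hg)

/-- commutation of all elements of two of the subgroups -/
theorem GG_comm {ι : K →* H} {z : H} {t t' : K} {s : ℕ → K} {ρ : K} {n : ℕ}
    (h : ∀ m ∈ Box s ρ n, ∀ m' ∈ Box s ρ n, Commute (zk ι z (t * m)) (zk ι z (t' * m')))
    {g g' : H} (hg : g ∈ GG ι z t s ρ (Finset.range (n + 1))) (hg' : g' ∈ GG ι z t' s ρ (Finset.range (n + 1))) :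
    Commute g g' := by
  have h1 : ∀ x ∈ {x : H | ∃ e : ℕ, e ≤ 1 ∧ ∃ J : Finset ℕ, J ⊆ Finset.range (n + 1) ∧
      x = zk ι z (t * (ρ ^ e * ∏ i ∈ J, (s i)⁻¹))}, ∀ y ∈ {x : H | ∃ e : ℕ, e ≤ 1 ∧ ∃ J : Finset ℕ,
      J ⊆ Finset.range (n + 1) ∧ x = zk ι z (t' * (ρ ^ e * ∏ i ∈ J, (s i)⁻¹))}, Commute x y := by
    rintro x ⟨e, he, J, hJ, rfl⟩ y ⟨e', he', J', hJ', rfl⟩
    exact h _ ⟨e, he, J, hJ, rfl⟩ _ ⟨e', he', J', hJ', rfl⟩
  have h2 : ∀ y ∈ {x : H | ∃ e : ℕ, e ≤ 1 ∧ ∃ J : Finset ℕ,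
      J ⊆ Finset.range (n + 1) ∧ x = zk ι z (t' * (ρ ^ e * ∏ i ∈ J, (s i)⁻¹))}, Commute g y := by
    intro y hy
    refine Subgroup.closure_induction (p := fun g _ => Commute g y) (fun x hx => h1 x hx y hy)
      (Commute.one_left y) (fun a b _ _ ha hb => ha.mul_left hb) (fun a _ ha => ha.inv_left) hg
  exact Subgroup.closure_induction (p := fun g' _ => Commute g g') (fun x hx => h2 x hx)
      (Commute.one_right g) (fun a b _ _ ha hb => ha.mul_right hb) (fun a _ ha => ha.inv_right) hg'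

/-- `D_a D_b g = D_b D_a g` -/
theorem D_comm {a b g : H} (hab : Commute a b) (h1 : Commute g (a⁻¹ * g * a)) (h2 : Commute g (b⁻¹ * g * b))
    (h3 : Commute (a⁻¹ * g * a) (b⁻¹ * g * b)) : Dd a (Dd b g) = Dd b (Dd a g) := by
  have e1 : a⁻¹ * (b⁻¹ * g * b) * a = b⁻¹ * (a⁻¹ * g * a) * b := by
    have h4 : b * a = a * b := hab.symm.eq
    have h5 : a⁻¹ * b⁻¹ = b⁻¹ * a⁻¹ := by rw [← mul_inv_rev, ← mul_inv_rev, h4]
    calc a⁻¹ * (b⁻¹ * g * b) * a = (a⁻¹ * b⁻¹) * g * (b * a) := by simp only [mul_assoc]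
      _ = (b⁻¹ * a⁻¹) * g * (a * b) := by rw [h4, h5]
      _ = _ := by simp only [mul_assoc]
  have key : ∀ c d : H, Dd c (Dd d g) = (d⁻¹ * g * d)⁻¹ * g * ((c⁻¹ * g * c)⁻¹ * (c⁻¹ * (d⁻¹ * g * d) * c)) := by
    intro c d
    simp only [Dd, mul_inv_rev, inv_inv, mul_assoc]
    simp
  rw [key, key, e1]
  have e2 : (b⁻¹ * g * b)⁻¹ * g * (a⁻¹ * g * a)⁻¹ = (a⁻¹ * g * a)⁻¹ * g * (b⁻¹ * g * b)⁻¹ := by
    have h4 : Commute (b⁻¹ * g * b)⁻¹ g := h2.symm.inv_left
    have h5 : Commute g (a⁻¹ * g * a)⁻¹ := h1.inv_right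
    have h6 : Commute (b⁻¹ * g * b)⁻¹ (a⁻¹ * g * a)⁻¹ := h3.symm.inv_inv
    generalize (b⁻¹ * g * b)⁻¹ = y at h4 h6 ⊢
    generalize (a⁻¹ * g * a)⁻¹ = x at h5 h6 ⊢
    calc y * g * x = y * (g * x) := by rw [mul_assoc]
      _ = y * (x * g) := by rw [h5.eq]
      _ = (y * x) * g := by rw [mul_assoc]
      _ = (x * y) * g := by rw [h6.eq]
      _ = x * (y * g) := by rw [mul_assoc]
      _ = x * (g * y) := by rw [h4.eq]
      _ = _ := by rw [mul_assoc]
  rw [← mul_assoc ((b⁻¹ * g * b)⁻¹ * g), ← mul_assoc ((a⁻¹ * g * a)⁻¹ * g), e2]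

/-- `D_(s 0) (D_(s 1) ( ... D_(s (m-1)) g))` -/
def EE (ι : K →* H) (s : ℕ → K) : ℕ → H → H
  | 0, g => g
  | (m + 1), g => EE ι s m (Dd (ι (s m)) g)

/-- `θ_0 = k_0`, `θ_(m+1) = D_(s (m+1)) θ_m` -/
def TH (ι : K →* H) (s : ℕ → K) (k0 : H) : ℕ → H
  | 0 => k0
  | (m + 1) => Dd (ι (s (m + 1))) (TH ι s k0 m)

end CORE

open CORE

theorem core_alg {H : Type u} {K : Type v} [Group H] [CommGroup K] (ι : K →* H) (z : H) (n : ℕ) (t s : ℕ → K) (ρ : K)
    (h1 : ∀ j ≤ n, ∀ m ∈ Box s ρ n, ∀ m' ∈ Box s ρ n, Commute (zk ι z (t j * m)) (zk ι z (t j * m')))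
    (h2 : ∀ j < n, ∀ m ∈ Box s ρ n, ∀ m' ∈ Box s ρ n, Commute (zk ι z (t j * m)) (zk ι z (t (j + 1) * m')))
    (h3 : ∀ j < n, Commute ((zk ι z (t j * ρ))⁻¹ * ι (s j) * zk ι z (t j))
      ((zk ι z (t (j + 1) * ρ))⁻¹ * ι (s (j + 1)) * zk ι z (t (j + 1))))
    (h4 : (zk ι z (t 0 * ρ))⁻¹ * ι (s 0) * zk ι z (t 0) ≠ ι (s 0))
    (h5 : ∀ y ∈ Subgroup.closure {x : H | ∃ m ∈ Box s ρ n, x = zk ι z (t 0 * m)}, ∀ i ≤ n, Commute y (ι (s i)) → y = 1) :
    ∃ θ : H, θ ≠ 1 ∧ ∀ j ≤ n, Commute θ (zk ι z (t j)) := by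
  -- the elements `k_j`
  set kk : ℕ → H := fun j => (zk ι z (t j * (ρ * (s j)⁻¹)))⁻¹ * zk ι z (t j) with hkk
  have hg : ∀ j, (zk ι z (t j * ρ))⁻¹ * ι (s j) * zk ι z (t j) = ι (s j) * kk j := by
    intro j
    have e1 : zk ι z (t j * (ρ * (s j)⁻¹)) = (ι (s j))⁻¹ * zk ι z (t j * ρ) * ι (s j) := by
      rw [zk_conj]
      congr 1
      rw [mul_comm (s j)⁻¹, mul_assoc]
    simp only [hkk, e1, mul_inv_rev, inv_inv, mul_assoc]
    simp
  have hone : ∀ (j : ℕ) (I : Finset ℕ), zk ι z (t j) ∈ GG ι z (t j) s ρ I := fun j I =>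
    Subgroup.subset_closure ⟨0, by norm_num, ∅, by simp, by simp⟩
  have hkmem : ∀ j, kk j ∈ GG ι z (t j) s ρ {j} := fun j =>
    Subgroup.mul_mem _ (Subgroup.inv_mem _ (Subgroup.subset_closure ⟨1, le_refl _, {j}, by simp, by simp⟩))
      (hone j _)
  have hcs : ∀ i j, Commute (ι (s i)) (ι (s j)) := fun i j => by
    show ι (s i) * ι (s j) = ι (s j) * ι (s i)
    rw [← map_mul, ← map_mul, mul_comm]
  -- step relation
  have hstep : ∀ j < n, Dd (ι (s (j + 1))) (kk j) = Dd (ι (s j)) (kk (j + 1)) := by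
    intro j hj
    have hc := h3 j hj
    rw [hg, hg] at hc
    have e0 : ι (s j) * kk j * (ι (s (j + 1)) * kk (j + 1)) = ι (s (j + 1)) * kk (j + 1) * (ι (s j) * kk j) := hc.eq
    have hj1 : ({j} : Finset ℕ) ⊆ Finset.range (n + 1) := by
      simp only [Finset.singleton_subset_iff, Finset.mem_range]; omega
    have hj2 : ({j + 1} : Finset ℕ) ⊆ Finset.range (n + 1) := by
      simp only [Finset.singleton_subset_iff, Finset.mem_range]; omega
    have m1 : (ι (s (j + 1)))⁻¹ * kk j * ι (s (j + 1)) ∈ GG ι z (t j) s ρ (Finset.range (n + 1)) := by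
      refine GG_mono ?_ (GG_conj (i := j + 1) (I := {j}) (by simp) (hkmem j))
      intro x hx
      simp only [Finset.mem_insert, Finset.mem_singleton] at hx
      rw [Finset.mem_range]
      omega
    have m2 : (ι (s j))⁻¹ * kk (j + 1) * ι (s j) ∈ GG ι z (t (j + 1)) s ρ (Finset.range (n + 1)) := by
      refine GG_mono ?_ (GG_conj (i := j) (I := {j + 1}) (by simp) (hkmem (j + 1)))
      intro x hx
      simp only [Finset.mem_insert, Finset.mem_singleton] at hx
      rw [Finset.mem_range]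
      omega
    have m3 := GG_mono (ι := ι) (z := z) (ρ := ρ) hj1 (hkmem j)
    have m4 := GG_mono (ι := ι) (z := z) (ρ := ρ) hj2 (hkmem (j + 1))
    have e1 : (ι (s (j + 1)))⁻¹ * kk j * ι (s (j + 1)) * kk (j + 1) = (ι (s j))⁻¹ * kk (j + 1) * ι (s j) * kk j := by
      have e2 : ι (s j) * kk j * (ι (s (j + 1)) * kk (j + 1)) =
          ι (s j) * ι (s (j + 1)) * ((ι (s (j + 1)))⁻¹ * kk j * ι (s (j + 1)) * kk (j + 1)) := by
        simp only [mul_assoc]
        simp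
      have e3 : ι (s (j + 1)) * kk (j + 1) * (ι (s j) * kk j) =
          ι (s j) * ι (s (j + 1)) * ((ι (s j))⁻¹ * kk (j + 1) * ι (s j) * kk j) := by
        rw [(hcs j (j + 1)).eq]
        simp only [mul_assoc]
        simp
      rw [e2, e3] at e0
      exact mul_left_cancel e0
    have c1 : Commute (kk j) ((ι (s (j + 1)))⁻¹ * kk j * ι (s (j + 1))) := GG_comm (h1 j hj.le) m3 m1
    have c2 : Commute (kk j) ((ι (s j))⁻¹ * kk (j + 1) * ι (s j)) := GG_comm (h2 j hj) m3 m2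
    have c3 : Commute (kk (j + 1)) ((ι (s j))⁻¹ * kk (j + 1) * ι (s j)) := GG_comm (h1 (j + 1) hj) m4 m2
    have c4 : Commute (kk j) (kk (j + 1)) := GG_comm (h2 j hj) m3 m4
    have e4 : (ι (s (j + 1)))⁻¹ * kk j * ι (s (j + 1)) =
        (ι (s j))⁻¹ * kk (j + 1) * ι (s j) * kk j * (kk (j + 1))⁻¹ := by
      rw [← e1, mul_inv_cancel_right]
    simp only [Dd]
    rw [e4]
    calc (kk j)⁻¹ * ((ι (s j))⁻¹ * kk (j + 1) * ι (s j) * kk j * (kk (j + 1))⁻¹)
        = (kk j)⁻¹ * (((ι (s j))⁻¹ * kk (j + 1) * ι (s j)) * kk j) * (kk (j + 1))⁻¹ := by simp only [mul_assoc]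
      _ = (kk j)⁻¹ * (kk j * ((ι (s j))⁻¹ * kk (j + 1) * ι (s j))) * (kk (j + 1))⁻¹ := by rw [c2.eq]
      _ = ((ι (s j))⁻¹ * kk (j + 1) * ι (s j)) * (kk (j + 1))⁻¹ := by rw [inv_mul_cancel_left]
      _ = (kk (j + 1))⁻¹ * ((ι (s j))⁻¹ * kk (j + 1) * ι (s j)) := (c3.symm.inv_right).eq
  -- commutation of `D` with `EE`
  have hDE : ∀ j ≤ n, ∀ m ≤ n + 1, ∀ (i : ℕ) (I : Finset ℕ) (g : H), i ≤ n → m ≤ i → i ∉ I → (∀ x ∈ I, m ≤ x ∧ x ≤ n) →
      g ∈ GG ι z (t j) s ρ I → Dd (ι (s i)) (EE ι s m g) = EE ι s m (Dd (ι (s i)) g) := by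
    intro j hj m
    induction m with
    | zero => intros; rfl
    | succ m ih =>
      intro hm i I g hi hmi hiI hI hgI
      have hmI : m ∉ I := fun h => by have := hI m h; omega
      simp only [EE]
      rw [ih (by omega) i (insert m I) (Dd (ι (s m)) g) hi (by omega) ?_ ?_ (GG_D hmI hgI)]
      · congr 1
        have hr : ∀ J : Finset ℕ, (∀ x ∈ J, x ≤ n) → GG ι z (t j) s ρ J ≤ GG ι z (t j) s ρ (Finset.range (n + 1)) := by
          intro J hJ
          apply GG_mono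
          intro x hx
          rw [Finset.mem_range]
          have := hJ x hx
          omega
        have hIr : ∀ x ∈ I, x ≤ n := fun x hx => (hI x hx).2
        have m0 := hr I hIr hgI
        have m1 := hr _ (by intro x hx; rw [Finset.mem_insert] at hx; rcases hx with rfl | hx; exacts [hi, hIr x hx])
          (GG_conj hiI hgI)
        have m2 := hr _ (by intro x hx; rw [Finset.mem_insert] at hx; rcases hx with rfl | hx; exacts [by omega, hIr x hx])
          (GG_conj hmI hgI)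
        exact D_comm (hcs i m) (GG_comm (h1 j hj) m0 m1) (GG_comm (h1 j hj) m0 m2) (GG_comm (h1 j hj) m1 m2)
      · rw [Finset.mem_insert]
        rintro (h | h)
        · omega
        · exact hiI h
      · intro x hx
        rw [Finset.mem_insert] at hx
        rcases hx with rfl | hx
        · omega
        · have := hI x hx
          omega
  -- the claim
  have hcl : ∀ m ≤ n, TH ι s (kk 0) m = EE ι s m (kk m) := by
    intro m
    induction m with
    | zero => intro _; rfl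
    | succ m ih =>
      intro hm
      simp only [TH, EE]
      rw [ih (by omega), hDE m (by omega) m (by omega) (m + 1) {m} (kk m) hm (by omega) (by simp)
        (by intro x hx; rw [Finset.mem_singleton] at hx; omega) (hkmem m), hstep m (by omega)]
  -- membership
  have hEmem : ∀ (j m : ℕ), ∀ (I : Finset ℕ) (g : H), (∀ x ∈ I, m ≤ x) → g ∈ GG ι z (t j) s ρ I →
      EE ι s m g ∈ GG ι z (t j) s ρ (Finset.range m ∪ I) := by
    intro j m
    induction m with
    | zero => intro I g _ hgI; simpa [EE] using hgI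
    | succ m ih =>
      intro I g hI hgI
      have hmI : m ∉ I := fun h => by have := hI m h; omega
      have h6 := ih (insert m I) (Dd (ι (s m)) g) (by
        intro x hx
        rw [Finset.mem_insert] at hx
        rcases hx with rfl | hx
        · exact le_refl _
        · have := hI x hx
          omega) (GG_D hmI hgI)
      have h7 : Finset.range m ∪ insert m I = Finset.range (m + 1) ∪ I := by
        ext x
        simp only [Finset.mem_union, Finset.mem_range, Finset.mem_insert]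
        by_cases hx : x ∈ I
        · simp only [hx, or_true]
        · simp only [hx, or_false]
          omega
      rw [h7] at h6
      exact h6
  have hTmem : ∀ (j d : ℕ), j + d ≤ n → TH ι s (kk 0) (j + d) ∈ GG ι z (t j) s ρ (Finset.range (j + d + 1)) := by
    intro j d
    induction d with
    | zero =>
      intro hjd
      simp only [Nat.add_zero] at hjd ⊢
      rw [hcl j hjd]
      have h6 := hEmem j j {j} (kk j) (by intro x hx; rw [Finset.mem_singleton] at hx; omega) (hkmem j)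
      have h7 : Finset.range j ∪ {j} = Finset.range (j + 1) := by
        ext x
        simp only [Finset.mem_union, Finset.mem_range, Finset.mem_singleton]
        omega
      rw [h7] at h6
      exact h6
    | succ d ih =>
      intro hjd
      have h6 := GG_D (ι := ι) (z := z) (ρ := ρ) (s := s) (t := t j) (i := j + d + 1) (by simp) (ih (by omega))
      have h7 : insert (j + d + 1) (Finset.range (j + d + 1)) = Finset.range (j + (d + 1) + 1) := by
        ext x
        simp only [Finset.mem_insert, Finset.mem_range]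
        omega
      rw [h7] at h6
      exact h6
  have hTn : ∀ j ≤ n, TH ι s (kk 0) n ∈ GG ι z (t j) s ρ (Finset.range (n + 1)) := by
    intro j hj
    have h6 := hTmem j (n - j) (by omega)
    rw [show j + (n - j) = n by omega] at h6
    exact h6
  have hT1 : ∀ m ≤ n, TH ι s (kk 0) m ≠ 1 := by
    intro m
    induction m with
    | zero =>
      intro _ h6
      apply h4
      rw [hg]
      simp only [TH] at h6
      rw [h6, mul_one]
    | succ m ih =>
      intro hm h6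
      apply ih (by omega)
      have h7 : TH ι s (kk 0) m ∈ Subgroup.closure {x : H | ∃ m ∈ Box s ρ n, x = zk ι z (t 0 * m)} := by
        have h8 := hTmem 0 m (by omega)
        rw [Nat.zero_add] at h8
        refine (Subgroup.closure_mono ?_) h8
        rintro x ⟨e, he, J, hJ, rfl⟩
        exact ⟨_, ⟨e, he, J, hJ.trans (by intro y hy; rw [Finset.mem_range] at hy ⊢; omega), rfl⟩, rfl⟩
      refine h5 _ h7 (m + 1) hm ?_
      simp only [TH, Dd] at h6
      have h9 : (ι (s (m + 1)))⁻¹ * TH ι s (kk 0) m * ι (s (m + 1)) = TH ι s (kk 0) m := by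
        rw [inv_mul_eq_one] at h6
        exact h6.symm
      show TH ι s (kk 0) m * ι (s (m + 1)) = ι (s (m + 1)) * TH ι s (kk 0) m
      rw [mul_assoc, inv_mul_eq_iff_eq_mul] at h9
      exact h9
  exact ⟨TH ι s (kk 0) n, hT1 n le_rfl, fun j hj => GG_comm (h1 j hj) (hTn j hj) (hone j _)⟩

end Pool.Agent.Chern

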