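import Pool.Agent.Chern.Defs3

/-!
# Row DYN: recurrence for the colouring of a group by double cosets

The compact space of all functions from the group to a finite set of colours, its subspace of all
limits of the colourings `x ↦ [x⁻¹ h]`, and minimal closed invariant subsets.
-/

set_option autoImplicit false

namespace Pool.Agent.Chern

universe u v w

namespace DYN

/-- minimal nonempty closed subsets which are invariant under a family of maps -/
theorem exists_minimal {X : Type u} [TopologicalSpace X] [CompactSpace X] {ι : Type v}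
    (f : ι → X → X) (C : Set X) (hne : C.Nonempty) (hcl : IsClosed C)
    (hinv : ∀ i, ∀ x ∈ C, f i x ∈ C) :
    ∃ Z : Set X, Z ⊆ C ∧ Z.Nonempty ∧ IsClosed Z ∧ (∀ i, ∀ x ∈ Z, f i x ∈ Z) ∧
      ∀ V : Set X, V ⊆ Z → V.Nonempty → IsClosed V → (∀ i, ∀ x ∈ V, f i x ∈ V) → V = Z := by
  obtain ⟨Z, hZC, hZ⟩ := zorn_superset_nonempty
    {V : Set X | V.Nonempty ∧ IsClosed V ∧ ∀ i, ∀ x ∈ V, f i x ∈ V} (by
      intro c hc hch hcne
      refine ⟨⋂₀ c, ⟨?_, ?_, ?_⟩, fun s hs => Set.sInter_subset_of_mem hs⟩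
      · have : Nonempty c := hcne.to_subtype
        exact IsCompact.nonempty_sInter_of_directed_nonempty_isCompact_isClosed
          (by
            intro a ha b hb
            rcases hch.total ha hb with h | h
            · exact ⟨a, ha, subset_rfl, h⟩
            · exact ⟨b, hb, h, subset_rfl⟩) (fun U hU => (hc hU).1) (fun U hU => (hc hU).2.1.isCompact)
          (fun U hU => (hc hU).2.1)
      · exact isClosed_sInter fun U hU => (hc hU).2.1
      · intro i x hx U hU
        exact (hc hU).2.2 i x (hx U hU)) C ⟨hne, hcl, hinv⟩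
  refine ⟨Z, hZC, hZ.prop.1, hZ.prop.2.1, hZ.prop.2.2, ?_⟩
  intro V hVZ hV1 hV2 hV3
  exact Set.Subset.antisymm hVZ (hZ.2 ⟨hV1, hV2, hV3⟩ hVZ)

section act

variable {H : Type u} [Group H] {C : Type v}

/-- the translate of a function -/
def act (k : H) (T : H → C) : H → C := fun x => T (k⁻¹ * x)

theorem act_apply (k : H) (T : H → C) (x : H) : act k T x = T (k⁻¹ * x) := rfl

theorem act_act (k l : H) (T : H → C) : act k (act l T) = act (k * l) T := by
  funext x
  rw [act_apply, act_apply, act_apply, mul_inv_rev, mul_assoc]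

theorem act_one (T : H → C) : act 1 T = T := by
  funext x
  rw [act_apply, inv_one, one_mul]

variable [TopologicalSpace C]

theorem act_continuous (k : H) : Continuous (act (C := C) k) :=
  continuous_pi fun x => continuous_apply (k⁻¹ * x)

omit [Group H] in
/-- the set of all functions with the same values at two points is clopen -/
theorem isClopen_eq [DiscreteTopology C] (x y : H) : IsClopen {T : H → C | T x = T y} := by
  have h1 : IsClopen {p : C × C | p.1 = p.2} := isClopen_discrete _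
  have h2 : Continuous fun T : H → C => (T x, T y) :=
    (continuous_apply x).prodMk (continuous_apply y)
  exact h1.preimage h2

omit [Group H] in
theorem isClopen_const [DiscreteTopology C] (x : H) (i : C) : IsClopen {T : H → C | T x = i} := by
  have h1 : IsClopen {p : C | p = i} := isClopen_discrete _
  exact h1.preimage (continuous_apply x)

theorem isClopen_all [DiscreteTopology C] (F : Finset H) :
    IsClopen {T : H → C | ∀ f ∈ F, T f = T 1} := by
  have h : {T : H → C | ∀ f ∈ F, T f = T 1} = ⋂ f ∈ F, {T : H → C | T f = T 1} := by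
    ext T
    simp only [Set.mem_ofPred_eq, Set.mem_iInter]
  rw [h]
  exact isClopen_biInter_finset fun f _ => isClopen_eq f 1

end act

section main

variable {H : Type u} [Group H] {A B M : Subgroup H}

theorem exists_good_aux {C : Type v} [Finite C] [TopologicalSpace C] [DiscreteTopology C] (c : H → C)
    (hc : ∀ x y : H, c x = c y ↔ ∃ a ∈ A, ∃ b ∈ B, x = a * y * b)
    (cA : ∀ x ∈ A, ∀ y ∈ A, x * y = y * x)
    (hM : M.index = 0) : ∃ Good : Finset H → Prop,
      (∀ F F' : Finset H, F ⊆ F' → Good F' → Good F) ∧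
      (∀ F : Finset H, ∀ a ∈ A, Good F → ∀ F' : Finset H, (∀ x ∈ F', ∃ y ∈ F, x = a * y) → Good F') ∧
      (∀ F : Finset H, Good F → ∃ h : H, ∀ x ∈ F, ∃ b ∈ cj h B, ∃ a ∈ A, x = b * a) ∧
      (∀ F : Finset H, Good F → ∃ (n : ℕ) (χ : H → Fin n), ∀ a ∈ A, ∀ b ∈ A, χ a = χ b →
        ∀ F' : Finset H, (∀ x ∈ F', x ∈ F ∨ ∃ y ∈ F, x = a * b⁻¹ * y) → Good F') ∧
      (∃ g : H, g ∉ M ∧ Good {g}) := by
  classical
  -- the orbit closure
  let Th : H → H → C := fun h x => c (x⁻¹ * h)
  have hTh : ∀ k h : H, act k (Th h) = Th (k * h) := by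
    intro k h
    funext x
    change c ((k⁻¹ * x)⁻¹ * h) = c (x⁻¹ * (k * h))
    congr 1
    group
  set C0 : Set (H → C) := closure (Set.range Th) with hC0
  have hinv0 : ∀ k : H, ∀ T ∈ C0, act k T ∈ C0 := by
    intro k T hT
    have h1 : Set.MapsTo (act (C := C) k) (Set.range Th) (Set.range Th) := by
      rintro _ ⟨h, rfl⟩
      exact ⟨k * h, (hTh k h).symm⟩
    exact h1.closure (act_continuous k) hT
  have hright : ∀ T ∈ C0, ∀ a ∈ A, ∀ x : H, T (x * a) = T x := by
    intro T hT a ha x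
    have h1 : C0 ⊆ {T : H → C | T (x * a) = T x} := by
      refine closure_minimal ?_ (isClopen_eq (x * a) x).isClosed
      rintro _ ⟨h, rfl⟩
      change c ((x * a)⁻¹ * h) = c (x⁻¹ * h)
      rw [hc]
      exact ⟨a⁻¹, A.inv_mem ha, 1, B.one_mem, by group⟩
    exact h1 hT
  have hlocal : ∀ T ∈ C0, ∀ F : Finset H, ∃ h : H, ∀ x ∈ F, T x = Th h x := by
    intro T hT F
    have hopen : IsOpen (⋂ x ∈ F, {T' : H → C | T' x = T x}) :=
      isOpen_biInter_finset fun x _ => (isClopen_const x (T x)).isOpen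
    obtain ⟨T', h1, ⟨h, rfl⟩⟩ := mem_closure_iff.1 hT _ hopen (by
      simp only [Set.mem_iInter, Set.mem_ofPred_eq, implies_true])
    refine ⟨h, fun x hx => ?_⟩
    simp only [Set.mem_iInter, Set.mem_ofPred_eq] at h1
    exact (h1 x hx).symm
  -- minimal sets
  obtain ⟨X', hX1, hX2, hX3, hX4, hX5⟩ := exists_minimal (fun k : H => act (C := C) k) C0
    (Set.Nonempty.mono subset_closure ⟨Th 1, 1, rfl⟩) isClosed_closure hinv0
  obtain ⟨Z, hZ1, hZ2, hZ3, hZ4, hZ5⟩ := exists_minimal (fun a : A => act (C := C) (a : H)) X'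
    hX2 hX3 (fun a T hT => hX4 a T hT)
  have hZ4' : ∀ a ∈ A, ∀ T ∈ Z, act a T ∈ Z := fun a ha T hT => hZ4 ⟨a, ha⟩ T hT
  have hZC : Z ⊆ C0 := hZ1.trans hX1
  refine ⟨fun F => ∃ T ∈ Z, ∀ f ∈ F, T f = T 1, ?_, ?_, ?_, ?_, ?_⟩
  · rintro F F' hF ⟨T, hT, h⟩
    exact ⟨T, hT, fun f hf => h f (hF hf)⟩
  · rintro F a ha ⟨T, hT, h⟩ F' hF'
    refine ⟨act a T, hZ4' a ha T hT, fun f hf => ?_⟩
    obtain ⟨y, hy, rfl⟩ := hF' f hf
    rw [act_apply, act_apply, inv_mul_cancel_left, h y hy, mul_one]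
    have h1 := hright T (hZC hT) a⁻¹ (A.inv_mem ha) 1
    rw [one_mul] at h1
    exact h1.symm
  · rintro F ⟨T, hT, h⟩
    obtain ⟨k, hk⟩ := hlocal T (hZC hT) (insert 1 F)
    refine ⟨k, fun x hx => ?_⟩
    have h1 : c (x⁻¹ * k) = c ((1 : H)⁻¹ * k) := by
      have h2 := hk x (Finset.mem_insert_of_mem hx)
      have h3 := hk 1 (Finset.mem_insert_self 1 F)
      have h4 : Th k x = Th k 1 := by rw [← h2, ← h3, h x hx]
      exact h4
    obtain ⟨a, ha, b, hb, e⟩ := (hc _ _).1 h1
    refine ⟨k * b⁻¹ * k⁻¹, ?_, a⁻¹, A.inv_mem ha, ?_⟩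
    · exact Subgroup.mem_map.2 ⟨b⁻¹, B.inv_mem hb, by simp [MulAut.conj_apply]⟩
    · have h2 : x⁻¹ = a * k * b * k⁻¹ := by
        rw [eq_mul_inv_iff_mul_eq, e]
        group
      have h3 : x = (a * k * b * k⁻¹)⁻¹ := by rw [← h2, inv_inv]
      rw [h3]
      group
  · rintro F ⟨T0, hT0, h0⟩
    set U : Set (H → C) := {T | ∀ f ∈ F, T f = T 1} with hU
    have hUc : IsClopen U := isClopen_all F
    -- every orbit meets `U`
    have hmeet : ∀ T ∈ Z, ∃ a : A, act (a : H) T ∈ U := by
      by_contra hcon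
      push Not at hcon
      obtain ⟨T1, hT1, hT1'⟩ := hcon
      have hV := hZ5 {T | T ∈ Z ∧ ∀ a : A, act (a : H) T ∉ U} (fun T hT => hT.1) ⟨T1, hT1, hT1'⟩ (by
        have h1 : {T | T ∈ Z ∧ ∀ a : A, act (a : H) T ∉ U} =
            Z ∩ ⋂ a : A, (act (C := C) (a : H)) ⁻¹' Uᶜ := by
          ext T
          simp only [Set.mem_ofPred_eq, Set.mem_inter_iff, Set.mem_iInter, Set.mem_preimage,
            Set.mem_compl_iff]
        rw [h1]
        exact hZ3.inter (isClosed_iInter fun a =>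
          hUc.compl.isClosed.preimage (act_continuous (a : H)))) (by
        rintro a T ⟨hT, hT'⟩
        refine ⟨hZ4 a T hT, fun b => ?_⟩
        have h1 := hT' (b * a)
        rw [act_act]
        exact h1)
      have h2 : T0 ∈ {T | T ∈ Z ∧ ∀ a : A, act (a : H) T ∉ U} := by
        rw [hV]
        exact hT0
      have h3 := h2.2 1
      rw [OneMemClass.coe_one, act_one] at h3
      exact h3 h0
    obtain ⟨t, ht⟩ := hZ3.isCompact.elim_finite_subcover
      (fun a : A => (act (C := C) (a : H)) ⁻¹' U) (fun a => hUc.isOpen.preimage (act_continuous (a : H)))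
      (fun T hT => Set.mem_iUnion.2 (hmeet T hT))
    have ht' : ∀ T ∈ Z, ∃ a : t, act ((a : A) : H) T ∈ U := by
      intro T hT
      have h1 := ht hT
      simp only [Set.mem_iUnion, Set.mem_preimage] at h1
      obtain ⟨a, ha, h2⟩ := h1
      exact ⟨⟨a, ha⟩, h2⟩
    have hex : ∀ a : H, ∃ i : t, a ∈ A → act ((i : A) : H) (act a T0) ∈ U := by
      intro a
      by_cases ha : a ∈ A
      · obtain ⟨i, hi⟩ := ht' _ (hZ4' a ha T0 hT0)
        exact ⟨i, fun _ => hi⟩
      · obtain ⟨i, -⟩ := ht' T0 hT0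
        exact ⟨i, fun h => absurd h ha⟩
    choose χ hχ using hex
    refine ⟨t.card, fun a => t.equivFin (χ a), ?_⟩
    intro a ha b hb hab F' hF'
    have hi : χ a = χ b := t.equivFin.injective hab
    set i : H := (((χ a : t) : A) : H) with hidef
    have hiA : i ∈ A := ((χ a : t) : A).2
    have h1 : act i (act a T0) ∈ U := hχ a ha
    have h2 : act i (act b T0) ∈ U := by
      have h3 := hχ b hb
      rw [← hi] at h3
      exact h3
    have hTZ : act i (act a T0) ∈ Z := hZ4' i hiA _ (hZ4' a ha T0 hT0)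
    refine ⟨act i (act a T0), hTZ, fun f hf => ?_⟩
    rcases hF' f hf with hf | ⟨y, hy, rfl⟩
    · exact h1 f hf
    · have h4 : act (b * a⁻¹) (act i (act a T0)) = act i (act b T0) := by
        rw [act_act, act_act, act_act]
        have h5 : a⁻¹ * i = i * a⁻¹ := cA _ (A.inv_mem ha) _ hiA
        have h6 : b * i = i * b := cA _ hb _ hiA
        have h7 : b * a⁻¹ * i * a = i * b := by
          calc b * a⁻¹ * i * a = b * (a⁻¹ * i) * a := by group
            _ = b * i := by rw [h5]; group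
            _ = i * b := h6
        rw [h7]
      have h5 := h2 y hy
      rw [← h4, act_apply (b * a⁻¹), act_apply (b * a⁻¹)] at h5
      have e1 : (b * a⁻¹)⁻¹ = a * b⁻¹ := by group
      rw [e1, mul_one] at h5
      rw [h5]
      have h6 := hright _ (hZC hTZ) (a * b⁻¹) (A.mul_mem ha (A.inv_mem hb)) 1
      rw [one_mul] at h6
      exact h6
  · by_contra hcon
    push Not at hcon
    obtain ⟨T, hT⟩ := hZ2
    have hT' : ∀ S ∈ Z, ∀ g : H, S g = S 1 → g ∈ M := by
      intro S hS g hg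
      by_contra hgM
      obtain ⟨f, hf, h1⟩ := hcon g hgM S hS
      rw [Finset.mem_singleton] at hf
      rw [hf] at h1
      exact h1 hg
    have hcov : ∀ S ∈ X', ∃ x : H, S x = T 1 := by
      by_contra hcon2
      push Not at hcon2
      obtain ⟨S1, hS1, hS1'⟩ := hcon2
      have hV := hX5 {S | S ∈ X' ∧ ∀ x : H, S x ≠ T 1} (fun S hS => hS.1) ⟨S1, hS1, hS1'⟩ (by
        have h1 : {S | S ∈ X' ∧ ∀ x : H, S x ≠ T 1} = X' ∩ ⋂ x : H, {S : H → C | S x = T 1}ᶜ := by
          ext S
          simp only [Set.mem_ofPred_eq, Set.mem_inter_iff, Set.mem_iInter, Set.mem_compl_iff, ne_eq]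
        rw [h1]
        exact hX3.inter (isClosed_iInter fun x => (isClopen_const x (T 1)).compl.isClosed)) (by
        rintro k S ⟨hS, hS'⟩
        exact ⟨hX4 k S hS, fun x => hS' (k⁻¹ * x)⟩)
      have h2 : T ∈ {S | S ∈ X' ∧ ∀ x : H, S x ≠ T 1} := by
        rw [hV]
        exact hZ1 hT
      exact h2.2 1 rfl
    obtain ⟨t, ht⟩ := hX3.isCompact.elim_finite_subcover
      (fun x : H => {S : H → C | S x = T 1}) (fun x => (isClopen_const x (T 1)).isOpen)
      (fun S hS => Set.mem_iUnion.2 (hcov S hS))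
    have hfin : ∀ h : H, ∃ f ∈ t, h⁻¹ * f ∈ M := by
      intro h
      have h1 := ht (hX4 h T (hZ1 hT))
      simp only [Set.mem_iUnion, Set.mem_ofPred_eq] at h1
      obtain ⟨f, hf, h2⟩ := h1
      exact ⟨f, hf, hT' T hT _ h2⟩
    have hfin2 : Finite (H ⧸ M) := by
      apply Finite.of_surjective (fun f : t => ((f : H) : H ⧸ M))
      intro q
      obtain ⟨h, rfl⟩ := QuotientGroup.mk_surjective q
      obtain ⟨f, hf, hfM⟩ := hfin h
      refine ⟨⟨f, hf⟩, ?_⟩
      rw [QuotientGroup.eq]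
      have h1 := M.inv_mem hfM
      rw [mul_inv_rev, inv_inv] at h1
      exact h1
    exact Subgroup.index_ne_zero_of_finite hM

end main

end DYN

set_option linter.unusedVariables false in
/-- row DYN : topological dynamics -/
theorem exists_good {H : Type u} [Group H] {A B M : Subgroup H} (cA : ∀ x ∈ A, ∀ y ∈ A, x * y = y * x) (fdc : FDC A B)
    (hAM : A ≤ M) (hM : M.index = 0) : ∃ Good : Finset H → Prop,
      (∀ F F' : Finset H, F ⊆ F' → Good F' → Good F) ∧
      (∀ F : Finset H, ∀ a ∈ A, Good F → ∀ F' : Finset H, (∀ x ∈ F', ∃ y ∈ F, x = a * y) → Good F') ∧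
      (∀ F : Finset H, Good F → ∃ h : H, ∀ x ∈ F, ∃ b ∈ cj h B, ∃ a ∈ A, x = b * a) ∧
      (∀ F : Finset H, Good F → ∃ (n : ℕ) (χ : H → Fin n), ∀ a ∈ A, ∀ b ∈ A, χ a = χ b →
        ∀ F' : Finset H, (∀ x ∈ F', x ∈ F ∨ ∃ y ∈ F, x = a * b⁻¹ * y) → Good F') ∧
      (∃ g : H, g ∉ M ∧ Good {g}) := by
  classical
  let s : Setoid H :=
    { r := fun x y => ∃ a ∈ A, ∃ b ∈ B, x = a * y * b
      iseqv :=
        { refl := fun x => ⟨1, A.one_mem, 1, B.one_mem, by group⟩
          symm := by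
            rintro x y ⟨a, ha, b, hb, rfl⟩
            exact ⟨a⁻¹, A.inv_mem ha, b⁻¹, B.inv_mem hb, by group⟩
          trans := by
            rintro x y z ⟨a, ha, b, hb, rfl⟩ ⟨a', ha', b', hb', rfl⟩
            exact ⟨a * a', A.mul_mem ha ha', b' * b, B.mul_mem hb' hb, by group⟩ } }
  obtain ⟨S, hS⟩ := fdc
  have hfin : Finite (Quotient s) := by
    apply Finite.of_surjective (fun g : S => (Quotient.mk s (g : H)))
    intro q
    induction q using Quotient.inductionOn with
    | _ h =>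
      obtain ⟨g, hg, p, hp, q, hq, rfl⟩ := hS h
      refine ⟨⟨g, hg⟩, Quotient.sound ?_⟩
      exact ⟨p⁻¹, A.inv_mem hp, q⁻¹, B.inv_mem hq, by group⟩
  let top : TopologicalSpace (Quotient s) := ⊥
  have hdisc : DiscreteTopology (Quotient s) := ⟨rfl⟩
  exact DYN.exists_good_aux (fun x => Quotient.mk s x) (fun x y => Quotient.eq (r := s)) cA hM

end Pool.Agent.Chern
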