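import Pool.Agent.Chern.RECS
import Pool.Agent.Chern.DYNS
import Pool.Agent.Chern.CH1S
import Pool.Agent.Chern.CH2S
import Pool.Agent.Chern.CORES

/-!
# Row ASM: assembly of the algebraic part
-/

set_option autoImplicit false

namespace Pool.Agent.Chern

universe u v

namespace ASM

section basic
variable {H : Type u} {K : Type v} [Group H] [CommGroup K]

theorem zk_mul (ι : K →* H) (z : H) (w m : K) : zk ι z (w * m) = ι w * zk ι z m * (ι w)⁻¹ := by
  unfold zk
  rw [map_mul]
  group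

theorem box_one (s : ℕ → K) (ρ : K) (n : ℕ) : (1 : K) ∈ Box s ρ n :=
  ⟨0, Nat.zero_le 1, ∅, Finset.empty_subset _, by simp⟩

/-- the commutation of two generating sets gives the commutation of the closures -/
theorem commute_closure {S S' : Set H} (h : ∀ x ∈ S, ∀ y ∈ S', Commute x y) {x y : H} (hx : x ∈ Subgroup.closure S)
    (hy : y ∈ Subgroup.closure S') : Commute x y := by
  have h1 : S ≤ (Subgroup.centralizer S' : Set H) := by
    intro a ha
    rw [SetLike.mem_coe, Subgroup.mem_centralizer_iff]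
    intro b hb
    exact (h a ha b hb).symm.eq
  have h2 : Subgroup.closure S ≤ Subgroup.centralizer S' := (Subgroup.closure_le _).2 h1
  have h3 : S' ≤ (Subgroup.centralizer {x} : Set H) := by
    intro b hb
    rw [SetLike.mem_coe, Subgroup.mem_centralizer_singleton_iff]
    exact Subgroup.mem_centralizer_iff.1 (h2 hx) b hb
  have h4 : Subgroup.closure S' ≤ Subgroup.centralizer {x} := (Subgroup.closure_le _).2 h3
  exact (Subgroup.mem_centralizer_singleton_iff.1 (h4 hy)).symm

theorem mem_cj' {g y : H} {Q : Subgroup H} : y ∈ cj g Q ↔ g⁻¹ * y * g ∈ Q := by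
  unfold cj
  rw [Subgroup.mem_map]
  constructor
  · rintro ⟨x, hx, rfl⟩
    show g⁻¹ * (g * x * g⁻¹) * g ∈ Q
    have e : g⁻¹ * (g * x * g⁻¹) * g = x := by group
    rwa [e]
  · intro h
    refine ⟨g⁻¹ * y * g, h, ?_⟩
    show g * (g⁻¹ * y * g) * g⁻¹ = y
    group

end basic

end ASM

open ASM in
theorem alg_false {H : Type u} [Group H] {A B T : Subgroup H} (h : Alg H A B T) : False := by
  classical
  obtain ⟨K, _, ι, z, Gd, hι, hr, hz, hR⟩ :=
    rec_of_good h (exists_good h.cA h.fdc Subgroup.le_normalizer h.nA)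
  obtain ⟨Y0, hY0, hT⟩ := h.gT z hz
  -- the set `Y` in `K`
  have hY1 : ∀ y ∈ Y0, ∃ k : K, ι k = y := by
    intro y hy
    have h1 := hY0 y hy
    rw [← hr] at h1
    exact h1
  let Y : Finset K := Y0.preimage ι hι.injOn
  have hTY : T ≤ Subgroup.closure {x : H | ∃ y ∈ Y, x = zk ι z y} := by
    refine hT.trans (Subgroup.closure_mono ?_)
    rintro x ⟨y, hy, rfl⟩
    obtain ⟨k, rfl⟩ := hY1 y hy
    exact ⟨k, Finset.mem_preimage.2 hy, rfl⟩
  obtain ⟨v, n, t, hv1, hv2, hW, hYt⟩ := exists_chain h hι hr hR Y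
  obtain ⟨τ, s, ρ, hs, hB, hc⟩ := exists_ab h hι hr hz hR hv1 n t hW
  -- the elements of `A`
  have hA : ∀ k : K, ι k ∈ A := fun k => by rw [← hr]; exact ⟨k, rfl⟩
  have hι1 : ∀ k : K, k ≠ 1 → ι k ≠ 1 := by
    intro k hk h0
    apply hk
    exact hι (by rw [h0, map_one])
  have hnorm : ∀ k : K, zk ι z k ∈ Subgroup.normalizer (A : Set H) → False := by
    intro k hk
    apply hz
    have h1 : z = (ι k)⁻¹ * zk ι z k * ι k := by
      unfold zk
      group
    rw [h1]
    have h2 : ι k ∈ Subgroup.normalizer (A : Set H) := Subgroup.le_normalizer (hA k)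
    exact Subgroup.mul_mem _ (Subgroup.mul_mem _ (Subgroup.inv_mem _ h2) hk) h2
  -- commuting with all `z[y]`, `y ∈ Y`, up to a translation
  have hfin : ∀ (x : H) (k : K), (∀ y ∈ Y, Commute x (zk ι z (y * k))) → x = 1 := by
    intro x k hx
    have h1 : (ι k)⁻¹ * x * ι k = 1 := by
      apply h.cT
      intro t0 ht0
      have h2 : Subgroup.closure {x : H | ∃ y ∈ Y, x = zk ι z y} ≤ Subgroup.centralizer {(ι k)⁻¹ * x * ι k} := by
        rw [Subgroup.closure_le]
        rintro - ⟨y, hy, rfl⟩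
        rw [SetLike.mem_coe, Subgroup.mem_centralizer_singleton_iff]
        have h3 := hx y hy
        rw [mul_comm y k, zk_mul] at h3
        have h4 := h3.eq
        calc zk ι z y * ((ι k)⁻¹ * x * ι k) = (ι k)⁻¹ * ((ι k * zk ι z y * (ι k)⁻¹) * x) * ι k := by group
          _ = (ι k)⁻¹ * (x * (ι k * zk ι z y * (ι k)⁻¹)) * ι k := by rw [h4]
          _ = (ι k)⁻¹ * x * ι k * zk ι z y := by group
      exact (Subgroup.mem_centralizer_singleton_iff.1 (h2 (hTY ht0))).symm
    have h2 : x = ι k * ((ι k)⁻¹ * x * ι k) * (ι k)⁻¹ := by group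
    rw [h2, h1]
    group
  have hc1 : ∀ j ≤ n, ∀ m ∈ Box s ρ n, ∀ m' ∈ Box s ρ n, Commute (zk ι z (t j * τ * m)) (zk ι z (t j * τ * m')) :=
    fun j hj m hm m' hm' => hc j hj _ _ (Or.inl rfl) (Or.inl rfl) m hm m' hm'
  have hc2 : ∀ j ≤ n, ∀ m ∈ Box s ρ n, ∀ m' ∈ Box s ρ n, Commute (zk ι z (t j * τ * m)) (zk ι z (t (j + 1) * τ * m')) :=
    fun j hj m hm m' hm' => hc j hj _ _ (Or.inl rfl) (Or.inr (Or.inr (Or.inl rfl))) m hm m' hm'
  -- the word group at `0` meets the normaliser trivially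
  have hmeet : ∀ y ∈ Subgroup.closure {x : H | ∃ m ∈ Box s ρ n, x = zk ι z (t 0 * τ * m)},
      y ∈ Subgroup.normalizer (A : Set H) → y = 1 := by
    intro y hy hyN
    have h0 : Commute y (zk ι z (t 0 * τ)) := by
      refine commute_closure (S' := {zk ι z (t 0 * τ)}) ?_ hy (Subgroup.subset_closure rfl)
      rintro - ⟨m, hm, rfl⟩ x hx
      rw [Set.mem_singleton_iff.1 hx]
      have := hc1 0 (Nat.zero_le n) m hm 1 (box_one s ρ n)
      rwa [mul_one] at this
    have h1 : Commute (ι v * y * (ι v)⁻¹) (zk ι z (t 0 * τ)) := by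
      refine commute_closure (S := {x : H | ∃ m ∈ Box s ρ n, x = zk ι z (t 0 * v * τ * m)})
        (S' := {zk ι z (t 0 * τ)}) ?_ ?_ (Subgroup.subset_closure rfl)
      · rintro - ⟨m, hm, rfl⟩ x hx
        rw [Set.mem_singleton_iff.1 hx]
        have := hc 0 (Nat.zero_le n) (t 0 * v) (t 0) (Or.inr (Or.inl rfl)) (Or.inl rfl) m hm 1 (box_one s ρ n)
        rwa [mul_one] at this
      · have h2 : Subgroup.closure {x : H | ∃ m ∈ Box s ρ n, x = zk ι z (t 0 * τ * m)} ≤
            (Subgroup.closure {x : H | ∃ m ∈ Box s ρ n, x = zk ι z (t 0 * v * τ * m)}).comap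
              (MulAut.conj (ι v)).toMonoidHom := by
          rw [Subgroup.closure_le]
          rintro - ⟨m, hm, rfl⟩
          rw [SetLike.mem_coe, Subgroup.mem_comap]
          apply Subgroup.subset_closure
          refine ⟨m, hm, ?_⟩
          show ι v * zk ι z (t 0 * τ * m) * (ι v)⁻¹ = _
          rw [← zk_mul]
          congr 1
          rw [mul_comm (t 0) v, mul_assoc, mul_assoc, mul_assoc]
        exact h2 hy
    have hx : ι v * y * (ι v)⁻¹ * y⁻¹ = 1 := by
      by_contra hx1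
      have hxA : ι v * y * (ι v)⁻¹ * y⁻¹ ∈ A := by
        have e : ι v * y * (ι v)⁻¹ * y⁻¹ = ι v * (y * (ι v)⁻¹ * y⁻¹) := by group
        rw [e]
        exact A.mul_mem (hA v) ((Subgroup.mem_normalizer_iff.1 hyN _).1 (A.inv_mem (hA v)))
      apply hnorm (t 0 * τ)
      apply h.cenA _ hxA hx1
      rw [Subgroup.mem_centralizer_singleton_iff]
      exact ((h1.mul_left h0.inv_left).symm).eq
    have hyv : Commute y (ι v) := by
      have e : ι v * y = y * ι v := by
        rw [mul_inv_eq_one, mul_inv_eq_iff_eq_mul] at hx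
        exact hx
      exact e.symm
    have hyA := hv2 y hyN hyv
    apply hfin y 1
    intro k _
    rw [mul_one]
    have e : zk ι z k = ι (k * (t 0 * τ)⁻¹) * zk ι z (t 0 * τ) * (ι (k * (t 0 * τ)⁻¹))⁻¹ := by
      rw [← zk_mul, inv_mul_cancel_right]
    rw [e]
    exact ((hyA _).mul_right h0).mul_right (hyA _).inv_right
  obtain ⟨θ, hθ1, hθ2⟩ := core_alg ι z n (fun j => t j * τ) s ρ hc1 (fun j hj => hc2 j hj.le)
    (fun j hj => h.cB _ (hB j hj.le) _ (hB (j + 1) hj)) (by
      intro h0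
      have h1 := hB 0 (Nat.zero_le n)
      rw [h0] at h1
      apply hι1 _ (hs 0 (Nat.zero_le n))
      apply h.ne 1 _ (hA _)
      rw [ASM.mem_cj']
      simpa using h1) (by
      intro y hy i hi hyi
      apply hmeet y hy
      apply h.cenA _ (hA (s i)) (hι1 _ (hs i hi))
      rw [Subgroup.mem_centralizer_singleton_iff]
      exact hyi.eq)
  apply hθ1
  apply hfin θ τ
  intro y hy
  obtain ⟨j, hj, rfl⟩ := hYt y hy
  exact hθ2 j hj

end Pool.Agent.Chern
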