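import Pool.Agent.Chern.MeanBasic

/-!
# Extensions of amenable groups by amenable groups, locally finite groups
-/

set_option autoImplicit false

namespace Pool.Agent.Chern

open Filter Topology

universe u

theorem IsMean.exists_bound {G : Type u} [Group G] {m : (G → ℝ) → ℝ} (hm : IsMean G m) {Y : Type*} (f : Y → G → ℝ)
    (hf : ∃ C : ℝ, ∀ y x, |f y x| ≤ C) : Bd fun y => m (f y) := by
  obtain ⟨C, hC⟩ := hf
  exact ⟨C, fun y => hm.abs_le ⟨C, hC y⟩ (hC y)⟩

/-- an extension of an amenable group by an amenable group is amenable -/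
theorem amen_ext {G : Type u} [Group G] (T : Subgroup G) [T.Normal] (hT : Amen T) (hQ : Amen (G ⧸ T)) : Amen G := by
  obtain ⟨a, ha⟩ := hT
  obtain ⟨b, hb⟩ := hQ
  have hbt : ∀ (f : G → ℝ), Bd f → ∀ h : G, Bd fun t : T => f (h * t) := fun f hf h => hf.comp fun t : T => h * t
  have hB : ∀ (f : G → ℝ), Bd f → Bd fun q : G ⧸ T => a fun t : T => f (q.out * t) := by
    intro f hf
    obtain ⟨C, hC⟩ := hf
    exact ha.exists_bound _ ⟨C, fun q t => hC _⟩
  refine ⟨fun f => b fun q => a fun t : T => f (q.out * t), ?_, ?_, ?_, ?_, ?_⟩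
  · intro f g hf hg
    rw [← hb.add _ _ (hB f hf) (hB g hg)]
    congr 1
    ext q
    exact ha.add _ _ (hbt f hf _) (hbt g hg _)
  · intro c f hf
    rw [← hb.smul _ _ (hB f hf)]
    congr 1
    ext q
    exact ha.smul _ _ (hbt f hf _)
  · intro f hf h0
    exact hb.nonneg _ (hB f hf) fun q => ha.nonneg _ (hbt f hf _) fun t => h0 _
  · have : (fun q : G ⧸ T => a fun _ : T => (1 : ℝ)) = fun _ => 1 := by
      ext q; exact ha.one
    rw [this]
    exact hb.one
  · intro g f hf
    rw [← hb.left (g : G ⧸ T) _ (hB f hf)]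
    congr 1
    ext q
    set w : G := ((g : G ⧸ T) * q).out with hw
    have hmem : w⁻¹ * (g * q.out) ∈ T := by
      rw [← QuotientGroup.eq]
      rw [hw, QuotientGroup.out_eq', QuotientGroup.mk_mul, QuotientGroup.out_eq']
    have h1 := ha.left ⟨_, hmem⟩ (fun t : T => f (w * t)) (hbt f hf w)
    rw [← h1]
    congr 1
    ext t
    simp only [Subgroup.coe_mul]
    group

/-- a locally finite group is amenable -/
theorem amen_of_lf {G : Type u} [Group G] (hG : LF G) : Amen G := by
  classical
  let U : Ultrafilter (Finset G) := Ultrafilter.of atTop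
  have hU : (U : Filter (Finset G)) ≤ atTop := Ultrafilter.of_le _
  let K : Finset G → Finset G := fun S => (hG S).toFinset
  have hK : ∀ S x, x ∈ K S ↔ x ∈ Subgroup.closure (S : Set G) := fun S x => by simp [K]
  have hpos : ∀ S, (0 : ℝ) < (K S).card := fun S => by
    have : 0 < (K S).card := Finset.card_pos.2 ⟨1, (hK S 1).2 (one_mem _)⟩
    exact_mod_cast this
  let av : (G → ℝ) → Finset G → ℝ := fun f S => (∑ x ∈ K S, f x) / (K S).card
  have hlim : ∀ f, Bd f → ∃ y : ℝ, Tendsto (av f) U (𝓝 y) := by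
    rintro f ⟨C, hC⟩
    have hb : ∀ S, av f S ∈ Set.Icc (-C) C := by
      intro S
      rw [Set.mem_Icc, ← abs_le]
      have h1 : |∑ x ∈ K S, f x| ≤ (K S).card * C := by
        refine (Finset.abs_sum_le_sum_abs _ _).trans ?_
        refine (Finset.sum_le_card_nsmul _ _ C fun x _ => hC x).trans ?_
        rw [nsmul_eq_mul]
      rw [abs_div, abs_of_pos (hpos S), div_le_iff₀ (hpos S), mul_comm]
      exact h1
    obtain ⟨y, -, hy⟩ := isCompact_Icc.ultrafilter_le_nhds (U.map (av f))
      (by
        rw [le_principal_iff]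
        change av f ⁻¹' Set.Icc (-C) C ∈ (U : Filter (Finset G))
        exact Filter.mem_of_superset univ_mem fun S _ => hb S)
    exact ⟨y, hy⟩
  let m : (G → ℝ) → ℝ := fun f => limUnder (U : Filter (Finset G)) (av f)
  have hm : ∀ f, Bd f → Tendsto (av f) U (𝓝 (m f)) := by
    intro f hf
    obtain ⟨y, hy⟩ := hlim f hf
    have : m f = y := hy.limUnder_eq
    rw [this]
    exact hy
  have huniq : ∀ f y, Bd f → Tendsto (av f) U (𝓝 y) → m f = y := fun f y _ hy => hy.limUnder_eq
  refine ⟨m, ?_, ?_, ?_, ?_, ?_⟩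
  · intro f g hf hg
    refine huniq _ _ (hf.add hg) ?_
    have h1 := (hm f hf).add (hm g hg)
    refine h1.congr fun S => ?_
    simp only [av]
    rw [Finset.sum_add_distrib, add_div]
  · intro c f hf
    refine huniq _ _ (hf.smul c) ?_
    have h1 := (hm f hf).const_mul c
    refine h1.congr fun S => ?_
    simp only [av]
    rw [← Finset.mul_sum, mul_div_assoc]
  · intro f hf h0
    refine ge_of_tendsto' (hm f hf) fun S => ?_
    exact div_nonneg (Finset.sum_nonneg fun x _ => h0 x) (hpos S).le
  · refine huniq _ _ (bd_const 1) ?_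
    refine tendsto_const_nhds.congr fun S => ?_
    simp only [av]
    rw [Finset.sum_const, nsmul_eq_mul, mul_one, div_self (hpos S).ne']
  · intro g f hf
    refine huniq _ _ (hf.comp fun x => g * x) ?_
    refine (hm f hf).congr' ?_
    have hev : ∀ᶠ S in (atTop : Filter (Finset G)), {g} ≤ S := eventually_ge_atTop {g}
    filter_upwards [hU hev] with S hS
    have hg : g ∈ Subgroup.closure (S : Set G) := Subgroup.subset_closure (by
      have : g ∈ S := hS (Finset.mem_singleton_self g)
      exact_mod_cast this)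
    simp only [av]
    congr 1
    symm
    refine Finset.sum_bij (fun x _ => g * x) ?_ ?_ ?_ ?_
    · intro x hx
      exact (hK S _).2 (mul_mem hg ((hK S x).1 hx))
    · intro x _ y _ h
      exact mul_left_cancel h
    · intro y hy
      exact ⟨g⁻¹ * y, (hK S _).2 (mul_mem (inv_mem hg) ((hK S y).1 hy)), by group⟩
    · intro x _
      rfl

end Pool.Agent.Chern
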