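import Pool.Agent.Chern.Defs

/-!
# Ito's commutator argument
-/

set_option autoImplicit false

namespace Pool.Agent.Chern

universe u

theorem ito {G : Type u} [Group G] {A B : Subgroup G} (hA : ∀ x ∈ A, ∀ y ∈ A, x * y = y * x)
    (hB : ∀ x ∈ B, ∀ y ∈ B, x * y = y * x) {a a' b b' : G} (ha : a ∈ A) (ha' : a' ∈ A) (hb : b ∈ B) (hb' : b' ∈ B)
    (h1 : ∃ x ∈ A, ∃ y ∈ B, b * a'⁻¹ = x * y) (h2 : ∃ x ∈ A, ∃ y ∈ B, b' * a⁻¹ = x * y) :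
    Commute (a⁻¹ * b⁻¹ * a * b) (a'⁻¹ * b'⁻¹ * a' * b') := by
  obtain ⟨a3, ha3, b3, hb3, e1⟩ := h1
  obtain ⟨x4, hx4, y4, hy4, e2⟩ := h2
  -- conjugation by `a'⁻¹` : for all `c ∈ A`
  have k1 : ∀ c ∈ A, a' * (c⁻¹ * b⁻¹ * c * b) * a'⁻¹ = c⁻¹ * b3⁻¹ * c * b3 := by
    intro c hc
    have h3 : c⁻¹ * a' = a' * c⁻¹ := hA _ (A.inv_mem hc) _ ha'
    have h5 : c * a3 = a3 * c := hA _ hc _ ha3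
    have e3 : b = a3 * b3 * a' := by rw [← e1]; group
    calc a' * (c⁻¹ * b⁻¹ * c * b) * a'⁻¹ = (a' * c⁻¹) * b⁻¹ * c * (b * a'⁻¹) := by group
      _ = (c⁻¹ * a') * (a3 * b3 * a')⁻¹ * c * (a3 * b3) := by rw [h3, ← e3, e1]
      _ = c⁻¹ * b3⁻¹ * a3⁻¹ * (c * a3) * b3 := by group
      _ = c⁻¹ * b3⁻¹ * a3⁻¹ * (a3 * c) * b3 := by rw [h5]
      _ = c⁻¹ * b3⁻¹ * c * b3 := by group
  -- conjugation by `b'⁻¹` : for all `d ∈ B`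
  have k2 : ∀ d ∈ B, b' * (a⁻¹ * d⁻¹ * a * d) * b'⁻¹ = x4 * d⁻¹ * x4⁻¹ * d := by
    intro d hd
    have h3 : d * b'⁻¹ = b'⁻¹ * d := hB _ hd _ (B.inv_mem hb')
    have h5 : d⁻¹ * y4⁻¹ = y4⁻¹ * d⁻¹ := hB _ (B.inv_mem hd) _ (B.inv_mem hy4)
    have e3 : a = y4⁻¹ * x4⁻¹ * b' := by
      have : a⁻¹ = b'⁻¹ * (x4 * y4) := by rw [← e2]; group
      calc a = (a⁻¹)⁻¹ := by group
        _ = y4⁻¹ * x4⁻¹ * b' := by rw [this]; group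
    calc b' * (a⁻¹ * d⁻¹ * a * d) * b'⁻¹ = (b' * a⁻¹) * d⁻¹ * a * (d * b'⁻¹) := by group
      _ = (x4 * y4) * d⁻¹ * (y4⁻¹ * x4⁻¹ * b') * (b'⁻¹ * d) := by rw [h3, e2, ← e3]
      _ = x4 * y4 * (d⁻¹ * y4⁻¹) * x4⁻¹ * d := by group
      _ = x4 * y4 * (y4⁻¹ * d⁻¹) * x4⁻¹ * d := by rw [h5]
      _ = x4 * d⁻¹ * x4⁻¹ * d := by group
  have k1' : a' * (x4 * b⁻¹ * x4⁻¹ * b) * a'⁻¹ = x4 * b3⁻¹ * x4⁻¹ * b3 := by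
    have := k1 x4⁻¹ (A.inv_mem hx4)
    simpa using this
  have e5 : b' * (a' * (a⁻¹ * b⁻¹ * a * b) * a'⁻¹) * b'⁻¹ = x4 * b3⁻¹ * x4⁻¹ * b3 := by
    rw [k1 a ha, k2 b3 hb3]
  have e6 : a' * (b' * (a⁻¹ * b⁻¹ * a * b) * b'⁻¹) * a'⁻¹ = x4 * b3⁻¹ * x4⁻¹ * b3 := by
    rw [k2 b hb, k1']
  have e7 : b' * (a' * (a⁻¹ * b⁻¹ * a * b) * a'⁻¹) * b'⁻¹ = a' * (b' * (a⁻¹ * b⁻¹ * a * b) * b'⁻¹) * a'⁻¹ := by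
    rw [e5, e6]
  set X := a⁻¹ * b⁻¹ * a * b with hX
  have e8 : X * (a'⁻¹ * b'⁻¹ * a' * b') = (a'⁻¹ * b'⁻¹ * a' * b') * X := by
    calc X * (a'⁻¹ * b'⁻¹ * a' * b') = a'⁻¹ * b'⁻¹ * (b' * (a' * X * a'⁻¹) * b'⁻¹) * a' * b' := by group
      _ = a'⁻¹ * b'⁻¹ * (a' * (b' * X * b'⁻¹) * a'⁻¹) * a' * b' := by rw [e7]
      _ = (a'⁻¹ * b'⁻¹ * a' * b') * X := by group
  exact e8

end Pool.Agent.Chern
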