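import Pool.Agent.Chern.MeanBasic
import Pool.Agent.Chern.Ito

/-!
# Recurrence in a finite union of double cosets
-/

set_option autoImplicit false

namespace Pool.Agent.Chern

universe u
variable {H : Type u} [Group H] {m : (H → ℝ) → ℝ}

/-- the product set -/
def AB (A B : Subgroup H) : Set H := {h | ∃ a ∈ A, ∃ b ∈ B, h = a * b}

theorem mem_AB {A B : Subgroup H} {h : H} : h ∈ AB A B ↔ ∃ a ∈ A, ∃ b ∈ B, h = a * b := Iff.rfl

theorem AB_mul_right {A B : Subgroup H} {x b : H} (hb : b ∈ B) (h : x * b ∈ AB A B) : x ∈ AB A B := by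
  obtain ⟨a, ha, c, hc, e⟩ := h
  exact ⟨a, ha, c * b⁻¹, B.mul_mem hc (B.inv_mem hb), by rw [← mul_assoc, ← e]; group⟩

/-- a subgroup of positive measure has finite index -/
theorem index_ne_zero_of_pos (hm : IsMean H m) (K : Subgroup H) (hpos : 0 < m (ind (K : Set H))) : K.index ≠ 0 := by
  intro h0
  have h1 : m (ind (K : Set H)) = 0 := by
    refine hm.null_of_translates _ fun n => ?_
    obtain ⟨f, -, hf⟩ := exists_cosets (D := K) (A := ⊤) (by rw [Subgroup.relIndex_top_right]; exact h0) n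
    refine ⟨f, fun i j hij x hi hj => hf i j hij ?_⟩
    have : (f i)⁻¹ * f j = ((f i)⁻¹ * x) * ((f j)⁻¹ * x)⁻¹ := by group
    rw [this]
    exact K.mul_mem hi (K.inv_mem hj)
  linarith

theorem not_le_normalizer (hm : IsMean H m) (A B T : Subgroup H) (hA : ∀ x ∈ A, ∀ y ∈ A, x * y = y * x)
    (hB : ∀ x ∈ B, ∀ y ∈ B, x * y = y * x) (hfi : ∀ D : Subgroup H, D.index ≠ 0 → D = ⊤)
    (hTmin : ∀ N : Subgroup H, N.Normal → N ≠ ⊥ → T ≤ N)
    (hTc : Subgroup.centralizer (T : Set H) = ⊥) (hT : T ≠ ⊥) (hpos : 0 < m (ind (AB A B))) :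
    ¬ B ≤ Subgroup.normalizer (A : Set H) := by
  intro hle
  rw [Subgroup.le_normalizer_iff] at hle
  -- the product is a subgroup
  let K : Subgroup H :=
    { carrier := AB A B
      one_mem' := ⟨1, A.one_mem, 1, B.one_mem, by simp⟩
      mul_mem' := by
        rintro x y ⟨a, ha, b, hb, rfl⟩ ⟨a2, ha2, b2, hb2, rfl⟩
        exact ⟨a * (b * a2 * b⁻¹), A.mul_mem ha (hle b hb a2 ha2), b * b2, B.mul_mem hb hb2, by group⟩
      inv_mem' := by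
        rintro x ⟨a, ha, b, hb, rfl⟩
        exact ⟨b⁻¹ * a⁻¹ * b⁻¹⁻¹, hle _ (B.inv_mem hb) _ (A.inv_mem ha), b⁻¹, B.inv_mem hb, by group⟩ }
  have hK : K = ⊤ := hfi K (index_ne_zero_of_pos hm K hpos)
  have hall : ∀ h : H, ∃ a ∈ A, ∃ b ∈ B, h = a * b := fun h => by
    have : h ∈ K := by rw [hK]; exact Subgroup.mem_top _
    exact this
  have hAn : A.Normal := by
    refine ⟨fun x hx g => ?_⟩
    obtain ⟨a, ha, b, hb, rfl⟩ := hall g
    have : a * b * x * (a * b)⁻¹ = a * (b * x * b⁻¹) * a⁻¹ := by group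
    rw [this]
    exact A.mul_mem (A.mul_mem ha (hle b hb x hx)) (A.inv_mem ha)
  have hcomm : ∀ x ∈ T, ∀ y ∈ T, x * y = y * x := by
    by_cases hA0 : A = ⊥
    · intro x _ y _
      obtain ⟨a, ha, b, hb, rfl⟩ := hall x
      obtain ⟨c, hc, d, hd, rfl⟩ := hall y
      rw [hA0, Subgroup.mem_bot] at ha hc
      subst ha
      subst hc
      simpa using hB b hb d hd
    · have hTA := hTmin A hAn hA0
      exact fun x hx y hy => hA x (hTA hx) y (hTA hy)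
  apply hT
  rw [eq_bot_iff, ← hTc]
  intro x hx
  rw [Subgroup.mem_centralizer_iff]
  intro y hy
  exact hcomm y hy x hx

/-- **step (2)** -/
theorem exists_b (hm : IsMean H m) (A B : Subgroup H) (hBi : NFI B)
    (hn : ¬ B ≤ Subgroup.normalizer (A : Set H)) (hpos : 0 < m (ind (AB A B))) :
    ∃ b ∈ B, (∃ x ∈ A, b * x * b⁻¹ ∉ A) ∧ 0 < m (ind {h | h ∈ AB A B ∧ b * h ∈ AB A B}) := by
  have hrel : (Subgroup.normalizer (A : Set H)).relIndex B = 0 := by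
    by_contra h
    exact hn (hBi _ h)
  obtain ⟨n, hnw⟩ := exists_nat_gt (1 / m (ind (AB A B)))
  rw [div_lt_iff₀ hpos] at hnw
  obtain ⟨f, hfB, hf⟩ := exists_cosets hrel n
  obtain ⟨i, j, hij, hp⟩ := hm.recur (fun i => {x | (f i)⁻¹ * x ∈ AB A B}) (m (ind (AB A B)))
    (fun i => (hm.ind_left (f i) _).ge) hnw
  set β : H := (f j)⁻¹ * f i with hβ
  have hβB : β ∈ B := B.mul_mem (B.inv_mem (hfB j)) (hfB i)
  have hβn : β ∉ Subgroup.normalizer (A : Set H) := hf j i (Ne.symm hij)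
  have h1 : 0 < m (ind {h | h ∈ AB A B ∧ β * h ∈ AB A B}) := by
    have : {h | h ∈ AB A B ∧ β * h ∈ AB A B} = {x | (f i)⁻¹⁻¹ * x ∈ ({x | (f i)⁻¹ * x ∈ AB A B} ∩ {x | (f j)⁻¹ * x ∈ AB A B} : Set H)} := by
      ext x
      simp only [Set.mem_ofPred_eq, Set.mem_inter_iff, inv_inv, hβ]
      rw [inv_mul_cancel_left, mul_assoc]
    rw [this, hm.ind_left]
    exact hp
  have h2 : 0 < m (ind {h | h ∈ AB A B ∧ β⁻¹ * h ∈ AB A B}) := by
    have : {h | h ∈ AB A B ∧ β⁻¹ * h ∈ AB A B} = {x | β⁻¹ * x ∈ {h | h ∈ AB A B ∧ β * h ∈ AB A B}} := by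
      ext x
      simp only [Set.mem_ofPred_eq, mul_inv_cancel_left]
      exact and_comm
    rw [this, hm.ind_left]
    exact h1
  by_cases hcase : ∃ x ∈ A, β * x * β⁻¹ ∉ A
  · exact ⟨β, hβB, hcase, h1⟩
  · push Not at hcase
    refine ⟨β⁻¹, B.inv_mem hβB, ?_, h2⟩
    by_contra hcon
    push Not at hcon
    apply hβn
    rw [Subgroup.mem_normalizer_iff]
    intro x
    constructor
    · exact hcase x
    · intro hx
      have := hcon _ hx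
      have e : β⁻¹ * (β * x * β⁻¹) * β⁻¹⁻¹ = x := by group
      rwa [e] at this

/-- **step (3)** -/
theorem exists_a (hm : IsMean H m) (A B : Subgroup H) (hB : ∀ x ∈ B, ∀ y ∈ B, x * y = y * x) (hAi : NFI A)
    {b : H} (hb : b ∈ B) (hx : ∃ x ∈ A, b * x * b⁻¹ ∉ A) (hpos : 0 < m (ind {h | h ∈ AB A B ∧ b * h ∈ AB A B})) :
    ∃ a ∈ A, b * a ∈ AB A B ∧ b * a * b⁻¹ ∉ A := by
  by_contra hcon
  push Not at hcon
  let D : Subgroup H := A.comap (MulAut.conj b).toMonoidHom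
  have hD : ∀ x, x ∈ D ↔ b * x * b⁻¹ ∈ A := fun x => by simp [D]
  have hrel : D.relIndex A = 0 := by
    by_contra h
    obtain ⟨x, hxA, hxn⟩ := hx
    exact hxn ((hD x).1 (hAi D h hxA))
  have hnull : m (ind {h | ∃ a ∈ A, a ∈ D ∧ ∃ c ∈ B, h = a * c}) = 0 := by
    refine hm.null_of_translates _ fun n => ?_
    obtain ⟨f, hfA, hf⟩ := exists_cosets hrel n
    refine ⟨f, fun i j hij x hi hj => ?_⟩
    obtain ⟨a, haA, haD, c, hc, e1⟩ := hi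
    obtain ⟨a2, ha2A, ha2D, c2, hc2, e2⟩ := hj
    apply hf j i (Ne.symm hij)
    have e3 : a2⁻¹ * ((f j)⁻¹ * f i) * a = c2 * c⁻¹ := by
      have h1 : x = f i * (a * c) := by rw [← e1]; group
      have h2 : x = f j * (a2 * c2) := by rw [← e2]; group
      have h3 : f i * (a * c) = f j * (a2 * c2) := h1.symm.trans h2
      have h4 : a2⁻¹ * ((f j)⁻¹ * f i) * a = a2⁻¹ * (f j)⁻¹ * (f i * (a * c)) * c⁻¹ := by group
      rw [h4, h3]
      group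
    have hz : c2 * c⁻¹ ∈ D := by
      rw [hD]
      have h5 : b * (c2 * c⁻¹) * b⁻¹ = c2 * c⁻¹ := by
        rw [hB b hb (c2 * c⁻¹) (B.mul_mem hc2 (B.inv_mem hc))]
        group
      rw [h5, ← e3]
      exact A.mul_mem (A.mul_mem (A.inv_mem ha2A) (A.mul_mem (A.inv_mem (hfA j)) (hfA i))) haA
    have h6 : (f j)⁻¹ * f i = a2 * (c2 * c⁻¹) * a⁻¹ := by rw [← e3]; group
    rw [h6]
    exact D.mul_mem (D.mul_mem ha2D hz) (D.inv_mem haD)
  have hsub : {h | h ∈ AB A B ∧ b * h ∈ AB A B} ⊆ {h | ∃ a ∈ A, a ∈ D ∧ ∃ c ∈ B, h = a * c} := by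
    rintro h ⟨⟨a, ha, c, hc, rfl⟩, h2⟩
    rw [← mul_assoc] at h2
    exact ⟨a, ha, (hD a).2 (hcon a ha (AB_mul_right hc h2)), c, hc, rfl⟩
  have := hm.ind_mono hsub
  linarith

/-- **step (4)** -/
theorem exists_a' (hm : IsMean H m) (hr : ∀ (g : H) (f : H → ℝ), Bd f → m (fun x => f (x * g)) = m f)
    (A B : Subgroup H) (hA : ∀ x ∈ A, ∀ y ∈ A, x * y = y * x) (hAi : NFI A)
    {b : H} (hx : ∃ x ∈ A, b * x * b⁻¹ ∉ A) (hpos : 0 < m (ind (AB A B))) :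
    ∃ a ∈ A, a * b ≠ b * a ∧ 0 < m (ind {h | h ∈ AB A B ∧ h * a⁻¹ ∈ AB A B}) := by
  have hir : ∀ (g : H) (E : Set H), m (ind {x | x * g⁻¹ ∈ E}) = m (ind E) := by
    intro g E
    rw [← hr g⁻¹ (ind E) (bd_ind E)]
    congr 1
  have hrel : (Subgroup.centralizer {b}).relIndex A = 0 := by
    by_contra h
    obtain ⟨x, hxA, hxn⟩ := hx
    have h1 := hAi _ h hxA
    rw [Subgroup.mem_centralizer_iff] at h1
    have h2 := h1 b rfl
    apply hxn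
    rw [h2]
    simpa using hxA
  obtain ⟨n, hnw⟩ := exists_nat_gt (1 / m (ind (AB A B)))
  rw [div_lt_iff₀ hpos] at hnw
  obtain ⟨f, hfA, hf⟩ := exists_cosets hrel n
  obtain ⟨i, j, hij, hp⟩ := hm.recur (fun i => {x | x * (f i)⁻¹ ∈ AB A B}) (m (ind (AB A B)))
    (fun i => (hir (f i) _).ge) hnw
  refine ⟨f j * (f i)⁻¹, A.mul_mem (hfA j) (A.inv_mem (hfA i)), ?_, ?_⟩
  · intro hcomm
    apply hf i j hij
    rw [Subgroup.mem_centralizer_iff]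
    rintro _ rfl
    rw [hA _ (A.inv_mem (hfA i)) _ (hfA j)]
    exact hcomm.symm
  · have : {h | h ∈ AB A B ∧ h * (f j * (f i)⁻¹)⁻¹ ∈ AB A B} =
        {x | x * (f i)⁻¹⁻¹ ∈ ({x | x * (f i)⁻¹ ∈ AB A B} ∩ {x | x * (f j)⁻¹ ∈ AB A B} : Set H)} := by
      ext x
      simp only [Set.mem_ofPred_eq, Set.mem_inter_iff, inv_inv, mul_inv_rev]
      rw [mul_inv_cancel_right, mul_assoc]
    rw [this, hir]
    exact hp

/-- **the data of steps (2)-(5)** -/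
theorem exists_data (hm : IsMean H m) (hr : ∀ (g : H) (f : H → ℝ), Bd f → m (fun x => f (x * g)) = m f)
    (A B T : Subgroup H) (hA : ∀ x ∈ A, ∀ y ∈ A, x * y = y * x)
    (hB : ∀ x ∈ B, ∀ y ∈ B, x * y = y * x) (hAi : NFI A) (hBi : NFI B) (hfi : ∀ D : Subgroup H, D.index ≠ 0 → D = ⊤)
    (hTmin : ∀ N : Subgroup H, N.Normal → N ≠ ⊥ → T ≤ N)
    (hTc : Subgroup.centralizer (T : Set H) = ⊥) (hT : T ≠ ⊥) (hpos : 0 < m (ind (AB A B))) :
    ∃ a ∈ A, ∃ a'' ∈ A, ∃ b' ∈ B, ∃ b'' ∈ B, ∃ y : H, b' * a⁻¹ = a'' * b'' ∧ b'' ≠ b' ∧ y ≠ 1 ∧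
      0 < m (ind {h | a⁻¹ * h⁻¹ * a * h ∈ Subgroup.centralizer {y}}) := by
  have hn := not_le_normalizer hm A B T hA hB hfi hTmin hTc hT hpos
  obtain ⟨b', hb', hx, hp1⟩ := exists_b hm A B hBi hn hpos
  obtain ⟨a1, ha1, ⟨a'', ha'', b'', hb'', e1⟩, hne⟩ := exists_a hm A B hB hAi hb' hx hp1
  obtain ⟨a', ha', hcomm, hp2⟩ := exists_a' hm hr A B hA hAi hx hpos
  refine ⟨a1⁻¹, A.inv_mem ha1, a'', ha'', b', hb', b'', hb'', a'⁻¹ * b'⁻¹ * a' * b', by rw [inv_inv]; exact e1, ?_, ?_, ?_⟩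
  · rintro rfl
    apply hne
    rw [e1, mul_inv_cancel_right]
    exact ha''
  · intro h1
    apply hcomm
    have : a' * b' = b' * a' * (a'⁻¹ * b'⁻¹ * a' * b') := by group
    rw [this, h1, mul_one]
  · refine lt_of_lt_of_le hp2 (hm.ind_mono ?_)
    rintro h ⟨⟨α, hα, β, hβ, rfl⟩, h2⟩
    have h3 : ∃ x ∈ A, ∃ y ∈ B, β * a'⁻¹ = x * y := by
      obtain ⟨x, hx, y, hy, e⟩ := h2
      exact ⟨α⁻¹ * x, A.mul_mem (A.inv_mem hα) hx, y, hy, by rw [mul_assoc α⁻¹, ← e]; group⟩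
    have h4 := ito hA hB (A.inv_mem ha1) ha' hβ hb' h3 ⟨a'', ha'', b'', hb'', by rw [inv_inv]; exact e1⟩
    have h5 : a1⁻¹⁻¹ * (α * β)⁻¹ * a1⁻¹ * (α * β) = a1⁻¹⁻¹ * β⁻¹ * a1⁻¹ * β := by
      have h6 : a1⁻¹ * α = α * a1⁻¹ := hA _ (A.inv_mem ha1) _ hα
      calc a1⁻¹⁻¹ * (α * β)⁻¹ * a1⁻¹ * (α * β) = a1⁻¹⁻¹ * β⁻¹ * α⁻¹ * (a1⁻¹ * α) * β := by group
        _ = a1⁻¹⁻¹ * β⁻¹ * α⁻¹ * (α * a1⁻¹) * β := by rw [h6]
        _ = a1⁻¹⁻¹ * β⁻¹ * a1⁻¹ * β := by group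
    rw [Set.mem_ofPred_eq, h5, Subgroup.mem_centralizer_iff]
    rintro _ rfl
    exact h4.symm

end Pool.Agent.Chern
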