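import Pool.Agent.Chern.Defs

/-!
# Uniform decay of random walks on infinite Schreier graphs (row FL)
-/

set_option autoImplicit false

namespace Pool.Agent.Chern

universe u v

namespace FlatAux

open Finset Function

variable {T : Type u} {Ω : Type v} [Group T] [MulAction T Ω]

/-- one step of the walk with steps in `S` -/
noncomputable def P (S : Finset T) (f : Ω → ℝ) : Ω → ℝ := fun x => (∑ s ∈ S, f (s⁻¹ • x)) / (S.card : ℝ)

/-- the square of the norm in `ℓ²` -/
noncomputable def N (f : Ω → ℝ) : ℝ := ∑' x, f x ^ 2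

/-- a finitely supported probability -/
structure Nice (f : Ω → ℝ) : Prop where
  nn : ∀ x, 0 ≤ f x
  fin : (support f).Finite
  one : ∑' x, f x = 1

theorem fin_shift (s : T) {f : Ω → ℝ} (hf : (support f).Finite) : (support fun x => f (s⁻¹ • x)).Finite := by
  have : (support fun x => f (s⁻¹ • x)) = (fun x => s⁻¹ • x) ⁻¹' support f := by
    ext x; simp
  rw [this]
  exact hf.preimage (MulAction.injective s⁻¹).injOn

theorem tsum_shift (s : T) (f : Ω → ℝ) : ∑' x, f (s⁻¹ • x) = ∑' x, f x :=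
  (MulAction.toPerm s⁻¹ : Equiv.Perm Ω).tsum_eq f

theorem fin_P (S : Finset T) {f : Ω → ℝ} (hf : (support f).Finite) : (support (P S f)).Finite := by
  have : support (P S f) ⊆ ⋃ s ∈ S, (support fun x => f (s⁻¹ • x)) := by
    intro x hx
    by_contra hc
    simp only [Set.mem_iUnion, mem_support, exists_prop, not_exists, not_and, not_not] at hc
    apply hx
    simp only [P]
    rw [Finset.sum_eq_zero hc, zero_div]
  exact (S.finite_toSet.biUnion fun s _ => fin_shift s hf).subset this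

theorem summ {f : Ω → ℝ} (hf : (support f).Finite) : Summable f := summable_of_hasFiniteSupport hf

theorem fin_sq {f : Ω → ℝ} (hf : (support f).Finite) : (support fun x => f x ^ 2).Finite :=
  hf.subset fun x hx => by
    intro h
    apply hx
    simp [h]

theorem nice_P {S : Finset T} (hS : S.Nonempty) {f : Ω → ℝ} (hf : Nice f) : Nice (P S f) where
  nn x := div_nonneg (Finset.sum_nonneg fun s _ => hf.nn _) (Nat.cast_nonneg _)
  fin := fin_P S hf.fin
  one := by
    have hc : (S.card : ℝ) ≠ 0 := by exact_mod_cast hS.card_pos.ne'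
    simp only [P]
    rw [tsum_div_const, Summable.tsum_finsetSum fun s _ => summ (fin_shift s hf.fin)]
    rw [Finset.sum_congr rfl fun s _ => (tsum_shift s f).trans hf.one]
    simp [hc]

theorem N_nonneg (f : Ω → ℝ) : 0 ≤ N f := tsum_nonneg fun x => sq_nonneg _

/-- pointwise variance identity -/
theorem var_id (S : Finset T) (hS : S.Nonempty) (f : Ω → ℝ) (x : Ω) :
    (∑ s ∈ S, f (s⁻¹ • x) ^ 2) / (S.card : ℝ) - (P S f x) ^ 2 =
      (∑ s ∈ S, (f (s⁻¹ • x) - P S f x) ^ 2) / (S.card : ℝ) := by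
  have hc : (S.card : ℝ) ≠ 0 := by exact_mod_cast hS.card_pos.ne'
  have h1 : ∑ s ∈ S, f (s⁻¹ • x) = (S.card : ℝ) * P S f x := by
    simp only [P]; field_simp
  have h2 : ∑ s ∈ S, (f (s⁻¹ • x) - P S f x) ^ 2 = ∑ s ∈ S, f (s⁻¹ • x) ^ 2 - (S.card : ℝ) * (P S f x) ^ 2 := by
    have : ∀ s ∈ S, (f (s⁻¹ • x) - P S f x) ^ 2 = f (s⁻¹ • x) ^ 2 - 2 * P S f x * f (s⁻¹ • x) + (P S f x) ^ 2 := by
      intro s _; ring
    rw [Finset.sum_congr rfl this, Finset.sum_add_distrib, Finset.sum_sub_distrib, ← Finset.mul_sum, h1,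
      Finset.sum_const, nsmul_eq_mul]
    ring
  rw [h2]
  field_simp

theorem drop_id {S : Finset T} (hS : S.Nonempty) {f : Ω → ℝ} (hf : (support f).Finite) :
    N f - N (P S f) = ∑' x, (∑ s ∈ S, (f (s⁻¹ • x) - P S f x) ^ 2) / (S.card : ℝ) := by
  have hc : (S.card : ℝ) ≠ 0 := by exact_mod_cast hS.card_pos.ne'
  have h1 : N f = ∑' x, (∑ s ∈ S, f (s⁻¹ • x) ^ 2) / (S.card : ℝ) := by
    rw [tsum_div_const, Summable.tsum_finsetSum fun s _ => summ (fin_sq (fin_shift s hf))]
    rw [Finset.sum_congr rfl fun s _ => tsum_shift s (fun x => f x ^ 2)]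
    simp only [Finset.sum_const, nsmul_eq_mul, N]
    field_simp
  have hs1 : Summable fun x : Ω => (∑ s ∈ S, f (s⁻¹ • x) ^ 2) / (S.card : ℝ) :=
    (summable_sum fun s _ => summ (fin_sq (fin_shift s hf))).div_const _
  rw [h1, N, ← hs1.tsum_sub (summ (fin_sq (fin_P S hf)))]
  exact tsum_congr fun x => var_id S hS f x

theorem drop_fin (S : Finset T) {f : Ω → ℝ} (hf : (support f).Finite) :
    (support fun x => (∑ s ∈ S, (f (s⁻¹ • x) - P S f x) ^ 2) / (S.card : ℝ)).Finite := by
  refine (((S.finite_toSet.biUnion fun s _ => fin_shift s hf)).union (fin_P S hf)).subset ?_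
  intro x hx
  by_contra hc
  simp only [Set.mem_union, Set.mem_iUnion, mem_support, exists_prop, not_exists, not_and, not_not, not_or,
    Finset.mem_coe] at hc
  apply hx
  simp only
  rw [Finset.sum_eq_zero, zero_div]
  intro s hs
  rw [hc.1 s hs, hc.2]
  simp

theorem drop_nonneg {S : Finset T} (hS : S.Nonempty) {f : Ω → ℝ} (hf : (support f).Finite) :
    0 ≤ N f - N (P S f) := by
  rw [drop_id hS hf]
  exact tsum_nonneg fun x => div_nonneg (Finset.sum_nonneg fun s _ => sq_nonneg _) (Nat.cast_nonneg _)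

theorem point_le {S : Finset T} (hS : S.Nonempty) {f : Ω → ℝ} (hf : (support f).Finite) (x : Ω) {s : T}
    (hs : s ∈ S) : (f (s⁻¹ • x) - P S f x) ^ 2 ≤ S.card * (N f - N (P S f)) := by
  have hc : (0 : ℝ) < S.card := by exact_mod_cast hS.card_pos
  have h1 : (∑ s ∈ S, (f (s⁻¹ • x) - P S f x) ^ 2) / (S.card : ℝ) ≤ N f - N (P S f) := by
    rw [drop_id hS hf]
    exact (summ (drop_fin S hf)).le_tsum x fun y _ =>
      div_nonneg (Finset.sum_nonneg fun s _ => sq_nonneg _) (Nat.cast_nonneg _)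
  have h2 : (f (s⁻¹ • x) - P S f x) ^ 2 ≤ ∑ s ∈ S, (f (s⁻¹ • x) - P S f x) ^ 2 :=
    Finset.single_le_sum (f := fun s => (f (s⁻¹ • x) - P S f x) ^ 2) (fun s _ => sq_nonneg _) hs
  rw [div_le_iff₀ hc] at h1
  linarith [mul_comm (N f - N (P S f)) (S.card : ℝ)]

theorem point_abs {S : Finset T} (h1S : (1 : T) ∈ S) {f : Ω → ℝ} (hf : (support f).Finite) (x : Ω) {s : T}
    (hs : s ∈ S) {δ : ℝ} (hδ : 0 ≤ δ) (hD : S.card * (N f - N (P S f)) ≤ δ ^ 2) :
    f x - 2 * δ ≤ f (s⁻¹ • x) := by
  have hS : S.Nonempty := ⟨1, h1S⟩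
  have h1 := (point_le hS hf x hs).trans hD
  have h2 := (point_le hS hf x h1S).trans hD
  rw [inv_one, one_smul] at h2
  have h3 := abs_le_of_sq_le_sq' h1 hδ
  have h4 := abs_le_of_sq_le_sq' h2 hδ
  linarith [h3.1, h4.2]

theorem exists_big {f : Ω → ℝ} (hf : Nice f) {ε : ℝ} (hε : ε < N f) : ∃ x, ε < f x := by
  by_contra hc
  push Not at hc
  have h1 : N f ≤ ∑' x, ε * f x := by
    refine Summable.tsum_le_tsum (fun x => ?_) (summ (fin_sq hf.fin)) ((summ hf.fin).mul_left ε)
    rw [sq]
    exact mul_le_mul_of_nonneg_right (hc x) (hf.nn x)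
  rw [tsum_mul_left, hf.one, mul_one] at h1
  linarith

/-- balls around a point of an infinite orbit are big -/
theorem exists_ball {S : Finset T} (h1S : (1 : T) ∈ S) (hgen : Subgroup.closure (S : Set T) = ⊤)
    {f : Ω → ℝ} (hf : (support f).Finite) {δ : ℝ} (hδ : 0 ≤ δ) (hD : S.card * (N f - N (P S f)) ≤ δ ^ 2)
    (x : Ω) (hx : (MulAction.orbit T x).Infinite) (j : ℕ) :
    ∃ B : Finset Ω, x ∈ B ∧ j + 1 ≤ B.card ∧ ∀ y ∈ B, f x - j * (2 * δ) ≤ f y := by
  classical
  induction j with
  | zero => exact ⟨{x}, by simp, by simp, by simp⟩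
  | succ j ih =>
    obtain ⟨B, hxB, hcard, hB⟩ := ih
    let B' : Finset Ω := S.biUnion fun s => B.image fun y => s⁻¹ • y
    have hsub : B ⊆ B' := by
      intro y hy
      rw [Finset.mem_biUnion]
      exact ⟨1, h1S, Finset.mem_image.2 ⟨y, hy, by simp⟩⟩
    refine ⟨B', hsub hxB, ?_, ?_⟩
    · have hne : B ≠ B' := by
        intro heq
        have hmap : ∀ s ∈ S, ∀ y ∈ B, s⁻¹ • y ∈ B := by
          intro s hs y hy
          rw [heq, Finset.mem_biUnion]
          exact ⟨s, hs, Finset.mem_image.2 ⟨y, hy, rfl⟩⟩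
        have hstab : ∀ s ∈ S, ∀ y, y ∈ B ↔ s⁻¹ • y ∈ B := by
          intro s hs y
          have him : B.image (fun y => s⁻¹ • y) = B := by
            apply Finset.eq_of_subset_of_card_le
            · intro z hz
              obtain ⟨y, hy, rfl⟩ := Finset.mem_image.1 hz
              exact hmap s hs y hy
            · rw [Finset.card_image_of_injective _ (MulAction.injective s⁻¹)]
          constructor
          · exact hmap s hs y
          · intro hy
            rw [← him] at hy
            obtain ⟨z, hz, hzy⟩ := Finset.mem_image.1 hy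
            rwa [← MulAction.injective s⁻¹ hzy]
        have hall : ∀ t : T, ∀ y, y ∈ B ↔ t⁻¹ • y ∈ B := by
          intro t
          have ht : t ∈ Subgroup.closure (S : Set T) := by rw [hgen]; trivial
          induction ht using Subgroup.closure_induction with
          | mem s hs => exact hstab s hs
          | one => intro y; simp
          | mul a b _ _ ha hb =>
            intro y
            rw [ha y, hb (a⁻¹ • y), mul_inv_rev, mul_smul]
          | inv a _ ha =>
            intro y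
            rw [inv_inv, ha (a • y), inv_smul_smul]
        apply hx
        refine B.finite_toSet.subset ?_
        rintro _ ⟨t, rfl⟩
        have := (hall t⁻¹ x).1 hxB
        rw [inv_inv] at this
        exact this
      have := Finset.card_lt_card (Finset.ssubset_iff_subset_ne.2 ⟨hsub, hne⟩)
      omega
    · intro y hy
      rw [Finset.mem_biUnion] at hy
      obtain ⟨s, hs, hy⟩ := hy
      obtain ⟨z, hz, rfl⟩ := Finset.mem_image.1 hy
      have h1 := point_abs h1S hf z hs hδ hD
      have h2 := hB z hz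
      push_cast
      linarith

/-- key step: a nice function with large norm loses a definite amount of norm -/
theorem key {S : Finset T} (h1S : (1 : T) ∈ S) (hgen : Subgroup.closure (S : Set T) = ⊤)
    (hΩ : ∀ ω : Ω, (MulAction.orbit T ω).Infinite) {f : Ω → ℝ} (hf : Nice f) {ε : ℝ} (hε : 0 < ε)
    (hN : ε < N f) {j : ℕ} (hj : 2 / ε ≤ j) {δ : ℝ} (hδ : 0 ≤ δ) (hjδ : j * (2 * δ) ≤ ε / 2)
    (hD : S.card * (N f - N (P S f)) ≤ δ ^ 2) : False := by
  obtain ⟨x, hx⟩ := exists_big hf hN
  obtain ⟨B, _, hcard, hB⟩ := exists_ball h1S hgen hf.fin hδ hD x (hΩ x) j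
  have h1 : ∑ y ∈ B, f y ≤ 1 := by
    rw [← hf.one]
    exact (summ hf.fin).sum_le_tsum B fun y _ => hf.nn y
  have h2 : (B.card : ℝ) * (ε / 2) ≤ ∑ y ∈ B, f y := by
    rw [← nsmul_eq_mul, ← Finset.sum_const]
    refine Finset.sum_le_sum fun y hy => ?_
    have := hB y hy
    linarith
  have h3 : (j : ℝ) + 1 ≤ B.card := by exact_mod_cast hcard
  rw [div_le_iff₀ hε] at hj
  nlinarith

/-- the function on `Ω` given by a finitely supported function on the group and a starting point -/
noncomputable def F (c : T →₀ ℝ) (ω : Ω) : Ω → ℝ := fun x =>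
  Finsupp.linearCombination ℝ (fun t : T => ind {y : Ω | y = t • ω} x) c

/-- one step on the group -/
noncomputable def A (S : Finset T) (c : T →₀ ℝ) : T →₀ ℝ :=
  (S.card : ℝ)⁻¹ • ∑ s ∈ S, Finsupp.mapDomain (fun t => s * t) c

theorem A_nonneg (S : Finset T) {c : T →₀ ℝ} (hc : ∀ t, 0 ≤ c t) (t : T) : 0 ≤ A S c t := by
  rw [A, Finsupp.smul_apply, Finsupp.finsetSum_apply, smul_eq_mul]
  refine mul_nonneg (inv_nonneg.2 (Nat.cast_nonneg _)) (Finset.sum_nonneg fun s _ => ?_)
  have h : t = (fun t => s * t) (s⁻¹ * t) := by simp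
  rw [h, Finsupp.mapDomain_apply (mul_right_injective s)]
  exact hc _

theorem ind_shift (s t : T) (ω x : Ω) :
    ind {y : Ω | y = t • ω} (s⁻¹ • x) = ind {y : Ω | y = (s * t) • ω} x := by
  have : s⁻¹ • x = t • ω ↔ x = (s * t) • ω := by
    rw [mul_smul, inv_smul_eq_iff]
  by_cases h : s⁻¹ • x = t • ω
  · rw [ind, ind, Set.indicator_of_mem (show s⁻¹ • x ∈ {y : Ω | y = t • ω} from h),
      Set.indicator_of_mem (show x ∈ {y : Ω | y = (s * t) • ω} from this.1 h)]
  · rw [ind, ind, Set.indicator_of_notMem (show s⁻¹ • x ∉ {y : Ω | y = t • ω} from h),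
      Set.indicator_of_notMem (show x ∉ {y : Ω | y = (s * t) • ω} from fun h' => h (this.2 h'))]

theorem F_A (S : Finset T) (c : T →₀ ℝ) (ω : Ω) : F (A S c) ω = P S (F c ω) := by
  funext x
  simp only [F, A, P, map_smul, map_sum, Finsupp.linearCombination_mapDomain, smul_eq_mul]
  rw [div_eq_inv_mul]
  congr 1
  refine Finset.sum_congr rfl fun s _ => ?_
  congr 2
  funext t
  exact (ind_shift s t ω x).symm

/-- the law after `n` steps -/
noncomputable def law (S : Finset T) : ℕ → (T →₀ ℝ)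
  | 0 => Finsupp.single 1 1
  | n + 1 => A S (law S n)

theorem law_nonneg (S : Finset T) (n : ℕ) : ∀ t, 0 ≤ law S n t := by
  classical
  induction n with
  | zero =>
    intro t
    rw [law, Finsupp.single_apply]
    split_ifs <;> norm_num
  | succ n ih => exact A_nonneg S ih

theorem tot_A {S : Finset T} (hS : S.Nonempty) (c : T →₀ ℝ) :
    Finsupp.linearCombination ℝ (fun _ : T => (1 : ℝ)) (A S c) =
      Finsupp.linearCombination ℝ (fun _ : T => (1 : ℝ)) c := by
  have hc : (S.card : ℝ) ≠ 0 := by exact_mod_cast hS.card_pos.ne'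
  simp only [A, map_smul, map_sum, Finsupp.linearCombination_mapDomain, smul_eq_mul]
  have h : ∀ s ∈ S, (Finsupp.linearCombination ℝ ((fun _ : T => (1 : ℝ)) ∘ fun t => s * t)) c =
      Finsupp.linearCombination ℝ (fun _ : T => (1 : ℝ)) c := fun s _ => rfl
  rw [Finset.sum_congr rfl h, Finset.sum_const, nsmul_eq_mul]
  field_simp

theorem law_tot {S : Finset T} (hS : S.Nonempty) (n : ℕ) :
    Finsupp.linearCombination ℝ (fun _ : T => (1 : ℝ)) (law S n) = 1 := by
  induction n with
  | zero => simp [law]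
  | succ n ih => rw [law, tot_A hS, ih]

theorem F_zero (S : Finset T) (ω : Ω) : F (law S 0) ω = ind {y : Ω | y = ω} := by
  funext x
  simp [F, law]

theorem supp_ind (ω : Ω) : (support (ind {y : Ω | y = ω})).Finite :=
  (Set.finite_singleton ω).subset fun x hx => by
    by_contra h
    exact hx (Set.indicator_of_notMem h _)

theorem tsum_ind (ω : Ω) : ∑' x, ind {y : Ω | y = ω} x = 1 := by
  rw [tsum_eq_single ω fun x hx => by
    rw [ind, Set.indicator_of_notMem (show x ∉ {y : Ω | y = ω} from hx)]]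
  exact Set.indicator_of_mem (show ω ∈ {y : Ω | y = ω} from rfl) _

theorem nice_ind (ω : Ω) : Nice (ind {y : Ω | y = ω}) where
  nn x := Set.indicator_nonneg (fun _ _ => zero_le_one) x
  fin := supp_ind ω
  one := tsum_ind ω

theorem N_ind (ω : Ω) : N (ind {y : Ω | y = ω}) = 1 := by
  rw [N]
  rw [tsum_eq_single ω fun x hx => by
    rw [ind, Set.indicator_of_notMem (show x ∉ {y : Ω | y = ω} from hx)]; simp]
  rw [ind, Set.indicator_of_mem (show ω ∈ {y : Ω | y = ω} from rfl)]
  simp

theorem nice_law {S : Finset T} (hS : S.Nonempty) (ω : Ω) (n : ℕ) : Nice (F (law S n) ω) := by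
  induction n with
  | zero => rw [F_zero]; exact nice_ind ω
  | succ n ih =>
    have : F (law S (n + 1)) ω = P S (F (law S n) ω) := F_A S _ ω
    rw [this]
    exact nice_P hS ih

theorem N_F (c : T →₀ ℝ) (ω : Ω) :
    (c.sum fun t a => c.sum fun t' a' => a * a' * ind {x : Ω | x = t' • ω} (t • ω)) = N (F c ω) := by
  classical
  have hval : ∀ (t : T) (x : Ω), ind {y : Ω | y = t • ω} x = if x = t • ω then (1 : ℝ) else 0 := by
    intro t x
    simp [ind, Set.indicator_apply]
  have hsq : ∀ x, F c ω x ^ 2 = ∑ t ∈ c.support, ∑ t' ∈ c.support,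
      (c t * c t' * ((if x = t • ω then (1 : ℝ) else 0) * (if x = t' • ω then (1 : ℝ) else 0))) := by
    intro x
    rw [F, Finsupp.linearCombination_apply, Finsupp.sum, sq, Finset.sum_mul_sum]
    refine Finset.sum_congr rfl fun t _ => Finset.sum_congr rfl fun t' _ => ?_
    rw [hval, hval, smul_eq_mul, smul_eq_mul]
    ring
  have hfin : ∀ t t' : T, (support fun x : Ω =>
      (c t * c t' * ((if x = t • ω then (1 : ℝ) else 0) * (if x = t' • ω then (1 : ℝ) else 0)))).Finite := by
    intro t t'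
    refine (Set.finite_singleton (t • ω)).subset fun x hx => ?_
    by_contra h
    apply hx
    simp only
    rw [if_neg (fun h' => h (Set.mem_singleton_iff.2 h'))]
    ring
  rw [N, tsum_congr hsq, Summable.tsum_finsetSum fun t _ => summable_sum fun t' _ => summ (hfin t t'), Finsupp.sum]
  refine Finset.sum_congr rfl fun t _ => ?_
  rw [Summable.tsum_finsetSum fun t' _ => summ (hfin t t'), Finsupp.sum]
  refine Finset.sum_congr rfl fun t' _ => ?_
  rw [hval]
  rw [tsum_eq_single (t • ω) fun x hx => by rw [if_neg hx]; ring]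
  rw [if_pos rfl]
  ring

theorem law_small {S : Finset T} (h1S : (1 : T) ∈ S) (hgen : Subgroup.closure (S : Set T) = ⊤)
    (hΩ : ∀ ω : Ω, (MulAction.orbit T ω).Infinite) {ε : ℝ} (hε : 0 < ε) {j : ℕ} (hj : 2 / ε ≤ j) {δ : ℝ}
    (hδ : 0 < δ) (hjδ : j * (2 * δ) ≤ ε / 2) {M : ℕ} (hM : S.card / δ ^ 2 ≤ M) (ω : Ω) :
    N (F (law S M) ω) ≤ ε := by
  have hS : S.Nonempty := ⟨1, h1S⟩
  have hc : (0 : ℝ) < S.card := by exact_mod_cast hS.card_pos
  by_contra hcon
  push Not at hcon
  set g : ℕ → ℝ := fun n => N (F (law S n) ω) with hg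
  have hstep : ∀ n, F (law S (n + 1)) ω = P S (F (law S n) ω) := fun n => F_A S _ ω
  have hanti : Antitone g := by
    refine antitone_nat_of_succ_le fun n => ?_
    have := drop_nonneg hS (nice_law hS ω n).fin
    simp only [hg]
    rw [hstep]
    linarith
  have hdrop : ∀ n < M, δ ^ 2 / S.card < g n - g (n + 1) := by
    intro n hn
    by_contra hle
    push Not at hle
    refine key h1S hgen hΩ (nice_law hS ω n) hε (lt_of_lt_of_le hcon (hanti hn.le)) hj hδ.le hjδ ?_
    simp only [hg] at hle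
    rw [hstep, le_div_iff₀ hc] at hle
    linarith [mul_comm (S.card : ℝ) (N (F (law S n) ω) - N (P S (F (law S n) ω)))]
  have hsum : ∑ n ∈ Finset.range M, (g n - g (n + 1)) = g 0 - g M := Finset.sum_range_sub' g M
  have h0 : g 0 = 1 := by
    simp only [hg]
    rw [F_zero]
    exact N_ind ω
  have hge : (M : ℝ) * (δ ^ 2 / S.card) ≤ g 0 - g M := by
    rw [← hsum]
    calc (M : ℝ) * (δ ^ 2 / S.card) = ∑ _n ∈ Finset.range M, δ ^ 2 / (S.card : ℝ) := by simp
      _ ≤ _ := Finset.sum_le_sum fun n hn => (hdrop n (Finset.mem_range.1 hn)).le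
  have h1 : 1 ≤ (M : ℝ) * (δ ^ 2 / S.card) := by
    rw [div_le_iff₀ (by positivity)] at hM
    rw [mul_div_assoc', le_div_iff₀ hc]
    linarith
  have : ε < g M := hcon
  linarith

end FlatAux

open FlatAux in
/-- flattening: a finitely generated group has finitely supported probabilities which are uniformly flat on all
its infinite orbits -/
theorem flat {T : Type u} {Ω : Type v} [Group T] [MulAction T Ω] (hT : Group.FG T)
    (hΩ : ∀ ω : Ω, (MulAction.orbit T ω).Infinite) (ε : ℝ) (hε : 0 < ε) :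
    ∃ c : T →₀ ℝ, (∀ t, 0 ≤ c t) ∧ (c.sum fun _ a => a) = 1 ∧
      ∀ ω : Ω, (c.sum fun t a => c.sum fun t' a' => a * a' * ind {x : Ω | x = t' • ω} (t • ω)) ≤ ε := by
  classical
  obtain ⟨S0, hS0⟩ := hT.out
  let S : Finset T := insert 1 S0
  have h1S : (1 : T) ∈ S := Finset.mem_insert_self _ _
  have hgen : Subgroup.closure (S : Set T) = ⊤ := by
    rw [eq_top_iff, ← hS0]
    exact Subgroup.closure_mono (by simp [S])
  set j : ℕ := ⌈2 / ε⌉₊ with hj
  have hj' : 2 / ε ≤ j := Nat.le_ceil _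
  set δ : ℝ := ε / (4 * (j + 1)) with hδ
  have hδ0 : 0 < δ := by positivity
  have hjδ : (j : ℝ) * (2 * δ) ≤ ε / 2 := by
    rw [hδ]
    have : (0 : ℝ) < 4 * ((j : ℝ) + 1) := by positivity
    rw [show (j : ℝ) * (2 * (ε / (4 * (j + 1)))) = (j * 2 * ε) / (4 * (j + 1)) by ring, div_le_iff₀ this]
    nlinarith
  obtain ⟨M, hM⟩ := exists_nat_ge ((S.card : ℝ) / δ ^ 2)
  refine ⟨law S M, law_nonneg S M, ?_, fun ω => ?_⟩
  · have := law_tot (S := S) ⟨1, h1S⟩ M
    rw [Finsupp.linearCombination_apply] at this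
    simpa using this
  · rw [N_F]
    exact law_small h1S hgen hΩ hε hj' hδ0 hjδ hM ω

end Pool.Agent.Chern
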