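import Pool.Agent.Chern.Defs

/-!
# The Hilbert space of an invariant positive semidefinite kernel (row KE)
-/

set_option autoImplicit false

open scoped RealInnerProductSpace

namespace Pool.Agent.Chern

universe u v

namespace KernelAux

variable {X : Type u} {Γ : Type v} [Group Γ] [MulAction Γ X]

/-- the bilinear form of a kernel -/
noncomputable def B (k : X → X → ℝ) (c d : X →₀ ℝ) : ℝ := c.sum fun x a => d.sum fun y b => a * b * k x y

theorem B_symm {k : X → X → ℝ} (hsymm : ∀ x y, k x y = k y x) (c d : X →₀ ℝ) : B k c d = B k d c := by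
  rw [B, B, Finsupp.sum_comm]
  refine Finset.sum_congr rfl fun y _ => Finset.sum_congr rfl fun x _ => ?_
  simp only
  rw [hsymm x y]
  ring

theorem B_add_left (k : X → X → ℝ) (c c' d : X →₀ ℝ) : B k (c + c') d = B k c d + B k c' d := by
  rw [B, Finsupp.sum_add_index']
  · rfl
  · intro x; simp
  · intro x a b
    rw [← Finsupp.sum_add]
    refine Finset.sum_congr rfl fun y _ => ?_
    simp only
    ring

theorem B_smul_left (k : X → X → ℝ) (r : ℝ) (c d : X →₀ ℝ) : B k (r • c) d = r * B k c d := by
  rw [B, Finsupp.sum_smul_index (by intro x; simp), B, Finsupp.mul_sum]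
  refine Finset.sum_congr rfl fun x _ => ?_
  simp only
  rw [Finsupp.mul_sum]
  refine Finset.sum_congr rfl fun y _ => ?_
  simp only
  ring

theorem exists_space {k : X → X → ℝ} (hsymm : ∀ x y, k x y = k y x) (hpos : ∀ c : X →₀ ℝ, 0 ≤ B k c c) :
    ∃ (V : Type u) (_ : NormedAddCommGroup V) (_ : InnerProductSpace ℝ V) (_ : CompleteSpace V)
      (ι : (X →₀ ℝ) →ₗ[ℝ] V), DenseRange ι ∧ ∀ c d, ⟪ι c, ι d⟫ = B k c d := by
  let core : PreInnerProductSpace.Core ℝ (X →₀ ℝ) :=
    { inner := fun c d => B k c d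
      conj_inner_symm := fun c d => by
        simpa using B_symm hsymm d c
      re_inner_nonneg := fun c => by simpa using hpos c
      add_left := fun c c' d => B_add_left k c c' d
      smul_left := fun c d r => by simpa using B_smul_left k r c d }
  let _ : SeminormedAddCommGroup (X →₀ ℝ) := InnerProductSpace.Core.toSeminormedAddCommGroup (𝕜 := ℝ)
  let _ : InnerProductSpace ℝ (X →₀ ℝ) := InnerProductSpace.ofCore core
  refine ⟨UniformSpace.Completion (X →₀ ℝ), inferInstance, inferInstance, inferInstance,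
    (UniformSpace.Completion.toComplL : (X →₀ ℝ) →L[ℝ] UniformSpace.Completion (X →₀ ℝ)).toLinearMap, ?_, ?_⟩
  · exact UniformSpace.Completion.denseRange_coe
  · intro c d
    exact UniformSpace.Completion.inner_coe c d

/-- the action on finitely supported functions -/
noncomputable def act (γ : Γ) : (X →₀ ℝ) ≃ₗ[ℝ] (X →₀ ℝ) := Finsupp.domLCongr (MulAction.toPerm γ)

theorem act_single (γ : Γ) (x : X) (a : ℝ) : act γ (Finsupp.single x a) = Finsupp.single (γ • x) a := by
  simp [act]

theorem B_act {k : X → X → ℝ} (hinv : ∀ (γ : Γ) (x y : X), k (γ • x) (γ • y) = k x y) (γ : Γ) (c d : X →₀ ℝ) :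
    B k (act γ c) (act γ d) = B k c d := by
  have h : ∀ c : X →₀ ℝ, act γ c = Finsupp.embDomain (MulAction.toPerm γ : Equiv.Perm X).toEmbedding c := by
    intro c
    rw [Finsupp.embDomain_eq_mapDomain]
    simp [act, Finsupp.domLCongr_apply, Finsupp.equivMapDomain_eq_mapDomain]
  rw [h, h, B, Finsupp.sum_embDomain]
  refine Finset.sum_congr rfl fun x _ => ?_
  simp only
  rw [Finsupp.sum_embDomain]
  refine Finset.sum_congr rfl fun y _ => ?_
  simp only [Equiv.toEmbedding_apply, MulAction.toPerm_apply]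
  rw [hinv]

theorem act_mul (γ γ' : Γ) (c : X →₀ ℝ) : act (γ * γ') c = act γ (act γ' c) := by
  induction c using Finsupp.induction_linear with
  | zero => simp
  | add c d hc hd => rw [map_add, map_add, map_add, hc, hd]
  | single x a => rw [act_single, act_single, act_single, mul_smul]

theorem act_one (c : X →₀ ℝ) : act (1 : Γ) c = c := by
  induction c using Finsupp.induction_linear with
  | zero => simp
  | add c d hc hd => rw [map_add, hc, hd]
  | single x a => rw [act_single, one_smul]

end KernelAux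

open KernelAux in
/-- the Hilbert space of an invariant positive semidefinite kernel, with the action of the group -/
theorem exists_rep {X : Type u} {Γ : Type v} [Group Γ] [MulAction Γ X] (k : X → X → ℝ) (hsymm : ∀ x y, k x y = k y x)
    (hpos : ∀ c : X →₀ ℝ, 0 ≤ c.sum fun x a => c.sum fun y b => a * b * k x y)
    (hinv : ∀ (γ : Γ) (x y : X), k (γ • x) (γ • y) = k x y) :
    ∃ (V : Type u) (_ : NormedAddCommGroup V) (_ : InnerProductSpace ℝ V) (_ : CompleteSpace V) (e : X → V)
      (Φ : Γ →* (V ≃ₗᵢ[ℝ] V)), (∀ x y, ⟪e x, e y⟫ = k x y) ∧ (∀ γ x, Φ γ (e x) = e (γ • x)) ∧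
        Dense (Submodule.span ℝ (Set.range e) : Set V) := by
  obtain ⟨V, i1, i2, i3, ι, hd, hι⟩ := exists_space hsymm hpos
  have hnorm : ∀ (γ : Γ) (c : X →₀ ℝ), ‖ι (act γ c)‖ = ‖ι c‖ := by
    intro γ c
    have h1 : ‖ι (act γ c)‖ ^ 2 = ‖ι c‖ ^ 2 := by
      rw [← real_inner_self_eq_norm_sq, ← real_inner_self_eq_norm_sq, hι, hι, B_act hinv]
    exact (sq_eq_sq₀ (norm_nonneg _) (norm_nonneg _)).1 h1
  let Φ : Γ → (V ≃ₗᵢ[ℝ] V) := fun γ => (act (X := X) γ).extendOfIsometry ι ι hd hd (hnorm γ)
  have hΦ : ∀ γ c, Φ γ (ι c) = ι (act γ c) := fun γ c =>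
    LinearEquiv.extendOfIsometry_eq (act (X := X) γ) ι ι hd hd (hnorm γ) c
  have hext : ∀ f g : V ≃ₗᵢ[ℝ] V, (∀ c, f (ι c) = g (ι c)) → f = g := by
    intro f g hfg
    apply LinearIsometryEquiv.ext
    intro v
    exact congrFun (hd.equalizer f.continuous g.continuous (funext hfg)) v
  refine ⟨V, i1, i2, i3, fun x => ι (Finsupp.single x 1), MonoidHom.mk' Φ ?_, ?_, ?_, ?_⟩
  · intro γ γ'
    apply hext
    intro c
    have h1 : (Φ γ * Φ γ') (ι c) = Φ γ (Φ γ' (ι c)) := rfl
    rw [h1, hΦ, hΦ, hΦ, act_mul]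
  · intro x y
    rw [hι, B]
    simp
  · intro γ x
    rw [MonoidHom.mk'_apply, hΦ, act_single]
  · have hspan : (Submodule.span ℝ (Set.range fun x : X => ι (Finsupp.single x 1)) : Set V) = Set.range ι := by
      have h1 : Submodule.span ℝ (Set.range fun x : X => ι (Finsupp.single x 1)) = LinearMap.range ι := by
        apply le_antisymm
        · rw [Submodule.span_le]
          rintro _ ⟨x, rfl⟩
          exact ⟨_, rfl⟩
        · rintro _ ⟨c, rfl⟩
          induction c using Finsupp.induction_linear with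
          | zero => simp
          | add c d hc hd => rw [map_add]; exact Submodule.add_mem _ hc hd
          | single x a =>
            have : Finsupp.single x a = a • Finsupp.single x (1 : ℝ) := by simp
            rw [this, map_smul]
            exact Submodule.smul_mem _ _ (Submodule.subset_span ⟨x, rfl⟩)
      rw [h1]
      rfl
    rw [hspan]
    exact hd

end Pool.Agent.Chern
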