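import Pool.Agent.Chern.MeanBasic

/-!
# The kernel of a mean and a subgroup: `k x z = m {h : x h C = z h C}`
-/

set_option autoImplicit false

namespace Pool.Agent.Chern

universe u
variable {H : Type u} [Group H] {m : (H → ℝ) → ℝ}

/-- the kernel -/
noncomputable def ker (m : (H → ℝ) → ℝ) (C : Subgroup H) (x z : H) : ℝ := m (ind {h | h⁻¹ * (x⁻¹ * z) * h ∈ C})

theorem ker_symm (m : (H → ℝ) → ℝ) (C : Subgroup H) (x z : H) : ker m C x z = ker m C z x := by
  unfold ker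
  congr 2
  ext h
  simp only [Set.mem_ofPred_eq]
  rw [← C.inv_mem_iff]
  have : (h⁻¹ * (x⁻¹ * z) * h)⁻¹ = h⁻¹ * (z⁻¹ * x) * h := by group
  rw [this]

theorem ker_inv (hm : IsMean H m) (C : Subgroup H) (g r x z : H) :
    ker m C (g * x * r⁻¹) (g * z * r⁻¹) = ker m C x z := by
  unfold ker
  rw [← hm.ind_left r {h | h⁻¹ * (x⁻¹ * z) * h ∈ C}]
  congr 2
  ext h
  simp only [Set.mem_ofPred_eq]
  have : (r⁻¹ * h)⁻¹ * (x⁻¹ * z) * (r⁻¹ * h) = h⁻¹ * ((g * x * r⁻¹)⁻¹ * (g * z * r⁻¹)) * h := by group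
  rw [this]

/-- the sum over pairs with the same value is a sum of squares -/
theorem sum_pairs_eq {Ω ι : Type*} (s : Finset ι) (c : ι → ℝ) (q : ι → Ω) :
    0 ≤ ∑ x ∈ s, ∑ z ∈ s, c x * c z * ind {w : Ω | w = q z} (q x) := by
  classical
  have h1 : ∑ x ∈ s, ∑ z ∈ s, c x * c z * ind {w : Ω | w = q z} (q x) =
      ∑ w ∈ s.image q, (∑ x ∈ s.filter (fun x => q x = w), c x) ^ 2 := by
    have h2 : ∀ w ∈ s.image q, (∑ x ∈ s.filter (fun x => q x = w), c x) ^ 2 =
        ∑ x ∈ s.filter (fun x => q x = w), ∑ z ∈ s, c x * c z * ind {w : Ω | w = q z} (q x) := by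
      intro w _
      rw [pow_two, Finset.sum_mul_sum]
      refine Finset.sum_congr rfl fun x hx => ?_
      rw [Finset.mem_filter] at hx
      rw [Finset.sum_filter]
      refine Finset.sum_congr rfl fun z _ => ?_
      by_cases hz : q z = w
      · rw [if_pos hz, ind_of_mem (by rw [Set.mem_ofPred_eq, hx.2, hz]), mul_one]
      · rw [if_neg hz, ind_of_notMem (by rw [Set.mem_ofPred_eq, hx.2]; exact fun h => hz h.symm), mul_zero]
    rw [Finset.sum_congr rfl h2]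
    exact (Finset.sum_fiberwise_of_maps_to (fun x hx => Finset.mem_image_of_mem q hx) _).symm
  rw [h1]
  exact Finset.sum_nonneg fun w _ => sq_nonneg _

theorem ind_ker (C : Subgroup H) (x z h : H) :
    ind {h : H | h⁻¹ * (x⁻¹ * z) * h ∈ C} h = ind {w : H ⧸ C | w = (QuotientGroup.mk (z * h) : H ⧸ C)} (QuotientGroup.mk (x * h)) := by
  have key : h⁻¹ * (x⁻¹ * z) * h ∈ C ↔ (QuotientGroup.mk (x * h) : H ⧸ C) = QuotientGroup.mk (z * h) := by
    rw [QuotientGroup.eq]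
    have : (x * h)⁻¹ * (z * h) = h⁻¹ * (x⁻¹ * z) * h := by group
    rw [this]
  by_cases hh : h⁻¹ * (x⁻¹ * z) * h ∈ C
  · rw [ind_of_mem (E := {h : H | h⁻¹ * (x⁻¹ * z) * h ∈ C}) hh,
      ind_of_mem (E := {w : H ⧸ C | w = (QuotientGroup.mk (z * h) : H ⧸ C)}) (key.1 hh)]
  · rw [ind_of_notMem (E := {h : H | h⁻¹ * (x⁻¹ * z) * h ∈ C}) hh,
      ind_of_notMem (E := {w : H ⧸ C | w = (QuotientGroup.mk (z * h) : H ⧸ C)}) fun h' => hh (key.2 h')]

/-- the mean of the quadratic form -/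
theorem ker_sum (hm : IsMean H m) (C : Subgroup H) (s : Finset H) (c : H → ℝ) (f : H → H) :
    ∑ x ∈ s, ∑ z ∈ s, c x * c z * ker m C (f x) (f z) =
      m (fun h => ∑ x ∈ s, ∑ z ∈ s, c x * c z *
        ind {w : H ⧸ C | w = (QuotientGroup.mk (f z * h) : H ⧸ C)} (QuotientGroup.mk (f x * h))) := by
  have hb : ∀ x z, Bd fun h : H => c x * c z * ind {w : H ⧸ C | w = (QuotientGroup.mk (f z * h) : H ⧸ C)} (QuotientGroup.mk (f x * h)) :=
    fun x z => Bd.smul _ (bd_of_mem (C := 1) (fun h => ind_nonneg _ _) fun h => ind_le_one _ _)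
  rw [hm.sum s fun x _ => bd_sum s fun z _ => hb x z]
  refine Finset.sum_congr rfl fun x _ => ?_
  rw [hm.sum s fun z _ => hb x z]
  refine Finset.sum_congr rfl fun z _ => ?_
  rw [hm.smul _ _ (bd_of_mem (C := 1) (fun h => ind_nonneg _ _) fun h => ind_le_one _ _)]
  unfold ker
  congr 2
  ext h
  exact ind_ker C (f x) (f z) h

theorem ker_pos (hm : IsMean H m) (C : Subgroup H) (c : H →₀ ℝ) :
    0 ≤ c.sum fun x a => c.sum fun z b => a * b * ker m C x z := by
  unfold Finsupp.sum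
  have h1 := ker_sum hm C c.support c id
  simp only [id] at h1
  rw [h1]
  refine hm.nonneg _ ?_ fun h => ?_
  · exact bd_sum _ fun x _ => bd_sum _ fun z _ => Bd.smul _ (bd_of_mem (C := 1) (fun h => ind_nonneg _ _) fun h => ind_le_one _ _)
  · exact sum_pairs_eq c.support c fun x => (QuotientGroup.mk (x * h) : H ⧸ C)

end Pool.Agent.Chern
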