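import Pool.Agent.Chern.Defs

/-!
# Weak mixing for groups covered by finitely many double cosets

`weak_mixing`: if `H` is amenable without proper subgroups of finite index, and is a finite union of
double cosets `A g B`, with `A B` of positive measure, then for a unitary representation a vector fixed
by `B` and orthogonal to the invariant vectors is orthogonal to all vectors fixed by `A`.
-/

set_option autoImplicit false
open scoped RealInnerProductSpace
open Submodule

namespace Pool.Agent.Chern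

universe u v

namespace WM

section Mean

variable {H : Type u} [Group H] {m : (H → ℝ) → ℝ}

omit [Group H] in
theorem bd_const (c : ℝ) : Bd (fun _ : H => c) := ⟨|c|, fun _ => le_rfl⟩

omit [Group H] in
theorem bd_sub {f g : H → ℝ} (hf : Bd f) (hg : Bd g) : Bd (fun x => g x - f x) := by
  obtain ⟨C, hC⟩ := hf
  obtain ⟨D, hD⟩ := hg
  exact ⟨D + C, fun x => (abs_sub (g x) (f x)).trans (add_le_add (hD x) (hC x))⟩

theorem m_const (hm : IsMean H m) (c : ℝ) : m (fun _ => c) = c := by
  have h := hm.smul c (fun _ => 1) (bd_const 1)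
  simpa [hm.one] using h

theorem m_mono (hm : IsMean H m) {f g : H → ℝ} (hf : Bd f) (hg : Bd g) (h : ∀ x, f x ≤ g x) :
    m f ≤ m g := by
  have h1 := hm.add f (fun x => g x - f x) hf (bd_sub hf hg)
  have h2 := hm.nonneg (fun x => g x - f x) (bd_sub hf hg) (fun x => sub_nonneg.2 (h x))
  have h3 : (fun x => f x + (g x - f x)) = g := by
    funext x
    ring
  rw [h3] at h1
  linarith

theorem m_abs (hm : IsMean H m) {f : H → ℝ} {C : ℝ} (hf : ∀ x, |f x| ≤ C) : |m f| ≤ C := by
  have hb : Bd f := ⟨C, hf⟩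
  rw [abs_le]
  constructor
  · have := m_mono hm (bd_const (-C)) hb (fun x => (abs_le.1 (hf x)).1)
    rwa [m_const hm] at this
  · have := m_mono hm hb (bd_const C) (fun x => (abs_le.1 (hf x)).2)
    rwa [m_const hm] at this

omit [Group H] in
theorem bd_ind (E : Set H) : Bd (ind E) := by
  refine ⟨1, fun x => ?_⟩
  by_cases h : x ∈ E <;> simp [ind, h]

end Mean

section Form

variable {H : Type u} [Group H] {m : (H → ℝ) → ℝ}
  {V : Type v} [NormedAddCommGroup V] [InnerProductSpace ℝ V]
  (U : H →* (V ≃ₗᵢ[ℝ] V)) (η : V)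

/-- The function whose mean is the form. -/
def fn (x y : V) (g : H) : ℝ := ⟪x, U g η⟫ * ⟪y, U g η⟫

theorem abs_fn (x y : V) (g : H) : |fn U η x y g| ≤ ‖η‖ ^ 2 * ‖x‖ * ‖y‖ := by
  unfold fn
  rw [abs_mul]
  have h1 : |⟪x, U g η⟫| ≤ ‖x‖ * ‖η‖ := by
    have := abs_real_inner_le_norm x (U g η)
    rwa [LinearIsometryEquiv.norm_map] at this
  have h2 : |⟪y, U g η⟫| ≤ ‖y‖ * ‖η‖ := by
    have := abs_real_inner_le_norm y (U g η)
    rwa [LinearIsometryEquiv.norm_map] at this
  calc _ ≤ (‖x‖ * ‖η‖) * (‖y‖ * ‖η‖) := mul_le_mul h1 h2 (abs_nonneg _) (by positivity)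
    _ = _ := by ring

theorem bd_fn (x y : V) : Bd (fn U η x y) := ⟨_, abs_fn U η x y⟩

/-- The bilinear form `m_g (⟪x, U g η⟫ ⟪y, U g η⟫)`. -/
noncomputable def bil (hm : IsMean H m) : V →ₗ[ℝ] V →ₗ[ℝ] ℝ :=
  LinearMap.mk₂ ℝ (fun x y => m (fn U η x y))
    (by
      intro x x' y
      rw [← hm.add _ _ (bd_fn U η x y) (bd_fn U η x' y)]
      congr 1
      funext g
      simp only [fn, inner_add_left]
      ring)
    (by
      intro c x y
      rw [smul_eq_mul, ← hm.smul c _ (bd_fn U η x y)]
      congr 1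
      funext g
      simp only [fn, real_inner_smul_left]
      ring)
    (by
      intro x y y'
      rw [← hm.add _ _ (bd_fn U η x y) (bd_fn U η x y')]
      congr 1
      funext g
      simp only [fn, inner_add_left]
      ring)
    (by
      intro c x y
      rw [smul_eq_mul, ← hm.smul c _ (bd_fn U η x y)]
      congr 1
      funext g
      simp only [fn, real_inner_smul_left]
      ring)

theorem bil_apply (hm : IsMean H m) (x y : V) : bil U η hm x y = m (fn U η x y) := rfl

theorem abs_bil (hm : IsMean H m) (x y : V) : |bil U η hm x y| ≤ ‖η‖ ^ 2 * ‖x‖ * ‖y‖ :=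
  m_abs hm (abs_fn U η x y)

variable [CompleteSpace V]

/-- The operator of the form. -/
noncomputable def op (hm : IsMean H m) : V →ₗ[ℝ] V where
  toFun x := (InnerProductSpace.toDual ℝ V).symm
    (LinearMap.mkContinuous (bil U η hm x) (‖η‖ ^ 2 * ‖x‖) (abs_bil U η hm x))
  map_add' x y := by
    apply ext_inner_right ℝ
    intro z
    rw [inner_add_left, InnerProductSpace.toDual_symm_apply, InnerProductSpace.toDual_symm_apply,
      InnerProductSpace.toDual_symm_apply]
    simp
  map_smul' c x := by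
    apply ext_inner_right ℝ
    intro z
    rw [RingHom.id_apply, real_inner_smul_left, InnerProductSpace.toDual_symm_apply,
      InnerProductSpace.toDual_symm_apply]
    simp

theorem inner_op (hm : IsMean H m) (x y : V) : ⟪op U η hm x, y⟫ = m (fn U η x y) := by
  unfold op
  simp only [LinearMap.coe_mk, AddHom.coe_mk]
  rw [InnerProductSpace.toDual_symm_apply]
  rfl

theorem op_symm (hm : IsMean H m) (x y : V) : ⟪op U η hm x, y⟫ = ⟪x, op U η hm y⟫ := by
  rw [real_inner_comm (op U η hm y) x, inner_op, inner_op]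
  congr 1
  funext g
  simp only [fn]
  ring

omit [CompleteSpace V] in
theorem U_mul (h g : H) (x : V) : U (h * g) x = U h (U g x) := by
  rw [map_mul]
  rfl

omit [CompleteSpace V] in
theorem inner_U_left (h : H) (x y : V) : ⟪U h x, y⟫ = ⟪x, U h⁻¹ y⟫ := by
  have h1 : U h (U h⁻¹ y) = y := by
    rw [← U_mul, mul_inv_cancel, map_one]
    rfl
  rw [← LinearIsometryEquiv.inner_map_map (U h) x (U h⁻¹ y), h1]

omit [CompleteSpace V] in
theorem inner_U_right (h : H) (x y : V) : ⟪x, U h y⟫ = ⟪U h⁻¹ x, y⟫ := by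
  rw [real_inner_comm, inner_U_left, real_inner_comm]

theorem op_comm (hm : IsMean H m) (h : H) (x : V) : op U η hm (U h x) = U h (op U η hm x) := by
  apply ext_inner_right ℝ
  intro y
  rw [inner_U_left, inner_op, inner_op, ← hm.left h _ (bd_fn U η (U h x) y)]
  congr 1
  funext g
  simp only [fn]
  rw [U_mul, LinearIsometryEquiv.inner_map_map, inner_U_right U h y (U g η)]

theorem op_eq_zero (hm : IsMean H m) (x : V) (hx : ∀ g, ⟪x, U g η⟫ = 0) : op U η hm x = 0 := by
  apply ext_inner_right ℝ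
  intro y
  rw [inner_op, inner_zero_left]
  have : fn U η x y = fun _ => 0 := by
    funext g
    simp [fn, hx g]
  rw [this, m_const hm]

/-- Bessel: orthonormal families of eigenvectors are bounded. -/
theorem card_le (hm : IsMean H m) {lam : ℝ} {n : ℕ} (b : Fin n → V) (hb : Orthonormal ℝ b)
    (hlam : ∀ i, op U η hm (b i) = lam • b i) : n * lam ≤ ‖η‖ ^ 2 := by
  have h1 : ∀ i, m (fn U η (b i) (b i)) = lam := by
    intro i
    rw [← inner_op U η hm, hlam i, real_inner_smul_left, real_inner_self_eq_norm_sq, hb.1 i]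
    simp
  have h2 : ∀ s : Finset (Fin n), Bd (fun g => ∑ i ∈ s, fn U η (b i) (b i) g) ∧
      m (fun g => ∑ i ∈ s, fn U η (b i) (b i) g) = ∑ i ∈ s, m (fn U η (b i) (b i)) := by
    intro s
    induction s using Finset.induction_on with
    | empty => exact ⟨by simpa using bd_const 0, by simpa using m_const hm 0⟩
    | insert a s ha ih =>
      obtain ⟨⟨C, hC⟩, h⟩ := ih
      obtain ⟨D, hD⟩ := bd_fn U η (b a) (b a)
      constructor
      · refine ⟨D + C, fun g => ?_⟩
        simp only [Finset.sum_insert ha]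
        exact (abs_add_le _ _).trans (add_le_add (hD g) (hC g))
      · rw [Finset.sum_insert ha, ← h, ← hm.add _ _ ⟨D, hD⟩ ⟨C, hC⟩]
        congr 1
        funext g
        rw [Finset.sum_insert ha]
  obtain ⟨hbd, hs⟩ := h2 Finset.univ
  have h3 : m (fun g => ∑ i, fn U η (b i) (b i) g) ≤ ‖η‖ ^ 2 := by
    rw [← m_const hm (‖η‖ ^ 2)]
    apply m_mono hm hbd (bd_const _)
    intro g
    have h4 := hb.sum_inner_products_le (x := U g η) (s := Finset.univ)
    rw [LinearIsometryEquiv.norm_map] at h4
    refine le_trans (le_of_eq ?_) h4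
    apply Finset.sum_congr rfl
    intro i _
    simp only [fn, Real.norm_eq_abs, sq_abs]
    ring
  rw [hs] at h3
  simpa [h1] using h3

end Form

section Main

variable {H : Type u} [Group H] {m : (H → ℝ) → ℝ}
  {V : Type v} [NormedAddCommGroup V] [InnerProductSpace ℝ V]
  (U : H →* (V ≃ₗᵢ[ℝ] V)) (η : V)

/-- The vectors fixed by `A`. -/
def fixed (A : Subgroup H) : Submodule ℝ V where
  carrier := {v | ∀ a ∈ A, U a v = v}
  add_mem' := by
    intro x y hx hy a ha
    rw [map_add, hx a ha, hy a ha]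
  zero_mem' := fun a _ => map_zero _
  smul_mem' := by
    intro c x hx a ha
    rw [map_smul, hx a ha]

theorem mem_fixed {A : Subgroup H} {v : V} : v ∈ fixed U A ↔ ∀ a ∈ A, U a v = v := Iff.rfl

theorem isClosed_fixed (A : Subgroup H) : IsClosed (fixed U A : Set V) := by
  have h : (fixed U A : Set V) = ⋂ a ∈ A, {v : V | U a v = v} := by
    ext v
    simp [mem_fixed]
  rw [h]
  exact isClosed_biInter fun a _ => isClosed_eq (U a).continuous continuous_id

variable [CompleteSpace V]

instance (A : Subgroup H) : (fixed U A).HasOrthogonalProjection := by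
  have : CompleteSpace (fixed U A) := (isClosed_fixed U A).completeSpace_coe
  infer_instance

theorem proj_U {A : Subgroup H} {a : H} (ha : a ∈ A) (v : V) :
    (fixed U A).starProjection (U a v) = (fixed U A).starProjection v := by
  apply eq_starProjection_of_mem_of_inner_eq_zero
  · exact starProjection_apply_mem _ _
  · intro w hw
    have h1 : ⟪U a v, w⟫ = ⟪v, w⟫ := by
      rw [inner_U_left, mem_fixed U |>.1 hw _ (A.inv_mem ha)]
    have h2 := starProjection_inner_eq_zero (K := fixed U A) v w hw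
    rw [inner_sub_left] at h2 ⊢
    rw [h1]
    exact h2

/-- The finite dimensional space spanned by the projections of the orbit of `η`. -/
noncomputable def V0 (A : Subgroup H) : Submodule ℝ V :=
  span ℝ (Set.range fun g : H => (fixed U A).starProjection (U g η))

theorem V0_le (A : Subgroup H) : V0 U η A ≤ fixed U A := by
  unfold V0
  rw [span_le]
  rintro _ ⟨g, rfl⟩
  exact starProjection_apply_mem _ _

theorem V0_fd {A B : Subgroup H} {S : Finset H}
    (hS : ∀ h : H, ∃ g ∈ S, ∃ a ∈ A, ∃ b ∈ B, h = a * g * b) (hη : ∀ b ∈ B, U b η = η) :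
    FiniteDimensional ℝ (V0 U η A) := by
  unfold V0
  apply FiniteDimensional.span_of_finite
  apply (S.finite_toSet.image fun g : H => (fixed U A).starProjection (U g η)).subset
  rintro _ ⟨h, rfl⟩
  obtain ⟨g, hg, a, ha, b, hb, rfl⟩ := hS h
  refine ⟨g, hg, ?_⟩
  simp only
  rw [U_mul, U_mul, hη b hb, proj_U U ha]

theorem inner_proj {A : Subgroup H} {v w : V} (hw : w ∈ fixed U A) :
    ⟪(fixed U A).starProjection v, w⟫ = ⟪v, w⟫ := by
  have h2 := starProjection_inner_eq_zero (K := fixed U A) v w hw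
  rw [inner_sub_left] at h2
  linarith

theorem op_mem (hm : IsMean H m) (A : Subgroup H) [FiniteDimensional ℝ (V0 U η A)] {v : V}
    (hv : v ∈ fixed U A) : op U η hm v ∈ V0 U η A := by
  have h1 : op U η hm v ∈ fixed U A := by
    intro a ha
    rw [← op_comm, hv a ha]
  set w := (V0 U η A).starProjection (op U η hm v) with hw
  have hwm : w ∈ V0 U η A := starProjection_apply_mem _ _
  have hr : op U η hm v - w ∈ fixed U A := Submodule.sub_mem _ h1 (V0_le U η A hwm)
  have horth : op U η hm v - w ∈ (V0 U η A)ᗮ := sub_starProjection_mem_orthogonal _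
  have h2 : ⟪op U η hm v - w, op U η hm v - w⟫ = 0 := by
    rw [inner_sub_left]
    have h3 : ⟪w, op U η hm v - w⟫ = 0 := horth w hwm
    rw [h3, inner_op]
    have : fn U η v (op U η hm v - w) = fun _ => 0 := by
      funext g
      unfold fn
      have h4 : ⟪op U η hm v - w, U g η⟫ = 0 := by
        rw [real_inner_comm, ← inner_proj U hr]
        exact horth _ (subset_span ⟨g, rfl⟩)
      rw [h4, mul_zero]
    rw [this, m_const hm, sub_zero]
  have h5 : op U η hm v - w = 0 := inner_self_eq_zero.1 h2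
  rw [sub_eq_zero.1 h5]
  exact hwm

theorem exists_eigen (hm : IsMean H m) (W : Submodule ℝ V) [FiniteDimensional ℝ W]
    (hW : ∀ v ∈ W, op U η hm v ∈ W) {v : V} (hv : v ∈ W) (hpos : 0 < ⟪op U η hm v, v⟫) :
    ∃ lam : ℝ, 0 < lam ∧ ∃ x ∈ W, x ≠ 0 ∧ op U η hm x = lam • x := by
  set T : W →ₗ[ℝ] W := (op U η hm).restrict hW with hT
  have hTv : ∀ x : W, ((T x : W) : V) = op U η hm x := fun x => rfl
  have hsymm : T.IsSymmetric := by
    intro x y
    rw [Submodule.coe_inner, Submodule.coe_inner, hTv, hTv]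
    exact op_symm U η hm _ _
  have hv0 : (⟨v, hv⟩ : W) ≠ 0 := by
    intro h
    have : v = 0 := congrArg Subtype.val h
    rw [this] at hpos
    simp at hpos
  have : Nontrivial W := ⟨⟨_, _, hv0⟩⟩
  have he := hsymm.hasEigenvalue_iSup_of_finiteDimensional
  set lam : ℝ := ⨆ x : { x : W // x ≠ 0 }, RCLike.re ⟪T x, x⟫ / ‖(x : W)‖ ^ 2 with hlam
  have hb : BddAbove (Set.range fun x : { x : W // x ≠ 0 } =>
      RCLike.re ⟪T x, (x : W)⟫ / ‖(x : W)‖ ^ 2) := by
    refine ⟨‖η‖ ^ 2, ?_⟩
    rintro _ ⟨⟨x, hx⟩, rfl⟩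
    have hx0 : 0 < ‖x‖ := norm_pos_iff.2 hx
    simp only [RCLike.re_to_real]
    rw [div_le_iff₀ (by positivity)]
    have h1 := abs_bil U η hm (x : V) (x : V)
    rw [bil_apply, ← inner_op U η hm] at h1
    have h2 : ⟪T x, x⟫ = ⟪op U η hm (x : V), (x : V)⟫ := by
      rw [Submodule.coe_inner, hTv]
    rw [h2]
    have h3 := (abs_le.1 h1).2
    have h4 : ‖(x : V)‖ = ‖x‖ := rfl
    rw [h4] at h3
    nlinarith
  have hl : 0 < lam := by
    refine lt_of_lt_of_le ?_ (le_ciSup hb ⟨⟨v, hv⟩, hv0⟩)
    simp only [RCLike.re_to_real]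
    apply div_pos
    · rw [Submodule.coe_inner, hTv]
      exact hpos
    · have : 0 < ‖(⟨v, hv⟩ : W)‖ := norm_pos_iff.2 hv0
      positivity
  obtain ⟨x, hx⟩ := he.exists_hasEigenvector
  refine ⟨lam, hl, x, x.2, ?_, ?_⟩
  · intro h
    exact hx.2 (Subtype.ext h)
  · have := hx.apply_eq_smul
    rw [← hTv, this]
    rfl

theorem eigen_fd (hm : IsMean H m) {lam : ℝ} (hlam : 0 < lam) :
    FiniteDimensional ℝ (Module.End.eigenspace (op U η hm) lam) := by
  set E := Module.End.eigenspace (op U η hm) lam with hE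
  obtain ⟨n, hn⟩ := exists_nat_ge (‖η‖ ^ 2 / lam)
  have hr : Module.rank ℝ E ≤ n := by
    apply _root_.rank_le
    intro s hs
    have : FiniteDimensional ℝ (span ℝ (s : Set E)) := FiniteDimensional.span_finset ℝ s
    have hcard : Module.finrank ℝ (span ℝ (s : Set E)) = s.card := finrank_span_finset_eq_card hs
    set b := stdOrthonormalBasis ℝ (span ℝ (s : Set E)) with hb
    have ho : Orthonormal ℝ (fun i => (((b i : span ℝ (s : Set E)) : E) : V)) :=
      (b.orthonormal.comp_linearIsometry (span ℝ (s : Set E)).subtypeₗᵢ).comp_linearIsometry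
        E.subtypeₗᵢ
    have h1 := card_le U η hm _ ho (fun i => Module.End.mem_eigenspace_iff.1 (b i : E).2)
    rw [hcard] at h1
    have h2 : (s.card : ℝ) ≤ ‖η‖ ^ 2 / lam := by
      rw [le_div_iff₀ hlam]
      exact h1
    exact_mod_cast h2.trans hn
  rw [FiniteDimensional, ← Module.rank_lt_aleph0_iff]
  exact hr.trans_lt (Cardinal.natCast_lt_aleph0)

end Main

end WM

open WM in
/-- **Weak mixing.** -/
theorem weak_mixing {H : Type u} [Group H] {m : (H → ℝ) → ℝ} (hm : IsMean H m)
    {V : Type v} [NormedAddCommGroup V] [InnerProductSpace ℝ V] [CompleteSpace V]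
    (U : H →* (V ≃ₗᵢ[ℝ] V))
    (A B : Subgroup H) (S : Finset H) (hS : ∀ h : H, ∃ g ∈ S, ∃ a ∈ A, ∃ b ∈ B, h = a * g * b)
    (hpos : 0 < m (ind {h : H | ∃ a ∈ A, ∃ b ∈ B, h = a * b}))
    (hfi : ∀ D : Subgroup H, D.index ≠ 0 → D = ⊤)
    (ξ η : V) (hξ : ∀ a ∈ A, U a ξ = ξ) (hη : ∀ b ∈ B, U b η = η)
    (hη0 : ∀ ζ : V, (∀ h, U h ζ = ζ) → ⟪η, ζ⟫ = 0) : ⟪η, ξ⟫ = 0 := by
  by_contra hne
  have := V0_fd U η hS hη
  -- the projection of `η`
  set v1 : V := (fixed U A).starProjection η with hv1
  have hv1m : v1 ∈ V0 U η A := subset_span ⟨1, by simp [hv1]⟩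
  have hv1f : v1 ∈ fixed U A := V0_le U η A hv1m
  have hv10 : v1 ≠ 0 := by
    intro h
    apply hne
    rw [← inner_proj U (A := A) (v := η) (w := ξ) hξ, ← hv1, h, inner_zero_left]
  have hself : ⟪v1, η⟫ = ‖v1‖ ^ 2 := by
    rw [← real_inner_self_eq_norm_sq]
    conv_rhs => rw [hv1]
    rw [inner_proj U hv1f, real_inner_comm]
  have hK : 0 < ⟪op U η hm v1, v1⟫ := by
    rw [inner_op]
    have h1 : m (fun g => (‖v1‖ ^ 2) ^ 2 * ind {h : H | ∃ a ∈ A, ∃ b ∈ B, h = a * b} g) ≤
        m (fn U η v1 v1) := by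
      apply m_mono hm _ (bd_fn U η v1 v1)
      · intro g
        unfold fn
        by_cases hg : g ∈ {h : H | ∃ a ∈ A, ∃ b ∈ B, h = a * b}
        · obtain ⟨a, ha, b, hb, rfl⟩ := hg
          have h2 : ⟪v1, U (a * b) η⟫ = ‖v1‖ ^ 2 := by
            rw [U_mul, hη b hb, inner_U_right, hv1f _ (A.inv_mem ha), hself]
          rw [h2]
          have h3 : ind {h : H | ∃ a ∈ A, ∃ b ∈ B, h = a * b} (a * b) = 1 := by
            unfold ind
            rw [Set.indicator_of_mem]
            exact ⟨a, ha, b, hb, rfl⟩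
          rw [h3]
          nlinarith
        · have h3 : ind {h : H | ∃ a ∈ A, ∃ b ∈ B, h = a * b} g = 0 := by
            unfold ind
            rw [Set.indicator_of_notMem hg]
          rw [h3, mul_zero]
          exact mul_self_nonneg _
      · obtain ⟨C, hC⟩ := bd_ind {h : H | ∃ a ∈ A, ∃ b ∈ B, h = a * b}
        refine ⟨(‖v1‖ ^ 2) ^ 2 * C, fun x => ?_⟩
        rw [abs_mul, abs_of_nonneg (by positivity)]
        exact mul_le_mul_of_nonneg_left (hC x) (by positivity)
    rw [hm.smul _ _ (bd_ind _)] at h1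
    have h4 : 0 < ‖v1‖ := norm_pos_iff.2 hv10
    have h5 : 0 < (‖v1‖ ^ 2) ^ 2 * m (ind {h : H | ∃ a ∈ A, ∃ b ∈ B, h = a * b}) := by
      positivity
    linarith
  obtain ⟨lam, hlam, x1, hx1, hx10, hx1e⟩ := exists_eigen U η hm (V0 U η A)
    (fun v hv => op_mem U η hm A (V0_le U η A hv)) hv1m hK
  have := eigen_fd U η hm hlam
  set E := Module.End.eigenspace (op U η hm) lam with hE
  have hEm : ∀ h : H, U h x1 ∈ E := by
    intro h
    rw [hE, Module.End.mem_eigenspace_iff, op_comm, hx1e, map_smul]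
  have hx1f : x1 ∈ fixed U A := V0_le U η A hx1
  -- the finitely many values
  have hvals : (Set.range fun g : H => ⟪U g η, x1⟫).Finite := by
    apply (S.finite_toSet.image fun g : H => ⟪U g η, x1⟫).subset
    rintro _ ⟨h, rfl⟩
    obtain ⟨g, hg, a, ha, b, hb, rfl⟩ := hS h
    refine ⟨g, hg, ?_⟩
    simp only
    rw [U_mul, U_mul, hη b hb, inner_U_left U a (U g η) x1, hx1f _ (A.inv_mem ha)]
  -- finitely many elements detect the vectors of `E`
  have hleE : span ℝ (Set.range fun g : H => E.starProjection (U g η)) ≤ E := by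
    rw [span_le]
    rintro _ ⟨g, rfl⟩
    exact starProjection_apply_mem _ _
  have hfdE : FiniteDimensional ℝ (span ℝ (Set.range fun g : H => E.starProjection (U g η))) :=
    Submodule.finiteDimensional_of_le hleE
  obtain ⟨F, hFs, hFspan⟩ := (fg_span_iff_fg_span_finset_subset (R := ℝ)
    (Set.range fun g : H => E.starProjection (U g η))).1 (Module.Finite.iff_fg.1 hfdE)
  have hdet : ∀ z ∈ E, (∀ y ∈ F, ⟪y, z⟫ = 0) → z = 0 := by
    intro z hz hy
    have h1 : ∀ y ∈ span ℝ (F : Set V), ⟪y, z⟫ = 0 := by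
      intro y hy'
      induction hy' using span_induction with
      | mem y h => exact hy y h
      | zero => exact inner_zero_left _
      | add a b _ _ ha hb => rw [inner_add_left, ha, hb, add_zero]
      | smul c a _ ha => rw [real_inner_smul_left, ha, mul_zero]
    have h2 : ∀ g : H, ⟪z, U g η⟫ = 0 := by
      intro g
      have h3 : E.starProjection (U g η) ∈ span ℝ (F : Set V) := by
        rw [← hFspan]
        exact subset_span ⟨g, rfl⟩
      have h4 := h1 _ h3
      have h5 := starProjection_inner_eq_zero (K := E) (U g η) z hz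
      rw [inner_sub_left, h4, sub_zero] at h5
      rw [real_inner_comm]
      exact h5
    have h6 := op_eq_zero U η hm z h2
    rw [Module.End.mem_eigenspace_iff.1 hz] at h6
    exact (smul_eq_zero.1 h6).resolve_left hlam.ne'
  -- the orbit is finite
  have horb : (Set.range fun h : H => U h x1).Finite := by
    have hfin : (Set.univ.pi fun _ : F => Set.range fun g : H => ⟪U g η, x1⟫).Finite :=
      Set.Finite.pi fun _ => hvals
    refine Set.Finite.of_injOn (f := fun (x : V) (y : F) => ⟪(y : V), x⟫) ?_ ?_ hfin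
    · rintro _ ⟨h, rfl⟩ y _
      obtain ⟨g, hg⟩ := hFs y.2
      refine ⟨h⁻¹ * g, ?_⟩
      simp only
      rw [← hg]
      have h5 := starProjection_inner_eq_zero (K := E) (U g η) (U h x1) (hEm h)
      rw [inner_sub_left, sub_eq_zero] at h5
      rw [← h5, inner_U_right, ← U_mul]
    · rintro _ ⟨h, rfl⟩ _ ⟨h', rfl⟩ heq
      have h1 := hdet (U h x1 - U h' x1) (E.sub_mem (hEm h) (hEm h')) (by
        intro y hy
        have := congrFun heq ⟨y, hy⟩
        simp only at this
        rw [inner_sub_right, this, sub_self])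
      exact sub_eq_zero.1 h1
  -- the stabiliser
  let D : Subgroup H :=
    { carrier := {h | U h x1 = x1}
      mul_mem' := by
        intro a b ha hb
        simp only [Set.mem_ofPred_eq] at ha hb ⊢
        rw [U_mul, hb, ha]
      one_mem' := by simp
      inv_mem' := by
        intro a ha
        simp only [Set.mem_ofPred_eq] at ha ⊢
        conv_lhs => rw [← ha]
        rw [← U_mul]
        simp }
  have hD : D = ⊤ := by
    apply hfi
    have : Finite (H ⧸ D) := by
      have := horb.to_subtype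
      apply Finite.of_injective
        (fun q : H ⧸ D => (⟨U (Quotient.out q) x1, _, rfl⟩ : Set.range fun h : H => U h x1))
      intro q q' hqq
      have h1 : U (Quotient.out q) x1 = U (Quotient.out q') x1 := congrArg Subtype.val hqq
      have h2 : (Quotient.out q)⁻¹ * (Quotient.out q') ∈ D := by
        change U _ x1 = x1
        rw [U_mul, ← h1, ← U_mul]
        simp
      have h3 := QuotientGroup.eq.2 h2
      rw [← QuotientGroup.out_eq' q, ← QuotientGroup.out_eq' q']
      exact h3
    exact Subgroup.index_ne_zero_of_finite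
  have hinv : ∀ h, U h x1 = x1 := by
    intro h
    have : h ∈ D := by rw [hD]; trivial
    exact this
  have hz := hη0 x1 hinv
  have h7 := op_eq_zero U η hm x1 (by
    intro g
    rw [real_inner_comm]
    conv_lhs => rw [← hinv g]
    rw [LinearIsometryEquiv.inner_map_map]
    exact hz)
  rw [hx1e] at h7
  rcases smul_eq_zero.1 h7 with h8 | h8
  · exact hlam.ne' h8
  · exact hx10 h8


end Pool.Agent.Chern
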