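import Pool.Agent.Chern.Mean
import Pool.Agent.Chern.Kernel
import Pool.Agent.Chern.Weak
import Pool.Agent.Chern.Flat
import Pool.Agent.Chern.Data
import Pool.Agent.Chern.KernelOf

/-!
# The core theorem
-/

set_option autoImplicit false

open scoped RealInnerProductSpace

namespace Pool.Agent.Chern

universe u v

section Hilb

variable {V : Type v} [NormedAddCommGroup V] [InnerProductSpace ℝ V] [CompleteSpace V]

/-- projections, elementary form -/
theorem exists_proj (K : Submodule ℝ V) (hK : IsClosed (K : Set V)) (x : V) :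
    ∃ q ∈ K, ∀ ζ ∈ K, ⟪x - q, ζ⟫ = 0 := by
  have : CompleteSpace K := hK.completeSpace_coe
  refine ⟨K.starProjection x, K.starProjection_apply_mem x, fun ζ hζ => ?_⟩
  exact K.starProjection_inner_eq_zero x ζ hζ

omit [CompleteSpace V] in
theorem proj_unique (K : Submodule ℝ V) {x p q : V} (hp : p ∈ K) (hq : q ∈ K) (h1 : ∀ ζ ∈ K, ⟪x - p, ζ⟫ = 0)
    (h2 : ∀ ζ ∈ K, ⟪x - q, ζ⟫ = 0) : p = q := by
  have h3 : ⟪p - q, p - q⟫ = 0 := by
    have h4 := h1 _ (K.sub_mem hp hq)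
    have h5 := h2 _ (K.sub_mem hp hq)
    have h6 : p - q = (x - q) - (x - p) := by abel
    calc ⟪p - q, p - q⟫ = ⟪(x - q) - (x - p), p - q⟫ := by rw [← h6]
      _ = 0 := by rw [inner_sub_left, h5, h4, sub_zero]
  exact sub_eq_zero.1 (inner_self_eq_zero.1 h3)

/-- the vectors fixed by the elements of a subgroup -/
def Fix {H : Type u} [Group H] (U : H →* (V ≃ₗᵢ[ℝ] V)) (B : Subgroup H) : Submodule ℝ V where
  carrier := {ζ | ∀ b ∈ B, U b ζ = ζ}
  zero_mem' := fun b _ => map_zero _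
  add_mem' := fun {x y} hx hy b hb => by rw [map_add, hx b hb, hy b hb]
  smul_mem' := fun c x hx b hb => by rw [map_smul, hx b hb]

omit [CompleteSpace V] in
theorem mem_Fix {H : Type u} [Group H] {U : H →* (V ≃ₗᵢ[ℝ] V)} {B : Subgroup H} {ζ : V} :
    ζ ∈ Fix U B ↔ ∀ b ∈ B, U b ζ = ζ := Iff.rfl

omit [CompleteSpace V] in
theorem isClosed_Fix {H : Type u} [Group H] (U : H →* (V ≃ₗᵢ[ℝ] V)) (B : Subgroup H) : IsClosed (Fix U B : Set V) := by
  have : (Fix U B : Set V) = ⋂ b : B, {ζ | U b ζ = ζ} := by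
    ext ζ
    simp only [SetLike.mem_coe, mem_Fix, Set.mem_iInter, Set.mem_ofPred_eq, Subtype.forall]
  rw [this]
  exact isClosed_iInter fun b => isClosed_eq (U b).continuous continuous_id

omit [CompleteSpace V] in
theorem inner_map_left {H : Type u} [Group H] (U : H →* (V ≃ₗᵢ[ℝ] V)) (g : H) (x y : V) : ⟪U g x, y⟫ = ⟪x, U g⁻¹ y⟫ := by
  have h := (U g).inner_map_map x (U g⁻¹ y)
  have h2 : U g (U g⁻¹ y) = y := by
    have : (U g * U g⁻¹) y = y := by rw [← map_mul, mul_inv_cancel, map_one]; rfl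
    exact this
  rw [h2] at h
  exact h

/-- the mean ergodic theorem, weak form, for a vector orthogonal to the invariant vectors -/
theorem mean_zero {H : Type u} [Group H] {m : (H → ℝ) → ℝ} (hm : IsMean H m) (U : H →* (V ≃ₗᵢ[ℝ] V)) (x : V)
    (hx : ∀ ζ ∈ Fix U ⊤, ⟪x, ζ⟫ = 0) (z : V) : m (fun g => ⟪U g x, z⟫) = 0 := by
  have hbd : ∀ z : V, Bd fun g => ⟪U g x, z⟫ := fun z => ⟨‖x‖ * ‖z‖, fun g => by
    have h1 := abs_real_inner_le_norm (U g x) z
    rwa [(U g).norm_map] at h1⟩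
  let φ : V →ₗ[ℝ] ℝ :=
    { toFun := fun z => m (fun g => ⟪U g x, z⟫)
      map_add' := fun y z => by
        rw [← hm.add _ _ (hbd y) (hbd z)]
        congr 1
        ext g
        exact inner_add_right _ _ _
      map_smul' := fun c z => by
        rw [RingHom.id_apply, smul_eq_mul, ← hm.smul c _ (hbd z)]
        congr 1
        ext g
        exact inner_smul_right _ _ _ }
  have hφ : ∀ z, ‖φ z‖ ≤ ‖x‖ * ‖z‖ := fun z => by
    rw [Real.norm_eq_abs]
    refine hm.abs_le (hbd z) fun g => ?_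
    have h1 := abs_real_inner_le_norm (U g x) z
    rwa [(U g).norm_map] at h1
  let Φ : V →L[ℝ] ℝ := φ.mkContinuous ‖x‖ hφ
  let w : V := (InnerProductSpace.toDual ℝ V).symm Φ
  have hw : ∀ z, ⟪w, z⟫ = m (fun g => ⟪U g x, z⟫) := fun z => by
    simp only [w, InnerProductSpace.toDual_symm_apply]
    rfl
  have hwi : w ∈ Fix U ⊤ := by
    rw [mem_Fix]
    intro k _
    refine ext_inner_right ℝ fun z => ?_
    rw [inner_map_left, hw, hw, ← hm.left k (fun g => ⟪U g x, z⟫) (hbd z)]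
    congr 1
    ext g
    rw [← inner_map_left, map_mul]
    rfl
  have hw0 : ⟪w, w⟫ = 0 := by
    rw [hw]
    have : (fun g => ⟪U g x, w⟫) = fun _ => 0 := by
      ext g
      rw [inner_map_left, (mem_Fix.1 hwi) g⁻¹ (Subgroup.mem_top _)]
      exact hx w hwi
    rw [this, hm.const]
  have hw1 : w = 0 := inner_self_eq_zero.1 hw0
  rw [← hw, hw1, inner_zero_left]

end Hilb

section Main

variable {H : Type u} [Group H] {m : (H → ℝ) → ℝ}

/-- the action of `H × H` on `H` -/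
@[reducible] def act2 (H : Type u) [Group H] : MulAction (H × H) H where
  smul p x := p.1 * x * p.2⁻¹
  one_smul x := by
    change (1 : H × H).1 * x * (1 : H × H).2⁻¹ = x
    simp
  mul_smul p q x := by
    change (p * q).1 * x * (p * q).2⁻¹ = p.1 * (q.1 * x * q.2⁻¹) * p.2⁻¹
    rw [Prod.fst_mul, Prod.snd_mul]
    group

/-- **step (7)**: no left invariant vectors -/
theorem no_inv (hm : IsMean H m) (T C : Subgroup H) (hTfg : T.FG) (hTi : NFI T)
    (hTC : ∀ h : H, ∃ t ∈ T, h⁻¹ * t * h ∉ C)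
    {V : Type v} [NormedAddCommGroup V] [InnerProductSpace ℝ V] (e : H → V) (L : H → (V ≃ₗᵢ[ℝ] V))
    (he : ∀ x z, ⟪e x, e z⟫ = ker m C x z) (hL : ∀ t x, L t (e x) = e (t * x))
    (hd : Dense (Submodule.span ℝ (Set.range e) : Set V)) (v : V) (hv : ∀ t ∈ T, L t v = v) : v = 0 := by
  classical
  -- infinite orbits
  have horb : ∀ ω : H ⧸ C, (MulAction.orbit T ω).Infinite := by
    intro ω hfin
    obtain ⟨h, rfl⟩ := QuotientGroup.mk_surjective ω
    have : Finite (MulAction.orbit T (QuotientGroup.mk h : H ⧸ C)) := hfin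
    have h1 : (MulAction.stabilizer T (QuotientGroup.mk h : H ⧸ C)).index ≠ 0 := by
      have h2 : Finite (T ⧸ MulAction.stabilizer T (QuotientGroup.mk h : H ⧸ C)) :=
        Finite.of_equiv _ (MulAction.orbitEquivQuotientStabilizer T (QuotientGroup.mk h : H ⧸ C))
      exact Subgroup.index_ne_zero_of_finite
    let D : Subgroup H := (MulAction.stabilizer T (QuotientGroup.mk h : H ⧸ C)).map T.subtype
    have h3 : D.relIndex T ≠ 0 := by
      have h4 : D.subgroupOf T = MulAction.stabilizer T (QuotientGroup.mk h : H ⧸ C) := by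
        simp only [D, Subgroup.subgroupOf]
        exact Subgroup.comap_map_eq_self_of_injective T.subtype_injective _
      rw [Subgroup.relIndex, h4]
      exact h1
    have h5 := hTi D h3
    obtain ⟨t, ht, hn⟩ := hTC h
    obtain ⟨t', ht', rfl⟩ := h5 ht
    apply hn
    have h6 : (t' • (QuotientGroup.mk h : H ⧸ C)) = QuotientGroup.mk h := ht'
    have h7 : (QuotientGroup.mk ((t' : H) * h) : H ⧸ C) = QuotientGroup.mk h := h6
    rw [eq_comm, QuotientGroup.eq] at h7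
    simpa [mul_assoc] using h7
  have hfg : Group.FG T := (Group.fg_iff_subgroup_fg T).2 hTfg
  -- the averages
  have havg : ∀ ε : ℝ, 0 < ε → ∃ c : T →₀ ℝ, (∀ t, 0 ≤ c t) ∧ (c.sum fun _ a => a) = 1 ∧
      ∀ x : H, ‖c.sum fun t a => a • L (t : H) (e x)‖ ^ 2 ≤ ε := by
    intro ε hε
    obtain ⟨c, hc0, hc1, hc⟩ := flat hfg horb ε hε
    refine ⟨c, hc0, hc1, fun x => ?_⟩
    rw [← real_inner_self_eq_norm_sq]
    have h1 : ⟪c.sum fun t a => a • L (t : H) (e x), c.sum fun t a => a • L (t : H) (e x)⟫ =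
        ∑ t ∈ c.support, ∑ t' ∈ c.support, c t * c t' * ker m C (t * x) (t' * x) := by
      unfold Finsupp.sum
      rw [sum_inner]
      refine Finset.sum_congr rfl fun t _ => ?_
      rw [inner_sum]
      refine Finset.sum_congr rfl fun t' _ => ?_
      rw [inner_smul_left, inner_smul_right, hL, hL, he]
      simp [mul_assoc]
    rw [h1]
    have hb : ∀ t t' : T, Bd fun h : H => c t * c t' *
        ind {w : H ⧸ C | w = (QuotientGroup.mk ((t' : H) * x * h) : H ⧸ C)} (QuotientGroup.mk ((t : H) * x * h)) :=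
      fun t t' => Bd.smul _ (bd_of_mem (C := 1) (fun h => ind_nonneg _ _) fun h => ind_le_one _ _)
    have h2 : ∑ t ∈ c.support, ∑ t' ∈ c.support, c t * c t' * ker m C (t * x) (t' * x) =
        m (fun h => ∑ t ∈ c.support, ∑ t' ∈ c.support, c t * c t' *
          ind {w : H ⧸ C | w = (QuotientGroup.mk ((t' : H) * x * h) : H ⧸ C)} (QuotientGroup.mk ((t : H) * x * h))) := by
      rw [hm.sum _ fun t _ => bd_sum _ fun t' _ => hb t t']
      refine Finset.sum_congr rfl fun t _ => ?_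
      rw [hm.sum _ fun t' _ => hb t t']
      refine Finset.sum_congr rfl fun t' _ => ?_
      rw [hm.smul _ _ (bd_of_mem (C := 1) (fun h => ind_nonneg _ _) fun h => ind_le_one _ _)]
      unfold ker
      congr 2
      ext h
      exact ind_ker C _ _ h
    rw [h2]
    refine hm.le_const (bd_sum _ fun t _ => bd_sum _ fun t' _ => hb t t') fun h => ?_
    have h3 := hc (QuotientGroup.mk (x * h))
    unfold Finsupp.sum at h3
    refine le_trans (le_of_eq ?_) h3
    refine Finset.sum_congr rfl fun t _ => Finset.sum_congr rfl fun t' _ => ?_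
    have h4 : ∀ s : T, (s • (QuotientGroup.mk (x * h) : H ⧸ C)) = QuotientGroup.mk ((s : H) * x * h) := by
      intro s
      rw [mul_assoc]
      rfl
    simp only [h4]
  -- for vectors of the span
  have hspan : ∀ w ∈ Submodule.span ℝ (Set.range e), ∀ δ : ℝ, 0 < δ → ∃ ε : ℝ, 0 < ε ∧ ∀ c : T →₀ ℝ,
      (∀ x : H, ‖c.sum fun t a => a • L (t : H) (e x)‖ ^ 2 ≤ ε) → ‖c.sum fun t a => a • L (t : H) w‖ ≤ δ := by
    intro w hw
    induction hw using Submodule.span_induction with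
    | mem x hx =>
      obtain ⟨y, rfl⟩ := hx
      intro δ hδ
      refine ⟨δ ^ 2, by positivity, fun c hc => ?_⟩
      exact le_of_sq_le_sq (hc y) hδ.le
    | zero =>
      intro δ hδ
      refine ⟨1, one_pos, fun c _ => ?_⟩
      simp [Finsupp.sum, hδ.le]
    | add x y _ _ ihx ihy =>
      intro δ hδ
      obtain ⟨ε1, h1, k1⟩ := ihx (δ / 2) (by positivity)
      obtain ⟨ε2, h2, k2⟩ := ihy (δ / 2) (by positivity)
      refine ⟨min ε1 ε2, lt_min h1 h2, fun c hc => ?_⟩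
      have e1 := k1 c fun x => (hc x).trans (min_le_left _ _)
      have e2 := k2 c fun x => (hc x).trans (min_le_right _ _)
      have e3 : (c.sum fun t a => a • L (t : H) (x + y)) = (c.sum fun t a => a • L (t : H) x) + c.sum fun t a => a • L (t : H) y := by
        rw [← Finsupp.sum_add]
        refine Finsupp.sum_congr fun t _ => ?_
        rw [map_add, smul_add]
      rw [e3]
      exact (norm_add_le _ _).trans (by linarith)
    | smul a x _ ih =>
      intro δ hδ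
      obtain ⟨ε1, h1, k1⟩ := ih (δ / (|a| + 1)) (by positivity)
      refine ⟨ε1, h1, fun c hc => ?_⟩
      have e1 := k1 c hc
      have e3 : (c.sum fun t b => b • L (t : H) (a • x)) = a • c.sum fun t b => b • L (t : H) x := by
        rw [Finsupp.smul_sum]
        refine Finsupp.sum_congr fun t _ => ?_
        rw [map_smul, smul_comm]
      rw [e3, norm_smul, Real.norm_eq_abs]
      have h4 : |a| * ‖c.sum fun t b => b • L (t : H) x‖ ≤ |a| * (δ / (|a| + 1)) := mul_le_mul_of_nonneg_left e1 (abs_nonneg a)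
      refine h4.trans ?_
      rw [mul_div_assoc', div_le_iff₀ (by positivity)]
      nlinarith [abs_nonneg a]
  -- conclusion
  have hle : ∀ δ : ℝ, 0 < δ → ‖v‖ ≤ 2 * δ := by
    intro δ hδ
    obtain ⟨w, hw, hvw⟩ : ∃ w ∈ Submodule.span ℝ (Set.range e), ‖v - w‖ < δ := by
      obtain ⟨w, hw, hd'⟩ := Metric.dense_iff.1 hd v δ hδ
      refine ⟨w, hd', ?_⟩
      rw [Metric.mem_ball, dist_comm, dist_eq_norm] at hw
      exact hw
    obtain ⟨ε, hε, hk⟩ := hspan w hw δ hδ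
    obtain ⟨c, hc0, hc1, hc⟩ := havg ε hε
    have h1 := hk c hc
    have h2 : v = (c.sum fun t a => a • L (t : H) (v - w)) + c.sum fun t a => a • L (t : H) w := by
      rw [← Finsupp.sum_add]
      have h3 : ∀ t ∈ c.support, c t • L (t : H) (v - w) + c t • L (t : H) w = c t • v := by
        intro t _
        rw [← smul_add, ← map_add, sub_add_cancel, hv t t.2]
      rw [Finsupp.sum, Finset.sum_congr rfl h3, ← Finset.sum_smul]
      unfold Finsupp.sum at hc1
      rw [hc1, one_smul]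
    have h4 : ‖c.sum fun t a => a • L (t : H) (v - w)‖ ≤ ‖v - w‖ := by
      unfold Finsupp.sum
      refine (norm_sum_le _ _).trans ?_
      have h5 : ∀ t ∈ c.support, ‖c t • L (t : H) (v - w)‖ = c t * ‖v - w‖ := by
        intro t _
        rw [norm_smul, (L (t : H)).norm_map, Real.norm_eq_abs, abs_of_nonneg (hc0 t)]
      rw [Finset.sum_congr rfl h5, ← Finset.sum_mul]
      unfold Finsupp.sum at hc1
      rw [hc1, one_mul]
    calc ‖v‖ = ‖(c.sum fun t a => a • L (t : H) (v - w)) + c.sum fun t a => a • L (t : H) w‖ := by rw [← h2]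
      _ ≤ ‖v - w‖ + δ := (norm_add_le _ _).trans (add_le_add h4 h1)
      _ ≤ 2 * δ := by linarith
  have h0 : ‖v‖ ≤ 0 := by
    refine le_of_forall_pos_le_add fun δ hδ => ?_
    have := hle (δ / 2) (by positivity)
    linarith
  exact norm_le_zero_iff.1 h0


/-- the core theorem when the double coset `A B` has positive measure -/
theorem core_aux (hm : IsMean H m) (hr : ∀ (g : H) (f : H → ℝ), Bd f → m (fun x => f (x * g)) = m f)
    (A B T : Subgroup H) (hA : ∀ x ∈ A, ∀ y ∈ A, x * y = y * x)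
    (hB : ∀ x ∈ B, ∀ y ∈ B, x * y = y * x) (hAi : NFI A) (hBi : NFI B) (S : Finset H)
    (hS : ∀ h : H, ∃ g ∈ S, ∃ a ∈ A, ∃ b ∈ B, h = a * g * b) (hfi : ∀ D : Subgroup H, D.index ≠ 0 → D = ⊤)
    (hTn : T.Normal) (hTfg : T.FG) (hTi : NFI T) (hTmin : ∀ N : Subgroup H, N.Normal → N ≠ ⊥ → T ≤ N)
    (hTc : Subgroup.centralizer (T : Set H) = ⊥) (hT : T ≠ ⊥) (hpos : 0 < m (ind (AB A B))) : False := by
  classical
  obtain ⟨a, ha, a'', ha'', b', hb', b'', hb'', y, e1, hne, hy, hI⟩ :=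
    exists_data hm hr A B T hA hB hAi hBi hfi hTmin hTc hT hpos
  set C : Subgroup H := Subgroup.centralizer {y} with hC
  let _ := act2 H
  obtain ⟨V, i1, i2, i3, e, Φ, he, hΦ, hd⟩ := exists_rep (X := H) (Γ := H × H) (ker m C) (ker_symm m C)
    (ker_pos hm C) (fun γ x z => ker_inv hm C γ.1 γ.2 x z)
  have hΦ' : ∀ g r x, Φ (g, r) (e x) = e (g * x * r⁻¹) := fun g r x => hΦ (g, r) x
  have hmul : ∀ p q : H × H, ∀ x : V, Φ p (Φ q x) = Φ (p * q) x := fun p q x => by rw [map_mul]; rfl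
  -- conjugation
  let U : H →* (V ≃ₗᵢ[ℝ] V) := Φ.comp ((MonoidHom.id H).prod (MonoidHom.id H))
  have hU : ∀ g, U g = Φ (g, g) := fun g => rfl
  -- no invariant vectors
  have hTC : ∀ h : H, ∃ t ∈ T, h⁻¹ * t * h ∉ C := by
    intro h
    by_contra hcon
    push Not at hcon
    have h1 : h * y * h⁻¹ ∈ Subgroup.centralizer (T : Set H) := by
      rw [Subgroup.mem_centralizer_iff]
      intro t ht
      have h2 := hcon t ht
      rw [hC, Subgroup.mem_centralizer_iff] at h2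
      have h3 := h2 y rfl
      calc t * (h * y * h⁻¹) = h * (h⁻¹ * t * h * y) * h⁻¹ := by group
        _ = h * (y * (h⁻¹ * t * h)) * h⁻¹ := by rw [← h3]
        _ = h * y * h⁻¹ * t := by group
    rw [hTc, Subgroup.mem_bot] at h1
    apply hy
    have : y = h⁻¹ * (h * y * h⁻¹) * h := by group
    rw [this, h1]
    group
  have hno : ∀ v : V, (∀ t ∈ T, Φ (t, 1) v = v) → v = 0 := by
    intro v hv
    refine no_inv hm T C hTfg hTi hTC e (fun t => Φ (t, 1)) he (fun t x => ?_) hd v hv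
    rw [hΦ']
    simp
  -- projections of `e a`
  have hAe : ∀ c ∈ A, ∃ q ∈ Fix U ⊤, (∀ ζ ∈ Fix U ⊤, ⟪e c - q, ζ⟫ = 0) ∧ ∀ ζ ∈ Fix U B, ⟪e c - q, ζ⟫ = 0 := by
    intro c hc
    obtain ⟨q, hq, hq1⟩ := exists_proj (Fix U ⊤) (isClosed_Fix U ⊤) (e c)
    refine ⟨q, hq, hq1, fun ζ hζ => ?_⟩
    obtain ⟨p, hp, hp1⟩ := exists_proj (Fix U ⊤) (isClosed_Fix U ⊤) ζ
    have h1 : ⟪ζ - p, e c - q⟫ = 0 := by
      refine weak_mixing hm U A B S hS hpos hfi (e c - q) (ζ - p) ?_ ?_ ?_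
      · intro α hα
        rw [map_sub, (mem_Fix.1 hq) α (Subgroup.mem_top _), hU, hΦ', hA α hα c hc, mul_inv_cancel_right]
      · intro β hβ
        rw [map_sub, (mem_Fix.1 hζ) β hβ, (mem_Fix.1 hp) β (Subgroup.mem_top _)]
      · intro z hz
        exact hp1 z (mem_Fix.2 fun b _ => hz b)
    have h2 : ⟪e c - q, p⟫ = 0 := hq1 p hp
    have h3 : ζ = (ζ - p) + p := by abel
    rw [h3, inner_add_right, h2, add_zero, real_inner_comm]
    exact h1
  obtain ⟨v, hv, hv0, hv1⟩ := hAe a ha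
  obtain ⟨v2, hv2, -, hv3⟩ := hAe a''⁻¹ (A.inv_mem ha'')
  have hle : Fix U ⊤ ≤ Fix U B := fun ζ hζ b _ => hζ b (Subgroup.mem_top _)
  -- the two expressions for the projection of `e (a b'⁻¹)`
  have e2 : a * b'⁻¹ = b''⁻¹ * a''⁻¹ := by
    have h1 : (b' * a⁻¹)⁻¹ = (a'' * b'')⁻¹ := by rw [e1]
    rw [mul_inv_rev, mul_inv_rev, inv_inv] at h1
    exact h1
  have hkey : Φ (1, b') v = Φ (b''⁻¹, 1) v2 := by
    have hcB : ∀ p : H × H, (∀ b ∈ B, p * (b, b) = (b, b) * p) → ∀ ζ ∈ Fix U B, Φ p ζ ∈ Fix U B := by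
      intro p hp ζ hζ
      rw [mem_Fix]
      intro b hb
      rw [hU, hmul, ← hp b hb, ← hmul, ← hU, (mem_Fix.1 hζ) b hb]
    have hcI : ∀ p : H × H, (∀ b ∈ B, p * (b, b) = (b, b) * p) → ∀ c q : V, (∀ ζ ∈ Fix U B, ⟪c - q, ζ⟫ = 0) →
        ∀ ζ ∈ Fix U B, ⟪Φ p c - Φ p q, ζ⟫ = 0 := by
      intro p hp c q hcq ζ hζ
      rw [← map_sub, inner_map_left]
      refine hcq _ (hcB p⁻¹ (fun b hb => ?_) ζ hζ)
      have h1 := hp b hb
      calc p⁻¹ * (b, b) = p⁻¹ * ((b, b) * p) * p⁻¹ := by group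
        _ = p⁻¹ * (p * (b, b)) * p⁻¹ := by rw [← h1]
        _ = (b, b) * p⁻¹ := by group
    have hp1 : ∀ b ∈ B, ((1 : H), b') * (b, b) = (b, b) * ((1 : H), b') := by
      intro b hb
      ext
      · simp
      · exact hB b' hb' b hb
    have hp2 : ∀ b ∈ B, (b''⁻¹, (1 : H)) * (b, b) = (b, b) * (b''⁻¹, (1 : H)) := by
      intro b hb
      ext
      · exact hB _ (B.inv_mem hb'') b hb
      · simp
    refine proj_unique (Fix U B) (x := e (a * b'⁻¹)) (hcB _ hp1 v (hle hv)) (hcB _ hp2 v2 (hle hv2)) ?_ ?_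
    · have h1 : e (a * b'⁻¹) = Φ (1, b') (e a) := by rw [hΦ', one_mul]
      rw [h1]
      exact hcI _ hp1 _ _ hv1
    · have h1 : e (a * b'⁻¹) = Φ (b''⁻¹, 1) (e a''⁻¹) := by rw [hΦ', e2]; simp
      rw [h1]
      exact hcI _ hp2 _ _ hv3
  have hkey2 : Φ (1, b''⁻¹ * b') v = v2 := by
    have h1 : Φ (b''⁻¹, 1) v2 = Φ (1, b'') v2 := by
      have h2 : Φ (b''⁻¹, b''⁻¹) v2 = v2 := (mem_Fix.1 hv2) b''⁻¹ (Subgroup.mem_top _)
      calc Φ (b''⁻¹, 1) v2 = Φ ((1, b'') * (b''⁻¹, b''⁻¹)) v2 := by congr 2; ext <;> simp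
        _ = Φ (1, b'') (Φ (b''⁻¹, b''⁻¹) v2) := (hmul _ _ _).symm
        _ = Φ (1, b'') v2 := by rw [h2]
    rw [h1] at hkey
    calc Φ (1, b''⁻¹ * b') v = Φ ((1, b''⁻¹) * (1, b')) v := by congr 2; ext <;> simp
      _ = Φ (1, b''⁻¹) (Φ (1, b') v) := (hmul _ _ _).symm
      _ = Φ (1, b''⁻¹) (Φ (1, b'') v2) := by rw [hkey]
      _ = Φ ((1, b''⁻¹) * (1, b'')) v2 := hmul _ _ _
      _ = v2 := by
        have : ((1 : H), b''⁻¹) * ((1 : H), b'') = 1 := by ext <;> simp
        rw [this, map_one]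
        rfl
  set κ : H := b''⁻¹ * b' with hκ
  have hκ1 : ∀ g : H, Φ (1, g * κ * g⁻¹) v = v2 := by
    intro g
    have h1 : Φ (g, g) v2 = v2 := (mem_Fix.1 hv2) g (Subgroup.mem_top _)
    have h2 : Φ (g⁻¹, g⁻¹) v = v := (mem_Fix.1 hv) g⁻¹ (Subgroup.mem_top _)
    calc Φ (1, g * κ * g⁻¹) v = Φ ((g, g) * ((1, κ) * (g⁻¹, g⁻¹))) v := by congr 2; ext <;> simp [mul_assoc]
      _ = Φ (g, g) (Φ (1, κ) (Φ (g⁻¹, g⁻¹) v)) := by rw [hmul, hmul, mul_assoc]
      _ = v2 := by rw [h2, hkey2, h1]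
  let St : Subgroup H :=
    { carrier := {r | Φ (1, r) v = v}
      one_mem' := by
        change Φ (1, 1) v = v
        have : ((1 : H), (1 : H)) = 1 := rfl
        rw [this, map_one]
        rfl
      mul_mem' := by
        intro r s hr hs
        change Φ (1, r * s) v = v
        have : ((1 : H), r * s) = (1, r) * (1, s) := by ext <;> simp
        rw [this, ← hmul, hs, hr]
      inv_mem' := by
        intro r hr
        change Φ (1, r⁻¹) v = v
        have h1 : Φ (1, r) v = v := hr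
        calc Φ (1, r⁻¹) v = Φ (1, r⁻¹) (Φ (1, r) v) := by rw [h1]
          _ = Φ ((1, r⁻¹) * (1, r)) v := hmul _ _ _
          _ = v := by
            have : ((1 : H), r⁻¹) * ((1 : H), r) = 1 := by ext <;> simp
            rw [this, map_one]
            rfl }
  have hStn : St.Normal := by
    refine ⟨fun r hr g => ?_⟩
    have h0 : Φ (1, r) v = v := hr
    change Φ (1, g * r * g⁻¹) v = v
    have h1 : Φ (g, g) v = v := (mem_Fix.1 hv) g (Subgroup.mem_top _)
    have h2 : Φ (g⁻¹, g⁻¹) v = v := (mem_Fix.1 hv) g⁻¹ (Subgroup.mem_top _)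
    calc Φ (1, g * r * g⁻¹) v = Φ ((g, g) * ((1, r) * (g⁻¹, g⁻¹))) v := by congr 2; ext <;> simp [mul_assoc]
      _ = Φ (g, g) (Φ (1, r) (Φ (g⁻¹, g⁻¹) v)) := by rw [hmul, hmul, mul_assoc]
      _ = v := by rw [h2, h0, h1]
  have hSt0 : St ≠ ⊥ := by
    intro hbot
    have h1 : ∀ g : H, κ⁻¹ * (g * κ * g⁻¹) = 1 := by
      intro g
      rw [← Subgroup.mem_bot, ← hbot]
      change Φ (1, κ⁻¹ * (g * κ * g⁻¹)) v = v
      have h2 : ((1 : H), κ⁻¹ * (g * κ * g⁻¹)) = (1, κ⁻¹) * (1, g * κ * g⁻¹) := by ext <;> simp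
      rw [h2, ← hmul, hκ1, ← hkey2, hmul]
      have : ((1 : H), κ⁻¹) * ((1 : H), κ) = 1 := by ext <;> simp
      rw [this, map_one]
      rfl
    have h3 : κ ∈ Subgroup.centralizer (T : Set H) := by
      rw [Subgroup.mem_centralizer_iff]
      intro t _
      have h4 := h1 t
      calc t * κ = κ * (κ⁻¹ * (t * κ * t⁻¹)) * t := by group
        _ = κ * t := by rw [h4, mul_one]
    rw [hTc, Subgroup.mem_bot, hκ, inv_mul_eq_one] at h3
    exact hne h3
  have hTSt := hTmin St hStn hSt0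
  have hvz : v = 0 := by
    refine hno v fun t ht => ?_
    have h1 : Φ (t, t) v = v := (mem_Fix.1 hv) t (Subgroup.mem_top _)
    have h2 : Φ (1, t⁻¹) v = v := hTSt (T.inv_mem ht)
    calc Φ (t, 1) v = Φ ((1, t⁻¹) * (t, t)) v := by congr 2; ext <;> simp
      _ = Φ (1, t⁻¹) (Φ (t, t) v) := (hmul _ _ _).symm
      _ = v := by rw [h1, h2]
  -- the mean ergodic theorem
  have hmz : ∀ z : V, m (fun g => ⟪U g (e a), z⟫) = 0 := by
    refine mean_zero hm U (e a) fun ζ hζ => ?_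
    have := hv0 ζ hζ
    rwa [hvz, sub_zero] at this
  -- almost orthogonal conjugates
  have hseq : ∀ ε : ℝ, 0 < ε → ∀ n : ℕ, ∃ g : Fin n → H, ∀ i j, i ≠ j → ⟪U (g i) (e a), U (g j) (e a)⟫ ≤ ε := by
    intro ε hε n
    induction n with
    | zero => exact ⟨Fin.elim0, fun i => i.elim0⟩
    | succ n ih =>
      obtain ⟨g, hg⟩ := ih
      have h1 : ∃ x : H, ⟪U x (e a), ∑ i, U (g i) (e a)⟫ ≤ ε := by
        by_contra hcon
        push Not at hcon
        have hb : Bd fun x => ⟪U x (e a), ∑ i, U (g i) (e a)⟫ := ⟨‖e a‖ * ‖∑ i, U (g i) (e a)‖, fun x => by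
          have h1 := abs_real_inner_le_norm (U x (e a)) (∑ i, U (g i) (e a))
          rwa [(U x).norm_map] at h1⟩
        have h2 := hm.const_le hb fun x => (hcon x).le
        rw [hmz] at h2
        linarith
      obtain ⟨x, hx⟩ := h1
      have hnn : ∀ p q : H, 0 ≤ ⟪U p (e a), U q (e a)⟫ := by
        intro p q
        rw [hU, hU, hΦ', hΦ', he]
        exact hm.nonneg _ (bd_ind _) (ind_nonneg _)
      have hx2 : ∀ i, ⟪U x (e a), U (g i) (e a)⟫ ≤ ε := by
        intro i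
        refine le_trans ?_ hx
        rw [inner_sum]
        exact Finset.single_le_sum (f := fun i => ⟪U x (e a), U (g i) (e a)⟫) (fun j _ => hnn x (g j)) (Finset.mem_univ i)
      refine ⟨Fin.cons x g, fun i j hij => ?_⟩
      refine Fin.cases (fun hij => ?_) (fun i hij => ?_) i hij
      · refine Fin.cases (fun hij => (hij rfl).elim) (fun j _ => ?_) j hij
        rw [Fin.cons_zero, Fin.cons_succ]
        exact hx2 j
      · refine Fin.cases (fun _ => ?_) (fun j hij => ?_) j hij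
        · rw [Fin.cons_zero, Fin.cons_succ, real_inner_comm]
          exact hx2 i
        · rw [Fin.cons_succ, Fin.cons_succ]
          exact hg i j fun h => hij (by rw [h])
  -- the contradiction
  set p : ℝ := m (ind {h | a⁻¹ * h⁻¹ * a * h ∈ C}) with hp
  obtain ⟨n, hn⟩ := exists_nat_gt (2 / p)
  rw [div_lt_iff₀ hI] at hn
  have hε : (0 : ℝ) < 1 / (n ^ 2 + 1) := by positivity
  obtain ⟨g, hg⟩ := hseq _ hε n
  have hcount := hm.count (fun i => {x | (g i)⁻¹ * x ∈ {h | a⁻¹ * h⁻¹ * a * h ∈ C}}) p (1 / (n ^ 2 + 1))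
    (fun i => (hm.ind_left (g i) _).ge) (fun i j hij => ?_) hε.le
  · have h1 : (n : ℝ) ^ 2 * (1 / (n ^ 2 + 1)) ≤ 1 := by
      rw [mul_one_div, div_le_one (by positivity)]
      linarith
    linarith
  · refine le_trans ?_ (hg i j hij)
    rw [hU, hU, hΦ', hΦ', he]
    refine hm.ind_mono ?_
    rintro x ⟨h1, h2⟩
    simp only [Set.mem_ofPred_eq] at h1 h2 ⊢
    have h3 := C.mul_mem (C.inv_mem h1) h2
    have h4 : (a⁻¹ * ((g i)⁻¹ * x)⁻¹ * a * ((g i)⁻¹ * x))⁻¹ * (a⁻¹ * ((g j)⁻¹ * x)⁻¹ * a * ((g j)⁻¹ * x)) =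
        x⁻¹ * ((g i * a * (g i)⁻¹)⁻¹ * (g j * a * (g j)⁻¹)) * x := by group
    rwa [h4] at h3

/-- **the core theorem** -/
theorem core (hH : Amen H) (A B T : Subgroup H) (hA : ∀ x ∈ A, ∀ y ∈ A, x * y = y * x)
    (hB : ∀ x ∈ B, ∀ y ∈ B, x * y = y * x) (hAi : NFI A) (hBi : NFI B) (S : Finset H)
    (hS : ∀ h : H, ∃ g ∈ S, ∃ a ∈ A, ∃ b ∈ B, h = a * g * b) (hfi : ∀ D : Subgroup H, D.index ≠ 0 → D = ⊤)
    (hTn : T.Normal) (hTfg : T.FG) (hTi : NFI T) (hTmin : ∀ N : Subgroup H, N.Normal → N ≠ ⊥ → T ≤ N)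
    (hTc : Subgroup.centralizer (T : Set H) = ⊥) (hT : T ≠ ⊥) : False := by
  classical
  obtain ⟨m, hm, hr⟩ := exists_bi hH
  -- a double coset of positive measure
  obtain ⟨g, -, hg⟩ : ∃ g ∈ S, 0 < m (ind {h | ∃ a ∈ A, ∃ b ∈ B, h = a * g * b}) := by
    by_contra hcon
    push Not at hcon
    have h1 : m (fun _ => 1) ≤ m (fun x => ∑ g ∈ S, ind {h | ∃ a ∈ A, ∃ b ∈ B, h = a * g * b} x) := by
      refine hm.mono (bd_const 1) (bd_sum S fun g _ => bd_ind _) fun x => ?_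
      obtain ⟨g, hg, hx⟩ := hS x
      have h2 := Finset.single_le_sum (f := fun g => ind {h | ∃ a ∈ A, ∃ b ∈ B, h = a * g * b} x)
        (fun g _ => ind_nonneg _ _) hg
      refine le_trans ?_ h2
      rw [ind_of_mem (E := {h | ∃ a ∈ A, ∃ b ∈ B, h = a * g * b}) hx]
    rw [hm.one, hm.sum S fun g _ => bd_ind _] at h1
    have h3 := Finset.sum_nonpos hcon
    linarith
  -- conjugate `B`
  let φ : H →* H := (MulAut.conj g).toMonoidHom
  let B' : Subgroup H := B.map φ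
  have hB' : ∀ x, x ∈ B' ↔ ∃ b ∈ B, g * b * g⁻¹ = x := fun x => by simp [B', φ]
  refine core_aux hm hr A B' T hA ?_ hAi ?_ (S.image fun s => s * g⁻¹) ?_ hfi hTn hTfg hTi hTmin hTc hT ?_
  · intro x hx y hy
    obtain ⟨b, hb, rfl⟩ := (hB' x).1 hx
    obtain ⟨c, hc, rfl⟩ := (hB' y).1 hy
    calc g * b * g⁻¹ * (g * c * g⁻¹) = g * (b * c) * g⁻¹ := by group
      _ = g * (c * b) * g⁻¹ := by rw [hB b hb c hc]
      _ = g * c * g⁻¹ * (g * b * g⁻¹) := by group
  · intro D hD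
    have h1 : (D.comap φ).relIndex B = D.relIndex B' := Subgroup.relIndex_comap D φ B
    rw [← h1] at hD
    exact Subgroup.map_le_iff_le_comap.2 (hBi _ hD)
  · intro h
    obtain ⟨s, hs, a, ha, b, hb, e⟩ := hS (h * g)
    refine ⟨s * g⁻¹, Finset.mem_image_of_mem _ hs, a, ha, g * b * g⁻¹, (hB' _).2 ⟨b, hb, rfl⟩, ?_⟩
    calc h = h * g * g⁻¹ := by group
      _ = a * s * b * g⁻¹ := by rw [e]
      _ = a * (s * g⁻¹) * (g * b * g⁻¹) := by group
  · have h1 : ind (AB A B') = fun x => ind {h | ∃ a ∈ A, ∃ b ∈ B, h = a * g * b} (x * g) := by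
      ext x
      have key : x ∈ AB A B' ↔ x * g ∈ {h | ∃ a ∈ A, ∃ b ∈ B, h = a * g * b} := by
        constructor
        · rintro ⟨a, ha, c, hc, rfl⟩
          obtain ⟨b, hb, rfl⟩ := (hB' c).1 hc
          exact ⟨a, ha, b, hb, by group⟩
        · rintro ⟨a, ha, b, hb, e⟩
          refine ⟨a, ha, g * b * g⁻¹, (hB' _).2 ⟨b, hb, rfl⟩, ?_⟩
          calc x = x * g * g⁻¹ := by group
            _ = a * g * b * g⁻¹ := by rw [e]
            _ = a * (g * b * g⁻¹) := by group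
      by_cases hx : x ∈ AB A B'
      · rw [ind_of_mem hx, ind_of_mem (key.1 hx)]
      · rw [ind_of_notMem hx, ind_of_notMem fun h => hx (key.2 h)]
    rw [h1, hr g _ (bd_ind _)]
    exact hg

end Main

end Pool.Agent.Chern
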