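import Pool.Agent.Chern.Defs2

/-!
# Counting in a finite group

* `exists_orbits` : free actions of products of two subgroups by left and right multiplications;
* `count_false` : row CT.
-/

set_option autoImplicit false

namespace Pool.Agent.Chern

universe u

namespace Cnt

section free
variable {X : Type u} [Group X]

/-- free actions of `P × Q` by left and right multiplications -/
theorem exists_orbits [Finite X] (P Q : Subgroup X) (Y : Set X) (hY : ∀ p ∈ P, ∀ q ∈ Q, ∀ x ∈ Y, p * x * q ∈ Y)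
    (hf : ∀ p ∈ P, ∀ q ∈ Q, ∀ x ∈ Y, p * x * q = x → p = 1 ∧ q = 1) :
    ∃ m : ℕ, Nat.card Y = m * (Nat.card P * Nat.card Q) ∧
      ∀ S : Finset X, (∀ x ∈ Y, ∃ s ∈ S, ∃ p ∈ P, ∃ q ∈ Q, x = p * s * q) → m ≤ S.card := by
  classical
  let I : MulAction (P × Q) Y :=
    { smul := fun g y => ⟨g.1 * y.1 * (g.2 : X)⁻¹, hY _ g.1.2 _ (Q.inv_mem g.2.2) _ y.2⟩
      one_smul := fun y => Subtype.ext (by
        show (1 : X) * y.1 * (1 : X)⁻¹ = y.1
        rw [inv_one, mul_one, one_mul])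
      mul_smul := fun g h y => Subtype.ext (by
        show (g.1 * h.1 : X) * y.1 * (g.2 * h.2 : X)⁻¹ = g.1 * (h.1 * y.1 * (h.2 : X)⁻¹) * (g.2 : X)⁻¹
        rw [mul_inv_rev]
        simp only [mul_assoc]) }
  have hsm : ∀ (g : P × Q) (y : Y), ((g • y : Y) : X) = g.1 * y.1 * (g.2 : X)⁻¹ := fun _ _ => rfl
  have hst : ∀ y : Y, MulAction.stabilizer (P × Q) y = ⊥ := by
    intro y
    rw [eq_bot_iff]
    intro g hg
    have h1 : ((g • y : Y) : X) = y.1 := congrArg Subtype.val hg
    rw [hsm] at h1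
    obtain ⟨h2, h3⟩ := hf _ g.1.2 _ (Q.inv_mem g.2.2) _ y.2 h1
    rw [Subgroup.mem_bot]
    refine Prod.ext (Subtype.ext h2) (Subtype.ext ?_)
    exact inv_eq_one.1 h3
  have e := MulAction.selfEquivOrbitsQuotientProd hst
  refine ⟨Nat.card (Quotient (MulAction.orbitRel (P × Q) Y)), ?_, fun S hS => ?_⟩
  · rw [Nat.card_congr e, Nat.card_prod, Nat.card_prod]
  · -- a map to S which is injective on the orbits
    have h1 : ∀ o : Quotient (MulAction.orbitRel (P × Q) Y), ∃ s : S, ∃ p ∈ P, ∃ q ∈ Q, o.out.1 = p * s.1 * q := by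
      intro o
      obtain ⟨s, hs, h⟩ := hS o.out.1 o.out.2
      exact ⟨⟨s, hs⟩, h⟩
    choose f hf' using h1
    have hinj : Function.Injective f := by
      intro o o' hoo
      obtain ⟨p, hp, q, hq, h1⟩ := hf' o
      obtain ⟨p', hp', q', hq', h2⟩ := hf' o'
      rw [← hoo] at h2
      have h3 : ((⟨p * p'⁻¹, P.mul_mem hp (P.inv_mem hp')⟩, ⟨q⁻¹ * q', Q.mul_mem (Q.inv_mem hq) hq'⟩) : P × Q) • o'.out =
          o.out := by
        refine Subtype.ext ?_
        rw [hsm, h1, h2]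
        show p * p'⁻¹ * (p' * (f o).1 * q') * (q⁻¹ * q')⁻¹ = p * (f o).1 * q
        rw [mul_inv_rev, inv_inv]
        simp only [mul_assoc, inv_mul_cancel_left, mul_inv_cancel_left]
      rw [← Quotient.out_eq o, ← Quotient.out_eq o']
      exact Quotient.sound ⟨_, h3⟩
    have h4 := Nat.card_le_card_of_injective f hinj
    rwa [Nat.card_eq_fintype_card (α := S), Fintype.card_coe] at h4

theorem card_of_le {H K : Subgroup X} (h : H ≤ K) : H.relIndex K * Nat.card H = Nat.card K := by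
  have h1 := Subgroup.index_mul_card (H.subgroupOf K)
  rwa [Nat.card_congr (Subgroup.subgroupOfEquivOfLe h).toEquiv] at h1

theorem mem_cj_iff {g y : X} {Q : Subgroup X} : y ∈ cj g Q ↔ g⁻¹ * y * g ∈ Q := by
  unfold cj
  rw [Subgroup.mem_map]
  constructor
  · rintro ⟨x, hx, rfl⟩
    show g⁻¹ * (g * x * g⁻¹) * g ∈ Q
    have e : g⁻¹ * (g * x * g⁻¹) * g = x := by group
    rwa [e]
  · intro h
    refine ⟨g⁻¹ * y * g, h, ?_⟩
    show g * (g⁻¹ * y * g) * g⁻¹ = y
    group

theorem card_cj (g : X) (Q : Subgroup X) : Nat.card (cj g Q) = Nat.card Q :=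
  (Nat.card_congr (Q.equivMapOfInjective _ (MulAut.conj g).injective).toEquiv).symm

/-- products of subsets of a subgroup -/
theorem card_mul_le [Finite X] {A U W : Subgroup X} (hU : U ≤ A) (hW : W ≤ A) :
    Nat.card U * Nat.card W ≤ Nat.card A * Nat.card (U ⊓ W : Subgroup X) := by
  have h1 : (U ⊓ W).relIndex W * Nat.card (U ⊓ W : Subgroup X) = Nat.card W := card_of_le inf_le_right
  have h2 : U.relIndex A * Nat.card U = Nat.card A := card_of_le hU
  have h3 : U.relIndex W ≤ U.relIndex A := by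
    refine Subgroup.relIndex_le_of_le_right hW ?_
    have h4 : Nat.card A ≠ 0 := Nat.card_pos.ne'
    intro h5
    rw [h5, zero_mul] at h2
    exact h4 h2.symm
  rw [Subgroup.inf_relIndex_right] at h1
  rw [← h1, ← h2]
  calc Nat.card U * (U.relIndex W * Nat.card (U ⊓ W : Subgroup X))
      = U.relIndex W * (Nat.card U * Nat.card (U ⊓ W : Subgroup X)) := by ring
    _ ≤ U.relIndex A * (Nat.card U * Nat.card (U ⊓ W : Subgroup X)) := Nat.mul_le_mul_right _ h3
    _ = U.relIndex A * Nat.card U * Nat.card (U ⊓ W : Subgroup X) := by ring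

/-- subgroups with the trivial intersection property -/
theorem card_ti [Finite X] (A : Subgroup X)
    (hT : ∀ x : X, ∀ a ∈ A, a ≠ 1 → x * a * x⁻¹ ∈ A → x ∈ Subgroup.normalizer (A : Set X)) :
    ∃ s : ℕ, Nat.card X = A.relIndex (Subgroup.normalizer (A : Set X)) * Nat.card A + s * (Nat.card A * Nat.card A) ∧
      (Subgroup.normalizer (A : Set X) ≠ ⊤ → 1 ≤ s) := by
  have hle : A ≤ Subgroup.normalizer (A : Set X) := Subgroup.le_normalizer
  have hY : ∀ p ∈ A, ∀ q ∈ A, ∀ x ∈ (Subgroup.normalizer (A : Set X) : Set X)ᶜ,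
      p * x * q ∈ (Subgroup.normalizer (A : Set X) : Set X)ᶜ := by
    intro p hp q hq x hx h
    refine hx ?_
    have h1 := (Subgroup.normalizer (A : Set X)).mul_mem
      ((Subgroup.normalizer (A : Set X)).mul_mem ((Subgroup.normalizer (A : Set X)).inv_mem (hle hp)) h)
      ((Subgroup.normalizer (A : Set X)).inv_mem (hle hq))
    have e : p⁻¹ * (p * x * q) * q⁻¹ = x := by group
    rwa [e] at h1
  have hf : ∀ p ∈ A, ∀ q ∈ A, ∀ x ∈ (Subgroup.normalizer (A : Set X) : Set X)ᶜ, p * x * q = x → p = 1 ∧ q = 1 := by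
    intro p hp q hq x hx h
    have e : p = x * q⁻¹ * x⁻¹ := by
      rw [eq_mul_inv_iff_mul_eq, eq_mul_inv_iff_mul_eq]
      exact h
    have hq1 : q = 1 := by
      by_contra hne
      refine hx (hT x q⁻¹ (A.inv_mem hq) (inv_ne_one.2 hne) ?_)
      rwa [← e]
    refine ⟨?_, hq1⟩
    rw [e, hq1, inv_one, mul_one, mul_inv_cancel]
  obtain ⟨s, hs, -⟩ := exists_orbits A A _ hY hf
  have h1 : Nat.card X = Nat.card (Subgroup.normalizer (A : Set X)) +
      Nat.card ↥((Subgroup.normalizer (A : Set X) : Set X)ᶜ) := by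
    rw [Nat.card_coe_set_eq, ← Set.ncard_add_ncard_compl (Subgroup.normalizer (A : Set X) : Set X),
      ← Nat.card_coe_set_eq (Subgroup.normalizer (A : Set X) : Set X)]
    rfl
  refine ⟨s, ?_, fun h => ?_⟩
  · rw [h1, card_of_le hle, hs]
  · rcases Nat.eq_zero_or_pos s with h0 | h0
    · exfalso
      rw [h0, zero_mul] at hs
      rw [hs, add_zero] at h1
      exact h (Subgroup.eq_top_of_card_eq _ h1.symm)
    · exact h0

end free

/-- the arithmetic of the second case -/
theorem arith {r k u v α β jA jB sA sB r' : ℕ} (hu : 4 * r ^ 2 * k + k + 1 ≤ u) (hv : 4 * r ^ 2 * k + k + 1 ≤ v)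
    (hr : r' ≤ r) (hαβ : α * β ≤ r') (hα : 1 ≤ α) (hβ : 1 ≤ β) (hjA : jA ≤ k) (hjB : jB ≤ k) (hjA1 : 1 ≤ jA)
    (hjB1 : 1 ≤ jB) (hsA : 1 ≤ sA) (hr1 : 1 ≤ r') (h1 : r' * v = α * jA + α ^ 2 * sA * u)
    (h2 : r' * u = β * jB + β ^ 2 * sB * v) : False := by
  have hβr : β ≤ r := (Nat.le_mul_of_pos_left β hα).trans (hαβ.trans hr)
  have hr0 : 1 ≤ r := hr1.trans hr
  have hk0 : 1 ≤ k := hjA1.trans hjA
  have hu0 : 1 ≤ u := by omega
  have hv0 : 1 ≤ v := by omega
  rcases Nat.eq_zero_or_pos sB with h0 | h0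
  · rw [h0, mul_zero, zero_mul, add_zero] at h2
    have h3 : u ≤ β * jB := by
      rw [← h2]
      exact Nat.le_mul_of_pos_left u hr1
    have h4 : β * jB ≤ r * k := Nat.mul_le_mul hβr hjB
    have h5 : r * k ≤ r ^ 2 * k := by
      refine Nat.mul_le_mul_right k ?_
      rw [pow_two]
      exact Nat.le_mul_of_pos_left r hr0
    have h6 : 4 * r ^ 2 * k = 4 * (r ^ 2 * k) := by ring
    omega
  · have hw1 : α * β ^ 2 * sB ≤ (α * β) ^ 2 * (sA * sB) := by
      calc α * β ^ 2 * sB = 1 * 1 * (α * β ^ 2 * sB) := by ring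
        _ ≤ α * sA * (α * β ^ 2 * sB) := Nat.mul_le_mul_right _ (Nat.mul_le_mul hα hsA)
        _ = (α * β) ^ 2 * (sA * sB) := by ring
    have hw2 : α ^ 2 * β * sA ≤ (α * β) ^ 2 * (sA * sB) := by
      calc α ^ 2 * β * sA = 1 * 1 * (α ^ 2 * β * sA) := by ring
        _ ≤ β * sB * (α ^ 2 * β * sA) := Nat.mul_le_mul_right _ (Nat.mul_le_mul hβ h0)
        _ = (α * β) ^ 2 * (sA * sB) := by ring
    have hm : r' ^ 2 * (u * v) = α * β * (jA * jB) + α * β ^ 2 * sB * (jA * v) + α ^ 2 * β * sA * (jB * u) +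
        (α * β) ^ 2 * (sA * sB) * (u * v) := by
      calc r' ^ 2 * (u * v) = (r' * v) * (r' * u) := by ring
        _ = (α * jA + α ^ 2 * sA * u) * (β * jB + β ^ 2 * sB * v) := by rw [h1, h2]
        _ = _ := by ring
    have hp : 1 ≤ α * β * (jA * jB) :=
      Nat.mul_pos (Nat.mul_pos hα hβ) (Nat.mul_pos hjA1 hjB1)
    have hlt : (α * β) ^ 2 * (sA * sB) < r' ^ 2 := by
      by_contra hge
      have h3 := Nat.mul_le_mul_right (u * v) (not_lt.1 hge)
      omega
    have hr2 : r' ^ 2 ≤ r ^ 2 := Nat.pow_le_pow_left hr 2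
    have h3 : ((α * β) ^ 2 * (sA * sB) + 1) * (u * v) ≤ r' ^ 2 * (u * v) := Nat.mul_le_mul_right _ hlt
    rw [add_mul, one_mul] at h3
    have h4 : α * β * (jA * jB) ≤ r * (k * k) :=
      Nat.mul_le_mul (hαβ.trans hr) (Nat.mul_le_mul hjA hjB)
    have h5 : α * β ^ 2 * sB * (jA * v) ≤ r ^ 2 * (k * v) :=
      Nat.mul_le_mul ((hw1.trans hlt.le).trans hr2) (Nat.mul_le_mul_right v hjA)
    have h6 : α ^ 2 * β * sA * (jB * u) ≤ r ^ 2 * (k * u) :=
      Nat.mul_le_mul ((hw2.trans hlt.le).trans hr2) (Nat.mul_le_mul_right u hjB)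
    have h7 : u * v ≤ r * (k * k) + r ^ 2 * (k * v) + r ^ 2 * (k * u) := by omega
    have h8 : 4 * (r ^ 2 * (k * v)) ≤ u * v := by
      calc 4 * (r ^ 2 * (k * v)) = 4 * r ^ 2 * k * v := by ring
        _ ≤ u * v := Nat.mul_le_mul_right v (by omega)
    have h9 : 4 * (r ^ 2 * (k * u)) ≤ u * v := by
      calc 4 * (r ^ 2 * (k * u)) = u * (4 * r ^ 2 * k) := by ring
        _ ≤ u * v := Nat.mul_le_mul_left u (by omega)
    have h10 : 4 * r ^ 2 * k * (k + 1) ≤ u * v := Nat.mul_le_mul (by omega) (by omega)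
    have h11 : r * (k * k) ≤ r ^ 2 * k * k := by
      calc r * (k * k) = 1 * r * k * k := by ring
        _ ≤ r * r * k * k := Nat.mul_le_mul_right k (Nat.mul_le_mul_right k (Nat.mul_le_mul_right r hr0))
        _ = r ^ 2 * k * k := by ring
    have h12 : 4 * r ^ 2 * k * (k + 1) = 4 * (r ^ 2 * k * k) + 4 * (r ^ 2 * k) := by ring
    have h13 : 1 ≤ r ^ 2 * k := Nat.mul_pos (Nat.pow_pos hr0) hk0
    omega

end Cnt

open Cnt

/-- **row CT**: counting -/
theorem count_false (r k c : ℕ) : ∃ M : ℕ, ∀ (X : Type u) [Group X] [Finite X] (A B U V : Subgroup X),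
    U ≤ A → V ≤ B → M ≤ Nat.card U → M ≤ Nat.card V → (∀ x ∈ A, ∀ y ∈ A, x * y = y * x) →
    (∀ x : X, ∀ a ∈ A, a ≠ 1 → x * a * x⁻¹ ∈ A → x ∈ Subgroup.normalizer (A : Set X)) →
    (∀ x : X, ∀ a ∈ B, a ≠ 1 → x * a * x⁻¹ ∈ B → x ∈ Subgroup.normalizer (B : Set X)) →
    A.relIndex (Subgroup.normalizer (A : Set X)) ≤ k → B.relIndex (Subgroup.normalizer (B : Set X)) ≤ k →
    (∀ x : X, ∀ a ∈ A, a ≠ 1 → a ∈ cj x B → cj x B = A) →
    (∃ S : Finset X, S.card ≤ r ∧ ∀ x : X, cj x B ≠ A → ∃ s ∈ S, ∃ p ∈ U, ∃ q ∈ V, x = p * s * q) →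
    (∀ x : X, Nat.card (U ⊓ cj x V : Subgroup X) ≤ c) →
    Subgroup.normalizer (A : Set X) ≠ ⊤ → False := by
  classical
  refine ⟨4 * r ^ 2 * k + r * c + k + 1, ?_⟩
  intro X _ _ A B U V hUA hVB hMU hMV hA hTA hTB hkA hkB hmeet hcov hc hN
  obtain ⟨S, hSr, hS⟩ := hcov
  obtain ⟨sA, hsA, hsA1⟩ := card_ti A hTA
  obtain ⟨sB, hsB, -⟩ := card_ti B hTB
  have hsA1 := hsA1 hN
  have hapos : 0 < Nat.card A := Nat.card_pos
  have hbpos : 0 < Nat.card B := Nat.card_pos
  have hupos : 0 < Nat.card U := Nat.card_pos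
  have hvpos : 0 < Nat.card V := Nat.card_pos
  have huA : Nat.card U ≤ Nat.card A := Nat.le_of_dvd hapos (Subgroup.card_dvd_of_le hUA)
  by_cases hcase : ∃ x0, cj x0 B = A
  · obtain ⟨x0, hx0⟩ := hcase
    -- the number of `x` with `cj x B = A`
    have h1 : Nat.card {x : X // cj x B = A} ≤ Nat.card (Subgroup.normalizer (A : Set X)) := by
      have hm : ∀ x : {x : X // cj x B = A}, x.1 * x0⁻¹ ∈ Subgroup.normalizer (A : Set X) := by
        intro x
        rw [Subgroup.mem_normalizer_iff'']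
        intro h
        have e1 : h ∈ A ↔ x.1⁻¹ * h * x.1 ∈ B := by
          rw [← mem_cj_iff, x.2]
        have e2 : (x.1 * x0⁻¹)⁻¹ * h * (x.1 * x0⁻¹) ∈ A ↔ x.1⁻¹ * h * x.1 ∈ B := by
          have e4 : ∀ y : X, y ∈ A ↔ x0⁻¹ * y * x0 ∈ B := fun y => by rw [← mem_cj_iff, hx0]
          rw [e4]
          have e3 : x0⁻¹ * ((x.1 * x0⁻¹)⁻¹ * h * (x.1 * x0⁻¹)) * x0 = x.1⁻¹ * h * x.1 := by group
          rw [e3]
        rw [e1, e2]
      refine Nat.card_le_card_of_injective (fun x => ⟨x.1 * x0⁻¹, hm x⟩) fun x y hxy => ?_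
      exact Subtype.ext (mul_right_cancel (congrArg Subtype.val hxy))
    have h2 : Nat.card {x : X // ¬ cj x B = A} ≤ r * (Nat.card U * Nat.card V) := by
      have h3 : ∀ x : {x : X // ¬ cj x B = A}, ∃ (s : S) (p : U) (q : V), x.1 = p.1 * s.1 * q.1 := by
        intro x
        obtain ⟨s, hs, p, hp, q, hq, h⟩ := hS x.1 x.2
        exact ⟨⟨s, hs⟩, ⟨p, hp⟩, ⟨q, hq⟩, h⟩
      choose f g h hfgh using h3
      have h4 : Nat.card {x : X // ¬ cj x B = A} ≤ Nat.card (S × U × V) :=
        Nat.card_le_card_of_injective (fun x => (f x, g x, h x)) fun x y hxy => by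
          simp only [Prod.mk.injEq] at hxy
          obtain ⟨h5, h6, h7⟩ := hxy
          refine Subtype.ext ?_
          rw [hfgh x, hfgh y, h5, h6, h7]
      rw [Nat.card_prod, Nat.card_prod, Nat.card_eq_fintype_card (α := S), Fintype.card_coe] at h4
      exact h4.trans (Nat.mul_le_mul_right _ hSr)
    have h3 : Nat.card X = Nat.card {x : X // cj x B = A} + Nat.card {x : X // ¬ cj x B = A} := by
      rw [← Nat.card_sum, Nat.card_congr (Equiv.sumCompl fun x : X => cj x B = A)]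
    have h4 : Nat.card U * Nat.card V ≤ Nat.card A * c := by
      have h5 : cj x0 V ≤ A := by
        rw [← hx0]
        exact Subgroup.map_mono hVB
      have h6 := card_mul_le hUA h5
      rw [card_cj] at h6
      exact h6.trans (Nat.mul_le_mul_left _ (hc x0))
    have h5 : Nat.card (Subgroup.normalizer (A : Set X)) ≤ k * Nat.card A := by
      rw [← card_of_le (Subgroup.le_normalizer : A ≤ Subgroup.normalizer (A : Set X))]
      exact Nat.mul_le_mul_right _ hkA
    have h6 : Nat.card A * Nat.card A ≤ Nat.card X := by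
      rw [hsA]
      exact (Nat.le_mul_of_pos_left _ hsA1).trans (Nat.le_add_left _ _)
    have h7 : r * (Nat.card U * Nat.card V) ≤ r * (Nat.card A * c) := Nat.mul_le_mul_left r h4
    have h8 : Nat.card A * Nat.card A ≤ (k + r * c) * Nat.card A := by
      have e : (k + r * c) * Nat.card A = k * Nat.card A + r * (Nat.card A * c) := by ring
      rw [e]
      omega
    have h9 : Nat.card A ≤ k + r * c := Nat.le_of_mul_le_mul_right h8 hapos
    omega
  · push Not at hcase
    obtain ⟨r', hr', hr'S⟩ := exists_orbits U V Set.univ (fun _ _ _ _ _ _ => Set.mem_univ _) fun p hp q hq x _ h => by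
      have e : p = x * q⁻¹ * x⁻¹ := by
        rw [eq_mul_inv_iff_mul_eq, eq_mul_inv_iff_mul_eq]
        exact h
      have hp1 : p = 1 := by
        by_contra hne
        refine hcase x (hmeet x p (hUA hp) hne ?_)
        rw [mem_cj_iff, e]
        have e2 : x⁻¹ * (x * q⁻¹ * x⁻¹) * x = q⁻¹ := by group
        rw [e2]
        exact B.inv_mem (hVB hq)
      refine ⟨hp1, ?_⟩
      rw [hp1, one_mul] at h
      exact mul_eq_left.1 h
    obtain ⟨m, hm, -⟩ := exists_orbits A B Set.univ (fun _ _ _ _ _ _ => Set.mem_univ _) fun p hp q hq x _ h => by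
      have e : p = x * q⁻¹ * x⁻¹ := by
        rw [eq_mul_inv_iff_mul_eq, eq_mul_inv_iff_mul_eq]
        exact h
      have hp1 : p = 1 := by
        by_contra hne
        refine hcase x (hmeet x p hp hne ?_)
        rw [mem_cj_iff, e]
        have e2 : x⁻¹ * (x * q⁻¹ * x⁻¹) * x = q⁻¹ := by group
        rw [e2]
        exact B.inv_mem hq
      refine ⟨hp1, ?_⟩
      rw [hp1, one_mul] at h
      exact mul_eq_left.1 h
    have hr'r : r' ≤ r := (hr'S S fun x _ => hS x (hcase x)).trans hSr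
    have hX : Nat.card (Set.univ : Set X) = Nat.card X := Nat.card_congr (Equiv.Set.univ X)
    rw [hX] at hr' hm
    have hXpos : 0 < Nat.card X := Nat.card_pos
    obtain ⟨α, hα⟩ := Subgroup.card_dvd_of_le hUA
    obtain ⟨β, hβ⟩ := Subgroup.card_dvd_of_le hVB
    have hα1 : 1 ≤ α := by
      rcases Nat.eq_zero_or_pos α with h | h
      · rw [h, mul_zero] at hα
        omega
      · exact h
    have hβ1 : 1 ≤ β := by
      rcases Nat.eq_zero_or_pos β with h | h
      · rw [h, mul_zero] at hβ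
        omega
      · exact h
    have hr'1 : 1 ≤ r' := by
      rcases Nat.eq_zero_or_pos r' with h | h
      · rw [h, zero_mul] at hr'
        omega
      · exact h
    have hαβ : α * β ≤ r' := by
      have h1 : r' * (Nat.card U * Nat.card V) = m * (α * β) * (Nat.card U * Nat.card V) := by
        rw [← hr', hm, hα, hβ]
        ring
      have h2 : r' = m * (α * β) := Nat.eq_of_mul_eq_mul_right (Nat.mul_pos hupos hvpos) h1
      rw [h2]
      refine Nat.le_mul_of_pos_left _ ?_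
      rcases Nat.eq_zero_or_pos m with h | h
      · rw [h, zero_mul] at h2
        omega
      · exact h
    have hj : ∀ C : Subgroup X, 1 ≤ C.relIndex (Subgroup.normalizer (C : Set X)) := by
      intro C
      have h1 := card_of_le (Subgroup.le_normalizer : C ≤ Subgroup.normalizer (C : Set X))
      rcases Nat.eq_zero_or_pos (C.relIndex (Subgroup.normalizer (C : Set X))) with h | h
      · rw [h, zero_mul] at h1
        have h2 : 0 < Nat.card (Subgroup.normalizer (C : Set X)) := Nat.card_pos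
        omega
      · exact h
    refine arith (r := r) (k := k) (u := Nat.card U) (v := Nat.card V) (α := α) (β := β)
      (jA := A.relIndex (Subgroup.normalizer (A : Set X))) (jB := B.relIndex (Subgroup.normalizer (B : Set X)))
      (sA := sA) (sB := sB) (r' := r') (by omega) (by omega) hr'r hαβ hα1 hβ1 hkA hkB (hj A) (hj B) hsA1 hr'1 ?_ ?_
    · refine Nat.eq_of_mul_eq_mul_left hupos ?_
      calc Nat.card U * (r' * Nat.card V) = r' * (Nat.card U * Nat.card V) := by ring
        _ = Nat.card X := hr'.symm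
        _ = _ := by
          rw [hsA, hα]
          ring
    · refine Nat.eq_of_mul_eq_mul_left hvpos ?_
      calc Nat.card V * (r' * Nat.card U) = r' * (Nat.card U * Nat.card V) := by ring
        _ = Nat.card X := hr'.symm
        _ = _ := by
          rw [hsB, hβ]
          ring

end Pool.Agent.Chern
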