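import Mathlib

/-!
# Products of two Chernikov groups: definitions used by all the modules (problem MP_23213a_al)
-/

set_option autoImplicit false

namespace Pool.Agent.Chern

/-- a bounded real function -/
def Bd {X : Type*} (f : X → ℝ) : Prop := ∃ C : ℝ, ∀ x, |f x| ≤ C

/-- `m` is a left invariant mean on the bounded real functions on the group `G` -/
structure IsMean (G : Type*) [Group G] (m : (G → ℝ) → ℝ) : Prop where
  add : ∀ f g : G → ℝ, Bd f → Bd g → m (fun x => f x + g x) = m f + m g
  smul : ∀ (c : ℝ) (f : G → ℝ), Bd f → m (fun x => c * f x) = c * m f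
  nonneg : ∀ f : G → ℝ, Bd f → (∀ x, 0 ≤ f x) → 0 ≤ m f
  one : m (fun _ => 1) = 1
  left : ∀ (g : G) (f : G → ℝ), Bd f → m (fun x => f (g * x)) = m f

/-- amenable: there is a left invariant mean -/
def Amen (G : Type*) [Group G] : Prop := ∃ m : (G → ℝ) → ℝ, IsMean G m

/-- the indicator function of a set -/
noncomputable def ind {X : Type*} (E : Set X) : X → ℝ := Set.indicator E (fun _ => 1)

/-- every finite subset generates a finite subgroup -/
def LF (G : Type*) [Group G] : Prop := ∀ S : Finset G, (Subgroup.closure (S : Set G) : Set G).Finite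

/-- abelian-by-finite with the minimal condition on subgroups -/
def Good (A : Type*) [Group A] : Prop :=
  WellFoundedLT (Subgroup A) ∧ ∃ N : Subgroup A, N.index ≠ 0 ∧ ∀ x ∈ N, ∀ y ∈ N, x * y = y * x

/-- Chernikov group, as in the frozen statements of the problem -/
def IsChernikov (A : Type*) [Group A] : Prop :=
  ∃ N : Subgroup A, N.Normal ∧ N.index ≠ 0 ∧
    (∀ x ∈ N, ∀ y ∈ N, x * y = y * x) ∧
    (∀ x ∈ N, ∀ n : ℕ, 0 < n → ∃ y ∈ N, y ^ n = x) ∧
    WellFoundedLT (Subgroup ↥N)

/-- `A` has no proper subgroups of finite index -/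
def NFI {G : Type*} [Group G] (A : Subgroup G) : Prop := ∀ D : Subgroup G, D.relIndex A ≠ 0 → A ≤ D

end Pool.Agent.Chern
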