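import Pool.Agent.Chern.Defs

/-!
# Definitions for the locally finite case
-/

set_option autoImplicit false

namespace Pool.Agent.Chern

universe u

/-- the conjugate `g Q g⁻¹` -/
def cj {G : Type u} [Group G] (g : G) (Q : Subgroup G) : Subgroup G := Q.map (MulAut.conj g).toMonoidHom

/-- a divisible abelian Chernikov group whose primes divide `N` -/
structure Dv (N : ℕ) {G : Type u} [Group G] (P : Subgroup G) : Prop where
  comm : ∀ x ∈ P, ∀ y ∈ P, x * y = y * x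
  div : ∀ x ∈ P, ∃ y ∈ P, y ^ N = x
  tors : ∀ x ∈ P, ∃ k : ℕ, x ^ (N ^ k) = 1
  fin : {x : G | x ∈ P ∧ x ^ N = 1}.Finite

/-- the number of elements `x` of `P` with `x ^ N = 1` -/
noncomputable def rk (N : ℕ) {G : Type u} [Group G] (P : Subgroup G) : ℕ := Set.ncard {x : G | x ∈ P ∧ x ^ N = 1}

/-- a subgroup of finite index of the kind `Dv` -/
def DvF (N : ℕ) {G : Type u} [Group G] (K : Subgroup G) : Prop := ∃ D : Subgroup G, D ≤ K ∧ D.relIndex K ≠ 0 ∧ Dv N D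

/-- finitely many double cosets -/
def FDC {G : Type u} [Group G] (P Q : Subgroup G) : Prop :=
  ∃ S : Finset G, ∀ h : G, ∃ g ∈ S, ∃ p ∈ P, ∃ q ∈ Q, h = p * g * q

/-- the class of triples -/
structure Tr (N : ℕ) (H : Type u) [Group H] (P Q : Subgroup H) : Prop where
  lf : LF H
  dP : Dv N P
  dQ : Dv N Q
  fdc : FDC P Q
  fint : ∀ h : H, ((P ⊓ cj h Q : Subgroup H) : Set H).Finite

/-- a critical triple with trivial centre -/
structure Crit (N : ℕ) (H : Type u) [Group H] (P Q : Subgroup H) : Prop extends Tr N H P Q where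
  bad : ¬ DvF N (⊤ : Subgroup H)
  nfi : ∀ D : Subgroup H, D.index ≠ 0 → D = ⊤
  prP : ∀ K : Subgroup H, K ≠ ⊤ → P ≤ K → DvF N K
  prQ : ∀ K : Subgroup H, K ≠ ⊤ → Q ≤ K → DvF N K
  cen : ∀ z : H, (∀ h : H, z * h = h * z) → z = 1

/-- the trivial intersection property -/
structure TIs (N : ℕ) (H : Type u) [Group H] (P Q DP DQ : Subgroup H) : Prop extends Tr N H P Q where
  hP : P ≤ DP
  hQ : Q ≤ DQ
  P1 : P ≠ ⊥
  Q1 : Q ≠ ⊥
  cP : ∀ x ∈ DP, ∀ y ∈ DP, x * y = y * x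
  cQ : ∀ x ∈ DQ, ∀ y ∈ DQ, x * y = y * x
  tiP : ∀ g : H, ∀ x ∈ DP, x ≠ 1 → g * x * g⁻¹ ∈ DP → g ∈ Subgroup.normalizer (DP : Set H)
  tiQ : ∀ g : H, ∀ x ∈ DQ, x ≠ 1 → g * x * g⁻¹ ∈ DQ → g ∈ Subgroup.normalizer (DQ : Set H)
  cenP : ∀ x ∈ DP, x ≠ 1 → Subgroup.centralizer {x} ≤ Subgroup.normalizer (DP : Set H)
  cenQ : ∀ x ∈ DQ, x ≠ 1 → Subgroup.centralizer {x} ≤ Subgroup.normalizer (DQ : Set H)
  norP : DP.relIndex (Subgroup.normalizer (DP : Set H)) ≠ 0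
  norQ : DQ.relIndex (Subgroup.normalizer (DQ : Set H)) ≠ 0
  meet : ∀ g : H, ∀ x ∈ DP, x ≠ 1 → x ∈ cj g DQ → cj g DQ = DP
  ex : ∃ g : H, cj g DQ ≠ DP

end Pool.Agent.Chern
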