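import Pool.Agent.Chern.Defs2

/-!
# Definitions for the general case (no local finiteness)
-/

set_option autoImplicit false

namespace Pool.Agent.Chern

universe u v

/-- the class of triples, without local finiteness -/
structure TrS (N : ℕ) (H : Type u) [Group H] (P Q : Subgroup H) : Prop where
  dP : Dv N P
  dQ : Dv N Q
  fdc : FDC P Q
  fint : ∀ h : H, ((P ⊓ cj h Q : Subgroup H) : Set H).Finite

/-- a critical triple with trivial centre and minimal sum of ranks -/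
structure CritS (N : ℕ) (H : Type u) [Group H] (P Q : Subgroup H) : Prop extends TrS N H P Q where
  bad : ¬ DvF N (⊤ : Subgroup H)
  nfi : ∀ D : Subgroup H, D.index ≠ 0 → D = ⊤
  prP : ∀ K : Subgroup H, K ≠ ⊤ → P ≤ K → DvF N K
  prQ : ∀ K : Subgroup H, K ≠ ⊤ → Q ≤ K → DvF N K
  cen : ∀ z : H, (∀ h : H, z * h = h * z) → z = 1
  min : ∀ (H' : Type u) [Group H'] (P' Q' : Subgroup H'), TrS N H' P' Q' →
    rk N P' + rk N Q' < rk N P + rk N Q → DvF N (⊤ : Subgroup H')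

/-- the trivial intersection property -/
structure TIsS (N : ℕ) (H : Type u) [Group H] (P Q DP DQ : Subgroup H) : Prop extends CritS N H P Q where
  hP : P ≤ DP
  hQ : Q ≤ DQ
  P1 : P ≠ ⊥
  Q1 : Q ≠ ⊥
  dvP : Dv N DP
  dvQ : Dv N DQ
  tiP : ∀ g : H, ∀ x ∈ DP, x ≠ 1 → g * x * g⁻¹ ∈ DP → g ∈ Subgroup.normalizer (DP : Set H)
  tiQ : ∀ g : H, ∀ x ∈ DQ, x ≠ 1 → g * x * g⁻¹ ∈ DQ → g ∈ Subgroup.normalizer (DQ : Set H)
  cenP : ∀ x ∈ DP, x ≠ 1 → Subgroup.centralizer {x} ≤ Subgroup.normalizer (DP : Set H)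
  cenQ : ∀ x ∈ DQ, x ≠ 1 → Subgroup.centralizer {x} ≤ Subgroup.normalizer (DQ : Set H)
  ciP : ∀ x ∈ DP, x ≠ 1 → DP.relIndex (Subgroup.centralizer {x}) ≠ 0
  ciQ : ∀ x ∈ DQ, x ≠ 1 → DQ.relIndex (Subgroup.centralizer {x}) ≠ 0
  norP : DP.relIndex (Subgroup.normalizer (DP : Set H)) ≠ 0
  norQ : DQ.relIndex (Subgroup.normalizer (DQ : Set H)) ≠ 0
  nP : Subgroup.normalizer (DP : Set H) ≠ ⊤
  nQ : Subgroup.normalizer (DQ : Set H) ≠ ⊤
  meet : ∀ g : H, ∀ x ∈ DP, x ≠ 1 → x ∈ cj g DQ → cj g DQ = DP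

/-- the situation after the row NE -/
structure NES (N : ℕ) (H : Type u) [Group H] (P Q DP DQ : Subgroup H) : Prop extends TIsS N H P Q DP DQ where
  m2P : ∀ K : Subgroup H, K ≠ ⊤ → P ≤ K → K ≤ Subgroup.normalizer (DP : Set H)
  m2Q : ∀ K : Subgroup H, K ≠ ⊤ → Q ≤ K → K ≤ Subgroup.normalizer (DQ : Set H)
  ne : ∀ g : H, ∀ x ∈ DP, x ∈ cj g DQ → x = 1
  gen : ∀ h : H, P ⊔ cj h Q = ⊤

/-- the hypotheses of the last part of the proof: no torsion or divisibility is used -/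
structure Alg (H : Type u) [Group H] (A B T : Subgroup H) : Prop where
  cA : ∀ x ∈ A, ∀ y ∈ A, x * y = y * x
  cB : ∀ x ∈ B, ∀ y ∈ B, x * y = y * x
  fdc : FDC A B
  nfiA : NFI A
  A1 : A ≠ ⊥
  tiA : ∀ g : H, ∀ x ∈ A, x ≠ 1 → g * x * g⁻¹ ∈ A → g ∈ Subgroup.normalizer (A : Set H)
  tiB : ∀ g : H, ∀ x ∈ B, x ≠ 1 → g * x * g⁻¹ ∈ B → g ∈ Subgroup.normalizer (B : Set H)
  cenA : ∀ x ∈ A, x ≠ 1 → Subgroup.centralizer {x} ≤ Subgroup.normalizer (A : Set H)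
  cenB : ∀ x ∈ B, x ≠ 1 → Subgroup.centralizer {x} ≤ Subgroup.normalizer (B : Set H)
  norA : A.relIndex (Subgroup.normalizer (A : Set H)) ≠ 0
  norB : B.relIndex (Subgroup.normalizer (B : Set H)) ≠ 0
  nA : (Subgroup.normalizer (A : Set H)).index = 0
  ne : ∀ g : H, ∀ x ∈ A, x ∈ cj g B → x = 1
  nT : T.Normal
  cT : ∀ x : H, (∀ t ∈ T, x * t = t * x) → x = 1
  gT : ∀ z : H, z ∉ Subgroup.normalizer (A : Set H) →
    ∃ Y : Finset H, (∀ y ∈ Y, y ∈ A) ∧ T ≤ Subgroup.closure {x : H | ∃ y ∈ Y, x = y * z * y⁻¹}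

/-- `wzw⁻¹` where `w = ι k` -/
def zk {H : Type u} {K : Type v} [Group H] [CommGroup K] (ι : K →* H) (z : H) (k : K) : H := ι k * z * (ι k)⁻¹

/-- the outcome of the dynamical part: `K` is the abelian group `A`, `ι` the inclusion -/
structure Rec (H : Type u) [Group H] (K : Type v) [CommGroup K] (ι : K →* H) (z : H) (Gd : Finset K → Prop) : Prop where
  one : Gd {1}
  mono : ∀ W W' : Finset K, W ⊆ W' → Gd W' → Gd W
  tr : ∀ (W : Finset K) (a : K), Gd W → ∀ W' : Finset K, (∀ w ∈ W', ∃ w0 ∈ W, w = a * w0) → Gd W'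
  com : ∀ W : Finset K, Gd W → ∀ w ∈ W, ∀ w' ∈ W, Commute (zk ι z w) (zk ι z w')
  ret : ∀ W : Finset K, Gd W → ∃ (n : ℕ) (χ : K → Fin n), ∀ a b : K, χ a = χ b →
    ∀ W' : Finset K, (∀ w ∈ W', w ∈ W ∨ ∃ w0 ∈ W, w = a * b⁻¹ * w0) → Gd W'

/-- the exponent box: products of `1` or `ρ` with the inverses of some of the elements `s 0, ..., s n` -/
def Box {K : Type v} [CommGroup K] (s : ℕ → K) (ρ : K) (n : ℕ) : Set K :=
  {m | ∃ e : ℕ, e ≤ 1 ∧ ∃ J : Finset ℕ, J ⊆ Finset.range (n + 1) ∧ m = ρ ^ e * ∏ i ∈ J, (s i)⁻¹}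

end Pool.Agent.Chern
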