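import Pool.Agent.Chern.ProdS

/-!
# Finite unions of double cosets of two Chernikov subgroups
-/

set_option autoImplicit false

namespace Pool.Agent.Chern

universe u

/-- groups of the kind `Dv` are divisible -/
theorem Dv.div_all {N : ℕ} (hN : 0 < N) {G : Type u} [Group G] {P : Subgroup G} (h : Dv N P) :
    ∀ n : ℕ, 0 < n → ∀ x ∈ P, ∃ y ∈ P, y ^ n = x := by
  intro n
  induction n using induction_on_primes with
  | zero => intro h0; exact absurd h0 (lt_irrefl 0)
  | one => intro _ x hx; exact ⟨x, hx, pow_one x⟩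
  | prime_mul p a hp ih =>
    intro ha x hx
    have ha' : 0 < a := by
      rcases Nat.eq_zero_or_pos a with h0 | h0
      · subst h0; simp at ha
      · exact h0
    -- a `p`-th root
    obtain ⟨y, hy, rfl⟩ : ∃ y ∈ P, y ^ p = x := by
      by_cases hpN : p ∣ N
      · obtain ⟨c, rfl⟩ := hpN
        obtain ⟨y, hy, rfl⟩ := h.div x hx
        exact ⟨y ^ c, P.pow_mem hy c, by rw [← pow_mul, mul_comm]⟩
      · obtain ⟨k, hk⟩ := h.tors x hx
        have hco : Nat.Coprime p (N ^ k) := Nat.Coprime.pow_right k ((Nat.Prime.coprime_iff_not_dvd hp).2 hpN)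
        refine ⟨x ^ (Nat.gcdA p (N ^ k)), P.zpow_mem hx _, ?_⟩
        have hb := Nat.gcd_eq_gcd_ab p (N ^ k)
        rw [hco.gcd_eq_one] at hb
        have h1 : (x ^ (Nat.gcdA p (N ^ k))) ^ p = x ^ ((p : ℤ) * Nat.gcdA p (N ^ k)) := by
          rw [mul_comm, zpow_mul, zpow_natCast]
        have h2 : x ^ (((N ^ k : ℕ) : ℤ) * Nat.gcdB p (N ^ k)) = 1 := by
          rw [zpow_mul, zpow_natCast, hk, one_zpow]
        have h3 : (p : ℤ) * Nat.gcdA p (N ^ k) = 1 - ((N ^ k : ℕ) : ℤ) * Nat.gcdB p (N ^ k) := by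
          push_cast at hb ⊢
          linarith
        rw [h1, h3, zpow_sub, h2, zpow_one, inv_one, mul_one]
    obtain ⟨z, hz, rfl⟩ := ih ha' y hy
    exact ⟨z, hz, by rw [mul_comm, pow_mul]⟩

/-- a group with a subgroup of finite index of the kind `Dv` is a Chernikov group -/
theorem chernikov_of_dvF {N : ℕ} (hN : 0 < N) {G : Type u} [Group G] (h : DvF N (⊤ : Subgroup G)) : IsChernikov G := by
  obtain ⟨D, -, hDi, hD⟩ := h
  have hDi' : D.index ≠ 0 := by rwa [← Subgroup.relIndex_top_right]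
  exact ⟨D, LG.normal_of_nfi (hD.nfi hN) hDi', hDi', hD.comm, fun x hx n hn => hD.div_all hN n hn x hx, hD.wf hN⟩

/-- a group which is the union of finitely many double cosets `A g B` of Chernikov subgroups, such that `A` has finite
intersections with the conjugates of `B`, is a Chernikov group -/
theorem chernikov_of_fdc {G : Type u} [Group G] (A B : Subgroup G) (hA : IsChernikov A) (hB : IsChernikov B)
    (hS : ∃ S : Finset G, ∀ h : G, ∃ s ∈ S, ∃ a ∈ A, ∃ b ∈ B, h = a * s * b)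
    (hf : ∀ h : G, ((A ⊓ cj h B : Subgroup G) : Set G).Finite) : IsChernikov G := by
  classical
  obtain ⟨N, hN, A0, B0, hA0, hB0, hAi, hBi, hDA, hDB, hAn, hBn, -, -⟩ := exists_dv A B hA hB
  refine chernikov_of_dvF hN (dvF_of_trS hN (P := A0) (Q := B0) ⟨hDA, hDB, ?_, fun h => (hf h).subset ?_⟩)
  · obtain ⟨TA, hTA, hTA'⟩ := RA.exists_reps hAi
    obtain ⟨TB, hTB, hTB'⟩ := RA.exists_reps hBi
    obtain ⟨S, hS⟩ := hS
    refine ⟨(TA ×ˢ (S ×ˢ TB)).image fun p => p.1 * p.2.1 * p.2.2, ?_⟩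
    intro g
    obtain ⟨c, hc, a, ha, b, hb, rfl⟩ := hS g
    obtain ⟨s, hs, x, hx, rfl⟩ := hTA' a ha
    obtain ⟨t, ht, y, hy, rfl⟩ := hTB' b hb
    refine ⟨s * c * t, Finset.mem_image.2 ⟨(s, c, t), by simp [hs, hc, ht], rfl⟩,
      s * x * s⁻¹, hAn s (hTA s hs) x hx, y, hy, ?_⟩
    group
  · intro x hx
    obtain ⟨h1, h2⟩ := Subgroup.mem_inf.1 hx
    exact Subgroup.mem_inf.2 ⟨hA0 h1, Subgroup.map_mono hB0 h2⟩

end Pool.Agent.Chern
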