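import Pool.Agent.Chern.Defs2

/-!
# Groups of the kind `Dv`
-/

set_option autoImplicit false

namespace Pool.Agent.Chern

universe u v

section Basic

variable {N : ℕ} {G : Type u} [Group G] {P : Subgroup G}

theorem Dv.mulPow (h : Dv N P) {x y : G} (hx : x ∈ P) (hy : y ∈ P) (n : ℕ) :
    (x * y) ^ n = x ^ n * y ^ n :=
  (show Commute x y from h.comm x hx y hy).mul_pow n

/-- the layer `x ^ (N ^ n) = 1` as a subgroup -/
def Dv.lay (h : Dv N P) (n : ℕ) : Subgroup G where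
  carrier := {x | x ∈ P ∧ x ^ (N ^ n) = 1}
  mul_mem' := by
    rintro a b ⟨ha, ha'⟩ ⟨hb, hb'⟩
    exact ⟨P.mul_mem ha hb, by rw [h.mulPow ha hb, ha', hb', one_mul]⟩
  one_mem' := ⟨P.one_mem, one_pow _⟩
  inv_mem' := by
    rintro a ⟨ha, ha'⟩
    exact ⟨P.inv_mem ha, by rw [inv_pow, ha', inv_one]⟩

theorem Dv.mem_lay (h : Dv N P) {n : ℕ} {x : G} : x ∈ h.lay n ↔ x ∈ P ∧ x ^ (N ^ n) = 1 := Iff.rfl

theorem Dv.lay_finite (h : Dv N P) (n : ℕ) : {x : G | x ∈ P ∧ x ^ (N ^ n) = 1}.Finite := by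
  induction n with
  | zero =>
    refine (Set.finite_singleton (1 : G)).subset ?_
    rintro x ⟨-, hx⟩
    simpa using hx
  | succ n ih =>
    refine Set.Finite.of_finite_fibers (f := fun x : G => x ^ N) ?_ ?_
    · refine ih.subset ?_
      rintro _ ⟨x, ⟨hx, hx'⟩, rfl⟩
      exact ⟨P.pow_mem hx _, by rw [← pow_mul, ← pow_succ', hx']⟩
    · rintro y ⟨z, ⟨hz, hz'⟩, rfl⟩
      refine ((h.fin.image (fun w => z * w))).subset ?_
      rintro x ⟨⟨hx, hx'⟩, hxy⟩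
      refine ⟨z⁻¹ * x, ⟨P.mul_mem (P.inv_mem hz) hx, ?_⟩, by simp⟩
      have : x ^ N = z ^ N := hxy
      rw [h.mulPow (P.inv_mem hz) hx, inv_pow, this, inv_mul_cancel]

theorem Dv.div_pow (h : Dv N P) (n : ℕ) : ∀ x ∈ P, ∃ y ∈ P, y ^ (N ^ n) = x := by
  induction n with
  | zero => exact fun x hx => ⟨x, hx, by simp⟩
  | succ n ih =>
    intro x hx
    obtain ⟨y, hy, rfl⟩ := ih x hx
    obtain ⟨z, hz, rfl⟩ := h.div y hy
    exact ⟨z, hz, by rw [pow_succ', pow_mul]⟩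

theorem Dv.pow_one_of_le (h : Dv N P) {x : G} {k l : ℕ} (hk : x ^ (N ^ k) = 1) (hkl : k ≤ l) :
    x ^ (N ^ l) = 1 := by
  obtain ⟨m, rfl⟩ := Nat.exists_eq_add_of_le hkl
  rw [pow_add, pow_mul, hk, one_pow]

/-- a nontrivial group of this kind has an element of every height -/
theorem Dv.exists_new (h : Dv N P) (hP : P ≠ ⊥) (n : ℕ) :
    ∃ x ∈ P, x ^ (N ^ (n + 1)) = 1 ∧ x ^ (N ^ n) ≠ 1 := by
  obtain ⟨y, hy, hy1⟩ : ∃ y ∈ P, y ≠ 1 := by
    by_contra hcon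
    push Not at hcon
    exact hP ((Subgroup.eq_bot_iff_forall _).2 hcon)
  classical
  have hex := h.tors y hy
  obtain ⟨k, hk, hkm⟩ : ∃ k, y ^ (N ^ (k + 1)) = 1 ∧ y ^ (N ^ k) ≠ 1 := by
    have h0 : Nat.find hex ≠ 0 := by
      intro h0
      have := Nat.find_spec hex
      rw [h0] at this
      exact hy1 (by simpa using this)
    obtain ⟨k, hk⟩ := Nat.exists_eq_succ_of_ne_zero h0
    refine ⟨k, ?_, Nat.find_min hex (by omega)⟩
    have := Nat.find_spec hex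
    rwa [hk] at this
  obtain ⟨x, hx, hxy⟩ := h.div_pow n _ (P.pow_mem hy (N ^ k))
  refine ⟨x, hx, ?_, by rwa [hxy]⟩
  rw [pow_succ, pow_mul, hxy, ← pow_mul, ← pow_succ, hk]

end Basic

/-- the layers `x ^ (N ^ n) = 1` are finite, and large if `P` is not trivial -/
theorem Dv.layer {N : ℕ} (hN : 0 < N) {G : Type u} [Group G] {P : Subgroup G} (h : Dv N P) (n : ℕ) :
    {x : G | x ∈ P ∧ x ^ (N ^ n) = 1}.Finite ∧
      (P ≠ ⊥ → n ≤ Set.ncard {x : G | x ∈ P ∧ x ^ (N ^ n) = 1}) := by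
  refine ⟨h.lay_finite n, fun hP => ?_⟩
  induction n with
  | zero => exact Nat.zero_le _
  | succ n ih =>
    refine Nat.succ_le_of_lt (lt_of_le_of_lt ih (Set.ncard_lt_ncard ?_ (h.lay_finite _)))
    obtain ⟨x, hx, h1, h2⟩ := h.exists_new hP n
    refine (Set.ssubset_iff_of_subset ?_).2 ⟨x, ⟨hx, h1⟩, fun hh => h2 hh.2⟩
    rintro y ⟨hy, hy'⟩
    exact ⟨hy, h.pow_one_of_le hy' (Nat.le_succ n)⟩

theorem Dv.nfi {N : ℕ} (hN : 0 < N) {G : Type u} [Group G] {P : Subgroup G} (h : Dv N P) :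
    NFI P := by
  intro D hD x hx
  let DP : Subgroup P := D.subgroupOf P
  have : DP.Normal := ⟨fun n hn g => by
    have : g * n * g⁻¹ = n := by
      have := h.comm g.1 g.2 n.1 n.2
      ext
      simp [this]
    rwa [this]⟩
  have hidx : DP.index ≠ 0 := hD
  have : DP.FiniteIndex := ⟨hidx⟩
  have : Finite (P ⧸ DP) := Subgroup.finite_quotient_of_finiteIndex
  have hsurj : Function.Surjective (fun q : P ⧸ DP => q ^ N) := by
    intro q
    obtain ⟨y, rfl⟩ := QuotientGroup.mk_surjective q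
    obtain ⟨z, hz, hzy⟩ := h.div y.1 y.2
    refine ⟨QuotientGroup.mk (⟨z, hz⟩ : P), ?_⟩
    change (QuotientGroup.mk (⟨z, hz⟩ : P) : P ⧸ DP) ^ N = _
    rw [← QuotientGroup.mk_pow]
    congr 1
    ext
    exact hzy
  have hinj := Finite.injective_iff_surjective.2 hsurj
  have hit : ∀ k : ℕ, ∀ q : P ⧸ DP, q ^ (N ^ k) = 1 → q = 1 := by
    intro k
    induction k with
    | zero => intro q hq; simpa using hq
    | succ k ih =>
      intro q hq
      have h1 : q ^ (N ^ k) = 1 := by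
        apply hinj
        change (q ^ (N ^ k)) ^ N = 1 ^ N
        rw [← pow_mul, ← pow_succ, hq, one_pow]
      exact ih q h1
  obtain ⟨k, hk⟩ := h.tors x hx
  have h1 : (QuotientGroup.mk (⟨x, hx⟩ : P) : P ⧸ DP) = 1 := by
    refine hit k _ ?_
    rw [← QuotientGroup.mk_pow]
    have : (⟨x, hx⟩ : P) ^ (N ^ k) = 1 := by
      ext
      exact hk
    rw [this, QuotientGroup.mk_one]
  have h2 := (QuotientGroup.eq_one_iff _).1 h1
  exact h2

theorem Dv.rk_lt {N : ℕ} (hN : 0 < N) {G : Type u} [Group G] {P P1 : Subgroup G} (h : Dv N P)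
    (h1 : Dv N P1) (hle : P1 ≤ P) (hne : P1 ≠ P) : rk N P1 < rk N P := by
  have hsub : {x : G | x ∈ P1 ∧ x ^ N = 1} ⊆ {x : G | x ∈ P ∧ x ^ N = 1} :=
    fun x hx => ⟨hle hx.1, hx.2⟩
  by_contra hcon
  have heq : {x : G | x ∈ P1 ∧ x ^ N = 1} = {x : G | x ∈ P ∧ x ^ N = 1} :=
    Set.eq_of_subset_of_ncard_le hsub (not_lt.1 hcon) h.fin
  apply hne
  refine le_antisymm hle ?_
  have key : ∀ k : ℕ, ∀ x ∈ P, x ^ (N ^ k) = 1 → x ∈ P1 := by
    intro k
    induction k with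
    | zero => intro x _ hx; have : x = 1 := by simpa using hx
              rw [this]; exact P1.one_mem
    | succ k ih =>
      intro x hx hxk
      have h2 : x ^ N ∈ P1 := ih _ (P.pow_mem hx _) (by rw [← pow_mul, ← pow_succ', hxk])
      obtain ⟨y, hy, hyx⟩ := h1.div _ h2
      have h3 : x * y⁻¹ ∈ {x : G | x ∈ P ∧ x ^ N = 1} := by
        refine ⟨P.mul_mem hx (P.inv_mem (hle hy)), ?_⟩
        rw [h.mulPow hx (P.inv_mem (hle hy)), inv_pow, hyx, mul_inv_cancel]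
      rw [← heq] at h3
      have h4 := P1.mul_mem h3.1 hy
      simpa using h4
  intro x hx
  obtain ⟨k, hk⟩ := h.tors x hx
  exact key k x hx hk

/-! ### Images -/

/-- the `N`-th power homomorphism of a commutative group -/
def pw {E : Type u} [Group E] (hc : ∀ a b : E, a * b = b * a) (N : ℕ) : E →* E where
  toFun x := x ^ N
  map_one' := one_pow N
  map_mul' a b := (show Commute a b from hc a b).mul_pow N

theorem card_ker_pow {F : Type v} [Group F] [Finite F] (hc : ∀ a b : F, a * b = b * a) (N : ℕ) :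
    Nat.card (pw hc N).ker = (pw hc N).range.index := by
  have h1 : Nat.card (pw hc N).ker * (pw hc N).ker.index = Nat.card F :=
    Subgroup.card_mul_index _
  have h2 : Nat.card (pw hc N).range * (pw hc N).range.index = Nat.card F :=
    Subgroup.card_mul_index _
  have h3 : (pw hc N).ker.index = Nat.card (pw hc N).range := Subgroup.index_ker _
  have h4 : 0 < Nat.card (pw hc N).range := Nat.card_pos
  rw [h3] at h1
  rw [← h2, mul_comm] at h1
  exact Nat.eq_of_mul_eq_mul_left h4 h1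

/-- for finite commutative groups the kernel of `x ↦ x ^ N` gets smaller under surjections -/
theorem ker_pow_le {E : Type u} {F : Type v} [Group E] [Group F] [Finite E]
    (hE : ∀ a b : E, a * b = b * a) (hF : ∀ a b : F, a * b = b * a) (N : ℕ)
    (R : Subgroup E) (f : E →* F) (hf : Function.Surjective f) (hR : R ≤ f.ker) :
    Nat.card (pw hF N).ker ≤ ((pw hE N).range ⊔ R).index := by
  have : Finite F := Finite.of_surjective f hf
  have h6 : ((pw hE N).range ⊔ R).map f = (pw hF N).range := by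
    rw [Subgroup.map_sup]
    have h7 : R.map f = ⊥ := (Subgroup.map_eq_bot_iff _).2 hR
    rw [h7, sup_bot_eq]
    ext y
    constructor
    · rintro ⟨_, ⟨x, rfl⟩, rfl⟩
      exact ⟨f x, (map_pow f x N).symm⟩
    · rintro ⟨z, rfl⟩
      obtain ⟨x, rfl⟩ := hf z
      exact ⟨pw hE N x, ⟨x, rfl⟩, map_pow f x N⟩
  rw [card_ker_pow, ← h6]
  refine Nat.le_of_dvd (Nat.pos_of_ne_zero ?_) (Subgroup.index_map_dvd _ hf)
  exact Subgroup.index_ne_zero_of_finite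

section Maps

variable {N : ℕ} {G : Type u} {H : Type v} [Group G] [Group H] {P : Subgroup G}

/-- comparison at level `k` -/
theorem Dv.level (h : Dv N P) (φ : G →* H) (k : ℕ) (R : Subgroup G) (hR : R ≤ φ.ker) :
    ∃ I : ℕ, Set.ncard {y : H | (∃ x ∈ P, x ^ (N ^ k) = 1 ∧ φ x = y) ∧ y ^ N = 1} ≤ I ∧
      I ≤ rk N P ∧
      ((∃ w ∈ R, w ∈ P ∧ w ^ (N ^ k) = 1 ∧ ∀ x ∈ P, x ^ (N ^ k) = 1 → x ^ N ≠ w) →
        I < rk N P) := by
  let E := h.lay k
  have hE : E ≤ P := fun x hx => hx.1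
  have hcE : ∀ a b : E, a * b = b * a :=
    fun a b => Subtype.ext (h.comm _ (hE a.2) _ (hE b.2))
  have hEf : Finite E := (h.lay_finite k).to_subtype
  have hcF : ∀ a b : E.map φ, a * b = b * a := by
    rintro ⟨_, a, ha, rfl⟩ ⟨_, b, hb, rfl⟩
    refine Subtype.ext ?_
    change φ a * φ b = φ b * φ a
    rw [← map_mul, ← map_mul, h.comm _ (hE ha) _ (hE hb)]
  let f : E →* E.map φ := φ.subgroupMap E
  have hf : Function.Surjective f := φ.subgroupMap_surjective E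
  have hRf : R.subgroupOf E ≤ f.ker := by
    intro x hx
    rw [MonoidHom.mem_ker]
    exact Subtype.ext (hR hx)
  have h1 := ker_pow_le hcE hcF N (R.subgroupOf E) f hf hRf
  have h2 : Nat.card (pw hcE N).ker ≤ rk N P := by
    have hfi : Finite {x : G | x ∈ P ∧ x ^ N = 1} := h.fin.to_subtype
    change Nat.card (pw hcE N).ker ≤ Nat.card {x : G | x ∈ P ∧ x ^ N = 1}
    refine Nat.card_le_card_of_injective
      (fun x : (pw hcE N).ker => (⟨x.1.1, hE x.1.2, congrArg Subtype.val (MonoidHom.mem_ker.1 x.2)⟩ :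
        {x : G | x ∈ P ∧ x ^ N = 1})) ?_
    intro x y hxy
    exact Subtype.ext (Subtype.ext
      (congrArg (fun z : {x : G | x ∈ P ∧ x ^ N = 1} => z.1) hxy))
  have h3 : ((pw hcE N).range ⊔ R.subgroupOf E).index ≤ (pw hcE N).range.index :=
    Nat.le_of_dvd (Nat.pos_of_ne_zero Subgroup.index_ne_zero_of_finite)
      (Subgroup.index_dvd_of_le le_sup_left)
  refine ⟨((pw hcE N).range ⊔ R.subgroupOf E).index, ?_, ?_, ?_⟩
  · refine le_trans ?_ h1
    have hfm : Finite (E.map φ) := Finite.of_surjective f hf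
    change Nat.card {y : H | (∃ x ∈ P, x ^ (N ^ k) = 1 ∧ φ x = y) ∧ y ^ N = 1} ≤ _
    refine Nat.card_le_card_of_injective
      (fun y => (⟨⟨y.1, ?_⟩, ?_⟩ : (pw hcF N).ker)) ?_
    · obtain ⟨⟨x, hx, hxk, hxy⟩, -⟩ := y.2
      exact ⟨x, ⟨hx, hxk⟩, hxy⟩
    · rw [MonoidHom.mem_ker]
      exact Subtype.ext y.2.2
    · intro y z hyz
      have := congrArg (fun w => w.1.1) hyz
      exact Subtype.ext this
  · exact h3.trans ((card_ker_pow hcE N).symm.le.trans h2)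
  · rintro ⟨w, hw, hwP, hwk, hwn⟩
    have : (pw hcE N).range.FiniteIndex := ⟨Subgroup.index_ne_zero_of_finite⟩
    refine lt_of_lt_of_le (Subgroup.index_strictAnti ?_) ((card_ker_pow hcE N).symm.le.trans h2)
    refine lt_of_le_of_ne le_sup_left ?_
    intro heq
    have h4 : (⟨w, hwP, hwk⟩ : E) ∈ (pw hcE N).range ⊔ R.subgroupOf E :=
      Subgroup.mem_sup_right hw
    rw [← heq] at h4
    obtain ⟨x, hx⟩ := h4
    exact hwn x.1 x.2.1 x.2.2 (congrArg Subtype.val hx)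

/-- a common level for finitely many elements of the image -/
theorem Dv.exists_level (h : Dv N P) (φ : G →* H) (T : Set H) (hT : T.Finite)
    (hTP : ∀ y ∈ T, y ∈ P.map φ) : ∃ k : ℕ, ∀ y ∈ T, ∃ x ∈ P, x ^ (N ^ k) = 1 ∧ φ x = y := by
  induction T, hT using Set.Finite.induction_on with
  | empty => exact ⟨0, fun y hy => hy.elim⟩
  | insert _ _ ih =>
    rename_i a s _ _
    obtain ⟨k, hk⟩ := ih (fun y hy => hTP y (Set.mem_insert_of_mem _ hy))
    obtain ⟨x, hx, hxa⟩ := hTP a (Set.mem_insert _ _)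
    obtain ⟨l, hl⟩ := h.tors x hx
    refine ⟨max k l, ?_⟩
    rintro y (rfl | hy)
    · exact ⟨x, hx, h.pow_one_of_le hl (le_max_right _ _), hxa⟩
    · obtain ⟨z, hz, hzk, hzy⟩ := hk y hy
      exact ⟨z, hz, h.pow_one_of_le hzk (le_max_left _ _), hzy⟩

theorem Dv.map_fin (h : Dv N P) (φ : G →* H) :
    {y : H | y ∈ P.map φ ∧ y ^ N = 1}.Finite ∧ rk N (P.map φ) ≤ rk N P := by
  have key : ∀ T : Set H, T.Finite → T ⊆ {y : H | y ∈ P.map φ ∧ y ^ N = 1} →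
      T.ncard ≤ rk N P := by
    intro T hT hTs
    obtain ⟨k, hk⟩ := h.exists_level φ T hT (fun y hy => (hTs hy).1)
    obtain ⟨I, h1, h2, -⟩ := h.level φ k ⊥ bot_le
    refine le_trans (Set.ncard_le_ncard ?_ ?_) (h1.trans h2)
    · exact fun y hy => ⟨hk y hy, (hTs hy).2⟩
    · refine ((h.lay_finite k).image φ).subset ?_
      rintro y ⟨⟨x, hx, hxk, hxy⟩, -⟩
      exact ⟨x, ⟨hx, hxk⟩, hxy⟩
  have hfin : {y : H | y ∈ P.map φ ∧ y ^ N = 1}.Finite := by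
    by_contra hinf
    obtain ⟨T, hT1, hT2, hT3⟩ := (show Set.Infinite _ from hinf).exists_subset_ncard_eq (rk N P + 1)
    have := key T hT2 hT1
    omega
  exact ⟨hfin, key _ hfin subset_rfl⟩

end Maps

theorem Dv.map {N : ℕ} (hN : 0 < N) {G : Type u} {H : Type v} [Group G] [Group H] {P : Subgroup G}
    (h : Dv N P) (φ : G →* H) : Dv N (P.map φ) ∧ rk N (P.map φ) ≤ rk N P := by
  refine ⟨⟨?_, ?_, ?_, (h.map_fin φ).1⟩, (h.map_fin φ).2⟩
  · rintro _ ⟨x, hx, rfl⟩ _ ⟨y, hy, rfl⟩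
    rw [← map_mul, ← map_mul, h.comm x hx y hy]
  · rintro _ ⟨x, hx, rfl⟩
    obtain ⟨y, hy, rfl⟩ := h.div x hx
    exact ⟨φ y, ⟨y, hy, rfl⟩, (map_pow φ y N).symm⟩
  · rintro _ ⟨x, hx, rfl⟩
    obtain ⟨k, hk⟩ := h.tors x hx
    exact ⟨k, by rw [← map_pow, hk, map_one]⟩

theorem Dv.map_lt {N : ℕ} (hN : 0 < N) {G : Type u} {H : Type v} [Group G] [Group H]
    {P W : Subgroup G} (h : Dv N P) (hW : Dv N W) (hle : W ≤ P) (hW1 : W ≠ ⊥) (φ : G →* H)
    (hφ : W ≤ φ.ker) : rk N (P.map φ) < rk N P := by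
  obtain ⟨k, hk⟩ := h.exists_level φ _ (h.map_fin φ).1 (fun y hy => hy.1)
  obtain ⟨I, h1, h2, h3⟩ := h.level φ (k + 1) W hφ
  refine lt_of_le_of_lt ?_ (h3 ?_)
  · refine le_trans (Set.ncard_le_ncard ?_ ?_) h1
    · intro y hy
      obtain ⟨x, hx, hxk, hxy⟩ := hk y hy
      exact ⟨⟨x, hx, h.pow_one_of_le hxk (Nat.le_succ k), hxy⟩, hy.2⟩
    · refine ((h.lay_finite (k + 1)).image φ).subset ?_
      rintro y ⟨⟨x, hx, hxk, hxy⟩, -⟩
      exact ⟨x, ⟨hx, hxk⟩, hxy⟩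
  · obtain ⟨w, hw, hw1, hw2⟩ := hW.exists_new hW1 k
    refine ⟨w, hw, hle hw, hw1, ?_⟩
    intro x hx hxk hxw
    apply hw2
    rw [← hxw, ← pow_mul, ← pow_succ', hxk]

theorem Dv.of_map_injective {N : ℕ} {G : Type u} {H : Type v} [Group G] [Group H] {P : Subgroup G}
    (φ : G →* H) (hφ : Function.Injective φ) (h : Dv N (P.map φ)) :
    Dv N P ∧ rk N (P.map φ) = rk N P := by
  have himg : {y : H | y ∈ P.map φ ∧ y ^ N = 1} = φ '' {x : G | x ∈ P ∧ x ^ N = 1} := by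
    ext y
    constructor
    · rintro ⟨⟨x, hx, rfl⟩, hy⟩
      refine ⟨x, ⟨hx, hφ ?_⟩, rfl⟩
      rw [map_pow, hy, map_one]
    · rintro ⟨x, ⟨hx, hxN⟩, rfl⟩
      exact ⟨⟨x, hx, rfl⟩, by rw [← map_pow, hxN, map_one]⟩
  refine ⟨⟨?_, ?_, ?_, ?_⟩, ?_⟩
  · intro x hx y hy
    apply hφ
    rw [map_mul, map_mul]
    exact h.comm _ ⟨x, hx, rfl⟩ _ ⟨y, hy, rfl⟩
  · intro x hx
    obtain ⟨_, ⟨y, hy, rfl⟩, hyx⟩ := h.div _ ⟨x, hx, rfl⟩
    exact ⟨y, hy, hφ (by rw [map_pow, hyx])⟩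
  · intro x hx
    obtain ⟨k, hk⟩ := h.tors _ ⟨x, hx, rfl⟩
    exact ⟨k, hφ (by rw [map_pow, hk, map_one])⟩
  · have := h.fin
    rw [himg] at this
    exact Set.Finite.of_finite_image this hφ.injOn
  · unfold rk
    rw [himg, Set.ncard_image_of_injective _ hφ]

/-- divisible part of a subgroup -/
theorem Dv.sub {N : ℕ} (hN : 0 < N) {G : Type u} [Group G] {P F : Subgroup G} (h : Dv N P)
    (hF : F ≤ P) : ∃ F0 : Subgroup G, F0 ≤ F ∧ Dv N F0 ∧ F0.relIndex F ≠ 0 := by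
  have hcF : ∀ a b : F, a * b = b * a := fun a b => Subtype.ext (h.comm _ (hF a.2) _ (hF b.2))
  let Fj : ℕ → Subgroup G := fun j => (pw hcF (N ^ j)).range.map F.subtype
  have hmem : ∀ j x, x ∈ Fj j ↔ ∃ y ∈ F, y ^ (N ^ j) = x := by
    intro j x
    constructor
    · rintro ⟨_, ⟨y, rfl⟩, rfl⟩
      exact ⟨y.1, y.2, rfl⟩
    · rintro ⟨y, hy, rfl⟩
      exact ⟨_, ⟨⟨y, hy⟩, rfl⟩, rfl⟩
  have hanti : ∀ i j, i ≤ j → Fj j ≤ Fj i := by
    intro i j hij x hx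
    obtain ⟨y, hy, rfl⟩ := (hmem j x).1 hx
    obtain ⟨m, rfl⟩ := Nat.exists_eq_add_of_le hij
    refine (hmem i _).2 ⟨y ^ (N ^ m), F.pow_mem hy _, ?_⟩
    rw [← pow_mul, ← pow_add, add_comm]
  have hFj : ∀ j, Fj j ≤ F := by
    intro j x hx
    obtain ⟨y, hy, rfl⟩ := (hmem j x).1 hx
    exact F.pow_mem hy _
  -- the socles are constant from some point on
  obtain ⟨j0, hj0⟩ : ∃ j0, ∀ j, j0 ≤ j → {x : G | x ∈ Fj j0 ∧ x ^ N = 1} ⊆ {x : G | x ∈ Fj j ∧ x ^ N = 1} := by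
    have hfin : ∀ j, {x : G | x ∈ Fj j ∧ x ^ N = 1}.Finite :=
      fun j => h.fin.subset fun x hx => ⟨hF (hFj j hx.1), hx.2⟩
    obtain ⟨j0, hj0⟩ : ∃ j0, ∀ j, Set.ncard {x : G | x ∈ Fj j0 ∧ x ^ N = 1} ≤
        Set.ncard {x : G | x ∈ Fj j ∧ x ^ N = 1} := by
      obtain ⟨j0, -, hj0⟩ := WellFounded.has_min
        (measure (fun j : ℕ => Set.ncard {x : G | x ∈ Fj j ∧ x ^ N = 1})).wf Set.univ ⟨0, trivial⟩
      exact ⟨j0, fun j => not_lt.1 (hj0 j trivial)⟩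
    refine ⟨j0, fun j hj => ?_⟩
    have hsub : {x : G | x ∈ Fj j ∧ x ^ N = 1} ⊆ {x : G | x ∈ Fj j0 ∧ x ^ N = 1} :=
      fun x hx => ⟨hanti _ _ hj hx.1, hx.2⟩
    exact (Set.eq_of_subset_of_ncard_le hsub (hj0 j) (hfin j0)).symm.subset
  have key : ∀ k x, x ∈ Fj j0 → x ^ (N ^ k) = 1 → ∀ j, j0 ≤ j → x ∈ Fj j := by
    intro k
    induction k with
    | zero =>
      intro x _ hx j _
      have : x = 1 := by simpa using hx
      rw [this]
      exact (Fj j).one_mem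
    | succ k ih =>
      intro x hx hxk j hj
      have h1 : x ^ N ∈ Fj (j + 1) :=
        ih _ ((Fj j0).pow_mem hx _) (by rw [← pow_mul, ← pow_succ', hxk]) _ (by omega)
      obtain ⟨y, hy, hyx⟩ := (hmem _ _).1 h1
      have hyj : y ^ (N ^ j) ∈ Fj j := (hmem _ _).2 ⟨y, hy, rfl⟩
      have h2 : x * (y ^ (N ^ j))⁻¹ ∈ {x : G | x ∈ Fj j0 ∧ x ^ N = 1} := by
        refine ⟨(Fj j0).mul_mem hx ((Fj j0).inv_mem (hanti _ _ hj hyj)), ?_⟩
        rw [h.mulPow (hF (hFj _ hx)) (P.inv_mem (hF (hFj _ hyj))), inv_pow, ← pow_mul, ← pow_succ,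
          hyx, mul_inv_cancel]
      have h3 := (Fj j).mul_mem (hj0 j hj h2).1 hyj
      simpa using h3
  have hdv : Dv N (Fj j0) := by
    refine ⟨fun x hx y hy => h.comm _ (hF (hFj _ hx)) _ (hF (hFj _ hy)), ?_,
      fun x hx => h.tors x (hF (hFj _ hx)), h.fin.subset fun x hx => ⟨hF (hFj _ hx.1), hx.2⟩⟩
    intro x hx
    obtain ⟨k, hk⟩ := h.tors x (hF (hFj _ hx))
    obtain ⟨y, hy, hyx⟩ := (hmem _ _).1 (key k x hx hk (j0 + 1) (Nat.le_succ _))
    exact ⟨y ^ (N ^ j0), (hmem _ _).2 ⟨y, hy, rfl⟩, by rw [← pow_mul, ← pow_succ, hyx]⟩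
  refine ⟨Fj j0, hFj j0, hdv, ?_⟩
  -- finite index
  have hcover : ∀ x ∈ F, ∃ t ∈ {x : G | x ∈ P ∧ x ^ (N ^ j0) = 1}, t ∈ F ∧ t⁻¹ * x ∈ Fj j0 := by
    intro x hx
    obtain ⟨z, hz, hzx⟩ := hdv.div_pow j0 (x ^ (N ^ j0)) ((hmem _ _).2 ⟨x, hx, rfl⟩)
    refine ⟨x * z⁻¹, ⟨P.mul_mem (hF hx) (P.inv_mem (hF (hFj _ hz))), ?_⟩,
      F.mul_mem hx (F.inv_mem (hFj _ hz)), ?_⟩
    · rw [h.mulPow (hF hx) (P.inv_mem (hF (hFj _ hz))), inv_pow, hzx, mul_inv_cancel]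
    · have : (x * z⁻¹)⁻¹ * x = z := by
        rw [mul_inv_rev, inv_inv, mul_assoc, inv_mul_cancel, mul_one]
      rwa [this]
  have hT := (h.lay_finite j0).to_subtype
  have hfq : Finite (F ⧸ (Fj j0).subgroupOf F) := by
    have hTF : Finite {t : F | t.1 ∈ {x : G | x ∈ P ∧ x ^ (N ^ j0) = 1}} :=
      ((h.lay_finite j0).preimage Subtype.val_injective.injOn).to_subtype
    refine Finite.of_surjective
      (fun t : {t : F | t.1 ∈ {x : G | x ∈ P ∧ x ^ (N ^ j0) = 1}} =>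
        (QuotientGroup.mk t.1 : F ⧸ (Fj j0).subgroupOf F)) ?_
    intro q
    obtain ⟨x, rfl⟩ := QuotientGroup.mk_surjective q
    obtain ⟨t, ht, htF, htx⟩ := hcover x.1 x.2
    exact ⟨⟨⟨t, htF⟩, ht⟩, QuotientGroup.eq.2 htx⟩
  exact (Subgroup.finiteIndex_of_finite_quotient (H := (Fj j0).subgroupOf F)).index_ne_zero

theorem Dv.sup {N : ℕ} (hN : 0 < N) {G : Type u} [Group G] {P Q : Subgroup G} (hP : Dv N P)
    (hQ : Dv N Q) (hc : ∀ p ∈ P, ∀ q ∈ Q, p * q = q * p) : Dv N (P ⊔ Q) := by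
  have hcomm : ∀ (p : P) (q : Q), Commute (P.subtype p) (Q.subtype q) :=
    fun p q => hc p.1 p.2 q.1 q.2
  have htop : Dv N (⊤ : Subgroup (P × Q)) := by
    refine ⟨?_, ?_, ?_, ?_⟩
    · rintro ⟨a, b⟩ - ⟨c, d⟩ -
      refine Prod.ext (Subtype.ext (hP.comm _ a.2 _ c.2)) (Subtype.ext (hQ.comm _ b.2 _ d.2))
    · rintro ⟨a, b⟩ -
      obtain ⟨c, hc', hca⟩ := hP.div a.1 a.2
      obtain ⟨d, hd, hdb⟩ := hQ.div b.1 b.2
      exact ⟨(⟨c, hc'⟩, ⟨d, hd⟩), trivial, Prod.ext (Subtype.ext hca) (Subtype.ext hdb)⟩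
    · rintro ⟨a, b⟩ -
      obtain ⟨k, hk⟩ := hP.tors a.1 a.2
      obtain ⟨l, hl⟩ := hQ.tors b.1 b.2
      exact ⟨max k l, Prod.ext (Subtype.ext (hP.pow_one_of_le hk (le_max_left _ _)))
        (Subtype.ext (hQ.pow_one_of_le hl (le_max_right _ _)))⟩
    · refine ((hP.fin.preimage (f := fun a : P => a.1) Subtype.val_injective.injOn).prod
        (hQ.fin.preimage (f := fun a : Q => a.1) Subtype.val_injective.injOn)).subset ?_
      rintro ⟨a, b⟩ ⟨-, h⟩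
      have h1 := congrArg (fun z : P × Q => (z.1 : G)) h
      have h2 := congrArg (fun z : P × Q => (z.2 : G)) h
      exact ⟨⟨a.2, h1⟩, ⟨b.2, h2⟩⟩
  have h := (Dv.map hN htop (MonoidHom.noncommCoprod P.subtype Q.subtype hcomm)).1
  rwa [← MonoidHom.range_eq_map, MonoidHom.noncommCoprod_range, Subgroup.range_subtype,
    Subgroup.range_subtype] at h

theorem Dv.wf {N : ℕ} (hN : 0 < N) {G : Type u} [Group G] {P : Subgroup G} (h : Dv N P) :
    WellFoundedLT (Subgroup ↥P) := by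
  have htop : Dv N (⊤ : Subgroup P) := by
    refine (Dv.of_map_injective P.subtype P.subtype_injective ?_).1
    rwa [← MonoidHom.range_eq_map, Subgroup.range_subtype]
  choose F0 h1 h2 h3 using fun F : Subgroup P => htop.sub hN (le_top : F ≤ ⊤)
  have hmono : StrictMono (fun F : Subgroup P => toLex (rk N (F0 F), (F0 F).relIndex F)) := by
    intro F F' hFF
    have hle : F0 F ≤ F0 F' := by
      refine (h2 F).nfi hN _ ?_
      intro h0
      exact h3 F' (Subgroup.relIndex_eq_zero_of_le_right ((h1 F).trans hFF.le) h0)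
    rcases eq_or_ne (F0 F) (F0 F') with heq | hne
    · refine Prod.Lex.toLex_lt_toLex.2 (Or.inr ⟨by rw [heq], ?_⟩)
      have h4 := Subgroup.relIndex_mul_relIndex (F0 F) F F' (h1 F) hFF.le
      have h5 : F.relIndex F' ≠ 0 := by
        intro h0
        rw [h0, mul_zero, heq] at h4
        exact h3 F' h4.symm
      have h6 : F.relIndex F' ≠ 1 := by
        intro h0
        exact hFF.not_ge (Subgroup.relIndex_eq_one.1 h0)
      change (F0 F).relIndex F < (F0 F').relIndex F'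
      rw [← heq, ← h4]
      have h7 : 0 < (F0 F).relIndex F := Nat.pos_of_ne_zero (h3 F)
      have h8 : 2 ≤ F.relIndex F' := by omega
      nlinarith
    · exact Prod.Lex.toLex_lt_toLex.2 (Or.inl (Dv.rk_lt hN (h2 F') (h2 F) hle hne))
  exact hmono.wellFoundedLT

end Pool.Agent.Chern
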