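import Pool.Agent.Chern.Defs

/-!
# Chernikov groups: abelian-by-finite groups with the minimal condition (row CH)
-/

set_option autoImplicit false

namespace Pool.Agent.Chern

universe u

/-- the minimal condition passes to finite extensions -/
theorem wf_of_normal {A : Type u} [Group A] (N : Subgroup A) [N.Normal] (hN : N.index ≠ 0)
    [WellFoundedLT (Subgroup ↥N)] : WellFoundedLT (Subgroup A) := by
  have hfin : Finite (A ⧸ N) := Subgroup.index_ne_zero_iff_finite.1 hN
  have hfin2 : Finite (Subgroup (A ⧸ N)) := inferInstance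
  have hm : StrictMono (fun K : Subgroup A =>
      ((K.comap N.subtype : Subgroup ↥N), (K.map (QuotientGroup.mk' N) : Subgroup (A ⧸ N)))) := by
    intro K L hKL
    refine lt_of_le_of_ne ⟨Subgroup.comap_mono hKL.le, Subgroup.map_mono hKL.le⟩ ?_
    intro h
    have h1 : (K.comap N.subtype : Subgroup ↥N) = L.comap N.subtype := congrArg Prod.fst h
    have h2 : (K.map (QuotientGroup.mk' N) : Subgroup (A ⧸ N)) = L.map (QuotientGroup.mk' N) :=
      congrArg Prod.snd h
    refine hKL.not_ge ?_
    intro l hl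
    have h3 : (QuotientGroup.mk' N) l ∈ K.map (QuotientGroup.mk' N) := by
      rw [h2]; exact Subgroup.mem_map_of_mem _ hl
    obtain ⟨k, hk, hkl⟩ := Subgroup.mem_map.1 h3
    have h4 : k⁻¹ * l ∈ N := by
      have : (k : A ⧸ N) = (l : A ⧸ N) := hkl
      exact QuotientGroup.eq.1 this
    have h5 : k⁻¹ * l ∈ L := L.mul_mem (L.inv_mem (hKL.le hk)) hl
    have h6 : (⟨k⁻¹ * l, h4⟩ : ↥N) ∈ L.comap N.subtype := h5
    rw [← h1] at h6
    have h7 : k⁻¹ * l ∈ K := h6
    have h8 := K.mul_mem hk h7
    rwa [mul_inv_cancel_left] at h8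
  exact hm.wellFoundedLT

theorem good_of_chernikov {A : Type u} [Group A] (h : IsChernikov A) : Good A := by
  obtain ⟨N, hn, hi, hc, -, hw⟩ := h
  exact ⟨wf_of_normal N hi, N, hi, hc⟩

/-- the minimal condition passes to subgroups -/
theorem wf_of_injective {A B : Type u} [Group A] [Group B] (f : B →* A) (hf : Function.Injective f)
    [WellFoundedLT (Subgroup A)] : WellFoundedLT (Subgroup B) := by
  have hm : StrictMono (fun K : Subgroup B => K.map f) := by
    intro K L hKL
    refine lt_of_le_of_ne (Subgroup.map_mono hKL.le) ?_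
    intro h
    exact hKL.ne (Subgroup.map_injective hf h)
  exact hm.wellFoundedLT

theorem Good.subgroup {G : Type u} [Group G] {A B : Subgroup G} (h : Good A) (hBA : B ≤ A) :
    Good B := by
  obtain ⟨hw, N, hi, hc⟩ := h
  refine ⟨wf_of_injective (Subgroup.inclusion hBA) (Subgroup.inclusion_injective hBA),
    N.comap (Subgroup.inclusion hBA), ?_, ?_⟩
  · rw [Subgroup.index_comap]
    intro h0
    exact hi (Subgroup.index_eq_zero_of_relIndex_eq_zero h0)
  · intro x hx y hy
    have := hc _ hx _ hy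
    exact Subgroup.inclusion_injective hBA (by simpa using this)

/-- a vector space over a prime field with the minimal condition on additive subgroups is finite -/
theorem finite_of_module {p : ℕ} [hp : Fact p.Prime] {V : Type u} [AddCommGroup V]
    [Module (ZMod p) V] (hw : WellFoundedLT (AddSubgroup V)) : Finite V := by
  have hm : StrictMono (fun K : Submodule (ZMod p) V => K.toAddSubgroup) :=
    Submodule.toAddSubgroup_strictMono
  have hart : IsArtinian (ZMod p) V := hm.wellFoundedLT
  have hfm : Module.Finite (ZMod p) V :=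
    ((IsSemisimpleModule.finite_tfae (R := ZMod p) (M := V)).out 2 0).1 hart
  exact Module.finite_of_finite (ZMod p)

/-- an abelian group of prime exponent with the minimal condition is finite -/
theorem finite_of_prime_exponent {C : Type u} [CommGroup C] [hw : WellFoundedLT (Subgroup C)] {p : ℕ}
    (hp : p.Prime) (hx : ∀ x : C, x ^ p = 1) : Finite C := by
  have : Fact p.Prime := ⟨hp⟩
  let _ : Module (ZMod p) (Additive C) :=
    AddCommGroup.zmodModule (n := p) (G := Additive C) (fun x => by
      have := hx x.toMul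
      exact congrArg Additive.ofMul this)
  have hw2 : WellFoundedLT (AddSubgroup (Additive C)) :=
    ((AddSubgroup.toSubgroup' (G := C)).strictMono).wellFoundedLT
  have : Finite (Additive C) := finite_of_module (p := p) hw2
  exact this

/-- an abelian group with the minimal condition has finitely many elements of order dividing `n` -/
theorem finite_torsion {C : Type u} [CommGroup C] [hw : WellFoundedLT (Subgroup C)] (n : ℕ)
    (hn : 0 < n) : {x : C | x ^ n = 1}.Finite := by
  induction n using induction_on_primes with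
  | zero => exact absurd hn (lt_irrefl 0)
  | one =>
    refine (Set.finite_singleton (1 : C)).subset ?_
    intro x hx
    simpa using hx
  | prime_mul p a hp ih =>
    have ha : 0 < a := by
      rcases Nat.eq_zero_or_pos a with h | h
      · subst h; simp at hn
      · exact h
    have ih' := ih ha
    have hker : ({x : C | x ^ p = 1}).Finite := by
      let H : Subgroup C := (powMonoidHom p : C →* C).ker
      have hmem : ∀ x : C, x ∈ H ↔ x ^ p = 1 := by
        intro x
        simp [H, MonoidHom.mem_ker]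
      have : WellFoundedLT (Subgroup ↥H) := wf_of_injective H.subtype Subtype.val_injective
      have : Finite ↥H := finite_of_prime_exponent hp (fun x => by
        have := (hmem x.1).1 x.2
        exact Subtype.ext (by simpa using this))
      have h2 : ((H : Set C)).Finite := Set.toFinite _
      refine h2.subset ?_
      intro x hx
      exact (hmem x).2 hx
    refine Set.Finite.of_finite_fibers (fun x : C => x ^ p) ?_ ?_
    · refine ih'.subset ?_
      rintro _ ⟨x, hx, rfl⟩
      have : x ^ (p * a) = 1 := hx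
      simpa [pow_mul] using this
    · rintro y ⟨x0, hx0, rfl⟩
      refine (hker.image (fun z => x0 * z)).subset ?_
      rintro x ⟨-, hx⟩
      refine ⟨x0⁻¹ * x, ?_, by simp⟩
      have h1 : x ^ p = x0 ^ p := hx
      show (x0⁻¹ * x) ^ p = 1
      rw [mul_pow, h1, inv_pow, inv_mul_cancel]

/-- groups with the minimal condition on subgroups are periodic -/
theorem isOfFinOrder_of_wf {A : Type u} [Group A] [hw : WellFoundedLT (Subgroup A)] (a : A) :
    IsOfFinOrder a := by
  let S : Set (Subgroup A) := {K | ∃ n : ℕ, 0 < n ∧ K = Subgroup.zpowers (a ^ n)}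
  have hne : S.Nonempty := ⟨_, 1, one_pos, rfl⟩
  obtain ⟨K, hK⟩ := hw.wf.has_min S hne
  obtain ⟨⟨n, hn, rfl⟩, hmin⟩ := hK
  have hmem : Subgroup.zpowers (a ^ (n * 2)) ∈ S := ⟨n * 2, by omega, rfl⟩
  have hle : Subgroup.zpowers (a ^ (n * 2)) ≤ Subgroup.zpowers (a ^ n) := by
    rw [Subgroup.zpowers_le, pow_mul]
    exact Subgroup.pow_mem _ (Subgroup.mem_zpowers _) 2
  have heq : Subgroup.zpowers (a ^ (n * 2)) = Subgroup.zpowers (a ^ n) := by
    by_contra hne'
    exact hmin _ hmem (lt_of_le_of_ne hle hne')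
  have h1 : a ^ n ∈ Subgroup.zpowers (a ^ (n * 2)) := by
    rw [heq]; exact Subgroup.mem_zpowers _
  obtain ⟨k, hk⟩ := Subgroup.mem_zpowers_iff.1 h1
  have h2 : a ^ ((n * 2 : ℕ) * k - (n : ℤ)) = 1 := by
    rw [zpow_sub, zpow_mul, zpow_natCast, hk, zpow_natCast, mul_inv_cancel]
  rw [isOfFinOrder_iff_zpow_eq_one]
  refine ⟨_, ?_, h2⟩
  intro h0
  have h3 : (n : ℤ) * (2 * k - 1) = 0 := by push_cast at h0; linarith
  rcases mul_eq_zero.1 h3 with h4 | h4
  · omega
  · omega

theorem good_core {G : Type u} [Group G] {A : Subgroup G} (h : Good A) :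
    ∃ A0 : Subgroup G, A0 ≤ A ∧ A0.relIndex A ≠ 0 ∧ (∀ a ∈ A, ∀ x ∈ A0, a * x * a⁻¹ ∈ A0) ∧
      (∀ x ∈ A0, ∀ y ∈ A0, x * y = y * x) ∧ NFI A0 ∧ (∀ a ∈ A, IsOfFinOrder a) ∧
      ∀ n : ℕ, 0 < n → {x : G | x ∈ A0 ∧ x ^ n = 1}.Finite := by
  obtain ⟨hw, N, hi, hc⟩ := h
  -- the least subgroup of finite index
  let S : Set (Subgroup ↥A) := {K | K.index ≠ 0}
  have hne : S.Nonempty := ⟨N, hi⟩
  obtain ⟨M, hM, hmin⟩ := hw.wf.has_min S hne
  have hleast : ∀ K : Subgroup ↥A, K.index ≠ 0 → M ≤ K := by
    intro K hK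
    have h1 : (M ⊓ K) ∈ S := Subgroup.index_inf_ne_zero hM hK
    by_contra hcon
    exact hmin _ h1 (lt_of_le_of_ne inf_le_left (fun he => hcon (inf_eq_left.1 he)))
  have hMi : M.index ≠ 0 := hM
  -- normality
  have hnorm : ∀ a x : ↥A, x ∈ M → a * x * a⁻¹ ∈ M := by
    intro a x hx
    have h1 : (M.comap (MulAut.conj a).toMonoidHom).index ≠ 0 := by
      rw [Subgroup.index_comap]
      intro h0
      exact hMi (Subgroup.index_eq_zero_of_relIndex_eq_zero h0)
    have h2 := hleast _ h1 hx
    exact h2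
  have hMN : M ≤ N := hleast N hi
  refine ⟨M.map A.subtype, ?_, ?_, ?_, ?_, ?_, ?_, ?_⟩
  · intro x hx
    obtain ⟨y, -, rfl⟩ := Subgroup.mem_map.1 hx
    exact y.2
  · have : (M.map A.subtype).relIndex A = M.index := by
      rw [Subgroup.relIndex, Subgroup.subgroupOf,
        Subgroup.comap_map_eq_self_of_injective A.subtype_injective]
    rw [this]; exact hMi
  · rintro a ha x hx
    obtain ⟨y, hy, rfl⟩ := Subgroup.mem_map.1 hx
    exact Subgroup.mem_map.2 ⟨⟨a, ha⟩ * y * ⟨a, ha⟩⁻¹, hnorm _ _ hy, rfl⟩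
  · rintro x hx y hy
    obtain ⟨x', hx', rfl⟩ := Subgroup.mem_map.1 hx
    obtain ⟨y', hy', rfl⟩ := Subgroup.mem_map.1 hy
    have := hc x' (hMN hx') y' (hMN hy')
    exact congrArg Subtype.val this
  · intro D hD x hx
    obtain ⟨y, hy, rfl⟩ := Subgroup.mem_map.1 hx
    have h1 : (D.comap A.subtype).relIndex M ≠ 0 := by
      rw [Subgroup.relIndex_comap]; exact hD
    have h2 : (D.comap A.subtype).index ≠ 0 := by
      rw [← Subgroup.relIndex_top_right]
      refine Subgroup.relIndex_ne_zero_trans h1 ?_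
      rw [Subgroup.relIndex_top_right]; exact hMi
    exact hleast _ h2 hy
  · intro a ha
    obtain ⟨k, hk, hk1⟩ := isOfFinOrder_iff_pow_eq_one.1 (isOfFinOrder_of_wf (⟨a, ha⟩ : ↥A))
    exact isOfFinOrder_iff_pow_eq_one.2 ⟨k, hk, congrArg Subtype.val hk1⟩
  · intro n hn
    let _ : CommGroup ↥M := { (inferInstance : Group ↥M) with
      mul_comm := fun x y => Subtype.ext (hc x.1 (hMN x.2) y.1 (hMN y.2)) }
    have : WellFoundedLT (Subgroup ↥M) := wf_of_injective M.subtype Subtype.val_injective
    have hf := finite_torsion (C := ↥M) n hn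
    refine (hf.image (fun z : ↥M => ((z : ↥A) : G))).subset ?_
    rintro x ⟨hx, hxn⟩
    obtain ⟨y, hy, rfl⟩ := Subgroup.mem_map.1 hx
    refine ⟨⟨y, hy⟩, ?_, rfl⟩
    have h1 : y ^ n = 1 := Subtype.ext (by simpa using hxn)
    exact Subtype.ext h1

end Pool.Agent.Chern
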