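import Pool.Agent.Chern.MinPair
import Pool.Agent.Chern.Good

/-!
# From the minimal pair to an infinite finitely generated normal subgroup
-/

set_option autoImplicit false

open scoped Pointwise

namespace Pool.Agent.Chern

universe u

namespace RA

variable {G : Type u} [Group G]

/-- the elements of the commutative group `A0` of exponent dividing `n` -/
def tors (A0 : Subgroup G) (hc : ∀ x ∈ A0, ∀ y ∈ A0, x * y = y * x) (n : ℕ) : Subgroup G where
  carrier := {x | x ∈ A0 ∧ x ^ n = 1}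
  mul_mem' := by
    rintro x y ⟨hx, hxn⟩ ⟨hy, hyn⟩
    refine ⟨A0.mul_mem hx hy, ?_⟩
    rw [(show Commute x y from hc x hx y hy).mul_pow, hxn, hyn, one_mul]
  one_mem' := ⟨A0.one_mem, one_pow n⟩
  inv_mem' := by
    rintro x ⟨hx, hxn⟩
    exact ⟨A0.inv_mem hx, by rw [inv_pow, hxn, inv_one]⟩

theorem mem_tors {A0 : Subgroup G} {hc : ∀ x ∈ A0, ∀ y ∈ A0, x * y = y * x} {n : ℕ} {x : G} :
    x ∈ tors A0 hc n ↔ x ∈ A0 ∧ x ^ n = 1 := Iff.rfl

theorem tors_mono {A0 : Subgroup G} {hc : ∀ x ∈ A0, ∀ y ∈ A0, x * y = y * x} {n k : ℕ} (h : n ∣ k) :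
    tors A0 hc n ≤ tors A0 hc k := by
  rintro x ⟨hx, hxn⟩
  obtain ⟨c, rfl⟩ := h
  exact ⟨hx, by rw [pow_mul, hxn, one_pow]⟩

theorem tors_normal {A0 A1 : Subgroup G} {hc : ∀ x ∈ A0, ∀ y ∈ A0, x * y = y * x}
    (hn : ∀ a ∈ A1, ∀ x ∈ A0, a * x * a⁻¹ ∈ A0) (n : ℕ) :
    ∀ a ∈ A1, ∀ x ∈ tors A0 hc n, a * x * a⁻¹ ∈ tors A0 hc n := by
  rintro a ha x ⟨hx, hxn⟩
  exact ⟨hn a ha x hx, by rw [conj_pow, hxn, mul_one, mul_inv_cancel]⟩

/-- finitely many representatives of the left cosets -/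
theorem exists_reps {A0 A1 : Subgroup G} (h : A0.relIndex A1 ≠ 0) :
    ∃ T : Finset G, (∀ t ∈ T, t ∈ A1) ∧ ∀ a ∈ A1, ∃ t ∈ T, ∃ x ∈ A0, a = t * x := by
  classical
  have hf : Finite (A1 ⧸ A0.subgroupOf A1) := by
    have : (A0.subgroupOf A1).FiniteIndex := ⟨h⟩
    infer_instance
  have := Fintype.ofFinite (A1 ⧸ A0.subgroupOf A1)
  refine ⟨Finset.univ.image fun q : A1 ⧸ A0.subgroupOf A1 => ((Quotient.out q : A1) : G), ?_, ?_⟩
  · intro t ht
    obtain ⟨q, -, rfl⟩ := Finset.mem_image.1 ht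
    exact (Quotient.out q : A1).2
  · intro a ha
    refine ⟨_, Finset.mem_image.2 ⟨(⟨a, ha⟩ : A1), Finset.mem_univ _, rfl⟩, ?_⟩
    set t : A1 := Quotient.out ((⟨a, ha⟩ : A1) : A1 ⧸ A0.subgroupOf A1) with ht
    have h1 : t⁻¹ * ⟨a, ha⟩ ∈ A0.subgroupOf A1 := by
      rw [← QuotientGroup.eq]
      exact QuotientGroup.out_eq' _
    refine ⟨(t : G)⁻¹ * a, h1, ?_⟩
    group

/-- a group with a locally finite subgroup of finite index is locally finite -/
theorem lf_of_index {K : Type u} [Group K] (M : Subgroup K) (hM : LF M) (hi : M.index ≠ 0) : LF K := by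
  classical
  intro S
  set H := Subgroup.closure (S : Set K) with hH
  have hfg : Group.FG H := (Group.fg_iff_subgroup_fg H).2 ⟨S, rfl⟩
  have : (M.subgroupOf H).FiniteIndex := by
    have : M.FiniteIndex := ⟨hi⟩
    infer_instance
  have hfg2 : Group.FG (M.subgroupOf H) := Subgroup.fg_of_index_ne_zero (M.subgroupOf H)
  have hfg3 : (M.subgroupOf H).FG := (Group.fg_iff_subgroup_fg _).1 hfg2
  obtain ⟨T, hT⟩ := hfg3
  have hle : ((T.image (fun x : H => (x : K)) : Finset K) : Set K) ⊆ M := by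
    intro x hx
    rw [Finset.coe_image] at hx
    obtain ⟨y, hy, rfl⟩ := hx
    have : y ∈ M.subgroupOf H := by
      rw [← hT]
      exact Subgroup.subset_closure hy
    exact this
  have h1 := MP.finite_closure hM (Finset.finite_toSet _) hle
  have h2 : (M.subgroupOf H).map H.subtype =
      Subgroup.closure ((T.image (fun x : H => (x : K)) : Finset K) : Set K) := by
    rw [← hT, MonoidHom.map_closure, Finset.coe_image]
    rfl
  have h3 : ((M.subgroupOf H) : Set H).Finite := by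
    rw [← h2, Subgroup.coe_map] at h1
    exact h1.of_finite_image Subtype.val_injective.injOn
  have h4 : Finite (M.subgroupOf H) := h3
  have h5 : Finite H := by
    have h6 : Finite (H ⧸ M.subgroupOf H) := inferInstance
    exact Finite.of_equiv _ (Subgroup.groupEquivQuotientProdSubgroup (s := M.subgroupOf H)).symm
  exact Set.toFinite _

theorem lf_of_injective {X : Type u} [Group X] {M : Subgroup G} (hM : LF M) (f : X →* G)
    (hf : Function.Injective f) (hfm : ∀ x, f x ∈ M) : LF X := by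
  intro S
  have h1 : (Subgroup.closure (f '' (S : Set X)) : Set G).Finite :=
    MP.finite_closure hM (S.finite_toSet.image f) (by
      rintro _ ⟨x, -, rfl⟩
      exact hfm x)
  rw [← MonoidHom.map_closure, Subgroup.coe_map] at h1
  exact h1.of_finite_image hf.injOn

/-- `K = A1 B1` is locally finite as soon as `⟨A0, B0⟩` is. -/
theorem lf_of_core {A1 B1 A0 B0 K : Subgroup G}
    (hK : ∀ g, g ∈ K ↔ ∃ a ∈ A1, ∃ b ∈ B1, g = a * b)
    (hAi : A0.relIndex A1 ≠ 0) (hBi : B0.relIndex B1 ≠ 0)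
    (hBn : ∀ b ∈ B1, ∀ x ∈ B0, b * x * b⁻¹ ∈ B0) (hM : LF (A0 ⊔ B0 : Subgroup G)) : LF K := by
  classical
  obtain ⟨TA, hTA, hTA'⟩ := exists_reps hAi
  obtain ⟨TB, hTB, hTB'⟩ := exists_reps hBi
  set M := A0 ⊔ B0 with hMdef
  have hA1K : A1 ≤ K := fun x hx => (hK x).2 ⟨x, hx, 1, B1.one_mem, by simp⟩
  have hB1K : B1 ≤ K := fun x hx => (hK x).2 ⟨1, A1.one_mem, x, hx, by simp⟩
  let MK : Subgroup K := M.subgroupOf K
  let f : G → K := fun g => if h : g ∈ K then ⟨g, h⟩ else 1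
  have hf : ∀ g, g ∈ K → ((f g : K) : G) = g := by
    intro g hg
    simp only [f, dif_pos hg]
  have hcov : ⋃ p ∈ (TA ×ˢ TB : Finset (G × G)),
      (f p.1 * f p.2) • ((MK.comap (MulAut.conj (f p.2)).toMonoidHom : Subgroup K) : Set K) =
        Set.univ := by
    rw [Set.eq_univ_iff_forall]
    rintro ⟨g, hg⟩
    obtain ⟨a, ha, b, hb, rfl⟩ := (hK g).1 hg
    obtain ⟨s, hs, x, hx, rfl⟩ := hTA' a ha
    obtain ⟨t, ht, y, hy, rfl⟩ := hTB' b hb
    have hsK := hA1K (hTA s hs)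
    have htK := hB1K (hTB t ht)
    simp only [Set.mem_iUnion]
    refine ⟨(s, t), Finset.mem_product.2 ⟨hs, ht⟩, ?_⟩
    rw [Set.mem_smul_set_iff_inv_smul_mem]
    change (MulAut.conj (f t)).toMonoidHom ((f s * f t)⁻¹ • _) ∈ MK
    rw [Subgroup.mem_subgroupOf]
    have h1 : (((MulAut.conj (f t)).toMonoidHom ((f s * f t)⁻¹ •
        (⟨s * x * (t * y), hg⟩ : K)) : K) : G) = x * (t * y * t⁻¹) := by
      simp only [MulEquiv.toMonoidHom_eq_coe, MonoidHom.coe_coe, MulAut.conj_apply, smul_eq_mul,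
        Subgroup.coe_mul, Subgroup.coe_inv, hf s hsK, hf t htK]
      group
    rw [h1]
    exact M.mul_mem (le_sup_left (a := A0) hx) (le_sup_right (a := A0) (hBn t (hTB t ht) y hy))
  obtain ⟨p, -, hp⟩ := Subgroup.exists_finiteIndex_of_leftCoset_cover hcov
  have hi : MK.index ≠ 0 := by
    have h2 := hp.index_ne_zero
    rwa [Subgroup.index_comap_of_surjective] at h2
    exact (MulAut.conj (f p.2)).surjective
  apply lf_of_index MK _ hi
  exact lf_of_injective hM (K.subtype.comp MK.subtype)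
    (Subtype.val_injective.comp Subtype.val_injective) (fun x => x.2)

end RA

open RA in
theorem red_a2 {G : Type u} [Group G] (A B : Subgroup G) (hA : Good A) (hB : Good B)
    (hAB : ∀ g : G, ∃ a ∈ A, ∃ b ∈ B, g = a * b) (hLF : ¬ LF G) :
    ∃ A0 B0 : Subgroup G, (∀ x ∈ A0, ∀ y ∈ A0, x * y = y * x) ∧ (∀ x ∈ B0, ∀ y ∈ B0, x * y = y * x) ∧ NFI A0 ∧ NFI B0 ∧
      (∃ S : Finset G, ∀ h ∈ A0 ⊔ B0, ∃ g ∈ S, g ∈ A0 ⊔ B0 ∧ ∃ a ∈ A0, ∃ b ∈ B0, h = a * g * b) ∧
      ∃ R : Finset G, (∀ x ∈ R, (x ∈ A0 ∨ x ∈ B0) ∧ IsOfFinOrder x) ∧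
        (A0 ⊔ B0 ≤ Subgroup.normalizer (Subgroup.closure (R : Set G))) ∧
        ¬ ((Subgroup.closure (R : Set G)) : Set G).Finite ∧
        A0 ⊔ Subgroup.closure (R : Set G) = A0 ⊔ B0 ∧ (∀ x ∈ A0, IsOfFinOrder x) ∧
        (∀ n : ℕ, 0 < n → {x : G | x ∈ A0 ∧ x ^ n = 1}.Finite) := by
  classical
  obtain ⟨A1, B1, K, hA1, hB1, hK, hKLF, hmin, hdich⟩ := min_pair2 A B hA hB hAB hLF
  obtain ⟨A0, hA0, hAi, hAn, hAc, hAN, hAf, hAt⟩ := good_core hA1
  obtain ⟨B0, hB0, hBi, hBn, hBc, hBN, hBf, hBt⟩ := good_core hB1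
  have hA1K : A1 ≤ K := fun x hx => (hK x).2 ⟨x, hx, 1, B1.one_mem, by simp⟩
  have hB1K : B1 ≤ K := fun x hx => (hK x).2 ⟨1, A1.one_mem, x, hx, by simp⟩
  let E : ℕ → Subgroup G := fun n => tors A0 hAc n.factorial ⊔ tors B0 hBc n.factorial
  have hEmono : Monotone E := by
    intro n k hnk
    exact sup_le_sup (tors_mono (Nat.factorial_dvd_factorial hnk))
      (tors_mono (Nat.factorial_dvd_factorial hnk))
  have hx : ∀ x ∈ A0 ⊔ B0, ∃ n, x ∈ E n := by
    have hle : A0 ⊔ B0 ≤ ⨆ n, E n := by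
      apply sup_le
      · intro x hx
        obtain ⟨k, hk, hxk⟩ := isOfFinOrder_iff_pow_eq_one.1 (hAf x (hA0 hx))
        refine Subgroup.mem_iSup_of_mem k (le_sup_left (a := tors A0 hAc k.factorial) ?_)
        obtain ⟨c, hc⟩ := Nat.dvd_factorial hk le_rfl
        exact ⟨hx, by rw [hc, pow_mul, hxk, one_pow]⟩
      · intro x hx
        obtain ⟨k, hk, hxk⟩ := isOfFinOrder_iff_pow_eq_one.1 (hBf x (hB0 hx))
        refine Subgroup.mem_iSup_of_mem k (le_sup_right (a := tors A0 hAc k.factorial) ?_)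
        obtain ⟨c, hc⟩ := Nat.dvd_factorial hk le_rfl
        exact ⟨hx, by rw [hc, pow_mul, hxk, one_pow]⟩
    intro x hx
    exact (Subgroup.mem_iSup_of_directed hEmono.directed_le).1 (hle hx)
  -- some `E n` is infinite
  have hinf : ∃ n, ¬ (E n : Set G).Finite := by
    by_contra hall
    push Not at hall
    apply hKLF
    apply lf_of_core hK hAi hBi hBn
    intro S
    choose n hn using fun x : (A0 ⊔ B0 : Subgroup G) => hx x x.2
    have h1 : Subgroup.closure (S : Set (A0 ⊔ B0 : Subgroup G)) ≤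
        (E (S.sup n)).comap (A0 ⊔ B0 : Subgroup G).subtype := by
      rw [Subgroup.closure_le]
      intro x hx
      exact hEmono (Finset.le_sup (f := n) hx) (hn x)
    have h2 : (((E (S.sup n)).comap (A0 ⊔ B0 : Subgroup G).subtype : Subgroup _) :
        Set (A0 ⊔ B0 : Subgroup G)).Finite := by
      rw [Subgroup.coe_comap]
      exact (hall (S.sup n)).preimage Subtype.val_injective.injOn
    exact h2.subset h1
  obtain ⟨n, hn⟩ := hinf
  have hUf : ((tors A0 hAc n.factorial : Subgroup G) : Set G).Finite :=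
    hAt n.factorial n.factorial_pos
  have hVf : ((tors B0 hBc n.factorial : Subgroup G) : Set G).Finite :=
    hBt n.factorial n.factorial_pos
  have hnorm := (hdich (tors A0 hAc n.factorial) (tors B0 hBc n.factorial)
    (fun x hx => hA0 hx.1) (fun x hx => hB0 hx.1) hUf hVf (tors_normal hAn _)
    (tors_normal hBn _)).resolve_left hn
  have hclos : Subgroup.closure ((hUf.toFinset ∪ hVf.toFinset : Finset G) : Set G) = E n := by
    rw [Finset.coe_union, Set.Finite.coe_toFinset, Set.Finite.coe_toFinset, Subgroup.closure_union,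
      Subgroup.closure_eq, Subgroup.closure_eq]
  refine ⟨A0, B0, hAc, hBc, hAN, hBN, ?_, hUf.toFinset ∪ hVf.toFinset, ?_, ?_, ?_, ?_,
    fun x hx => hAf x (hA0 hx), hAt⟩
  · obtain ⟨TA, hTA, hTA'⟩ := exists_reps hAi
    obtain ⟨TB, hTB, hTB'⟩ := exists_reps hBi
    refine ⟨(TA ×ˢ TB).image fun p => p.1 * p.2, ?_⟩
    intro h hh
    have hhK : h ∈ K := (sup_le (hA0.trans hA1K) (hB0.trans hB1K)) hh
    obtain ⟨a, ha, b, hb, rfl⟩ := (hK h).1 hhK
    obtain ⟨s, hs, x, hx, rfl⟩ := hTA' a ha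
    obtain ⟨t, ht, y, hy, rfl⟩ := hTB' b hb
    have hx' : s * x * s⁻¹ ∈ A0 := hAn s (hTA s hs) x hx
    have heq : s * x * (t * y) = s * x * s⁻¹ * (s * t) * y := by group
    refine ⟨s * t, Finset.mem_image.2 ⟨(s, t), Finset.mem_product.2 ⟨hs, ht⟩, rfl⟩, ?_,
      s * x * s⁻¹, hx', y, hy, heq⟩
    have h2 : s * t = (s * x * s⁻¹)⁻¹ * (s * x * (t * y)) * y⁻¹ := by
      rw [heq]
      group
    rw [h2]
    exact Subgroup.mul_mem _ (Subgroup.mul_mem _ (Subgroup.inv_mem _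
      (le_sup_left (a := A0) hx')) hh) (Subgroup.inv_mem _ (le_sup_right (a := A0) hy))
  · intro x hx
    rw [Finset.mem_union, Set.Finite.mem_toFinset, Set.Finite.mem_toFinset] at hx
    rcases hx with hx | hx
    · exact ⟨Or.inl hx.1, hAf x (hA0 hx.1)⟩
    · exact ⟨Or.inr hx.1, hBf x (hB0 hx.1)⟩
  · rw [hclos]
    exact sup_le (hA0.trans hnorm.1) (hB0.trans hnorm.2)
  · rw [hclos]
    exact hn
  · rw [hclos]
    have hEle : E n ≤ A0 ⊔ B0 := sup_le_sup (fun x hx => hx.1) (fun x hx => hx.1)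
    apply le_antisymm (sup_le le_sup_left hEle)
    apply sup_le le_sup_left
    -- `L = A1 E`
    have hEK : E n ≤ K := hEle.trans (sup_le (hA0.trans hA1K) (hB0.trans hB1K))
    have hLK : A1 ⊔ E n ≤ K := sup_le hA1K hEK
    have hB1L : B1 ≤ A1 ⊔ E n := by
      have h1 := (hmin A1 (B1 ⊓ (A1 ⊔ E n)) (A1 ⊔ E n) le_rfl inf_le_left ?_ ?_).2
      · exact h1.trans inf_le_right
      · intro g
        constructor
        · intro hg
          obtain ⟨a, ha, b, hb, rfl⟩ := (hK g).1 (hLK hg)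
          refine ⟨a, ha, b, ⟨hb, ?_⟩, rfl⟩
          have h2 := (A1 ⊔ E n).mul_mem ((A1 ⊔ E n).inv_mem (le_sup_left (a := A1) ha)) hg
          simpa using h2
        · rintro ⟨a, ha, b, ⟨-, hb⟩, rfl⟩
          exact (A1 ⊔ E n).mul_mem (le_sup_left (a := A1) ha) hb
      · intro hLF'
        apply hn
        have h3 := MP.finite_closure hLF' (S := ((hUf.toFinset ∪ hVf.toFinset : Finset G) : Set G))
          (Finset.finite_toSet _) (by
            intro x hx
            refine le_sup_right (a := A1) ?_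
            rw [← hclos]
            exact Subgroup.subset_closure hx)
        rwa [hclos] at h3
    -- `A0 E` has finite index in `A1 E`
    have hidx : (A0 ⊔ E n).relIndex (A1 ⊔ E n) ≠ 0 := by
      obtain ⟨TA, hTA, hTA'⟩ := exists_reps hAi
      have hprod : ∀ g ∈ A1 ⊔ E n, ∃ t ∈ TA, t⁻¹ * g ∈ A0 ⊔ E n := by
        intro g hg
        have hg' : g ∈ ((A1 ⊔ E n : Subgroup G) : Set G) := hg
        rw [Subgroup.coe_mul_of_left_le_normalizer_right A1 (E n) hnorm.1] at hg'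
        obtain ⟨a, ha, e, he, rfl⟩ := hg'
        obtain ⟨t, ht, x, hx, rfl⟩ := hTA' a ha
        refine ⟨t, ht, ?_⟩
        have h4 : t⁻¹ * ((fun x1 x2 => x1 * x2) (t * x) e) = x * e := by
          simp only
          group
        rw [h4]
        exact Subgroup.mul_mem _ (le_sup_left (a := A0) hx) (le_sup_right (a := A0) he)
      have hfin : Finite ((A1 ⊔ E n : Subgroup G) ⧸ (A0 ⊔ E n).subgroupOf (A1 ⊔ E n)) := by
        have : Finite TA := inferInstance
        apply Finite.of_surjective (fun t : TA => (QuotientGroup.mk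
          (⟨t, le_sup_left (a := A1) (hTA t t.2)⟩ : (A1 ⊔ E n : Subgroup G)) :
            (A1 ⊔ E n : Subgroup G) ⧸ (A0 ⊔ E n).subgroupOf (A1 ⊔ E n)))
        intro q
        obtain ⟨⟨g, hg⟩, rfl⟩ := QuotientGroup.mk_surjective q
        obtain ⟨t, ht, htg⟩ := hprod g hg
        refine ⟨⟨t, ht⟩, ?_⟩
        rw [QuotientGroup.eq]
        exact htg
      exact Subgroup.index_ne_zero_of_finite
    apply hBN
    intro h0
    exact hidx (Subgroup.relIndex_eq_zero_of_le_right (hB0.trans hB1L) h0)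


open RA in
theorem red_a {G : Type u} [Group G] (A B : Subgroup G) (hA : Good A) (hB : Good B)
    (hAB : ∀ g : G, ∃ a ∈ A, ∃ b ∈ B, g = a * b) (hLF : ¬ LF G) :
    ∃ A0 B0 : Subgroup G, (∀ x ∈ A0, ∀ y ∈ A0, x * y = y * x) ∧ (∀ x ∈ B0, ∀ y ∈ B0, x * y = y * x) ∧ NFI A0 ∧ NFI B0 ∧
      (∃ S : Finset G, ∀ h ∈ A0 ⊔ B0, ∃ g ∈ S, g ∈ A0 ⊔ B0 ∧ ∃ a ∈ A0, ∃ b ∈ B0, h = a * g * b) ∧
      ∃ R : Finset G, (∀ x ∈ R, (x ∈ A0 ∨ x ∈ B0) ∧ IsOfFinOrder x) ∧
        (A0 ⊔ B0 ≤ Subgroup.normalizer (Subgroup.closure (R : Set G))) ∧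
        ¬ ((Subgroup.closure (R : Set G)) : Set G).Finite := by
  obtain ⟨A0, B0, h1, h2, h3, h4, h5, R, h6, h7, h8, -⟩ := red_a2 A B hA hB hAB hLF
  exact ⟨A0, B0, h1, h2, h3, h4, h5, R, h6, h7, h8⟩

end Pool.Agent.Chern
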