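import Pool.Agent.Chern.Defs3
import Pool.Agent.Chern.DvBasic
import Pool.Agent.Chern.RedA

/-!
# A finitely generated infinite normal subgroup (row EN)
-/

set_option autoImplicit false

namespace Pool.Agent.Chern

universe u v

namespace EN

variable {G : Type u} [Group G]

theorem mem_cj {g y : G} {Q : Subgroup G} : y ∈ cj g Q ↔ ∃ q ∈ Q, g * q * g⁻¹ = y := by
  simp [cj, Subgroup.mem_map]

theorem conj_mem_cj {g q : G} {Q : Subgroup G} (hq : q ∈ Q) : g * q * g⁻¹ ∈ cj g Q := mem_cj.2 ⟨q, hq, rfl⟩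

theorem cj_mono {g : G} {Q R : Subgroup G} (h : Q ≤ R) : cj g Q ≤ cj g R := Subgroup.map_mono h

theorem cj_cj (g h : G) (Q : Subgroup G) : cj g (cj h Q) = cj (g * h) Q := by
  ext y
  constructor
  · intro hy
    obtain ⟨_, hx, rfl⟩ := mem_cj.1 hy
    obtain ⟨q, hq, rfl⟩ := mem_cj.1 hx
    have e : g * (h * q * h⁻¹) * g⁻¹ = (g * h) * q * (g * h)⁻¹ := by group
    rw [e]
    exact conj_mem_cj hq
  · intro hy
    obtain ⟨q, hq, rfl⟩ := mem_cj.1 hy
    have e : g * (h * q * h⁻¹) * g⁻¹ = (g * h) * q * (g * h)⁻¹ := by group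
    rw [← e]
    exact conj_mem_cj (conj_mem_cj hq)

theorem cj_one (Q : Subgroup G) : cj 1 Q = Q := by
  ext y
  constructor
  · intro hy
    obtain ⟨q, hq, rfl⟩ := mem_cj.1 hy
    simpa using hq
  · intro hy
    have := conj_mem_cj (g := 1) hy
    simpa using this

theorem cj_sup (g : G) (Q R : Subgroup G) : cj g (Q ⊔ R) = cj g Q ⊔ cj g R := Subgroup.map_sup _ _ _

/-- a conjugate by an element of the subgroup's normaliser -/
theorem cj_eq {g : G} {Q : Subgroup G} (h : ∀ x ∈ Q, g * x * g⁻¹ ∈ Q) (h' : ∀ x ∈ Q, g⁻¹ * x * g ∈ Q) : cj g Q = Q := by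
  ext y
  constructor
  · intro hy
    obtain ⟨q, hq, rfl⟩ := mem_cj.1 hy
    exact h q hq
  · intro hy
    have e : g * (g⁻¹ * y * g) * g⁻¹ = y := by group
    rw [← e]
    exact conj_mem_cj (h' y hy)

theorem cj_of_mem_normalizer {g : G} {Q : Subgroup G} (h : g ∈ Subgroup.normalizer (Q : Set G)) : cj g Q = Q := by
  have h1 := Subgroup.mem_normalizer_iff.1 h
  refine cj_eq (fun x hx => (h1 x).1 hx) fun x hx => ?_
  have h2 := (h1 (g⁻¹ * x * g)).2
  apply h2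
  have e : g * (g⁻¹ * x * g) * g⁻¹ = x := by group
  rwa [e]

theorem mem_normalizer_of_cj {g : G} {Q : Subgroup G} (h : cj g Q = Q) : g ∈ Subgroup.normalizer (Q : Set G) := by
  rw [Subgroup.mem_normalizer_iff]
  intro x
  constructor
  · intro hx
    have := conj_mem_cj (g := g) hx
    rwa [h] at this
  · intro hx
    rw [← h] at hx
    obtain ⟨q, hq, e⟩ := mem_cj.1 hx
    have : q = x := by simpa using e
    rwa [← this]

/-- an element of finite order cannot conjugate a subgroup strictly into itself -/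
theorem cj_not_lt {p : G} (hp : IsOfFinOrder p) (F : Subgroup G) : ¬ cj p F < F := by
  intro h
  have h1 : ∀ n : ℕ, cj (p ^ n) F ≤ F := by
    intro n
    induction n with
    | zero => rw [pow_zero, cj_one]
    | succ n ih =>
      rw [pow_succ', ← cj_cj]
      exact (cj_mono ih).trans h.le
  obtain ⟨n, hn, e⟩ := (isOfFinOrder_iff_pow_eq_one).1 hp
  obtain ⟨k, rfl⟩ : ∃ k, n = k + 1 := ⟨n - 1, by omega⟩
  have h2 : F ≤ cj p F := by
    calc F = cj (p ^ (k + 1)) F := by rw [e, cj_one]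
      _ = cj p (cj (p ^ k) F) := by rw [pow_succ', ← cj_cj]
      _ ≤ cj p F := cj_mono (h1 k)
  exact absurd h (not_lt_of_ge h2)

/-- groups with a subgroup of finite index of the kind `Dv` are locally finite -/
theorem lf_of_dvF {N : ℕ} (hN : 0 < N) {X : Type u} [Group X] (h : DvF N (⊤ : Subgroup X)) : LF X := by
  obtain ⟨D, -, hDi, hD⟩ := h
  have hDi' : D.index ≠ 0 := by rwa [← Subgroup.relIndex_top_right]
  refine RA.lf_of_index D ?_ hDi'
  intro S
  let _ : CommGroup D := { (inferInstance : Group D) with mul_comm := fun a b => Subtype.ext (hD.comm _ a.2 _ b.2) }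
  have ht : ∀ x : D, IsOfFinOrder x := by
    intro x
    obtain ⟨k, hk⟩ := hD.tors x x.2
    rw [isOfFinOrder_iff_pow_eq_one]
    exact ⟨N ^ k, Nat.pow_pos hN, Subtype.ext (by simpa using hk)⟩
  have : Group.FG (Subgroup.closure (S : Set D)) := (Group.fg_iff_subgroup_fg _).2 ⟨S, rfl⟩
  have h1 : IsMulTorsion (Subgroup.closure (S : Set D)) := fun x => Submonoid.isOfFinOrder_coe.1 (ht x)
  have h2 : Finite (Subgroup.closure (S : Set D)) := CommGroup.finite_of_fg_isMulTorsion _ h1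
  exact Set.toFinite _

/-- the subgroup generated by the layers -/
def F {N : ℕ} {P Q : Subgroup G} (hP : Dv N P) (hQ : Dv N Q) (n : ℕ) (h : G) : Subgroup G :=
  hP.lay n ⊔ cj h (hQ.lay n)

section F
variable {N : ℕ} {P Q : Subgroup G} (hP : Dv N P) (hQ : Dv N Q)

theorem lay_mono {n m : ℕ} (h : n ≤ m) : hP.lay n ≤ hP.lay m := fun _ hx => ⟨hx.1, hP.pow_one_of_le hx.2 h⟩

theorem F_mono {n m : ℕ} (hnm : n ≤ m) (h : G) : F hP hQ n h ≤ F hP hQ m h :=
  sup_le_sup (lay_mono hP hnm) (cj_mono (lay_mono hQ hnm))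

theorem cj_lay {p : G} (hp : p ∈ P) (n : ℕ) : cj p (hP.lay n) = hP.lay n := by
  have h1 : ∀ {p : G}, p ∈ P → ∀ x ∈ hP.lay n, p * x * p⁻¹ = x := by
    intro p hp x hx
    rw [hP.comm p hp x hx.1, mul_inv_cancel_right]
  refine cj_eq (fun x hx => ?_) fun x hx => ?_
  · rw [h1 hp x hx]; exact hx
  · have := h1 (P.inv_mem hp) x hx
    rw [inv_inv] at this
    rw [this]; exact hx

theorem F_dc {n : ℕ} {p q : G} (hp : p ∈ P) (hq : q ∈ Q) (s : G) :
    F hP hQ n (p * s * q) = cj p (F hP hQ n s) := by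
  unfold F
  rw [cj_sup, cj_lay hP hp, cj_cj, ← cj_cj (p * s) q, cj_lay hQ hq]

theorem exists_F (hgen : ∀ h : G, P ⊔ cj h Q = ⊤) (h : G) (S : Finset G) : ∃ n, (S : Set G) ⊆ F hP hQ n h := by
  have hsup : (⨆ n, F hP hQ n h) = ⊤ := by
    rw [eq_top_iff, ← hgen h]
    refine sup_le ?_ ?_
    · intro x hx
      obtain ⟨k, hk⟩ := hP.tors x hx
      exact (le_iSup (fun n => F hP hQ n h) k) ((le_sup_left : _ ≤ F hP hQ k h) ⟨hx, hk⟩)
    · intro x hx
      obtain ⟨q, hq, rfl⟩ := mem_cj.1 hx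
      obtain ⟨k, hk⟩ := hQ.tors q hq
      exact (le_iSup (fun n => F hP hQ n h) k) ((le_sup_right : _ ≤ F hP hQ k h) (conj_mem_cj ⟨hq, hk⟩))
  have hdir : Directed (· ≤ ·) fun n => F hP hQ n h := by
    intro a b
    exact ⟨max a b, F_mono hP hQ (le_max_left _ _) h, F_mono hP hQ (le_max_right _ _) h⟩
  have hmem : ∀ x : G, ∃ n, x ∈ F hP hQ n h := by
    intro x
    have hx : x ∈ (⨆ n, F hP hQ n h) := by rw [hsup]; trivial
    exact (Subgroup.mem_iSup_of_directed hdir).1 hx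
  choose f hf using hmem
  refine ⟨S.sup f, fun x hx => ?_⟩
  exact F_mono hP hQ (Finset.le_sup (f := f) hx) h (hf x)

end F

end EN

open EN in
theorem exists_en {N : ℕ} (hN : 0 < N) {H : Type u} [Group H] {P Q DP DQ : Subgroup H} (h : NES N H P Q DP DQ)
    (hlf : ¬ LF H) : ∃ (g : H) (R : Finset H), (∀ x ∈ R, (x ∈ P ∨ x ∈ cj g Q) ∧ IsOfFinOrder x) ∧
      (Subgroup.closure (R : Set H)).Normal ∧ ¬ ((Subgroup.closure (R : Set H)) : Set H).Finite := by
  classical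
  have hP := h.dP
  have hQ := h.dQ
  obtain ⟨S0, hS0⟩ := h.fdc
  -- an infinite finitely generated subgroup
  obtain ⟨S, hS⟩ : ∃ S : Finset H, ¬ (Subgroup.closure (S : Set H) : Set H).Finite := by
    unfold LF at hlf
    push Not at hlf
    exact hlf
  -- `n` such that all `F n h` are infinite
  obtain ⟨n, hn⟩ : ∃ n, ∀ g : H, ¬ (F hP hQ n g : Set H).Finite := by
    choose f hf using fun g : H => exists_F hP hQ h.gen g S
    refine ⟨S0.sup f, fun g hfin => hS ?_⟩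
    obtain ⟨s, hs, p, hp, q, hq, rfl⟩ := hS0 g
    rw [F_dc hP hQ hp hq] at hfin
    have h1 : (F hP hQ (S0.sup f) s : Set H).Finite := by
      have h2 : (F hP hQ (S0.sup f) s : Set H) ⊆ (fun x => p⁻¹ * x * p) '' (cj p (F hP hQ (S0.sup f) s) : Set H) := by
        intro x hx
        exact ⟨p * x * p⁻¹, conj_mem_cj hx, by simp only; group⟩
      exact (hfin.image _).subset h2
    refine h1.subset ?_
    rw [SetLike.coe_subset_coe, Subgroup.closure_le]
    exact (hf s).trans (F_mono hP hQ (Finset.le_sup (f := f) hs) s)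
  -- elements of `P` have finite order
  have hPo : ∀ p ∈ P, IsOfFinOrder p := by
    intro p hp
    obtain ⟨k, hk⟩ := hP.tors p hp
    rw [isOfFinOrder_iff_pow_eq_one]
    exact ⟨N ^ k, Nat.pow_pos hN, hk⟩
  have hQo : ∀ p ∈ Q, IsOfFinOrder p := by
    intro p hp
    obtain ⟨k, hk⟩ := hQ.tors p hp
    rw [isOfFinOrder_iff_pow_eq_one]
    exact ⟨N ^ k, Nat.pow_pos hN, hk⟩
  -- the minimal one
  obtain ⟨h0, hh0⟩ : ∃ h0 : H, ∀ g : H, ¬ F hP hQ n g < F hP hQ n h0 := by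
    let r : S0 → S0 → Prop := fun s t => ∃ p ∈ P, cj p (F hP hQ n s) < F hP hQ n t
    have hirr : Std.Irrefl r := ⟨fun s ⟨p, hp, hlt⟩ => cj_not_lt (hPo p hp) _ hlt⟩
    have htr : IsTrans S0 r := ⟨fun s t w ⟨p, hp, h1⟩ ⟨p', hp', h2⟩ => by
      refine ⟨p' * p, P.mul_mem hp' hp, lt_of_le_of_lt ?_ h2⟩
      rw [← cj_cj]
      exact cj_mono h1.le⟩
    have hwf : WellFounded r := Finite.wellFounded_of_trans_of_irrefl r
    obtain ⟨s1, hs1, -⟩ := hS0 1
    obtain ⟨m, -, hm⟩ := hwf.has_min Set.univ ⟨⟨s1, hs1⟩, trivial⟩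
    refine ⟨m, fun g hlt => ?_⟩
    obtain ⟨s, hs, p, hp, q, hq, rfl⟩ := hS0 g
    rw [F_dc hP hQ hp hq] at hlt
    exact hm ⟨s, hs⟩ trivial ⟨p, hp, hlt⟩
  set E := F hP hQ n h0 with hE
  have hmin : ∀ g : H, F hP hQ n g ≤ E → F hP hQ n g = E := fun g hg => by
    by_contra hne
    exact hh0 g (lt_of_le_of_ne hg hne)
  set X := Subgroup.normalizer (E : Set H) with hX
  have hPE : hP.lay n ≤ E := le_sup_left
  have hQE : cj h0 (hQ.lay n) ≤ E := le_sup_right
  have ha : ∀ x ∈ X, F hP hQ n (x * h0) = E := by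
    intro x hx
    apply hmin
    refine sup_le hPE ?_
    rw [← cj_cj, ← cj_of_mem_normalizer hx]
    exact cj_mono hQE
  have hb : ∀ x ∈ X, ∀ x' ∈ X, ∀ p ∈ P, ∀ q ∈ Q, x' = p * x * (h0 * q * h0⁻¹) → p ∈ X ∧ h0 * q * h0⁻¹ ∈ X := by
    intro x hx x' hx' p hp q hq e
    have e1 : x' * h0 = p * (x * h0) * q := by rw [e]; group
    have h1 : cj p E = E := by
      have e3 := ha x' hx'
      rw [e1, F_dc hP hQ hp hq, ha x hx] at e3
      exact e3
    have h2 : p ∈ X := mem_normalizer_of_cj h1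
    refine ⟨h2, ?_⟩
    have e2 : h0 * q * h0⁻¹ = x⁻¹ * p⁻¹ * x' := by rw [e]; group
    rw [e2]
    exact X.mul_mem (X.mul_mem (X.inv_mem hx) (X.inv_mem h2)) hx'
  have hEX : E ≤ X := Subgroup.le_normalizer
  -- the divisible parts
  obtain ⟨U, hU1, hU2, hU3⟩ := hP.sub hN (inf_le_left : P ⊓ X ≤ P)
  have hQ' : Dv N (cj h0 Q) := (hQ.map hN (MulAut.conj h0).toMonoidHom).1
  have hQr : rk N (cj h0 Q) ≤ rk N Q := (hQ.map hN (MulAut.conj h0).toMonoidHom).2
  obtain ⟨V, hV1, hV2, hV3⟩ := hQ'.sub hN (inf_le_left : cj h0 Q ⊓ X ≤ cj h0 Q)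
  have hUX : U ≤ X := hU1.trans inf_le_right
  have hVX : V ≤ X := hV1.trans inf_le_right
  have hUP : U ≤ P := hU1.trans inf_le_left
  have hVQ : V ≤ cj h0 Q := hV1.trans inf_le_left
  obtain ⟨TU, hTU, hTU'⟩ := RA.exists_reps hU3
  obtain ⟨TV, hTV, hTV'⟩ := RA.exists_reps hV3
  have hmU : (U.subgroupOf X).map X.subtype = U := Subgroup.map_subgroupOf_eq_of_le hUX
  have hmV : (V.subgroupOf X).map X.subtype = V := Subgroup.map_subgroupOf_eq_of_le hVX
  have hdU := Dv.of_map_injective X.subtype X.subtype_injective (by rw [hmU]; exact hU2 : Dv N ((U.subgroupOf X).map X.subtype))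
  have hdV := Dv.of_map_injective X.subtype X.subtype_injective (by rw [hmV]; exact hV2 : Dv N ((V.subgroupOf X).map X.subtype))
  -- representatives of the double cosets
  let f : H → H := fun s => if hs : ∃ x ∈ X, ∃ p ∈ P, ∃ q ∈ Q, x * h0 = p * s * q then hs.choose else 1
  have hf : ∀ s : H, (∃ x ∈ X, ∃ p ∈ P, ∃ q ∈ Q, x * h0 = p * s * q) →
      f s ∈ X ∧ ∃ p ∈ P, ∃ q ∈ Q, f s * h0 = p * s * q := by
    intro s hs
    have := hs.choose_spec
    simp only [f, dif_pos hs]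
    exact this
  have hcov : ∀ x ∈ X, ∃ s ∈ S0, f s ∈ X ∧ ∃ t ∈ TU, ∃ t' ∈ TV, ∃ u ∈ U, ∃ v ∈ V, x = u * (t * f s * t') * v := by
    intro x hx
    obtain ⟨s, hs, p, hp, q, hq, e⟩ := hS0 (x * h0)
    obtain ⟨h1, p', hp', q', hq', e'⟩ := hf s ⟨x, hx, p, hp, q, hq, e⟩
    have e1 : x = (p * p'⁻¹) * f s * (h0 * (q'⁻¹ * q) * h0⁻¹) := by
      have e2 : s = p'⁻¹ * (f s * h0) * q'⁻¹ := by rw [e']; group
      have e3 : x = p * s * q * h0⁻¹ := by rw [← e]; group
      rw [e3]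
      nth_rw 1 [e2]
      group
    have hpp : p * p'⁻¹ ∈ P := P.mul_mem hp (P.inv_mem hp')
    have hqq : q'⁻¹ * q ∈ Q := Q.mul_mem (Q.inv_mem hq') hq
    obtain ⟨h2, h3⟩ := hb _ h1 x hx _ hpp _ hqq e1
    obtain ⟨t, ht, u, hu, e4⟩ := hTU' _ (Subgroup.mem_inf.2 ⟨hpp, h2⟩)
    obtain ⟨t', ht', v, hv, e5⟩ := hTV' _ (Subgroup.mem_inf.2 ⟨conj_mem_cj hqq, h3⟩)
    refine ⟨s, hs, h1, t, ht, t', ht', u, hu, v, hv, ?_⟩
    rw [e1, e4, e5, hP.comm t (Subgroup.mem_inf.1 (hTU t ht)).1 u (hUP hu)]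
    group
  have htr : TrS N X (U.subgroupOf X) (V.subgroupOf X) := by
    refine ⟨hdU.1, hdV.1, ?_, ?_⟩
    · let g : H → H → H → X := fun s t t' => if hm : t * f s * t' ∈ X then ⟨t * f s * t', hm⟩ else 1
      refine ⟨(S0 ×ˢ (TU ×ˢ TV)).image fun a => g a.1 a.2.1 a.2.2, ?_⟩
      intro x
      obtain ⟨s, hs, h1, t, ht, t', ht', u, hu, v, hv, e⟩ := hcov x x.2
      have hm : t * f s * t' ∈ X := X.mul_mem (X.mul_mem (hTU t ht).2 h1) (hTV t' ht').2
      refine ⟨g s t t', Finset.mem_image.2 ⟨(s, t, t'), by simp [hs, ht, ht'], rfl⟩, ⟨u, hUX hu⟩, hu, ⟨v, hVX hv⟩, hv, ?_⟩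
      apply Subtype.ext
      simp only [g, dif_pos hm]
      exact e
    · intro x
      have h1 := h.fint ((x : H) * h0)
      refine Set.Finite.of_finite_image (f := X.subtype) (h1.subset ?_) X.subtype_injective.injOn
      rintro _ ⟨y, hy, rfl⟩
      obtain ⟨hy1, hy2⟩ := Subgroup.mem_inf.1 hy
      refine Subgroup.mem_inf.2 ⟨hUP hy1, ?_⟩
      obtain ⟨w, hw, e⟩ := mem_cj.1 hy2
      have hw' : (w : H) ∈ cj h0 Q := hVQ hw
      rw [← cj_cj, ← e]
      exact conj_mem_cj hw'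
  -- a finite generating set of `E`
  let R0 : Set H := (hP.lay n : Set H) ∪ (cj h0 (hQ.lay n) : Set H)
  have hR0 : R0.Finite := by
    refine Set.Finite.union (hP.lay_finite n) ?_
    exact (hQ.lay_finite n).image _
  have hcl : Subgroup.closure R0 = E := by
    rw [Subgroup.closure_union, Subgroup.closure_eq, Subgroup.closure_eq, hE, F]
  -- `X` is not locally finite
  have hXlf : ¬ LF X := by
    intro hl
    apply hn h0
    rw [← hE, ← hcl]
    exact MP.finite_closure hl hR0 (by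
      intro x hx
      exact hEX (hcl ▸ Subgroup.subset_closure hx))
  have hrk : ¬ rk N (U.subgroupOf X) + rk N (V.subgroupOf X) < rk N P + rk N Q :=
    fun hlt => hXlf (lf_of_dvF hN (h.min X _ _ htr hlt))
  rw [← hdU.2, ← hdV.2, hmU, hmV] at hrk
  have hU4 : U = P := by
    by_contra hne
    have h1 := hP.rk_lt hN hU2 hUP hne
    have h2 : rk N V ≤ rk N (cj h0 Q) := by
      by_cases hV : V = cj h0 Q
      · rw [hV]
      · exact (hQ'.rk_lt hN hV2 hVQ hV).le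
    omega
  have hV4 : V = cj h0 Q := by
    by_contra hne
    have h1 := hQ'.rk_lt hN hV2 hVQ hne
    rw [hU4] at hrk
    omega
  have hXtop : X = ⊤ := by
    rw [eq_top_iff, ← h.gen h0]
    exact sup_le (hU4 ▸ hUX) (hV4 ▸ hVX)
  have hEn : E.Normal := Subgroup.normalizer_eq_top_iff.1 hXtop
  refine ⟨h0, hR0.toFinset, ?_, ?_, ?_⟩
  · intro x hx
    rcases (Set.Finite.mem_toFinset hR0).1 hx with hx | hx
    · exact ⟨Or.inl hx.1, hPo x hx.1⟩
    · obtain ⟨q, hq, rfl⟩ := mem_cj.1 hx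
      refine ⟨Or.inr (conj_mem_cj hq.1), ?_⟩
      exact (MulAut.conj h0).toMonoidHom.isOfFinOrder (hQo q hq.1)
  · rw [Set.Finite.coe_toFinset, hcl]
    exact hEn
  · rw [Set.Finite.coe_toFinset, hcl]
    exact hn h0

end Pool.Agent.Chern
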