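import Pool.Agent.Chern.Defs2
import Pool.Agent.Chern.Good

/-!
# From Chernikov subgroups to groups of the kind `Dv` (row DW)
-/

set_option autoImplicit false

namespace Pool.Agent.Chern

universe u

theorem exists_dvd_pow_mul (n : ℕ) :
    ∀ d : ℕ, 0 < d → ∃ k e : ℕ, d ∣ n ^ k * e ∧ Nat.Coprime e n := by
  intro d
  induction d using Nat.strong_induction_on with
  | _ d ih =>
    intro hd
    by_cases hg : Nat.gcd d n = 1
    · exact ⟨0, d, by simp, hg⟩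
    · have hg0 : 0 < Nat.gcd d n := Nat.gcd_pos_of_pos_left n hd
      have hg1 : 1 < Nat.gcd d n := by omega
      obtain ⟨d', hd'⟩ := Nat.gcd_dvd_left d n
      have hd'0 : 0 < d' := by
        rcases Nat.eq_zero_or_pos d' with h | h
        · subst h; omega
        · exact h
      have hlt : d' < d := by
        calc d' = 1 * d' := (one_mul _).symm
          _ < Nat.gcd d n * d' := Nat.mul_lt_mul_of_pos_right hg1 hd'0
          _ = d := hd'.symm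
      obtain ⟨k, e, h1, h2⟩ := ih d' hlt hd'0
      refine ⟨k + 1, e, ?_, h2⟩
      rw [hd', pow_succ', mul_assoc]
      exact Nat.mul_dvd_mul (Nat.gcd_dvd_right d n) h1

/-- an abelian group with the minimal condition involves only finitely many primes -/
theorem exists_exp {C : Type u} [CommGroup C] [hw : WellFoundedLT (Subgroup C)] :
    ∃ n : ℕ, 0 < n ∧ ∀ x : C, ∃ k : ℕ, x ^ (n ^ k) = 1 := by
  let T : ℕ → Subgroup C := fun n =>
    { carrier := {x | ∃ m : ℕ, Nat.Coprime m n ∧ x ^ m = 1}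
      one_mem' := ⟨1, Nat.coprime_one_left n, one_pow 1⟩
      mul_mem' := by
        rintro x y ⟨m, hm, hx⟩ ⟨l, hl, hy⟩
        refine ⟨m * l, Nat.Coprime.mul_left hm hl, ?_⟩
        rw [mul_pow, pow_mul, hx, one_pow, mul_comm m l, pow_mul, hy, one_pow, one_mul]
      inv_mem' := by
        rintro x ⟨m, hm, hx⟩
        exact ⟨m, hm, by rw [inv_pow, hx, inv_one]⟩ }
  have hT : ∀ n x, x ∈ T n ↔ ∃ m : ℕ, Nat.Coprime m n ∧ x ^ m = 1 := fun n x => Iff.rfl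
  let S : Set (Subgroup C) := {K | ∃ n : ℕ, 0 < n ∧ K = T n}
  have hne : S.Nonempty := ⟨_, 1, one_pos, rfl⟩
  obtain ⟨K, hK, hmin⟩ := hw.wf.has_min S hne
  obtain ⟨n, hn, rfl⟩ := hK
  have hbot : ∀ x : C, x ∈ T n → x = 1 := by
    intro x hx
    have hd : 0 < orderOf x := (isOfFinOrder_of_wf x).orderOf_pos
    have hmem : T (n * orderOf x) ∈ S := ⟨_, Nat.mul_pos hn hd, rfl⟩
    have hle : T (n * orderOf x) ≤ T n := by
      rintro y ⟨m, hm, hy⟩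
      exact ⟨m, Nat.Coprime.coprime_mul_right_right hm, hy⟩
    have heq : T (n * orderOf x) = T n := by
      by_contra hne'
      exact hmin _ hmem (lt_of_le_of_ne hle hne')
    rw [← heq] at hx
    obtain ⟨m, hm, hxm⟩ := (hT _ _).1 hx
    have h1 : orderOf x ∣ m := orderOf_dvd_of_pow_eq_one hxm
    have h2 : Nat.Coprime m (orderOf x) := Nat.Coprime.coprime_mul_left_right hm
    have h3 : orderOf x = 1 := Nat.eq_one_of_dvd_coprimes h2 h1 dvd_rfl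
    exact orderOf_eq_one_iff.1 h3
  refine ⟨n, hn, fun x => ?_⟩
  have hd : 0 < orderOf x := (isOfFinOrder_of_wf x).orderOf_pos
  obtain ⟨k, e, h1, h2⟩ := exists_dvd_pow_mul n _ hd
  refine ⟨k, hbot _ ⟨e, h2, ?_⟩⟩
  rw [← pow_mul]
  exact orderOf_dvd_iff_pow_eq_one.1 h1

theorem exists_dv1 {G : Type u} [Group G] (A : Subgroup G) (hA : IsChernikov A) :
    ∃ N : ℕ, 0 < N ∧ ∃ A0 : Subgroup G, A0 ≤ A ∧ A0.relIndex A ≠ 0 ∧
      (∀ x ∈ A0, ∀ y ∈ A0, x * y = y * x) ∧ (∀ x ∈ A0, ∃ k : ℕ, x ^ (N ^ k) = 1) ∧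
      (∀ n : ℕ, 0 < n → {x : G | x ∈ A0 ∧ x ^ n = 1}.Finite) ∧
      (∀ a ∈ A, ∀ x ∈ A0, a * x * a⁻¹ ∈ A0) ∧
      (∀ x ∈ A0, ∀ n : ℕ, 0 < n → ∃ y ∈ A0, y ^ n = x) := by
  obtain ⟨M, hn, hi, hc, hdiv, hw⟩ := hA
  let _ : CommGroup ↥M := { (inferInstance : Group ↥M) with
    mul_comm := fun x y => Subtype.ext (hc x.1 x.2 y.1 y.2) }
  obtain ⟨N, hN, hexp⟩ := exists_exp (C := ↥M)
  refine ⟨N, hN, M.map A.subtype, ?_, ?_, ?_, ?_, ?_, ?_, ?_⟩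
  · intro x hx
    obtain ⟨y, -, rfl⟩ := Subgroup.mem_map.1 hx
    exact y.2
  · have : (M.map A.subtype).relIndex A = M.index := by
      rw [Subgroup.relIndex, Subgroup.subgroupOf,
        Subgroup.comap_map_eq_self_of_injective A.subtype_injective]
    rw [this]; exact hi
  · rintro x hx y hy
    obtain ⟨x', hx', rfl⟩ := Subgroup.mem_map.1 hx
    obtain ⟨y', hy', rfl⟩ := Subgroup.mem_map.1 hy
    exact congrArg Subtype.val (hc x' hx' y' hy')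
  · rintro x hx
    obtain ⟨x', hx', rfl⟩ := Subgroup.mem_map.1 hx
    obtain ⟨k, hk⟩ := hexp ⟨x', hx'⟩
    exact ⟨k, congrArg (fun z : ↥M => ((z : ↥A) : G)) hk⟩
  · intro n hn
    have hf := finite_torsion (C := ↥M) n hn
    refine (hf.image (fun z : ↥M => ((z : ↥A) : G))).subset ?_
    rintro x ⟨hx, hxn⟩
    obtain ⟨y, hy, rfl⟩ := Subgroup.mem_map.1 hx
    refine ⟨⟨y, hy⟩, ?_, rfl⟩
    have h1 : y ^ n = 1 := Subtype.ext (by simpa using hxn)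
    exact Subtype.ext h1
  · rintro a ha x hx
    obtain ⟨y, hy, rfl⟩ := Subgroup.mem_map.1 hx
    exact Subgroup.mem_map.2 ⟨⟨a, ha⟩ * y * ⟨a, ha⟩⁻¹, hn.conj_mem _ hy _, rfl⟩
  · rintro x hx n hn
    obtain ⟨x', hx', rfl⟩ := Subgroup.mem_map.1 hx
    obtain ⟨y, hy, hyx⟩ := hdiv x' hx' n hn
    exact ⟨A.subtype y, Subgroup.mem_map_of_mem _ hy, congrArg Subtype.val hyx⟩

theorem exists_dv {G : Type u} [Group G] (A B : Subgroup G) (hA : IsChernikov A) (hB : IsChernikov B) :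
    ∃ N : ℕ, 0 < N ∧ ∃ A0 B0 : Subgroup G, A0 ≤ A ∧ B0 ≤ B ∧ A0.relIndex A ≠ 0 ∧ B0.relIndex B ≠ 0 ∧ Dv N A0 ∧ Dv N B0 ∧
      (∀ a ∈ A, ∀ x ∈ A0, a * x * a⁻¹ ∈ A0) ∧ (∀ b ∈ B, ∀ x ∈ B0, b * x * b⁻¹ ∈ B0) ∧
      (∀ x ∈ A0, ∀ n : ℕ, 0 < n → ∃ y ∈ A0, y ^ n = x) ∧ (∀ x ∈ B0, ∀ n : ℕ, 0 < n → ∃ y ∈ B0, y ^ n = x) := by
  obtain ⟨N, hN, A0, hA0, hAi, hAc, hAt, hAf, hAn, hAd⟩ := exists_dv1 A hA
  obtain ⟨L, hL, B0, hB0, hBi, hBc, hBt, hBf, hBn, hBd⟩ := exists_dv1 B hB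
  have hNL : 0 < N * L := Nat.mul_pos hN hL
  refine ⟨N * L, hNL, A0, B0, hA0, hB0, hAi, hBi, ?_, ?_, hAn, hBn, hAd, hBd⟩
  · refine ⟨hAc, fun x hx => hAd x hx _ hNL, ?_, hAf _ hNL⟩
    intro x hx
    obtain ⟨k, hk⟩ := hAt x hx
    exact ⟨k, by rw [mul_pow, pow_mul, hk, one_pow]⟩
  · refine ⟨hBc, fun x hx => hBd x hx _ hNL, ?_, hBf _ hNL⟩
    intro x hx
    obtain ⟨k, hk⟩ := hBt x hx
    exact ⟨k, by rw [mul_pow, mul_comm, pow_mul, hk, one_pow]⟩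

end Pool.Agent.Chern
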