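import Pool.Agent.Chern.DvBasic

/-!
# Row TI: the trivial intersection property of the centralisers in a critical triple
-/

set_option autoImplicit false

namespace Pool.Agent.Chern

universe u

section lemmas

variable {G : Type u} [Group G]

theorem mem_cj {g : G} {Q : Subgroup G} {x : G} : x ∈ cj g Q ↔ g⁻¹ * x * g ∈ Q := by
  unfold cj
  rw [Subgroup.mem_map]
  constructor
  · rintro ⟨y, hy, rfl⟩
    have : g⁻¹ * ((MulAut.conj g).toMonoidHom y) * g = y := by
      simp [mul_assoc]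
    rw [this]; exact hy
  · intro h
    exact ⟨_, h, by simp [mul_assoc]⟩

theorem Dv.cj {N : ℕ} {Q : Subgroup G} (h : Dv N Q) (g : G) : Dv N (cj g Q) where
  comm := by
    intro x hx y hy
    rw [mem_cj] at hx hy
    have := h.comm _ hx _ hy
    have h2 : g⁻¹ * x * g * (g⁻¹ * y * g) = g⁻¹ * (x * y) * g := by group
    have h3 : g⁻¹ * y * g * (g⁻¹ * x * g) = g⁻¹ * (y * x) * g := by group
    rw [h2, h3] at this
    exact mul_left_cancel (mul_right_cancel this)
  div := by
    intro x hx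
    rw [mem_cj] at hx
    obtain ⟨y, hy, hyx⟩ := h.div _ hx
    refine ⟨g * y * g⁻¹, ?_, ?_⟩
    · rw [mem_cj]
      have : g⁻¹ * (g * y * g⁻¹) * g = y := by group
      rw [this]; exact hy
    · rw [conj_pow, hyx]; group
  tors := by
    intro x hx
    rw [mem_cj] at hx
    obtain ⟨k, hk⟩ := h.tors _ hx
    refine ⟨k, ?_⟩
    have h1 : g⁻¹ * x * g = g⁻¹ * x * g⁻¹⁻¹ := by rw [inv_inv]
    rw [h1, conj_pow, inv_inv] at hk
    have : x ^ N ^ k = g * (g⁻¹ * x ^ N ^ k * g) * g⁻¹ := by group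
    rw [this, hk]; group
  fin := by
    apply (h.fin.image (fun y => g * y * g⁻¹)).subset
    intro x hx
    obtain ⟨hx, hxN⟩ := hx
    rw [mem_cj] at hx
    refine ⟨g⁻¹ * x * g, ⟨hx, ?_⟩, by group⟩
    have h1 : g⁻¹ * x * g = g⁻¹ * x * g⁻¹⁻¹ := by rw [inv_inv]
    rw [h1, conj_pow, hxN]; group

theorem cj_le_cj {g : G} {P Q : Subgroup G} (h : P ≤ Q) : cj g P ≤ cj g Q := Subgroup.map_mono h

theorem relIndex_cj (g : G) (P Q : Subgroup G) : (cj g P).relIndex (cj g Q) = P.relIndex Q := by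
  unfold cj
  exact Subgroup.relIndex_map_map_of_injective P Q (f := (MulAut.conj g).toMonoidHom)
    (MulAut.conj g).injective

theorem cj_centralizer (g x : G) :
    cj g (Subgroup.centralizer {x}) = Subgroup.centralizer {g * x * g⁻¹} := by
  ext y
  rw [mem_cj, Subgroup.mem_centralizer_singleton_iff, Subgroup.mem_centralizer_singleton_iff]
  constructor
  · intro h
    have h2 : g * (g⁻¹ * y * g * x) * g⁻¹ = y * (g * x * g⁻¹) := by group
    have h3 : g * (x * (g⁻¹ * y * g)) * g⁻¹ = g * x * g⁻¹ * y := by group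
    rw [← h2, ← h3, h]
  · intro h
    have h2 : g⁻¹ * (y * (g * x * g⁻¹)) * g = g⁻¹ * y * g * x := by group
    have h3 : g⁻¹ * (g * x * g⁻¹ * y) * g = x * (g⁻¹ * y * g) := by group
    rw [← h2, ← h3, h]

theorem mem_normalizer_of_cj_eq {g : G} {D : Subgroup G} (h : cj g D = D) :
    g ∈ Subgroup.normalizer (D : Set G) := by
  rw [Subgroup.mem_normalizer_iff]
  intro x
  constructor
  · intro hx
    rw [← h, mem_cj]
    have : g⁻¹ * (g * x * g⁻¹) * g = x := by group
    rw [this]; exact hx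
  · intro hx
    rw [← h, mem_cj] at hx
    have : g⁻¹ * (g * x * g⁻¹) * g = x := by group
    rw [this] at hx; exact hx

/-- a Dv subgroup of finite index absorbs all Dv subgroups -/
theorem Dv.le_of_relIndex {N : ℕ} (hN : 0 < N) {P D K : Subgroup G} (hP : Dv N P) (hPK : P ≤ K)
    (hD : D.relIndex K ≠ 0) : P ≤ D :=
  Dv.nfi hN hP D (fun h => hD (Subgroup.relIndex_eq_zero_of_le_right hPK h))

end lemmas

/-- the one-sided statement -/
theorem ti_one {N : ℕ} (hN : 0 < N) {H : Type u} [Group H] {P : Subgroup H} (hP : Dv N P) (hP1 : P ≠ ⊥)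
    (hnfi : ∀ D : Subgroup H, D.index ≠ 0 → D = ⊤)
    (hpr : ∀ K : Subgroup H, K ≠ ⊤ → P ≤ K → DvF N K)
    (hcen : ∀ z : H, (∀ h : H, z * h = h * z) → z = 1) :
    ∃ DP : Subgroup H, Dv N DP ∧ P ≤ DP ∧
      (∀ x ∈ DP, x ≠ 1 → DP ≤ Subgroup.centralizer {x} ∧ DP.relIndex (Subgroup.centralizer {x}) ≠ 0) ∧
      (∀ x ∈ DP, x ≠ 1 → ∀ D : Subgroup H, D ≤ Subgroup.centralizer {x} →
        D.relIndex (Subgroup.centralizer {x}) ≠ 0 → Dv N D → D = DP) ∧
      Subgroup.normalizer (DP : Set H) ≠ ⊤ ∧ DP.relIndex (Subgroup.normalizer (DP : Set H)) ≠ 0 := by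
  have hPC : P ≤ Subgroup.centralizer (P : Set H) := by
    intro x hx
    rw [Subgroup.mem_centralizer_iff]
    intro y hy
    exact hP.comm y hy x hx
  have hCt : Subgroup.centralizer (P : Set H) ≠ ⊤ := by
    intro h
    apply hP1
    rw [eq_bot_iff]
    intro x hx
    rw [Subgroup.mem_bot]
    apply hcen
    intro g
    have : g ∈ Subgroup.centralizer (P : Set H) := h ▸ trivial
    exact (Subgroup.mem_centralizer_iff.1 this) x hx
  obtain ⟨DP, hDC, hDi, hD⟩ := hpr _ hCt hPC
  have hPD : P ≤ DP := hP.le_of_relIndex hN hPC hDi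
  -- every Dv subgroup containing P is inside DP
  have habs : ∀ D : Subgroup H, Dv N D → P ≤ D → D ≤ DP := by
    intro D hDv hPD'
    apply hDv.le_of_relIndex hN ?_ hDi
    intro x hx
    rw [Subgroup.mem_centralizer_iff]
    intro y hy
    exact hDv.comm y (hPD' hy) x hx
  have hDx : ∀ x ∈ DP, DP ≤ Subgroup.centralizer {x} := by
    intro x hx y hy
    rw [Subgroup.mem_centralizer_singleton_iff]
    exact hD.comm y hy x hx
  have huniq : ∀ x ∈ DP, x ≠ 1 → ∀ D : Subgroup H, D ≤ Subgroup.centralizer {x} →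
        D.relIndex (Subgroup.centralizer {x}) ≠ 0 → Dv N D → D = DP := by
    intro x hx hx1 D hDle hDi' hDv
    have h1 : DP ≤ D := hD.le_of_relIndex hN (hDx x hx) hDi'
    exact le_antisymm (habs D hDv (hPD.trans h1)) h1
  have hidx : ∀ x ∈ DP, x ≠ 1 → DP.relIndex (Subgroup.centralizer {x}) ≠ 0 := by
    intro x hx hx1
    have hne : Subgroup.centralizer {x} ≠ (⊤ : Subgroup H) := by
      intro h
      apply hx1
      apply hcen
      intro g
      have : g ∈ Subgroup.centralizer {x} := h ▸ trivial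
      exact (Subgroup.mem_centralizer_singleton_iff.1 this).symm
    obtain ⟨D, h1, h2, h3⟩ := hpr _ hne (hPD.trans (hDx x hx))
    have := huniq x hx hx1 D h1 h2 h3
    rw [← this]; exact h2
  have hnt : Subgroup.normalizer (DP : Set H) ≠ ⊤ := by
    intro hnorm
    -- elements of exponent N are trivial
    have h1 : ∀ x ∈ DP, x ^ N = 1 → x = 1 := by
      intro x hx hxN
      have hfin : (MulAction.orbit (ConjAct H) x).Finite := by
        apply hD.fin.subset
        rintro _ ⟨g, rfl⟩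
        simp only [ConjAct.smul_def]
        constructor
        · have : ConjAct.ofConjAct g ∈ Subgroup.normalizer (DP : Set H) := hnorm ▸ trivial
          exact (Subgroup.mem_normalizer_iff.1 this x).1 hx
        · rw [conj_pow, hxN]; group
      have hst : (MulAction.stabilizer (ConjAct H) x).index ≠ 0 := by
        rw [MulAction.index_stabilizer]
        rw [← Nat.card_coe_set_eq]
        have := hfin.to_subtype
        have hne : Nonempty (MulAction.orbit (ConjAct H) x) :=
          ⟨⟨x, MulAction.mem_orbit_self x⟩⟩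
        exact Nat.card_pos.ne'
      have hc : (Subgroup.centralizer ({x} : Set H)).index ≠ 0 := by
        rw [ConjAct.stabilizer_eq_centralizer] at hst
        exact hst
      have := hnfi _ hc
      apply hcen
      intro g
      have hg : g ∈ Subgroup.centralizer {x} := this ▸ trivial
      exact (Subgroup.mem_centralizer_singleton_iff.1 hg).symm
    apply hP1
    rw [eq_bot_iff]
    intro x hx
    rw [Subgroup.mem_bot]
    obtain ⟨k, hk⟩ := hD.tors x (hPD hx)
    have key : ∀ k : ℕ, ∀ x ∈ DP, x ^ N ^ k = 1 → x = 1 := by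
      intro k
      induction k with
      | zero => intro x _ h; simpa using h
      | succ k ih =>
        intro x hx h
        apply ih x hx
        apply h1 _ (DP.pow_mem hx _)
        rw [← pow_mul, ← pow_succ]; exact h
    exact key k x (hPD hx) hk
  refine ⟨DP, hD, hPD, fun x hx hx1 => ⟨hDx x hx, hidx x hx hx1⟩, huniq, hnt, ?_⟩
  have hDN : DP ≤ Subgroup.normalizer (DP : Set H) := Subgroup.le_normalizer
  obtain ⟨D, h1, h2, h3⟩ := hpr _ hnt (hPD.trans hDN)
  have h4 : P ≤ D := hP.le_of_relIndex hN (hPD.trans hDN) h2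
  have h5 : D ≤ DP := habs D h3 h4
  have h6 : DP ≤ D := hD.le_of_relIndex hN hDN h2
  rw [← le_antisymm h5 h6] at h2 ⊢
  exact h2

theorem exists_ti {N : ℕ} (hN : 0 < N) {H : Type u} [Group H] {P Q : Subgroup H} (h : Crit N H P Q) :
    ∃ DP DQ : Subgroup H, TIs N H P Q DP DQ := by
  have hP1 : P ≠ ⊥ := by
    intro hP
    have hfin : Finite (H ⧸ Q) := by
      obtain ⟨S, hS⟩ := h.fdc
      apply Finite.of_surjective (fun g : S => ((g : H) : H ⧸ Q))
      intro q
      obtain ⟨m, rfl⟩ := QuotientGroup.mk_surjective q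
      obtain ⟨g, hg, p, hp, q, hq, rfl⟩ := hS m
      rw [hP, Subgroup.mem_bot] at hp
      refine ⟨⟨g, hg⟩, ?_⟩
      rw [QuotientGroup.eq, hp, one_mul, ← mul_assoc, inv_mul_cancel, one_mul]
      exact hq
    have : Q = ⊤ := h.nfi Q Subgroup.index_ne_zero_of_finite
    apply h.bad
    rw [← this]
    exact ⟨Q, le_rfl, by rw [Subgroup.relIndex_self]; exact one_ne_zero, h.dQ⟩
  have hQ1 : Q ≠ ⊥ := by
    intro hQ
    have hfin : Finite (H ⧸ P) := by
      obtain ⟨S, hS⟩ := h.fdc
      apply Finite.of_surjective (fun g : S => (((g : H)⁻¹ : H) : H ⧸ P))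
      intro q
      obtain ⟨m, rfl⟩ := QuotientGroup.mk_surjective q
      obtain ⟨g, hg, p, hp, q, hq, hm⟩ := hS m⁻¹
      rw [hQ, Subgroup.mem_bot] at hq
      refine ⟨⟨g, hg⟩, ?_⟩
      have : m = g⁻¹ * p⁻¹ := by
        rw [hq, mul_one] at hm
        rw [← inv_inv m, hm, mul_inv_rev]
      rw [QuotientGroup.eq, this, ← mul_assoc, inv_inv, mul_inv_cancel, one_mul]
      exact P.inv_mem hp
    have : P = ⊤ := h.nfi P Subgroup.index_ne_zero_of_finite
    apply h.bad
    rw [← this]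
    exact ⟨P, le_rfl, by rw [Subgroup.relIndex_self]; exact one_ne_zero, h.dP⟩
  obtain ⟨DP, hDP, hPD, hiP, huP, hntP, hnP⟩ := ti_one hN h.dP hP1 h.nfi h.prP h.cen
  obtain ⟨DQ, hDQ, hQD, hiQ, huQ, hntQ, hnQ⟩ := ti_one hN h.dQ hQ1 h.nfi h.prQ h.cen
  have hti : ∀ (D : Subgroup H), Dv N D →
      (∀ x ∈ D, x ≠ 1 → D ≤ Subgroup.centralizer {x} ∧ D.relIndex (Subgroup.centralizer {x}) ≠ 0) →
      (∀ x ∈ D, x ≠ 1 → ∀ D' : Subgroup H, D' ≤ Subgroup.centralizer {x} →
        D'.relIndex (Subgroup.centralizer {x}) ≠ 0 → Dv N D' → D' = D) →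
      ∀ g : H, ∀ x ∈ D, x ≠ 1 → g * x * g⁻¹ ∈ D → g ∈ Subgroup.normalizer (D : Set H) := by
    intro D hD hi hu g x hx hx1 hgx
    apply mem_normalizer_of_cj_eq
    have hne : g * x * g⁻¹ ≠ 1 := by
      intro he
      apply hx1
      have : x = g⁻¹ * (g * x * g⁻¹) * g := by group
      rw [this, he]; group
    apply hu _ hgx hne _ ?_ ?_ (hD.cj g)
    · rw [← cj_centralizer]; exact cj_le_cj (hi x hx hx1).1
    · rw [← cj_centralizer, relIndex_cj]; exact (hi x hx hx1).2
  refine ⟨DP, DQ, ⟨h.toTr, hPD, hQD, hP1, hQ1, hDP.comm, hDQ.comm, hti DP hDP hiP huP,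
    hti DQ hDQ hiQ huQ, ?_, ?_, hnP, hnQ, ?_, ?_⟩⟩
  · intro x hx hx1 g hg
    apply hti DP hDP hiP huP g x hx hx1
    rw [Subgroup.mem_centralizer_singleton_iff.1 hg, mul_inv_cancel_right]
    exact hx
  · intro x hx hx1 g hg
    apply hti DQ hDQ hiQ huQ g x hx hx1
    rw [Subgroup.mem_centralizer_singleton_iff.1 hg, mul_inv_cancel_right]
    exact hx
  · intro g x hx hx1 hxg
    have hy := mem_cj.1 hxg
    set y := g⁻¹ * x * g with hydef
    have hxy : g * y * g⁻¹ = x := by rw [hydef]; group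
    have hy1 : y ≠ 1 := by
      intro he
      apply hx1
      rw [← hxy, he]; group
    apply huP x hx hx1 _ ?_ ?_ (hDQ.cj g)
    · rw [← hxy, ← cj_centralizer]; exact cj_le_cj (hiQ y hy hy1).1
    · rw [← hxy, ← cj_centralizer, relIndex_cj]; exact (hiQ y hy hy1).2
  · by_contra hall0
    have hall : ∀ g : H, cj g DQ = DP := fun g => by_contra fun hg => hall0 ⟨g, hg⟩
    apply hntP
    rw [eq_top_iff]
    intro g _
    apply mem_normalizer_of_cj_eq
    have h1 : DQ = DP := by
      have := hall 1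
      rw [← this]
      ext x
      rw [mem_cj]; simp
    have := hall g
    rw [h1] at this
    exact this

end Pool.Agent.Chern
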