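import Pool.Agent.Chern.DvBasic

/-!
# The finite subgroups `X`
-/

set_option autoImplicit false

namespace Pool.Agent.Chern

universe u

namespace XF

variable {H : Type u} [Group H]

theorem mem {g y : H} {Q : Subgroup H} : y ∈ cj g Q ↔ g⁻¹ * y * g ∈ Q := by
  constructor
  · rintro ⟨x, hx, rfl⟩
    have : g⁻¹ * ((MulAut.conj g).toMonoidHom x) * g = x := by
      change g⁻¹ * (g * x * g⁻¹) * g = x
      group
    rwa [this]
  · intro h
    refine ⟨g⁻¹ * y * g, h, ?_⟩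
    change g * (g⁻¹ * y * g) * g⁻¹ = y
    group

theorem mul (g h : H) (Q : Subgroup H) : cj (g * h) Q = cj g (cj h Q) := by
  ext y
  rw [mem, mem, mem]
  have : (g * h)⁻¹ * y * (g * h) = h⁻¹ * (g⁻¹ * y * g) * h := by group
  rw [this]

theorem one (Q : Subgroup H) : cj 1 Q = Q := by
  ext y
  rw [mem]
  simp

theorem mono {g : H} {Q Q' : Subgroup H} (h : Q ≤ Q') : cj g Q ≤ cj g Q' := Subgroup.map_mono h

theorem nor {g : H} {D : Subgroup H} : g ∈ Subgroup.normalizer (D : Set H) ↔ cj g D = D :=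
  Subgroup.mem_normalizer_iff_map_conj_eq

theorem inj (g : H) : Function.Injective (MulAut.conj g).toMonoidHom :=
  (MulAut.conj g).injective

theorem card (g : H) (Q : Subgroup H) : Nat.card (cj g Q) = Nat.card Q :=
  (Nat.card_congr (Subgroup.equivMapOfInjective Q _ (inj g)).toEquiv).symm

theorem inf (g : H) (K L : Subgroup H) : cj g (K ⊓ L) = cj g K ⊓ cj g L :=
  Subgroup.map_inf _ _ _ (inj g)

theorem cancel {g : H} {K L : Subgroup H} (h : cj g K = L) : K = cj g⁻¹ L := by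
  rw [← h, ← mul, inv_mul_cancel, one]

theorem nor_cj {g h : H} {D : Subgroup H} : g ∈ Subgroup.normalizer (cj h D : Set H) ↔
    h⁻¹ * g * h ∈ Subgroup.normalizer (D : Set H) := by
  rw [nor, nor, mul, mul]
  constructor
  · intro h1
    rw [h1, ← mul, inv_mul_cancel, one]
  · intro h1
    have := cancel h1
    rw [inv_inv] at this
    exact this

theorem of_comm {q : H} {L : Subgroup H} (hc : ∀ x ∈ L, q * x = x * q) : cj q L = L := by
  ext y
  rw [mem]
  constructor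
  · intro h1
    have h2 := hc _ h1
    have h3 : y = q⁻¹ * y * q := by
      calc y = q * (q⁻¹ * y * q) * q⁻¹ := by group
        _ = (q⁻¹ * y * q) * q * q⁻¹ := by rw [h2]
        _ = q⁻¹ * y * q := by group
    rwa [h3]
  · intro h1
    have h2 := hc _ h1
    have h3 : q⁻¹ * y * q = y := by
      rw [mul_assoc, ← h2]
      group
    rwa [h3]

theorem sub (X : Subgroup H) (x : X) (D : Subgroup H) :
    cj x (D.subgroupOf X) = (cj x.1 D).subgroupOf X := by
  ext y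
  rw [mem, Subgroup.mem_subgroupOf, Subgroup.mem_subgroupOf, mem]
  rfl

section Main

variable {N : ℕ} {P Q DP DQ : Subgroup H}

theorem self (h : TIs N H P Q DP DQ) {q : H} (hq : q ∈ Q) : cj q DQ = DQ :=
  nor.1 (Subgroup.le_normalizer (h.hQ hq))

theorem selfP (h : TIs N H P Q DP DQ) {p : H} (hp : p ∈ P) : cj p DP = DP :=
  nor.1 (Subgroup.le_normalizer (h.hP hp))

theorem eq_iff (h : TIs N H P Q DP DQ) {p s q : H} (hp : p ∈ P) (hq : q ∈ Q) :
    cj (p * s * q) DQ = DP ↔ cj s DQ = DP := by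
  rw [mul, mul, self h hq]
  constructor
  · intro h1
    rw [cancel h1, selfP h (P.inv_mem hp)]
  · intro h1
    rw [h1, selfP h hp]

theorem lay_cj (h : TIs N H P Q DP DQ) {q : H} (hq : q ∈ Q) (n : ℕ) :
    cj q (h.dQ.lay n) = h.dQ.lay n :=
  of_comm fun x hx => h.dQ.comm q hq x hx.1

theorem cjQ_cj (h : TIs N H P Q DP DQ) {q : H} (hq : q ∈ Q) : cj q Q = Q :=
  of_comm fun x hx => h.dQ.comm q hq x hx

theorem cjP_cj (h : TIs N H P Q DP DQ) {p : H} (hp : p ∈ P) : cj p P = P :=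
  of_comm fun x hx => h.dP.comm p hp x hx

theorem lay_mono (hP : Dv N P) {n m : ℕ} (hnm : n ≤ m) : hP.lay n ≤ hP.lay m :=
  fun _ hx => ⟨hx.1, hP.pow_one_of_le hx.2 hnm⟩

theorem exists_n0 (hN : 0 < N) (h : TIs N H P Q DP DQ) : ∃ n0 : ℕ, ∀ n, n0 ≤ n → ∀ g : H,
    cj g DQ ≠ DP → ¬ cj g (h.dQ.lay n) ≤ Subgroup.normalizer (DP : Set H) := by
  obtain ⟨S, hS⟩ := h.fdc
  have key : ∀ s : H, ∃ m : ℕ, ∀ n, m ≤ n → cj s DQ ≠ DP →
      ¬ cj s (h.dQ.lay n) ≤ Subgroup.normalizer (DP : Set H) := by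
    intro s
    by_contra hcon
    push Not at hcon
    obtain ⟨-, -, hne, -⟩ := hcon 0
    have hall : cj s Q ≤ Subgroup.normalizer (DP : Set H) := by
      intro y hy
      have hy' := mem.1 hy
      obtain ⟨k, hk⟩ := h.dQ.tors _ hy'
      obtain ⟨n, hn, -, hn2⟩ := hcon k
      exact hn2 (mem.2 ⟨hy', h.dQ.pow_one_of_le hk hn⟩)
    have hdv : Dv N (cj s Q) := (Dv.map hN h.dQ _).1
    have hle : cj s Q ≤ DP := hdv.nfi hN DP fun h0 =>
      h.norP (Subgroup.relIndex_eq_zero_of_le_right hall h0)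
    obtain ⟨y, hy, -, hy2⟩ := h.dQ.exists_new h.Q1 0
    have hy1 : y ≠ 1 := by simpa using hy2
    have h1 : s * y * s⁻¹ ∈ cj s Q := ⟨y, hy, rfl⟩
    have h2 : s * y * s⁻¹ ≠ 1 := by
      intro h0
      exact hy1 (by simpa using h0)
    exact hne (h.meet s _ (hle h1) h2 (mono h.hQ h1))
  choose f hf using key
  refine ⟨S.sup f, fun n hn g hg => ?_⟩
  obtain ⟨s, hs, p, hp, q, hq, rfl⟩ := hS g
  have h1 : cj s DQ ≠ DP := fun h0 => hg ((eq_iff h hp hq).2 h0)
  have h2 := hf s n ((Finset.le_sup hs).trans hn) h1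
  intro h3
  apply h2
  intro y hy
  rw [mul, mul, lay_cj h hq] at h3
  have h4 : p * y * p⁻¹ ∈ Subgroup.normalizer (DP : Set H) := h3 ⟨y, hy, rfl⟩
  have h5 : p ∈ Subgroup.normalizer (DP : Set H) := Subgroup.le_normalizer (h.hP hp)
  have h6 := Subgroup.mul_mem _ (Subgroup.mul_mem _ (Subgroup.inv_mem _ h5) h4) h5
  have h7 : p⁻¹ * (p * y * p⁻¹) * p = y := by group
  rwa [h7] at h6

/-- the subgroups `E` -/
def Eg (h : TIs N H P Q DP DQ) (n : ℕ) (g : H) : Subgroup H :=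
  h.dP.lay n ⊔ cj g (h.dQ.lay n)

theorem Eg_finite (h : TIs N H P Q DP DQ) (n : ℕ) (g : H) : Finite (Eg h n g) := by
  have h1 : (((h.dP.lay n : Subgroup H) : Set H) ∪ (cj g (h.dQ.lay n) : Subgroup H)).Finite := by
    refine Set.Finite.union (h.dP.lay_finite n) ?_
    exact (h.dQ.lay_finite n).image _
  have h2 := h.lf h1.toFinset
  rw [Set.Finite.coe_toFinset, Subgroup.closure_union, Subgroup.closure_eq,
    Subgroup.closure_eq] at h2
  exact h2.to_subtype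

/-- the choice of `h` -/
theorem exists_min (h : TIs N H P Q DP DQ) (n : ℕ) : ∃ g : H, cj g DQ ≠ DP ∧
    ∀ g' : H, cj g' DQ ≠ DP → Nat.card (Eg h n g) ≤ Nat.card (Eg h n g') := by
  obtain ⟨g, hg, hm⟩ := WellFounded.has_min (measure (fun g : H => Nat.card (Eg h n g))).wf
    {g : H | cj g DQ ≠ DP} h.ex
  exact ⟨g, hg, fun g' hg' => not_lt.1 (hm g' hg')⟩

theorem X_finite (h : TIs N H P Q DP DQ) {n : ℕ} (hn : 1 ≤ n) {g : H} (hg : cj g DQ ≠ DP) :
    Finite (Subgroup.normalizer (Eg h n g : Set H)) := by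
  have hEf := Eg_finite h n g
  set C := Subgroup.centralizer (Eg h n g : Set H) with hC
  have hC1 : C ≤ Subgroup.normalizer (DP : Set H) := by
    obtain ⟨x, hx, hx1, hx2⟩ := h.dP.exists_new h.P1 0
    have hx3 : x ≠ 1 := by simpa using hx2
    intro c hc
    refine h.cenP x (h.hP hx) hx3 ?_
    rw [Subgroup.mem_centralizer_singleton_iff]
    have h1 : x ∈ Eg h n g := Subgroup.mem_sup_left ⟨hx, h.dP.pow_one_of_le hx1 hn⟩
    have h2 := (Subgroup.mem_centralizer_iff.1 hc) x h1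
    exact h2.symm
  have hC2 : C ≤ Subgroup.normalizer (cj g DQ : Set H) := by
    obtain ⟨x, hx, hx1, hx2⟩ := h.dQ.exists_new h.Q1 0
    have hx3 : x ≠ 1 := by simpa using hx2
    intro c hc
    refine nor_cj.2 (h.cenQ x (h.hQ hx) hx3 ?_)
    rw [Subgroup.mem_centralizer_singleton_iff]
    have h1 : g * x * g⁻¹ ∈ Eg h n g :=
      Subgroup.mem_sup_right ⟨x, ⟨hx, h.dQ.pow_one_of_le hx1 hn⟩, rfl⟩
    have h2 := (Subgroup.mem_centralizer_iff.1 hc) _ h1
    calc g⁻¹ * c * g * x = g⁻¹ * (c * (g * x * g⁻¹)) * g := by group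
      _ = g⁻¹ * (g * x * g⁻¹ * c) * g := by rw [h2]
      _ = x * (g⁻¹ * c * g) := by group
  have h3 : DP.relIndex C ≠ 0 := fun h0 => h.norP (Subgroup.relIndex_eq_zero_of_le_right hC1 h0)
  have hNN : Subgroup.normalizer (cj g DQ : Set H) = cj g (Subgroup.normalizer (DQ : Set H)) := by
    ext y
    rw [nor_cj, mem]
  have h4 : (cj g DQ).relIndex C ≠ 0 := by
    intro h0
    have h5 := Subgroup.relIndex_eq_zero_of_le_right hC2 h0
    rw [hNN] at h5
    rw [cj, cj, Subgroup.relIndex_map_map_of_injective _ _ (inj g)] at h5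
    exact h.norQ h5
  have h6 : DP ⊓ cj g DQ = ⊥ := by
    rw [Subgroup.eq_bot_iff_forall]
    rintro x ⟨hx1, hx2⟩
    by_contra hx
    exact hg (h.meet g x hx1 hx hx2)
  have h7 := Subgroup.relIndex_inf_ne_zero h3 h4
  rw [h6, Subgroup.relIndex_bot_left] at h7
  have hCf : Finite C := Nat.finite_of_card_ne_zero h7
  have hK : ((Eg h n g).normalizerMonoidHom).ker =
      C.subgroupOf (Subgroup.normalizer (Eg h n g : Set H)) := Subgroup.normalizerMonoidHom_ker _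
  have hKf : Finite ((Eg h n g).normalizerMonoidHom).ker := by
    rw [hK]
    exact Finite.of_injective (fun x : C.subgroupOf (Subgroup.normalizer (Eg h n g : Set H)) =>
      (⟨x.1.1, x.2⟩ : C)) fun x y hxy => Subtype.ext (Subtype.ext (congrArg (fun z : C => z.1) hxy))
  have hMf : Finite (MulAut (Eg h n g)) := inferInstance
  apply Nat.finite_of_card_ne_zero
  rw [← Subgroup.card_mul_index ((Eg h n g).normalizerMonoidHom).ker, Subgroup.index_ker]
  exact Nat.mul_ne_zero Nat.card_pos.ne' Nat.card_pos.ne'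

theorem step (h : TIs N H P Q DP DQ) {n : ℕ} {g : H}
    (hm : ∀ g' : H, cj g' DQ ≠ DP → Nat.card (Eg h n g) ≤ Nat.card (Eg h n g'))
    {x x' p b : H} (hx : x ∈ Subgroup.normalizer (Eg h n g : Set H))
    (hx' : x' ∈ Subgroup.normalizer (Eg h n g : Set H)) (hp : p ∈ P) (hb : b ∈ cj g Q)
    (he : x' = p * x * b) (hne : cj (x * g) DQ ≠ DP) :
    p ∈ Subgroup.normalizer (Eg h n g : Set H) ∧ b ∈ Subgroup.normalizer (Eg h n g : Set H) := by
  have hEf := Eg_finite h n g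
  have h1 : Eg h n (x * g) ≤ Eg h n g := by
    refine sup_le le_sup_left ?_
    rw [mul]
    refine (mono le_sup_right).trans (?_ : cj x (Eg h n g) ≤ _)
    rw [nor.1 hx]
  have h2 : Eg h n (x * g) = Eg h n g := Subgroup.eq_of_le_of_card_ge h1 (hm _ hne)
  have h3 : Eg h n (x * g) ≤ cj p⁻¹ (Eg h n g) := by
    refine sup_le ?_ ?_
    · intro y hy
      rw [mem, inv_inv]
      have h4 : p * y * p⁻¹ = y := by
        rw [h.dP.comm p hp y hy.1, mul_assoc, mul_inv_cancel, mul_one]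
      rw [h4]
      exact Subgroup.mem_sup_left hy
    · have h5 : cj p (cj (x * g) (h.dQ.lay n)) ≤ Eg h n g := by
        rw [← mul]
        have hb' := mem.1 hb
        have h6 : p * (x * g) = x' * g * (g⁻¹ * b * g)⁻¹ := by
          rw [he]
          group
        rw [h6, mul, lay_cj h (Q.inv_mem hb'), mul]
        refine (mono le_sup_right).trans (?_ : cj x' (Eg h n g) ≤ _)
        rw [nor.1 hx']
      intro y hy
      rw [mem, inv_inv]
      exact h5 ⟨y, hy, rfl⟩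
  rw [h2] at h3
  have hcf : Finite (cj p⁻¹ (Eg h n g)) := by
    apply Nat.finite_of_card_ne_zero
    rw [card]
    exact Nat.card_pos.ne'
  have h7 : Eg h n g = cj p⁻¹ (Eg h n g) := Subgroup.eq_of_le_of_card_ge h3 (card _ _).le
  have h8 : p ∈ Subgroup.normalizer (Eg h n g : Set H) := by
    have := Subgroup.inv_mem _ (nor.2 h7.symm)
    rwa [inv_inv] at this
  refine ⟨h8, ?_⟩
  have h9 : b = x⁻¹ * p⁻¹ * x' := by
    rw [he]
    group
  rw [h9]
  exact Subgroup.mul_mem _ (Subgroup.mul_mem _ (Subgroup.inv_mem _ hx) (Subgroup.inv_mem _ h8)) hx'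

/-- the order of `P ∩ cj h Q` depends only on the double coset -/
theorem card_inter (h : TIs N H P Q DP DQ) {p s q : H} (hp : p ∈ P) (hq : q ∈ Q) :
    Nat.card (P ⊓ cj (p * s * q) Q : Subgroup H) = Nat.card (P ⊓ cj s Q : Subgroup H) := by
  rw [mul, mul, cjQ_cj h hq]
  have : P ⊓ cj p (cj s Q) = cj p (P ⊓ cj s Q) := by rw [inf, cjP_cj h hp]
  rw [this, card]

end Main

end XF

open XF

/-- the finite subgroups `X` -/
theorem exists_fin {N : ℕ} (hN : 0 < N) {H : Type u} [Group H] {P Q DP DQ : Subgroup H}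
    (h : TIs N H P Q DP DQ) :
    ∃ r k c : ℕ, ∀ M : ℕ, ∃ X : Subgroup H, ∃ _ : Finite X, ∃ (A B U V : Subgroup X),
    U ≤ A ∧ V ≤ B ∧ M ≤ Nat.card U ∧ M ≤ Nat.card V ∧ (∀ x ∈ A, ∀ y ∈ A, x * y = y * x) ∧
    (∀ x : X, ∀ a ∈ A, a ≠ 1 → x * a * x⁻¹ ∈ A → x ∈ Subgroup.normalizer (A : Set X)) ∧
    (∀ x : X, ∀ a ∈ B, a ≠ 1 → x * a * x⁻¹ ∈ B → x ∈ Subgroup.normalizer (B : Set X)) ∧
    A.relIndex (Subgroup.normalizer (A : Set X)) ≤ k ∧ B.relIndex (Subgroup.normalizer (B : Set X)) ≤ k ∧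
    (∀ x : X, ∀ a ∈ A, a ≠ 1 → a ∈ cj x B → cj x B = A) ∧
    (∃ S : Finset X, S.card ≤ r ∧ ∀ x : X, cj x B ≠ A → ∃ s ∈ S, ∃ p ∈ U, ∃ q ∈ V, x = p * s * q) ∧
    (∀ x : X, Nat.card (U ⊓ cj x V : Subgroup X) ≤ c) ∧
    Subgroup.normalizer (A : Set X) ≠ ⊤ := by
  classical
  obtain ⟨S, hS⟩ := h.fdc
  obtain ⟨n0, hn0⟩ := exists_n0 hN h
  refine ⟨S.card, max (DP.relIndex (Subgroup.normalizer (DP : Set H)))
    (DQ.relIndex (Subgroup.normalizer (DQ : Set H))),
    S.sup (fun s => Nat.card (P ⊓ cj s Q : Subgroup H)), fun M => ?_⟩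
  obtain ⟨n, hn1, hnM, hnn⟩ : ∃ n : ℕ, 1 ≤ n ∧ M ≤ n ∧ n0 ≤ n :=
    ⟨max 1 (max M n0), le_max_left _ _, (le_max_left _ _).trans (le_max_right _ _),
      (le_max_right _ _).trans (le_max_right _ _)⟩
  obtain ⟨g, hg, hm⟩ := exists_min h n
  have hb := hn0 n hnn g hg
  have hXf := X_finite h hn1 hg
  have hEf := Eg_finite h n g
  let X : Subgroup H := Subgroup.normalizer (Eg h n g : Set H)
  have hEX : Eg h n g ≤ X := Subgroup.le_normalizer
  have hPX : h.dP.lay n ≤ X := le_sup_left.trans hEX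
  have hQX : cj g (h.dQ.lay n) ≤ X := le_sup_right.trans hEX
  -- a nontrivial element of `A` and one of `B`
  obtain ⟨a0, ha0, ha1, ha2⟩ := h.dP.exists_new h.P1 0
  have ha0n : a0 ∈ h.dP.lay n := ⟨ha0, h.dP.pow_one_of_le ha1 hn1⟩
  have ha3 : a0 ≠ 1 := by simpa using ha2
  obtain ⟨b0, hb0, hb1, hb2⟩ := h.dQ.exists_new h.Q1 0
  have hb0n : g * b0 * g⁻¹ ∈ cj g (h.dQ.lay n) := ⟨b0, ⟨hb0, h.dQ.pow_one_of_le hb1 hn1⟩, rfl⟩
  have hb3 : g * b0 * g⁻¹ ≠ 1 := by
    intro h0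
    exact hb2 (by simpa using h0)
  have hb0D : g * b0 * g⁻¹ ∈ cj g DQ := ⟨b0, h.hQ hb0, rfl⟩
  -- trivial intersection
  have tiA : ∀ x : X, ∀ a ∈ DP.subgroupOf X, a ≠ 1 → x * a * x⁻¹ ∈ DP.subgroupOf X →
      x.1 ∈ Subgroup.normalizer (DP : Set H) := by
    intro x a ha ha1 hxa
    exact h.tiP x.1 a.1 ha (fun h0 => ha1 (Subtype.ext h0)) hxa
  have tiB : ∀ x : X, ∀ a ∈ (cj g DQ).subgroupOf X, a ≠ 1 → x * a * x⁻¹ ∈ (cj g DQ).subgroupOf X →
      x.1 ∈ Subgroup.normalizer (cj g DQ : Set H) := by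
    intro x a ha ha1 hxa
    refine nor_cj.2 (h.tiQ _ (g⁻¹ * a.1 * g) (mem.1 ha) ?_ ?_)
    · intro h0
      apply ha1
      apply Subtype.ext
      have h2 : a.1 = g * (g⁻¹ * a.1 * g) * g⁻¹ := by group
      rw [h2, h0]
      simp
    · have h1 := mem.1 hxa
      have h2 : g⁻¹ * x.1 * g * (g⁻¹ * a.1 * g) * (g⁻¹ * x.1 * g)⁻¹ =
          g⁻¹ * (x * a * x⁻¹ : X).1 * g := by
        change _ = g⁻¹ * (x.1 * a.1 * x.1⁻¹) * g
        group
      rw [h2]
      exact h1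
  have norX : ∀ (D : Subgroup H) (x : X), x.1 ∈ Subgroup.normalizer (D : Set H) →
      x ∈ Subgroup.normalizer (D.subgroupOf X : Set X) := by
    intro D x hx
    rw [nor, XF.sub, nor.1 hx]
  -- if `cj (x g) DQ = DP` then `cj x B = A`
  have hBA : ∀ x : X, cj (x.1 * g) DQ = DP → cj x ((cj g DQ).subgroupOf X) = DP.subgroupOf X := by
    intro x hx
    rw [XF.sub, ← XF.mul, hx]
  have hNA : ∀ x : X, x ∈ Subgroup.normalizer (DP.subgroupOf X : Set X) →
      x.1 ∈ Subgroup.normalizer (DP : Set H) := by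
    intro x hx
    refine tiA x ⟨a0, hPX ha0n⟩ (h.hP ha0) (fun h0 => ha3 (congrArg Subtype.val h0)) ?_
    exact (Subgroup.mem_normalizer_iff.1 hx _).1 (h.hP ha0)
  have hNB : ∀ x : X, x ∈ Subgroup.normalizer ((cj g DQ).subgroupOf X : Set X) →
      x.1 ∈ Subgroup.normalizer (cj g DQ : Set H) := by
    intro x hx
    refine tiB x ⟨g * b0 * g⁻¹, hQX hb0n⟩ hb0D (fun h0 => hb3 (congrArg Subtype.val h0)) ?_
    exact (Subgroup.mem_normalizer_iff.1 hx _).1 hb0D
  have hNN : Subgroup.normalizer (cj g DQ : Set H) = cj g (Subgroup.normalizer (DQ : Set H)) := by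
    ext y
    rw [nor_cj, mem]
  refine ⟨X, hXf, DP.subgroupOf X, (cj g DQ).subgroupOf X, P.subgroupOf X, (cj g Q).subgroupOf X,
    fun x hx => h.hP hx, fun x hx => mono h.hQ hx, ?_, ?_, ?_,
    fun x a ha ha1 hxa => norX _ x (tiA x a ha ha1 hxa),
    fun x a ha ha1 hxa => norX _ x (tiB x a ha ha1 hxa), ?_, ?_, ?_, ?_, ?_, ?_⟩
  · refine hnM.trans (((h.dP.layer hN n).2 h.P1).trans ?_)
    change Nat.card {x : H | x ∈ P ∧ x ^ (N ^ n) = 1} ≤ _
    exact Nat.card_le_card_of_injective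
      (fun x : {x : H | x ∈ P ∧ x ^ (N ^ n) = 1} => (⟨⟨x.1, hPX x.2⟩, x.2.1⟩ : P.subgroupOf X))
      fun x y hxy => Subtype.ext (congrArg (fun z : P.subgroupOf X => z.1.1) hxy)
  · refine hnM.trans (((h.dQ.layer hN n).2 h.Q1).trans ?_)
    change Nat.card {x : H | x ∈ Q ∧ x ^ (N ^ n) = 1} ≤ _
    refine Nat.card_le_card_of_injective
      (fun x : {x : H | x ∈ Q ∧ x ^ (N ^ n) = 1} =>
        (⟨⟨g * x.1 * g⁻¹, hQX ⟨x.1, x.2, rfl⟩⟩, ⟨x.1, x.2.1, rfl⟩⟩ : (cj g Q).subgroupOf X)) ?_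
    intro x y hxy
    have h1 := congrArg (fun z : (cj g Q).subgroupOf X => z.1.1) hxy
    exact Subtype.ext (inj g h1)
  · intro x hx y hy
    exact Subtype.ext (h.cP _ hx _ hy)
  · refine le_trans ?_ (le_max_left _ _)
    rw [Subgroup.subgroupOf, Subgroup.relIndex_comap]
    refine Subgroup.relIndex_le_of_le_right ?_ h.norP
    rintro _ ⟨x, hx, rfl⟩
    exact hNA x hx
  · refine le_trans ?_ (le_max_right _ _)
    rw [Subgroup.subgroupOf, Subgroup.relIndex_comap]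
    have h1 : (cj g DQ).relIndex (Subgroup.normalizer (cj g DQ : Set H)) =
        DQ.relIndex (Subgroup.normalizer (DQ : Set H)) := by
      rw [hNN]
      exact Subgroup.relIndex_map_map_of_injective _ _ (inj g)
    rw [← h1]
    refine Subgroup.relIndex_le_of_le_right ?_ (by rw [h1]; exact h.norQ)
    rintro _ ⟨x, hx, rfl⟩
    exact hNB x hx
  · intro x a ha ha1 hax
    apply hBA
    refine h.meet (x.1 * g) a.1 ha (fun h0 => ha1 (Subtype.ext h0)) ?_
    rw [XF.sub] at hax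
    rw [XF.mul]
    exact hax
  · -- the representatives
    let pr : H → X → Prop := fun s x => cj x ((cj g DQ).subgroupOf X) ≠ DP.subgroupOf X ∧
      ∃ p ∈ P, ∃ q ∈ Q, x.1 * g = p * s * q
    let f : H → X := fun s => if hs : ∃ x, pr s x then hs.choose else 1
    have hf : ∀ s, (∃ x, pr s x) → pr s (f s) := by
      intro s hs
      have : f s = hs.choose := dif_pos hs
      rw [this]
      exact hs.choose_spec
    refine ⟨S.image f, Finset.card_image_le, ?_⟩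
    intro x hx
    obtain ⟨s, hs, p1, hp1, q1, hq1, he1⟩ := hS (x.1 * g)
    obtain ⟨hx2, p2, hp2, q2, hq2, he2⟩ := hf s ⟨x, hx, p1, hp1, q1, hq1, he1⟩
    have hne : cj ((f s).1 * g) DQ ≠ DP := fun h0 => hx2 (hBA _ h0)
    have hbm : g * (q2⁻¹ * q1) * g⁻¹ ∈ cj g Q := ⟨q2⁻¹ * q1, Q.mul_mem (Q.inv_mem hq2) hq1, rfl⟩
    have he : x.1 = (p1 * p2⁻¹) * (f s).1 * (g * (q2⁻¹ * q1) * g⁻¹) := by
      have h1 : x.1 = p1 * s * q1 * g⁻¹ := by rw [← he1]; group
      have h2 : (f s).1 = p2 * s * q2 * g⁻¹ := by rw [← he2]; group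
      rw [h1, h2]
      group
    obtain ⟨hpX, hbX⟩ := step h hm (f s).2 x.2 (P.mul_mem hp1 (P.inv_mem hp2)) hbm he hne
    exact ⟨f s, Finset.mem_image_of_mem _ hs, ⟨_, hpX⟩, P.mul_mem hp1 (P.inv_mem hp2), ⟨_, hbX⟩,
      hbm, Subtype.ext he⟩
  · intro x
    obtain ⟨s, hs, p, hp, q, hq, he⟩ := hS (x.1 * g)
    refine le_trans ?_ (Finset.le_sup (f := fun s => Nat.card (P ⊓ cj s Q : Subgroup H)) hs)
    change _ ≤ Nat.card (P ⊓ cj s Q : Subgroup H)
    rw [← card_inter h hp hq, ← he]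
    have hfi : Finite (P ⊓ cj (x.1 * g) Q : Subgroup H) := (h.fint (x.1 * g)).to_subtype
    refine Nat.card_le_card_of_injective
      (fun y : (P.subgroupOf X ⊓ cj x ((cj g Q).subgroupOf X) : Subgroup X) =>
        (⟨y.1.1, ?_⟩ : (P ⊓ cj (x.1 * g) Q : Subgroup H))) ?_
    · have h1 : y.1 ∈ (cj x.1 (cj g Q)).subgroupOf X := by
        rw [← XF.sub]
        exact y.2.2
      have h2 : y.1.1 ∈ cj (x.1 * g) Q := by
        rw [XF.mul]
        exact h1
      exact ⟨y.2.1, h2⟩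
    · intro y z hyz
      exact Subtype.ext (Subtype.ext
        (congrArg (fun w : (P ⊓ cj (x.1 * g) Q : Subgroup H) => w.1) hyz))
  · intro htop
    apply hb
    intro y hy
    have h1 : (⟨y, hQX hy⟩ : X) ∈ Subgroup.normalizer (DP.subgroupOf X : Set X) := by
      rw [htop]
      trivial
    exact hNA _ h1

end Pool.Agent.Chern
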