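import Pool.Agent.Chern.DvBasic
import Pool.Agent.Chern.MinBad
import Pool.Agent.Chern.TI
import Pool.Agent.Chern.Count
import Pool.Agent.Chern.XF
import Pool.Agent.Chern.ExistsDv
import Pool.Agent.Chern.RedA

/-!
# A locally finite product of two Chernikov groups is Chernikov (row LG)
-/

set_option autoImplicit false

open scoped Pointwise

namespace Pool.Agent.Chern

universe u v

/-- Theorem T of the paper -/
theorem dvF_of_tr {N : ℕ} (hN : 0 < N) {H : Type u} [Group H] {P Q : Subgroup H} (h : Tr N H P Q) :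
    DvF N (⊤ : Subgroup H) := by
  by_contra hbad
  obtain ⟨H', _, P', Q', hcr⟩ := exists_crit hN h hbad
  obtain ⟨DP, DQ, hti⟩ := exists_ti hN hcr
  obtain ⟨r, k, c, hX⟩ := exists_fin hN hti
  obtain ⟨M, hM⟩ := count_false.{u} r k c
  obtain ⟨X, hfin, A, B, U, V, hUA, hVB, hU, hV, hA, htiA, htiB, hkA, hkB, hmeet, hS, hc, hnor⟩ := hX M
  exact hM X A B U V hUA hVB hU hV hA htiA htiB hkA hkB hmeet hS hc hnor

namespace LG

theorem lf_of_surjective {G : Type u} {H : Type v} [Group G] [Group H] (hG : LF G) (φ : G →* H)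
    (hφ : Function.Surjective φ) : LF H := by
  classical
  intro S
  choose f hf using hφ
  have h1 := hG (S.image f)
  have h2 : Subgroup.closure (S : Set H) =
      (Subgroup.closure ((S.image f : Finset G) : Set G)).map φ := by
    rw [MonoidHom.map_closure]
    congr 1
    ext x
    simp [hf]
  rw [h2]
  exact h1.image φ

theorem mem_cj {G : Type u} [Group G] {g x : G} {Q : Subgroup G} :
    x ∈ cj g Q ↔ ∃ q ∈ Q, g * q * g⁻¹ = x := by
  simp [cj, Subgroup.mem_map]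

variable {G : Type u} [Group G]

/-- `G` is a finite union of double cosets of the cores -/
theorem fdc_of_reps {A B A0 B0 : Subgroup G} (hAi : A0.relIndex A ≠ 0) (hBi : B0.relIndex B ≠ 0)
    (hAn : ∀ a ∈ A, ∀ x ∈ A0, a * x * a⁻¹ ∈ A0)
    (hAB : ∀ g : G, ∃ a ∈ A, ∃ b ∈ B, a * b = g) : FDC A0 B0 := by
  classical
  obtain ⟨TA, hTA, hTA'⟩ := RA.exists_reps hAi
  obtain ⟨TB, hTB, hTB'⟩ := RA.exists_reps hBi
  refine ⟨(TA ×ˢ TB).image (fun p => p.1 * p.2), ?_⟩
  intro g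
  obtain ⟨a, ha, b, hb, rfl⟩ := hAB g
  obtain ⟨s, hs, x, hx, rfl⟩ := hTA' a ha
  obtain ⟨t, ht, y, hy, rfl⟩ := hTB' b hb
  refine ⟨s * t, Finset.mem_image.2 ⟨(s, t), Finset.mem_product.2 ⟨hs, ht⟩, rfl⟩,
    s * x * s⁻¹, hAn s (hTA s hs) x hx, y, hy, ?_⟩
  group

/-- `M = A0 ⊔ B0` has finite index -/
theorem index_sup_ne_zero {A B A0 B0 : Subgroup G} (hAi : A0.relIndex A ≠ 0)
    (hBi : B0.relIndex B ≠ 0) (hBn : ∀ b ∈ B, ∀ x ∈ B0, b * x * b⁻¹ ∈ B0)
    (hAB : ∀ g : G, ∃ a ∈ A, ∃ b ∈ B, a * b = g) : (A0 ⊔ B0).index ≠ 0 := by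
  classical
  obtain ⟨TA, hTA, hTA'⟩ := RA.exists_reps hAi
  obtain ⟨TB, hTB, hTB'⟩ := RA.exists_reps hBi
  set M := A0 ⊔ B0 with hMdef
  have hcov : ⋃ p ∈ (TA ×ˢ TB : Finset (G × G)),
      (p.1 * p.2) • ((M.comap (MulAut.conj p.2).toMonoidHom : Subgroup G) : Set G) =
        Set.univ := by
    rw [Set.eq_univ_iff_forall]
    intro g
    obtain ⟨a, ha, b, hb, rfl⟩ := hAB g
    obtain ⟨s, hs, x, hx, rfl⟩ := hTA' a ha
    obtain ⟨t, ht, y, hy, rfl⟩ := hTB' b hb
    simp only [Set.mem_iUnion]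
    refine ⟨(s, t), Finset.mem_product.2 ⟨hs, ht⟩, ?_⟩
    rw [Set.mem_smul_set_iff_inv_smul_mem]
    change (MulAut.conj t).toMonoidHom ((s * t)⁻¹ • _) ∈ M
    have h1 : (MulAut.conj t).toMonoidHom ((s * t)⁻¹ • (s * x * (t * y))) = x * (t * y * t⁻¹) := by
      simp only [MulEquiv.toMonoidHom_eq_coe, MonoidHom.coe_coe, MulAut.conj_apply, smul_eq_mul]
      group
    rw [h1]
    exact M.mul_mem (le_sup_left (a := A0) hx) (le_sup_right (a := A0) (hBn t (hTB t ht) y hy))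
  obtain ⟨p, -, hp⟩ := Subgroup.exists_finiteIndex_of_leftCoset_cover hcov
  have h2 := hp.index_ne_zero
  rwa [Subgroup.index_comap_of_surjective] at h2
  exact (MulAut.conj p.2).surjective

theorem NFI.sup {A0 B0 : Subgroup G} (hA : NFI A0) (hB : NFI B0) : NFI (A0 ⊔ B0) := by
  intro D hD
  refine sup_le (hA D ?_) (hB D ?_)
  · intro h0
    exact hD (Subgroup.relIndex_eq_zero_of_le_right le_sup_left h0)
  · intro h0
    exact hD (Subgroup.relIndex_eq_zero_of_le_right le_sup_right h0)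

/-- a subgroup of finite index without subgroups of finite index is normal -/
theorem normal_of_nfi {M : Subgroup G} (hM : NFI M) (hi : M.index ≠ 0) : M.Normal := by
  refine ⟨fun x hx g => ?_⟩
  have h1 : (M.comap (MulAut.conj g).toMonoidHom).index ≠ 0 := by
    rw [Subgroup.index_comap_of_surjective]
    · exact hi
    · exact (MulAut.conj g).surjective
  have h2 : (M.comap (MulAut.conj g).toMonoidHom).relIndex M ≠ 0 := by
    intro h0
    exact h1 (Subgroup.index_eq_zero_of_relIndex_eq_zero h0)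
  have h3 := hM _ h2 hx
  simpa using h3

/-- `M` modulo its centre is abelian -/
theorem comm_mod_center {N : ℕ} {M : Subgroup G} (hM : NFI M)
    (hD : DvF N (⊤ : Subgroup (↥M ⧸ Subgroup.center ↥M))) (x y : ↥M) :
    x * y * x⁻¹ * y⁻¹ ∈ Subgroup.center ↥M := by
  obtain ⟨D, -, hDi, hDv⟩ := hD
  have hDi' : D.index ≠ 0 := by rwa [← Subgroup.relIndex_top_right]
  set Z := Subgroup.center ↥M
  have h1 : (D.comap (QuotientGroup.mk' Z)).index ≠ 0 := by
    rw [Subgroup.index_comap_of_surjective]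
    · exact hDi'
    · exact QuotientGroup.mk'_surjective Z
  have h2 : ((D.comap (QuotientGroup.mk' Z)).map M.subtype).relIndex M ≠ 0 := by
    rw [Subgroup.relIndex, Subgroup.subgroupOf,
      Subgroup.comap_map_eq_self_of_injective M.subtype_injective]
    exact h1
  have h3 := hM _ h2
  have h4 : ∀ z : ↥M, (QuotientGroup.mk' Z) z ∈ D := by
    intro z
    obtain ⟨w, hw, hwz⟩ := Subgroup.mem_map.1 (h3 z.2)
    have : w = z := Subtype.ext hwz
    subst this
    exact hw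
  have h5 := hDv.comm _ (h4 x) _ (h4 y)
  rw [← QuotientGroup.eq_one_iff]
  have h6 : ((x * y * x⁻¹ * y⁻¹ : ↥M) : ↥M ⧸ Z) =
      (QuotientGroup.mk' Z) x * (QuotientGroup.mk' Z) y * ((QuotientGroup.mk' Z) x)⁻¹ *
        ((QuotientGroup.mk' Z) y)⁻¹ := rfl
  rw [h6, h5]
  group

/-- the two cores commute when `M / Z(M)` is abelian -/
theorem cores_commute {N : ℕ} (hN : 0 < N) {M A0 B0 : Subgroup G} (hA : A0 ≤ M) (hB : B0 ≤ M)
    (hBt : ∀ x ∈ B0, ∃ k : ℕ, x ^ (N ^ k) = 1)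
    (hAd : ∀ x ∈ A0, ∀ n : ℕ, 0 < n → ∃ y ∈ A0, y ^ n = x)
    (hcomm : ∀ x y : ↥M, x * y * x⁻¹ * y⁻¹ ∈ Subgroup.center ↥M) :
    ∀ a ∈ A0, ∀ b ∈ B0, a * b = b * a := by
  intro a ha b hb
  obtain ⟨k, hk⟩ := hBt b hb
  obtain ⟨c, hc, rfl⟩ := hAd a ha (N ^ k) (Nat.pow_pos hN)
  have key : ∀ n : ℕ, (⟨c, hA hc⟩ : ↥M) ^ n * ⟨b, hB hb⟩ * ((⟨c, hA hc⟩ : ↥M) ^ n)⁻¹ * (⟨b, hB hb⟩ : ↥M)⁻¹ =
      (⟨c, hA hc⟩ : ↥M) * (⟨b, hB hb⟩ : ↥M) ^ n * (⟨c, hA hc⟩ : ↥M)⁻¹ * ((⟨b, hB hb⟩ : ↥M) ^ n)⁻¹ := by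
    generalize (⟨c, hA hc⟩ : ↥M) = x
    generalize (⟨b, hB hb⟩ : ↥M) = y
    set z := x * y * x⁻¹ * y⁻¹ with hz
    have hzc : ∀ w : ↥M, w * z = z * w := fun w => Subgroup.mem_center_iff.1 (hcomm x y) w
    have e1 : x * y * x⁻¹ = z * y := by rw [hz]; group
    have h1 : ∀ n : ℕ, x ^ n * y * (x ^ n)⁻¹ = z ^ n * y := by
      intro n
      induction n with
      | zero => simp
      | succ n ih =>
        have hzn : x * z ^ n = z ^ n * x := ((show Commute x z from hzc x).pow_right n).eq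
        calc x ^ (n + 1) * y * (x ^ (n + 1))⁻¹ = x * (x ^ n * y * (x ^ n)⁻¹) * x⁻¹ := by
              rw [pow_succ']; group
          _ = x * z ^ n * y * x⁻¹ := by rw [ih]; group
          _ = z ^ n * (x * y * x⁻¹) := by rw [hzn]; group
          _ = z ^ (n + 1) * y := by rw [e1, pow_succ]; group
    have h2 : ∀ n : ℕ, x * y ^ n * x⁻¹ = z ^ n * y ^ n := by
      intro n
      have : x * y ^ n * x⁻¹ = (x * y * x⁻¹) ^ n := by rw [conj_pow]
      rw [this, e1]
      exact (show Commute z y from (hzc y).symm).mul_pow n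
    intro n
    rw [h1, h2]
    group
  have h3 := key (N ^ k)
  have h4 : (⟨b, hB hb⟩ : ↥M) ^ (N ^ k) = 1 := Subtype.ext (by simpa using hk)
  rw [h4] at h3
  have h5 : (⟨c, hA hc⟩ : ↥M) ^ (N ^ k) * ⟨b, hB hb⟩ * ((⟨c, hA hc⟩ : ↥M) ^ (N ^ k))⁻¹ * (⟨b, hB hb⟩ : ↥M)⁻¹ = 1 := by
    rw [h3]; group
  have h6 : (⟨c, hA hc⟩ : ↥M) ^ (N ^ k) * ⟨b, hB hb⟩ = ⟨b, hB hb⟩ * (⟨c, hA hc⟩ : ↥M) ^ (N ^ k) := by
    rw [mul_inv_eq_one, mul_inv_eq_iff_eq_mul] at h5
    exact h5
  exact congrArg Subtype.val h6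

end LG

open LG in
theorem chernikov_of_lf {G : Type u} [Group G] (hG : LF G) (A B : Subgroup G) (hA : IsChernikov A) (hB : IsChernikov B)
    (hAB : ∀ g : G, ∃ a ∈ A, ∃ b ∈ B, a * b = g) : IsChernikov G := by
  classical
  obtain ⟨N, hN, A0, B0, hA0, hB0, hAi, hBi, hDA, hDB, hAn, hBn, hAd, hBd⟩ := exists_dv A B hA hB
  obtain ⟨S, hS⟩ := fdc_of_reps hAi hBi hAn hAB
  have hMi := LG.index_sup_ne_zero hAi hBi hBn hAB
  have hMN : NFI (A0 ⊔ B0) := LG.NFI.sup (hDA.nfi hN) (hDB.nfi hN)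
  have hAM : A0 ≤ A0 ⊔ B0 := le_sup_left
  have hBM : B0 ≤ A0 ⊔ B0 := le_sup_right
  have hgen : ∀ K : Subgroup G, A0 ≤ K → B0 ≤ K → A0 ⊔ B0 ≤ K := fun K h1 h2 => sup_le h1 h2
  generalize hMdef : A0 ⊔ B0 = M at hMi hMN hAM hBM hgen
  have hnor : M.Normal := normal_of_nfi hMN hMi
  -- elements of `M` commuting with both cores are central
  have hcen : ∀ x : G, (∀ a ∈ A0, a * x = x * a) → (∀ b ∈ B0, b * x = x * b) → ∀ m ∈ M, m * x = x * m := by
    intro x h1 h2 m hm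
    have h3 : M ≤ Subgroup.centralizer {x} := by
      refine hgen _ ?_ ?_
      · intro a ha
        exact Subgroup.mem_centralizer_singleton_iff.2 (h1 a ha)
      · intro b hb
        exact Subgroup.mem_centralizer_singleton_iff.2 (h2 b hb)
    exact Subgroup.mem_centralizer_singleton_iff.1 (h3 hm)
  set Z := Subgroup.center ↥M with hZ
  set π := QuotientGroup.mk' Z with hπ
  have hmapA : (A0.subgroupOf M).map M.subtype = A0 := Subgroup.map_subgroupOf_eq_of_le hAM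
  have hmapB : (B0.subgroupOf M).map M.subtype = B0 := Subgroup.map_subgroupOf_eq_of_le hBM
  have hDA' : Dv N (A0.subgroupOf M) :=
    (Dv.of_map_injective M.subtype M.subtype_injective (by rw [hmapA]; exact hDA)).1
  have hDB' : Dv N (B0.subgroupOf M) :=
    (Dv.of_map_injective M.subtype M.subtype_injective (by rw [hmapB]; exact hDB)).1
  have htr : Tr N (↥M ⧸ Z) ((A0.subgroupOf M).map π) ((B0.subgroupOf M).map π) := by
    refine ⟨?_, (hDA'.map hN π).1, (hDB'.map hN π).1, ?_, ?_⟩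
    · refine lf_of_surjective ?_ π (QuotientGroup.mk'_surjective Z)
      have hlt : LF (⊤ : Subgroup G) := by
        refine lf_of_surjective hG (Subgroup.topEquiv (G := G)).symm.toMonoidHom ?_
        exact (Subgroup.topEquiv (G := G)).symm.surjective
      exact RA.lf_of_injective hlt M.subtype M.subtype_injective (fun x => Subgroup.mem_top _)
    · refine ⟨(S.subtype (fun s => s ∈ M)).image (fun s => π ⟨s.1, s.2⟩), ?_⟩
      intro h
      obtain ⟨m, rfl⟩ := QuotientGroup.mk'_surjective Z h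
      obtain ⟨s, hs, p, hp, q, hq, hm⟩ := hS m
      have hsM : s ∈ M := by
        have : s = p⁻¹ * (m : G) * q⁻¹ := by rw [hm]; group
        rw [this]
        exact M.mul_mem (M.mul_mem (M.inv_mem (hAM hp)) m.2) (M.inv_mem (hBM hq))
      refine ⟨π ⟨s, hsM⟩, Finset.mem_image.2 ⟨⟨s, hsM⟩, by simpa using hs, rfl⟩,
        π ⟨p, hAM hp⟩, Subgroup.mem_map_of_mem π hp, π ⟨q, hBM hq⟩, Subgroup.mem_map_of_mem π hq, ?_⟩
      rw [← map_mul, ← map_mul]
      exact congrArg π (Subtype.ext hm)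
    · intro h
      refine (Set.finite_singleton (1 : ↥M ⧸ Z)).subset ?_
      intro x hx
      obtain ⟨hx1, hx2⟩ := Subgroup.mem_inf.1 hx
      obtain ⟨a, ha, hax⟩ := Subgroup.mem_map.1 hx1
      obtain ⟨y, hy, hyx⟩ := LG.mem_cj.1 hx2
      obtain ⟨q, hq, rfl⟩ := Subgroup.mem_map.1 hy
      obtain ⟨m, rfl⟩ := QuotientGroup.mk'_surjective Z h
      have ha' : (a : G) ∈ A0 := ha
      have hq' : (q : G) ∈ B0 := hq
      -- the equation in `M`
      have hz : (m * q * m⁻¹)⁻¹ * a ∈ Z := by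
        rw [← QuotientGroup.eq_one_iff]
        have : (((m * q * m⁻¹)⁻¹ * a : ↥M) : ↥M ⧸ Z) = (π m * π q * (π m)⁻¹)⁻¹ * π a := rfl
        rw [this, hyx, hax, inv_mul_cancel]
      obtain ⟨a', ha1, b', hb1, hab⟩ := hAB m
      set z : ↥M := (m * q * m⁻¹)⁻¹ * a with hzdef
      have hzG : (z : G) = ((m : G) * q * (m : G)⁻¹)⁻¹ * a := rfl
      have hzc : ∀ w ∈ M, w * (z : G) = z * w := by
        intro w hw
        exact congrArg Subtype.val (Subgroup.mem_center_iff.1 hz ⟨w, hw⟩)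
      -- conjugate by `a'`
      have hq1 : b' * (q : G) * b'⁻¹ ∈ B0 := hBn b' hb1 _ hq'
      have ha2 : a'⁻¹ * (a : G) * a' ∈ A0 := by
        have := hAn a'⁻¹ (A.inv_mem ha1) _ ha'
        simpa using this
      have heq : a'⁻¹ * (a : G) * a' = (b' * (q : G) * b'⁻¹) * (a'⁻¹ * (z : G) * a') := by
        rw [hzG, ← hab]; group
      have hzc' : ∀ w ∈ M, w * (a'⁻¹ * (z : G) * a') = (a'⁻¹ * (z : G) * a') * w := by
        intro w hw
        have h1 := hzc (a' * w * a'⁻¹) (hnor.conj_mem w hw a')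
        calc w * (a'⁻¹ * (z : G) * a') = a'⁻¹ * ((a' * w * a'⁻¹) * (z : G)) * a' := by group
          _ = a'⁻¹ * ((z : G) * (a' * w * a'⁻¹)) * a' := by rw [h1]
          _ = (a'⁻¹ * (z : G) * a') * w := by group
      have hc1 : ∀ w ∈ M, w * (a'⁻¹ * (a : G) * a') = (a'⁻¹ * (a : G) * a') * w := by
        refine hcen _ ?_ ?_
        · intro w hw
          exact hDA.comm _ hw _ ha2
        · intro w hw
          rw [heq]
          calc w * ((b' * (q : G) * b'⁻¹) * (a'⁻¹ * (z : G) * a'))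
              = (w * (b' * (q : G) * b'⁻¹)) * (a'⁻¹ * (z : G) * a') := by group
            _ = (b' * (q : G) * b'⁻¹) * (w * (a'⁻¹ * (z : G) * a')) := by
                rw [hDB.comm _ hw _ hq1]; group
            _ = (b' * (q : G) * b'⁻¹) * (a'⁻¹ * (z : G) * a') * w := by
                rw [hzc' w (hBM hw)]; group
      have haZ : a ∈ Z := by
        rw [hZ, Subgroup.mem_center_iff]
        intro w
        apply Subtype.ext
        change (w : G) * a = a * w
        have h1 := hc1 (a'⁻¹ * (w : G) * a') (by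
          have := hnor.conj_mem (w : G) w.2 a'⁻¹
          simpa using this)
        have h2 : (a'⁻¹ * (w : G) * a') * (a'⁻¹ * (a : G) * a') = a'⁻¹ * ((w : G) * a) * a' := by group
        have h3 : (a'⁻¹ * (a : G) * a') * (a'⁻¹ * (w : G) * a') = a'⁻¹ * ((a : G) * w) * a' := by group
        rw [h2, h3] at h1
        exact mul_left_cancel (mul_right_cancel h1)
      have h1 : π a = 1 := (QuotientGroup.eq_one_iff a).2 haZ
      rw [Set.mem_singleton_iff, ← hax, h1]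
  have hdv := dvF_of_tr hN htr
  have hcomm := cores_commute hN hAM hBM hDB.tors hAd (comm_mod_center hMN hdv)
  have hDM : Dv N M := by
    rw [← hMdef]
    exact Dv.sup hN hDA hDB hcomm
  refine ⟨M, hnor, hMi, hDM.comm, ?_, hDM.wf hN⟩
  intro x hx n hn
  let K : Subgroup G :=
    { carrier := {z | z ∈ M ∧ ∃ y ∈ M, y ^ n = z}
      one_mem' := ⟨M.one_mem, 1, M.one_mem, one_pow n⟩
      mul_mem' := by
        rintro z w ⟨hz, y, hy, rfl⟩ ⟨hw, t, ht, rfl⟩
        exact ⟨M.mul_mem hz hw, y * t, M.mul_mem hy ht,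
          (show Commute y t from hDM.comm y hy t ht).mul_pow n⟩
      inv_mem' := by
        rintro z ⟨hz, y, hy, rfl⟩
        exact ⟨M.inv_mem hz, y⁻¹, M.inv_mem hy, inv_pow y n⟩ }
  have hK : M ≤ K := by
    refine hgen K ?_ ?_
    · intro a ha
      obtain ⟨y, hy, hya⟩ := hAd a ha n hn
      exact ⟨hAM ha, y, hAM hy, hya⟩
    · intro b hb
      obtain ⟨y, hy, hyb⟩ := hBd b hb n hn
      exact ⟨hBM hb, y, hBM hy, hyb⟩
  exact (hK hx).2

end Pool.Agent.Chern
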