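import Pool.Agent.Chern.Defs3
import Pool.Agent.Chern.LFC

/-!
# The reduction to finite unions of double cosets, without local finiteness (row FIN)
-/

set_option autoImplicit false

open scoped Pointwise

namespace Pool.Agent.Chern

universe u v

open LG in
/-- the reduction of the theorem to the triples `TrS` -/
theorem chernikov_of_trS
    (hT : ∀ (N : ℕ), 0 < N → ∀ (H : Type u) (_ : Group H) (P Q : Subgroup H), TrS N H P Q →
      DvF N (⊤ : Subgroup H)) {G : Type u} [Group G] (A B : Subgroup G) (hA : IsChernikov A)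
    (hB : IsChernikov B) (hAB : ∀ g : G, ∃ a ∈ A, ∃ b ∈ B, a * b = g) : IsChernikov G := by
  classical
  obtain ⟨N, hN, A0, B0, hA0, hB0, hAi, hBi, hDA, hDB, hAn, hBn, hAd, hBd⟩ := exists_dv A B hA hB
  obtain ⟨S, hS⟩ := fdc_of_reps hAi hBi hAn hAB
  have hMi := LG.index_sup_ne_zero hAi hBi hBn hAB
  have hMN : NFI (A0 ⊔ B0) := LG.NFI.sup (hDA.nfi hN) (hDB.nfi hN)
  have hAM : A0 ≤ A0 ⊔ B0 := le_sup_left
  have hBM : B0 ≤ A0 ⊔ B0 := le_sup_right
  have hgen : ∀ K : Subgroup G, A0 ≤ K → B0 ≤ K → A0 ⊔ B0 ≤ K := fun K h1 h2 => sup_le h1 h2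
  generalize hMdef : A0 ⊔ B0 = M at hMi hMN hAM hBM hgen
  have hnor : M.Normal := normal_of_nfi hMN hMi
  -- elements of `M` commuting with both cores are central
  have hcen : ∀ x : G, (∀ a ∈ A0, a * x = x * a) → (∀ b ∈ B0, b * x = x * b) → ∀ m ∈ M, m * x = x * m := by
    intro x h1 h2 m hm
    have h3 : M ≤ Subgroup.centralizer {x} := by
      refine hgen _ ?_ ?_
      · intro a ha
        exact Subgroup.mem_centralizer_singleton_iff.2 (h1 a ha)
      · intro b hb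
        exact Subgroup.mem_centralizer_singleton_iff.2 (h2 b hb)
    exact Subgroup.mem_centralizer_singleton_iff.1 (h3 hm)
  set Z := Subgroup.center ↥M with hZ
  set π := QuotientGroup.mk' Z with hπ
  have hmapA : (A0.subgroupOf M).map M.subtype = A0 := Subgroup.map_subgroupOf_eq_of_le hAM
  have hmapB : (B0.subgroupOf M).map M.subtype = B0 := Subgroup.map_subgroupOf_eq_of_le hBM
  have hDA' : Dv N (A0.subgroupOf M) :=
    (Dv.of_map_injective M.subtype M.subtype_injective (by rw [hmapA]; exact hDA)).1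
  have hDB' : Dv N (B0.subgroupOf M) :=
    (Dv.of_map_injective M.subtype M.subtype_injective (by rw [hmapB]; exact hDB)).1
  have htr : TrS N (↥M ⧸ Z) ((A0.subgroupOf M).map π) ((B0.subgroupOf M).map π) := by
    refine ⟨(hDA'.map hN π).1, (hDB'.map hN π).1, ?_, ?_⟩
    · refine ⟨(S.subtype (fun s => s ∈ M)).image (fun s => π ⟨s.1, s.2⟩), ?_⟩
      intro h
      obtain ⟨m, rfl⟩ := QuotientGroup.mk'_surjective Z h
      obtain ⟨s, hs, p, hp, q, hq, hm⟩ := hS m
      have hsM : s ∈ M := by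
        have : s = p⁻¹ * (m : G) * q⁻¹ := by rw [hm]; group
        rw [this]
        exact M.mul_mem (M.mul_mem (M.inv_mem (hAM hp)) m.2) (M.inv_mem (hBM hq))
      refine ⟨π ⟨s, hsM⟩, Finset.mem_image.2 ⟨⟨s, hsM⟩, by simpa using hs, rfl⟩,
        π ⟨p, hAM hp⟩, Subgroup.mem_map_of_mem π hp, π ⟨q, hBM hq⟩, Subgroup.mem_map_of_mem π hq, ?_⟩
      rw [← map_mul, ← map_mul]
      exact congrArg π (Subtype.ext hm)
    · intro h
      refine (Set.finite_singleton (1 : ↥M ⧸ Z)).subset ?_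
      intro x hx
      obtain ⟨hx1, hx2⟩ := Subgroup.mem_inf.1 hx
      obtain ⟨a, ha, hax⟩ := Subgroup.mem_map.1 hx1
      obtain ⟨y, hy, hyx⟩ := LG.mem_cj.1 hx2
      obtain ⟨q, hq, rfl⟩ := Subgroup.mem_map.1 hy
      obtain ⟨m, rfl⟩ := QuotientGroup.mk'_surjective Z h
      have ha' : (a : G) ∈ A0 := ha
      have hq' : (q : G) ∈ B0 := hq
      -- the equation in `M`
      have hz : (m * q * m⁻¹)⁻¹ * a ∈ Z := by
        rw [← QuotientGroup.eq_one_iff]
        have : (((m * q * m⁻¹)⁻¹ * a : ↥M) : ↥M ⧸ Z) = (π m * π q * (π m)⁻¹)⁻¹ * π a := rfl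
        rw [this, hyx, hax, inv_mul_cancel]
      obtain ⟨a', ha1, b', hb1, hab⟩ := hAB m
      set z : ↥M := (m * q * m⁻¹)⁻¹ * a with hzdef
      have hzG : (z : G) = ((m : G) * q * (m : G)⁻¹)⁻¹ * a := rfl
      have hzc : ∀ w ∈ M, w * (z : G) = z * w := by
        intro w hw
        exact congrArg Subtype.val (Subgroup.mem_center_iff.1 hz ⟨w, hw⟩)
      -- conjugate by `a'`
      have hq1 : b' * (q : G) * b'⁻¹ ∈ B0 := hBn b' hb1 _ hq'
      have ha2 : a'⁻¹ * (a : G) * a' ∈ A0 := by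
        have := hAn a'⁻¹ (A.inv_mem ha1) _ ha'
        simpa using this
      have heq : a'⁻¹ * (a : G) * a' = (b' * (q : G) * b'⁻¹) * (a'⁻¹ * (z : G) * a') := by
        rw [hzG, ← hab]; group
      have hzc' : ∀ w ∈ M, w * (a'⁻¹ * (z : G) * a') = (a'⁻¹ * (z : G) * a') * w := by
        intro w hw
        have h1 := hzc (a' * w * a'⁻¹) (hnor.conj_mem w hw a')
        calc w * (a'⁻¹ * (z : G) * a') = a'⁻¹ * ((a' * w * a'⁻¹) * (z : G)) * a' := by group
          _ = a'⁻¹ * ((z : G) * (a' * w * a'⁻¹)) * a' := by rw [h1]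
          _ = (a'⁻¹ * (z : G) * a') * w := by group
      have hc1 : ∀ w ∈ M, w * (a'⁻¹ * (a : G) * a') = (a'⁻¹ * (a : G) * a') * w := by
        refine hcen _ ?_ ?_
        · intro w hw
          exact hDA.comm _ hw _ ha2
        · intro w hw
          rw [heq]
          calc w * ((b' * (q : G) * b'⁻¹) * (a'⁻¹ * (z : G) * a'))
              = (w * (b' * (q : G) * b'⁻¹)) * (a'⁻¹ * (z : G) * a') := by group
            _ = (b' * (q : G) * b'⁻¹) * (w * (a'⁻¹ * (z : G) * a')) := by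
                rw [hDB.comm _ hw _ hq1]; group
            _ = (b' * (q : G) * b'⁻¹) * (a'⁻¹ * (z : G) * a') * w := by
                rw [hzc' w (hBM hw)]; group
      have haZ : a ∈ Z := by
        rw [hZ, Subgroup.mem_center_iff]
        intro w
        apply Subtype.ext
        change (w : G) * a = a * w
        have h1 := hc1 (a'⁻¹ * (w : G) * a') (by
          have := hnor.conj_mem (w : G) w.2 a'⁻¹
          simpa using this)
        have h2 : (a'⁻¹ * (w : G) * a') * (a'⁻¹ * (a : G) * a') = a'⁻¹ * ((w : G) * a) * a' := by group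
        have h3 : (a'⁻¹ * (a : G) * a') * (a'⁻¹ * (w : G) * a') = a'⁻¹ * ((a : G) * w) * a' := by group
        rw [h2, h3] at h1
        exact mul_left_cancel (mul_right_cancel h1)
      have h1 : π a = 1 := (QuotientGroup.eq_one_iff a).2 haZ
      rw [Set.mem_singleton_iff, ← hax, h1]
  have hdv := hT N hN (↥M ⧸ Z) _ _ _ htr
  have hcomm := cores_commute hN hAM hBM hDB.tors hAd (comm_mod_center hMN hdv)
  have hDM : Dv N M := by
    rw [← hMdef]
    exact Dv.sup hN hDA hDB hcomm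
  refine ⟨M, hnor, hMi, hDM.comm, ?_, hDM.wf hN⟩
  intro x hx n hn
  let K : Subgroup G :=
    { carrier := {z | z ∈ M ∧ ∃ y ∈ M, y ^ n = z}
      one_mem' := ⟨M.one_mem, 1, M.one_mem, one_pow n⟩
      mul_mem' := by
        rintro z w ⟨hz, y, hy, rfl⟩ ⟨hw, t, ht, rfl⟩
        exact ⟨M.mul_mem hz hw, y * t, M.mul_mem hy ht,
          (show Commute y t from hDM.comm y hy t ht).mul_pow n⟩
      inv_mem' := by
        rintro z ⟨hz, y, hy, rfl⟩
        exact ⟨M.inv_mem hz, y⁻¹, M.inv_mem hy, inv_pow y n⟩ }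
  have hK : M ≤ K := by
    refine hgen K ?_ ?_
    · intro a ha
      obtain ⟨y, hy, hya⟩ := hAd a ha n hn
      exact ⟨hAM ha, y, hAM hy, hya⟩
    · intro b hb
      obtain ⟨y, hy, hyb⟩ := hBd b hb n hn
      exact ⟨hBM hb, y, hBM hy, hyb⟩
  exact (hK hx).2

/-- the frozen statement, from the theorem -/
theorem frozen_of
    (h : ∀ (G : Type) (_ : Group G) (A B : Subgroup G), IsChernikov A → IsChernikov B →
      (∀ g : G, ∃ a ∈ A, ∃ b ∈ B, a * b = g) → IsChernikov G) :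
    ¬ (∃ (G : Type) (_ : Group G) (A B : Subgroup G),
      (∃ N : Subgroup ↥A, N.Normal ∧ N.index ≠ 0 ∧
        (∀ x ∈ N, ∀ y ∈ N, x * y = y * x) ∧
        (∀ x ∈ N, ∀ n : ℕ, 0 < n → ∃ y ∈ N, y ^ n = x) ∧
        WellFoundedLT (Subgroup ↥N)) ∧
      (∃ N : Subgroup ↥B, N.Normal ∧ N.index ≠ 0 ∧
        (∀ x ∈ N, ∀ y ∈ N, x * y = y * x) ∧
        (∀ x ∈ N, ∀ n : ℕ, 0 < n → ∃ y ∈ N, y ^ n = x) ∧
        WellFoundedLT (Subgroup ↥N)) ∧
      (∀ g : G, ∃ a ∈ A, ∃ b ∈ B, a * b = g) ∧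
      ¬ (∃ N : Subgroup G, N.Normal ∧ N.index ≠ 0 ∧
        (∀ x ∈ N, ∀ y ∈ N, x * y = y * x) ∧
        (∀ x ∈ N, ∀ n : ℕ, 0 < n → ∃ y ∈ N, y ^ n = x) ∧
        WellFoundedLT (Subgroup ↥N))) := by
  rintro ⟨G, hG, A, B, hA, hB, hAB, hn⟩
  exact hn (h G hG A B hA hB hAB)

end Pool.Agent.Chern
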