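import Pool.Agent.Chern.Main
import Pool.Agent.Chern.LFC

/-!
# Products of two Chernikov groups: the final form
-/

set_option autoImplicit false

namespace Pool.Agent.Chern

universe u

/-- **main theorem**: a product of two Chernikov groups is a Chernikov group if its finitely generated subgroups without proper
subgroups of finite index are amenable -/
theorem chernikov_of_fg {G : Type u} [Group G] (hG : ∀ N : Subgroup G, N.FG → NFI N → Amen N) (A B : Subgroup G)
    (hA : IsChernikov A) (hB : IsChernikov B) (hAB : ∀ g : G, ∃ a ∈ A, ∃ b ∈ B, a * b = g) : IsChernikov G :=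
  chernikov_of_lf (lf_of_fg hG A B hA hB hAB) A B hA hB hAB

end Pool.Agent.Chern
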