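import Pool.Agent.Chern.MinBad
import Pool.Agent.Chern.Defs3

/-!
# The minimal bad triple (general case)

* `exists_critS` : if there is a triple `TrS N H P Q` such that `H` does not have a subgroup of finite index of the kind `Dv`,
  then there is a critical one with trivial centre and with minimal sum of the ranks.
-/

set_option autoImplicit false

open scoped Pointwise

namespace Pool.Agent.Chern

universe u v

namespace MB2

open MB

section tr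
variable {G : Type u} [Group G] {N : ℕ} {P Q : Subgroup G}

theorem tr_symm (h : TrS N G P Q) : TrS N G Q P where
  dP := h.dQ
  dQ := h.dP
  fdc := by
    obtain ⟨S, hS⟩ := h.fdc
    obtain ⟨S', -, hS'⟩ := Cov.symm (S := S) hS
    exact ⟨S', hS'⟩
  fint := fint_symm h.fint

/-- restriction of a triple to a subgroup -/
theorem tr_restrict {K : Subgroup G} (hP : Dv N P) (hQ : Dv N Q) (hPK : P ≤ K) (hQK : Q ≤ K)
    (hf : ∀ x : G, ((P ⊓ cj x Q : Subgroup G) : Set G).Finite) {S : Finset K}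
    (hS : Cov (P.subgroupOf K) (Q.subgroupOf K) S) : TrS N K (P.subgroupOf K) (Q.subgroupOf K) where
  dP := (dv_subgroupOf hPK hP).1
  dQ := (dv_subgroupOf hQK hQ).1
  fdc := ⟨S, hS⟩
  fint x := by
    refine Set.Finite.of_finite_image ((hf (x : G)).subset ?_) Subtype.val_injective.injOn
    rintro - ⟨y, ⟨hy1, hy2⟩, rfl⟩
    refine ⟨hy1, ?_⟩
    show (y : G) ∈ cj (x : G) Q
    have h3 : x⁻¹ * y * x ∈ Q.subgroupOf K := mem_cj.1 hy2
    rw [mem_cj]
    exact h3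

end tr

/-- a bad triple which is minimal with respect to the sum of the ranks and the number of double cosets -/
structure MinBadS (N : ℕ) (H : Type u) [Group H] (P Q : Subgroup H) (b : ℕ) : Prop where
  tr : TrS N H P Q
  bad : ¬ DvF N (⊤ : Subgroup H)
  cov : ∃ S : Finset H, S.card ≤ b ∧ Cov P Q S
  min1 : ∀ (H' : Type u) [Group H'] (P' Q' : Subgroup H'), TrS N H' P' Q' → rk N P' + rk N Q' < rk N P + rk N Q →
    DvF N (⊤ : Subgroup H')
  min2 : ∀ (H' : Type u) [Group H'] (P' Q' : Subgroup H') (S' : Finset H'), TrS N H' P' Q' →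
    rk N P' + rk N Q' = rk N P + rk N Q → Cov P' Q' S' → S'.card < b → DvF N (⊤ : Subgroup H')

theorem MinBadS.symm {N : ℕ} {H : Type u} [Group H] {P Q : Subgroup H} {b : ℕ} (h : MinBadS N H P Q b) :
    MinBadS N H Q P b where
  tr := tr_symm h.tr
  bad := h.bad
  cov := by
    obtain ⟨S, h1, h2⟩ := h.cov
    obtain ⟨S', h3, h4⟩ := h2.symm
    exact ⟨S', h3.trans h1, h4⟩
  min1 H' _ P' Q' h1 h2 := h.min1 H' P' Q' h1 (by rwa [add_comm (rk N Q)] at h2)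
  min2 H' _ P' Q' S' h1 h2 h3 h4 := h.min2 H' P' Q' S' h1 (by rwa [add_comm (rk N Q)] at h2) h3 h4

theorem exists_minBadS {N : ℕ} {H : Type u} [Group H] {P Q : Subgroup H} (h : TrS N H P Q)
    (hbad : ¬ DvF N (⊤ : Subgroup H)) :
    ∃ (H' : Type u) (_ : Group H') (P' Q' : Subgroup H') (b : ℕ), MinBadS N H' P' Q' b := by
  classical
  let p1 : ℕ → Prop := fun a => ∃ (H' : Type u) (_ : Group H') (P' Q' : Subgroup H'), TrS N H' P' Q' ∧
    ¬ DvF N (⊤ : Subgroup H') ∧ rk N P' + rk N Q' = a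
  have e1 : ∃ a, p1 a := ⟨_, H, inferInstance, P, Q, h, hbad, rfl⟩
  obtain ⟨H1, i1, P1, Q1, ht1, hb1, hr1⟩ := Nat.find_spec e1
  let p2 : ℕ → Prop := fun b => ∃ (H' : Type u) (_ : Group H') (P' Q' : Subgroup H') (S : Finset H'), TrS N H' P' Q' ∧
    ¬ DvF N (⊤ : Subgroup H') ∧ rk N P' + rk N Q' = Nat.find e1 ∧ S.card = b ∧ Cov P' Q' S
  have e2 : ∃ b, p2 b := by
    obtain ⟨S, hS⟩ := ht1.fdc
    exact ⟨S.card, H1, i1, P1, Q1, S, ht1, hb1, hr1, rfl, hS⟩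
  obtain ⟨H2, i2, P2, Q2, S2, ht2, hb2, hr2, hc2, hS2⟩ := Nat.find_spec e2
  refine ⟨H2, i2, P2, Q2, Nat.find e2, ht2, hb2, ⟨S2, hc2.le, hS2⟩, ?_, ?_⟩
  · intro H' _ P' Q' h1 h2
    by_contra h3
    rw [hr2] at h2
    exact Nat.find_min e1 h2 ⟨H', inferInstance, P', Q', h1, h3, rfl⟩
  · intro H' _ P' Q' S' h1 h2 h3 h4
    by_contra h5
    exact Nat.find_min e2 h4 ⟨H', inferInstance, P', Q', S', h1, h5, h2.trans hr2, rfl, h3⟩

section mb
variable {N : ℕ} {H : Type u} [Group H] {P Q : Subgroup H} {b : ℕ}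

/-- (1) -/
theorem MinBadS.both (hN : 0 < N) (h : MinBadS N H P Q b) {K : Subgroup H} (hP : P ≤ K) (hQ : Q ≤ K) (hK : K ≠ ⊤) :
    DvF N K := by
  classical
  obtain ⟨S, hSb, hS⟩ := h.cov
  let S' : Finset K := (S.subtype (· ∈ K))
  have hS' : Cov (P.subgroupOf K) (Q.subgroupOf K) S' := by
    intro k
    obtain ⟨g, hg, p, hp, q, hq, hk⟩ := hS (k : H)
    have hgK : g ∈ K := by
      have e : g = p⁻¹ * (k : H) * q⁻¹ := by rw [hk]; group
      rw [e]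
      exact K.mul_mem (K.mul_mem (K.inv_mem (hP hp)) k.2) (K.inv_mem (hQ hq))
    refine ⟨⟨g, hgK⟩, Finset.mem_subtype.2 hg, ⟨p, hP hp⟩, hp, ⟨q, hQ hq⟩, hq, Subtype.ext hk⟩
  have hlt : S'.card < b := by
    refine lt_of_lt_of_le ?_ hSb
    have h1 : S'.card = (S.filter (· ∈ K)).card := Finset.card_subtype _ _
    rw [h1]
    refine Finset.card_lt_card (Finset.filter_ssubset.2 ?_)
    by_contra hcon
    push Not at hcon
    apply hK
    rw [Subgroup.eq_top_iff']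
    intro x
    obtain ⟨g, hg, p, hp, q, hq, rfl⟩ := hS x
    exact K.mul_mem (K.mul_mem (hP hp) (hcon g hg)) (hQ hq)
  refine dvF_of_top hN (h.min2 K _ _ S' (tr_restrict h.tr.dP h.tr.dQ hP hQ h.tr.fint hS') ?_ hS' hlt)
  rw [(dv_subgroupOf hP h.tr.dP).2, (dv_subgroupOf hQ h.tr.dQ).2]

theorem MinBadS.nfi (hN : 0 < N) (h : MinBadS N H P Q b) {D : Subgroup H} (hD : D.index ≠ 0) : D = ⊤ := by
  by_contra hne
  have h1 : P ≤ D := dv_le_of_index hN h.tr.dP (relIndex_top hD P)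
  have h2 : Q ≤ D := dv_le_of_index hN h.tr.dQ (relIndex_top hD Q)
  obtain ⟨E, hE1, hE2, hE3⟩ := h.both hN h1 h2 hne
  refine h.bad ⟨E, le_top, ?_, hE3⟩
  rw [Subgroup.relIndex_top_right, ← Subgroup.relIndex_mul_index hE1]
  exact mul_ne_zero hE2 hD

/-- (2) -/
theorem MinBadS.prP (hN : 0 < N) (h : MinBadS N H P Q b) {K : Subgroup H} (hK : K ≠ ⊤) (hP : P ≤ K) : DvF N K := by
  classical
  by_cases hQ : Q ≤ K
  · exact h.both hN hP hQ hK
  obtain ⟨Q1, hQ1, hQ2, hQ3⟩ := h.tr.dQ.sub hN (inf_le_left : Q ⊓ K ≤ Q)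
  have hQ1Q : Q1 ≤ Q := hQ1.trans inf_le_left
  have hQ1K : Q1 ≤ K := hQ1.trans inf_le_right
  have hlt : rk N Q1 < rk N Q := h.tr.dQ.rk_lt hN hQ2 hQ1Q fun he => hQ (he ▸ hQ1K)
  obtain ⟨T, hT1, hT2⟩ := RA.exists_reps hQ3
  obtain ⟨S, hS⟩ := h.tr.fdc
  -- representatives in `K`
  let c : H → H := fun s => if hs : ∃ k ∈ K, ∃ p ∈ P, ∃ q ∈ Q, k = p * s * q then hs.choose else 1
  have hc : ∀ s, (∃ k ∈ K, ∃ p ∈ P, ∃ q ∈ Q, k = p * s * q) → c s ∈ K ∧ ∃ p ∈ P, ∃ q ∈ Q, c s = p * s * q := by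
    intro s hs
    show (if hs : ∃ k ∈ K, ∃ p ∈ P, ∃ q ∈ Q, k = p * s * q then hs.choose else 1) ∈ K ∧ ∃ p ∈ P, ∃ q ∈ Q,
      (if hs : ∃ k ∈ K, ∃ p ∈ P, ∃ q ∈ Q, k = p * s * q then hs.choose else 1) = p * s * q
    rw [dif_pos hs]
    exact hs.choose_spec
  let S0 : Finset H := (S ×ˢ T).image fun x => c x.1 * x.2
  let S' : Finset K := S0.subtype (· ∈ K)
  have hS' : Cov (P.subgroupOf K) (Q1.subgroupOf K) S' := by
    intro k
    obtain ⟨s, hs, p, hp, q, hq, hk⟩ := hS (k : H)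
    obtain ⟨hcK, p', hp', q', hq', hc'⟩ := hc s ⟨(k : H), k.2, p, hp, q, hq, hk⟩
    have e1 : (k : H) = p * p'⁻¹ * c s * (q'⁻¹ * q) := by
      rw [hk, hc']
      group
    have e2 : q'⁻¹ * q ∈ K := by
      have e3 : q'⁻¹ * q = (p * p'⁻¹ * c s)⁻¹ * (k : H) := by
        rw [e1]
        group
      rw [e3]
      exact K.mul_mem (K.inv_mem (K.mul_mem (K.mul_mem (hP hp) (K.inv_mem (hP hp'))) hcK)) k.2
    obtain ⟨t, ht, x, hx, he⟩ := hT2 (q'⁻¹ * q) ⟨Q.mul_mem (Q.inv_mem hq') hq, e2⟩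
    have htK : t ∈ K := (hT1 t ht).2
    refine ⟨⟨c s * t, K.mul_mem hcK htK⟩, Finset.mem_subtype.2 (Finset.mem_image.2 ⟨(s, t), Finset.mem_product.2 ⟨hs, ht⟩,
      rfl⟩), ⟨p * p'⁻¹, K.mul_mem (hP hp) (K.inv_mem (hP hp'))⟩, P.mul_mem hp (P.inv_mem hp'), ⟨x, hQ1K hx⟩, hx,
      Subtype.ext ?_⟩
    show (k : H) = p * p'⁻¹ * (c s * t) * x
    rw [e1, he]
    group
  refine dvF_of_top hN (h.min1 K _ _ (tr_restrict h.tr.dP hQ2 hP hQ1K (fun x => ?_) hS') ?_)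
  · refine (h.tr.fint x).subset ?_
    rintro y ⟨hy1, hy2⟩
    refine ⟨hy1, ?_⟩
    show y ∈ cj x Q
    rw [mem_cj]
    exact hQ1Q (mem_cj.1 hy2)
  · rw [(dv_subgroupOf hP h.tr.dP).2, (dv_subgroupOf hQ1K hQ2).2]
    omega


/-! ### exponents -/

/-- an extension of a torsion group of the kind `Dv` by a group with a subgroup of finite index of the kind `Dv` is torsion -/
theorem exp_of_quot {H' : Type v} [Group H'] (hN : 0 < N) (φ : H →* H') (hk : ∀ x ∈ φ.ker, ∃ m : ℕ, 0 < m ∧ x ^ m = 1)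
    (h : DvF N (⊤ : Subgroup H')) (x : H) : ∃ m : ℕ, 0 < m ∧ x ^ m = 1 := by
  obtain ⟨D, -, h1, h2⟩ := h
  rw [Subgroup.relIndex_top_right] at h1
  have h3 : D.FiniteIndex := ⟨h1⟩
  obtain ⟨k, hk0, hk1⟩ : ∃ k : ℕ, 0 < k ∧ (φ x) ^ k ∈ D := by
    obtain ⟨k, hk0, -, hk1⟩ := Subgroup.exists_pow_mem_of_index_ne_zero h1 (φ x)
    exact ⟨k, hk0, hk1⟩
  obtain ⟨j, hj⟩ := h2.tors _ hk1
  have h4 : x ^ (k * N ^ j) ∈ φ.ker := by
    rw [MonoidHom.mem_ker, map_pow, pow_mul]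
    exact hj
  obtain ⟨m, hm0, hm1⟩ := hk _ h4
  refine ⟨k * N ^ j * m, Nat.mul_pos (Nat.mul_pos hk0 (pow_pos hN j)) hm0, ?_⟩
  rw [pow_mul]
  exact hm1

theorem exp_of_dv (hN : 0 < N) {W : Subgroup H} (hW : Dv N W) (x : H) (hx : x ∈ W) : ∃ m : ℕ, 0 < m ∧ x ^ m = 1 := by
  obtain ⟨k, hk⟩ := hW.tors x hx
  exact ⟨N ^ k, pow_pos hN k, hk⟩

theorem exp_of_finite {Z : Subgroup H} (hZ : (Z : Set H).Finite) (x : H) (hx : x ∈ Z) : ∃ m : ℕ, 0 < m ∧ x ^ m = 1 := by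
  have h1 : Finite Z := hZ
  have h2 : IsOfFinOrder (⟨x, hx⟩ : Z) := isOfFinOrder_of_finite _
  obtain ⟨m, hm0, hm1⟩ := isOfFinOrder_iff_pow_eq_one.1 h2
  exact ⟨m, hm0, congrArg Subtype.val hm1⟩

section quot
variable {H' : Type v} [Group H']

theorem tr_map (hN : 0 < N) (h : TrS N H P Q) (φ : H →* H') (hφ : Function.Surjective φ)
    (hf : ∀ x : H, {y : H' | (∃ p ∈ P, φ p = y) ∧ ∃ q ∈ Q, φ (x * q * x⁻¹) = y}.Finite) :
    TrS N H' (P.map φ) (Q.map φ) where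
  dP := (h.dP.map hN φ).1
  dQ := (h.dQ.map hN φ).1
  fdc := by
    obtain ⟨S, hS⟩ := h.fdc
    exact cov_map (S := S) hS φ hφ
  fint y := by
    obtain ⟨x, rfl⟩ := hφ y
    refine (hf x).subset ?_
    rintro z ⟨⟨p, hp, hz⟩, hz2⟩
    refine ⟨⟨p, hp, hz⟩, ?_⟩
    obtain ⟨q, hq, hq2⟩ := mem_cj.1 hz2
    refine ⟨q, hq, ?_⟩
    rw [map_mul, map_mul, map_inv, hq2]
    group

end quot

/-! ### the centre -/

/-- (4) -/
theorem exists_noncomm (hN : 0 < N) (hnfi : ∀ D : Subgroup H, D.index ≠ 0 → D = ⊤) (h : TrS N H P Q)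
    (hbad : ¬ DvF N (⊤ : Subgroup H)) : ∃ g : H, ¬ ∀ p ∈ P, ∀ q ∈ Q, p * (g * q * g⁻¹) = g * q * g⁻¹ * p := by
  classical
  by_contra hcon
  push Not at hcon
  obtain ⟨S, hS⟩ := h.fdc
  have hcov : ⋃ g ∈ S, (fun x : H => x) g • ((cj g⁻¹ P ⊔ Q : Subgroup H) : Set H) = Set.univ := by
    rw [Set.eq_univ_iff_forall]
    intro x
    obtain ⟨g, hg, p, hp, q, hq, rfl⟩ := hS x
    refine Set.mem_iUnion₂.2 ⟨g, hg, ?_⟩
    rw [Set.mem_smul_set_iff_inv_smul_mem]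
    have e : g⁻¹ • (p * g * q) = (g⁻¹ * p * g⁻¹⁻¹) * q := by
      rw [smul_eq_mul]
      group
    rw [e]
    exact Subgroup.mul_mem _ (Subgroup.mem_sup_left (conj_mem_cj hp)) (Subgroup.mem_sup_right hq)
  obtain ⟨g, hg, hfi⟩ := Subgroup.exists_finiteIndex_of_leftCoset_cover hcov
  have h1 := hnfi _ hfi.index_ne_zero
  have h2 : Dv N (cj g⁻¹ P ⊔ Q : Subgroup H) := Dv.sup hN (dv_cj hN h.dP _) h.dQ (by
    intro y hy q hq
    have h3 := mem_cj.1 hy
    rw [inv_inv] at h3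
    have h4 := hcon g _ h3 q hq
    have e1 : y * q = g⁻¹ * (g * y * g⁻¹ * (g * q * g⁻¹)) * g := by group
    have e2 : q * y = g⁻¹ * (g * q * g⁻¹ * (g * y * g⁻¹)) * g := by group
    rw [e1, e2, h4])
  rw [h1] at h2
  exact hbad ⟨⊤, le_rfl, by rw [Subgroup.relIndex_top_right, Subgroup.index_top]; exact one_ne_zero, h2⟩

/-- (3) -/
theorem MinBadS.cenP (hN : 0 < N) (h : MinBadS N H P Q b) : {x : H | x ∈ P ∧ ∀ y : H, x * y = y * x}.Finite := by
  have hnfi : ∀ D : Subgroup H, D.index ≠ 0 → D = ⊤ := fun D hD => h.nfi hN hD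
  obtain ⟨W, hW1, hW2, hW3⟩ := h.tr.dP.sub hN (inf_le_left : P ⊓ Subgroup.center H ≤ P)
  have hWc : ∀ w ∈ W, ∀ y : H, w * y = y * w := fun w hw y => (Subgroup.mem_center_iff.1 (hW1 hw).2 y).symm
  by_cases hWb : W = ⊥
  · rw [hWb, Subgroup.relIndex_bot_left] at hW3
    have h1 : Finite (P ⊓ Subgroup.center H : Subgroup H) := Nat.finite_of_card_ne_zero hW3
    refine Set.Finite.subset (Set.toFinite ((P ⊓ Subgroup.center H : Subgroup H) : Set H)) ?_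
    rintro x ⟨hx, hx2⟩
    exact ⟨hx, Subgroup.mem_center_iff.2 fun y => (hx2 y).symm⟩
  exfalso
  have hn : W.Normal := ⟨fun w hw g => by
    rw [← hWc w hw g, mul_inv_cancel_right]
    exact hw⟩
  have hWP : W ≤ P := hW1.trans inf_le_left
  let φ : H →* H ⧸ W := QuotientGroup.mk' W
  have hφ : Function.Surjective φ := QuotientGroup.mk'_surjective W
  have hker : φ.ker = W := QuotientGroup.ker_mk' W
  have ht : TrS N (H ⧸ W) (P.map φ) (Q.map φ) := by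
    refine tr_map hN h.tr φ hφ fun x => ?_
    refine ((h.tr.fint x).image φ).subset ?_
    rintro y ⟨⟨p, hp, hy⟩, q, hq, hy2⟩
    have h1 : p⁻¹ * (x * q * x⁻¹) ∈ φ.ker := by
      rw [MonoidHom.mem_ker, map_mul, map_inv, hy, hy2, inv_mul_cancel]
    rw [hker] at h1
    refine ⟨x * q * x⁻¹, ⟨?_, conj_mem_cj hq⟩, hy2⟩
    have e : x * q * x⁻¹ = p * (p⁻¹ * (x * q * x⁻¹)) := by group
    rw [e]
    exact P.mul_mem hp (hWP h1)
  have hlt : rk N (P.map φ) < rk N P := h.tr.dP.map_lt hN hW2 hWP hWb φ hker.ge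
  have hle : rk N (Q.map φ) ≤ rk N Q := (h.tr.dQ.map hN φ).2
  have hd := h.min1 _ _ _ ht (by omega)
  have hab : ∀ x y : H, x * y = y * x := abelian_of hnfi (exp_of_quot hN φ (by rw [hker]; exact exp_of_dv hN hW2) hd) (W := (W : Set H)) hWc
    (fun m hm => dv_exp_finite hN hW2 m hm) fun x y => by
      have h1 := comm_of_dvF hnfi φ hφ hd x y
      have h2 : x * y * x⁻¹ * y⁻¹ ∈ φ.ker := h1
      rw [hker] at h2
      exact h2
  obtain ⟨g, hg⟩ := exists_noncomm hN hnfi h.tr h.bad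
  exact hg fun p _ q _ => hab _ _

/-- (5) -/
theorem MinBadS.center_finite (hN : 0 < N) (h : MinBadS N H P Q b) : ((Subgroup.center H : Subgroup H) : Set H).Finite := by
  classical
  have hnfi : ∀ D : Subgroup H, D.index ≠ 0 → D = ⊤ := fun D hD => h.nfi hN hD
  have hA := h.cenP hN
  have hB := h.symm.cenP hN
  obtain ⟨g, hg⟩ := exists_noncomm hN hnfi h.tr h.bad
  obtain ⟨S, hS⟩ := h.tr.fdc
  have hZ : ((Subgroup.center H : Subgroup H) : Set H) ⊆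
      ⋃ s ∈ (S : Set H), {z | (∀ y : H, z * y = y * z) ∧ ∃ p ∈ P, ∃ q ∈ Q, z * g = p * s * q} := by
    intro z hz
    obtain ⟨s, hs, p, hp, q, hq, he⟩ := hS (z * g)
    exact Set.mem_iUnion₂.2 ⟨s, hs, fun y => (Subgroup.mem_center_iff.1 hz y).symm, p, hp, q, hq, he⟩
  refine Set.Finite.subset (Set.Finite.biUnion S.finite_toSet fun s _ => ?_) hZ
  rcases Set.eq_empty_or_nonempty {z | (∀ y : H, z * y = y * z) ∧ ∃ p ∈ P, ∃ q ∈ Q, z * g = p * s * q} with h0 | h0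
  · rw [h0]
    exact Set.finite_empty
  obtain ⟨z, hz, p, hp, q, hq, he⟩ := h0
  refine Set.Finite.subset (Set.Finite.image2 (fun a b => a * b * z) hA hB) ?_
  rintro z' ⟨hz', p', hp', q', hq', he'⟩
  -- the two elements
  have e1 : z' * z⁻¹ = p⁻¹ * p' * (s * (q' * q⁻¹) * s⁻¹) := by
    have e2 : z' * z⁻¹ = p⁻¹ * (z' * z⁻¹) * p := by
      have e3 : z' * z⁻¹ * p = p * (z' * z⁻¹) := by
        rw [mul_assoc, ← inv_inv p, ← mul_inv_rev, ← hz p⁻¹, mul_inv_rev, inv_inv, ← mul_assoc, hz' p, mul_assoc]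
      rw [mul_assoc, e3]
      group
    have e4 : z' * z⁻¹ = z' * g * (z * g)⁻¹ := by group
    rw [e2, e4, he, he']
    group
  have hd : ∀ y : H, z' * z⁻¹ * y = y * (z' * z⁻¹) := by
    intro y
    have h1 : z⁻¹ * y = y * z⁻¹ := by
      rw [inv_mul_eq_iff_eq_mul, ← mul_assoc, hz y, mul_inv_cancel_right]
    rw [mul_assoc, h1, ← mul_assoc, hz' y, mul_assoc]
  have hp1 : p⁻¹ * p' ∈ P := P.mul_mem (P.inv_mem hp) hp'
  have hq1 : q' * q⁻¹ ∈ Q := Q.mul_mem hq' (Q.inv_mem hq)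
  have hcen : ∀ y : H, p⁻¹ * p' * y = y * (p⁻¹ * p') := by
    by_contra hcon
    have hC : Subgroup.centralizer {p⁻¹ * p'} ≠ ⊤ := by
      intro hC
      apply hcon
      intro y
      have h1 : y ∈ Subgroup.centralizer {p⁻¹ * p'} := by
        rw [hC]
        exact Subgroup.mem_top y
      exact Subgroup.mem_centralizer_iff.1 h1 _ rfl
    have hPC : P ≤ Subgroup.centralizer {p⁻¹ * p'} := by
      intro y hy
      rw [Subgroup.mem_centralizer_iff]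
      rintro - rfl
      exact h.tr.dP.comm _ hp1 _ hy
    have hQC : cj s Q ≤ Subgroup.centralizer {p⁻¹ * p'} := by
      intro y hy
      rw [Subgroup.mem_centralizer_iff]
      rintro - rfl
      have h1 : p⁻¹ * p' = z' * z⁻¹ * (s * (q' * q⁻¹) * s⁻¹)⁻¹ := by
        rw [e1]
        group
      have h2 : y = s * (s⁻¹ * y * s) * s⁻¹ := by group
      have h3 : s⁻¹ * y * s ∈ Q := mem_cj.1 hy
      have h4 : (s * (q' * q⁻¹) * s⁻¹)⁻¹ * y = y * (s * (q' * q⁻¹) * s⁻¹)⁻¹ := by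
        have h5 := h.tr.dQ.comm _ (Q.inv_mem hq1) _ h3
        calc (s * (q' * q⁻¹) * s⁻¹)⁻¹ * y = s * ((q' * q⁻¹)⁻¹ * (s⁻¹ * y * s)) * s⁻¹ := by group
          _ = s * ((s⁻¹ * y * s) * (q' * q⁻¹)⁻¹) * s⁻¹ := by rw [h5]
          _ = y * (s * (q' * q⁻¹) * s⁻¹)⁻¹ := by group
      rw [h1, mul_assoc, h4, ← mul_assoc, hd y, mul_assoc]
    obtain ⟨D, hD1, hD2, hD3⟩ := h.prP hN hC hPC
    have hPD : P ≤ D := dv_le_of_index hN h.tr.dP fun h0 => hD2 (Subgroup.relIndex_eq_zero_of_le_right hPC h0)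
    have hQD : cj s Q ≤ D := dv_le_of_index hN (dv_cj hN h.tr.dQ s) fun h0 =>
      hD2 (Subgroup.relIndex_eq_zero_of_le_right hQC h0)
    apply hg
    intro a ha c hc
    have hgs : g = z⁻¹ * (p * s * q) := by
      rw [← he]
      group
    have h1 : q * c * q⁻¹ ∈ Q := Q.mul_mem (Q.mul_mem hq hc) (Q.inv_mem hq)
    have h2 : s * (q * c * q⁻¹) * s⁻¹ ∈ D := hQD (conj_mem_cj h1)
    have h3 : g * c * g⁻¹ = s * (q * c * q⁻¹) * s⁻¹ := by
      have h4 : g * c * g⁻¹ = z⁻¹ * (p * (s * (q * c * q⁻¹) * s⁻¹) * p⁻¹) * z := by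
        rw [hgs]
        group
      have h5 : p * (s * (q * c * q⁻¹) * s⁻¹) * p⁻¹ = s * (q * c * q⁻¹) * s⁻¹ := by
        rw [hD3.comm _ (hPD hp) _ h2, mul_inv_cancel_right]
      rw [h4, h5, mul_assoc, ← hz, inv_mul_cancel_left]
    rw [h3]
    exact hD3.comm _ (hPD ha) _ h2
  have hcen2 : ∀ y : H, s * (q' * q⁻¹) * s⁻¹ * y = y * (s * (q' * q⁻¹) * s⁻¹) := by
    intro y
    have h1 : s * (q' * q⁻¹) * s⁻¹ = (p⁻¹ * p')⁻¹ * (z' * z⁻¹) := by
      rw [e1]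
      group
    have h2 : (p⁻¹ * p')⁻¹ * y = y * (p⁻¹ * p')⁻¹ := by
      rw [inv_mul_eq_iff_eq_mul, ← mul_assoc, hcen y, mul_inv_cancel_right]
    rw [h1, mul_assoc, hd y, ← mul_assoc, h2, mul_assoc]
  have hsq : s * (q' * q⁻¹) * s⁻¹ = q' * q⁻¹ := by
    have h1 := hcen2 s
    have h2 : s * (q' * q⁻¹) = s * (s * (q' * q⁻¹) * s⁻¹) := by
      rw [← h1]
      group
    exact (mul_left_cancel h2).symm
  rw [hsq] at hcen2
  refine ⟨p⁻¹ * p', ⟨hp1, hcen⟩, q' * q⁻¹, ⟨hq1, hcen2⟩, ?_⟩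
  show p⁻¹ * p' * (q' * q⁻¹) * z = z'
  rw [hsq] at e1
  rw [← e1]
  group

end mb

end MB2

/-- **the critical triple** -/
theorem exists_critS {N : ℕ} (hN : 0 < N) {H : Type u} [Group H] {P Q : Subgroup H} (h : TrS N H P Q)
    (hbad : ¬ DvF N (⊤ : Subgroup H)) : ∃ (H' : Type u) (_ : Group H') (P' Q' : Subgroup H'), CritS N H' P' Q' := by
  obtain ⟨H1, i1, P1, Q1, b, hm⟩ := MB2.exists_minBadS h hbad
  have hnfi : ∀ D : Subgroup H1, D.index ≠ 0 → D = ⊤ := fun D hD => hm.nfi hN hD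
  have hZ := hm.center_finite hN
  let φ : H1 →* H1 ⧸ Subgroup.center H1 := QuotientGroup.mk' (Subgroup.center H1)
  have hφ : Function.Surjective φ := QuotientGroup.mk'_surjective _
  have hker : φ.ker = Subgroup.center H1 := QuotientGroup.ker_mk' _
  have hpr : ∀ {P2 Q2 : Subgroup H1}, MB2.MinBadS N H1 P2 Q2 b → ∀ K : Subgroup (H1 ⧸ Subgroup.center H1), K ≠ ⊤ →
      P2.map φ ≤ K → DvF N K := by
    intro P2 Q2 hm2 K hK hPK
    refine MB.dvF_map hN φ hφ (hm2.prP hN (fun h0 => hK ?_) (Subgroup.map_le_iff_le_comap.1 hPK))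
    rw [← Subgroup.map_comap_eq_self_of_surjective hφ K, h0, ← MonoidHom.range_eq_map, MonoidHom.range_eq_top.2 hφ]
  refine ⟨H1 ⧸ Subgroup.center H1, inferInstance, P1.map φ, Q1.map φ, ?_⟩
  have ht : TrS N (H1 ⧸ Subgroup.center H1) (P1.map φ) (Q1.map φ) := by
    refine MB2.tr_map hN hm.tr φ hφ fun x => ?_
    refine (Set.Finite.biUnion hZ fun z _ => (MB.shift_finite hm.tr.fint x z).image φ).subset ?_
    rintro y ⟨⟨p, hp, hy⟩, q, hq, hy2⟩
    have h1 : p⁻¹ * (x * q * x⁻¹) ∈ φ.ker := by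
      rw [MonoidHom.mem_ker, map_mul, map_inv, hy, hy2, inv_mul_cancel]
    rw [hker] at h1
    refine Set.mem_iUnion₂.2 ⟨_, h1, p, ⟨hp, ?_⟩, hy⟩
    have e : p * (p⁻¹ * (x * q * x⁻¹)) = x * q * x⁻¹ := by group
    rw [e]
    exact MB.conj_mem_cj hq
  exact
    { ht with
      bad := by
        intro hd
        have hab : ∀ x y : H1, x * y = y * x := MB.abelian_of hnfi (MB2.exp_of_quot hN φ (by rw [hker]; exact MB2.exp_of_finite hZ) hd)
          (W := ((Subgroup.center H1 : Subgroup H1) : Set H1))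
          (fun w hw y => (Subgroup.mem_center_iff.1 hw y).symm)
          (fun m _ => hZ.subset fun w hw => hw.1) fun x y => by
            have h1 := MB.comm_of_dvF hnfi φ hφ hd x y
            have h2 : x * y * x⁻¹ * y⁻¹ ∈ φ.ker := h1
            rw [hker] at h2
            exact h2
        obtain ⟨g, hg⟩ := MB2.exists_noncomm hN hnfi hm.tr hm.bad
        exact hg fun p _ q _ => hab _ _
      nfi := by
        intro D hD
        have h1 : D.comap φ = ⊤ := hnfi _ (by rwa [Subgroup.index_comap_of_surjective _ hφ])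
        rw [← Subgroup.map_comap_eq_self_of_surjective hφ D, h1, ← MonoidHom.range_eq_map,
          MonoidHom.range_eq_top.2 hφ]
      prP := fun K hK hPK => hpr hm K hK hPK
      prQ := fun K hK hQK => hpr hm.symm K hK hQK
      cen := by
        intro y hy
        obtain ⟨z, rfl⟩ := hφ y
        have h1 : ∀ x : H1, z * x * z⁻¹ * x⁻¹ ∈ Subgroup.center H1 := by
          intro x
          rw [← hker, MonoidHom.mem_ker, map_mul, map_mul, map_mul, map_inv, map_inv, hy (φ x)]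
          group
        have h2 : ∀ x y : H1, z * x * z⁻¹ * x⁻¹ * y = y * (z * x * z⁻¹ * x⁻¹) := fun x y =>
          (Subgroup.mem_center_iff.1 (h1 x) y).symm
        have h3 : ∀ x : H1, z * x * z⁻¹ * x⁻¹ = 1 := fun x => MB.hom_trivial hnfi (MB.com2 z h2) hZ h1 x
        have h4 : z ∈ φ.ker := by
          rw [hker, Subgroup.mem_center_iff]
          intro x
          have h5 := h3 x
          rw [mul_inv_eq_one, mul_inv_eq_iff_eq_mul] at h5
          exact h5.symm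
        exact h4
      min := by
        intro H' _ P' Q' h1 h2
        have h3 := (hm.tr.dP.map hN φ).2
        have h4 := (hm.tr.dQ.map hN φ).2
        exact hm.min1 H' P' Q' h1 (by omega) }

end Pool.Agent.Chern
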