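import Pool.Agent.Chern.Defs

/-!
# Row RB: the commutator subgroup of the normal subgroup generated by finitely many elements
of finite order of two subgroups without proper subgroups of finite index
-/

set_option autoImplicit false

namespace Pool.Agent.Chern

universe u

/-- If `A` has no proper subgroups of finite index and normalises the finitely generated normal
subgroup `E`, it acts trivially on every finite quotient of `E`. -/
theorem conj_trivial {M : Type u} [Group M] (A E : Subgroup M) (hA : NFI A) [hE : E.Normal]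
    (hfg : E.FG) {Q : Type u} [Group Q] [Finite Q] (π : E →* Q) (a : M) (ha : a ∈ A) (e : E) :
    π (MulAut.conjNormal a e) = π e := by
  classical
  let S : Subgroup M :=
    { carrier := {s | ∀ e : E, π (MulAut.conjNormal s e) = π e}
      one_mem' := fun e => by simp
      mul_mem' := by
        intro s t hs ht e
        rw [map_mul, MulAut.mul_apply, hs, ht]
      inv_mem' := by
        intro s hs e
        have := hs (MulAut.conjNormal s⁻¹ e)
        rw [← MulAut.mul_apply, ← map_mul, mul_inv_cancel, map_one, MulAut.one_apply] at this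
        exact this.symm }
  have hgfg : Group.FG E := (Group.fg_iff_subgroup_fg E).2 hfg
  have hfin : Finite (E →* Q) := by
    obtain ⟨R, hR⟩ := (Group.fg_def.1 hgfg)
    apply Finite.of_injective (fun f : E →* Q => fun r : R => f r)
    intro f g hfg
    apply MonoidHom.eq_of_eqOn_dense hR
    intro x hx
    exact congrFun hfg ⟨x, hx⟩
  have hq : Finite (M ⧸ S) := by
    apply Finite.of_injective (fun q : M ⧸ S =>
      π.comp ((MulAut.conjNormal (H := E) (q.out)⁻¹).toMonoidHom))
    intro q q' h
    have hmem : q'.out⁻¹ * q.out ∈ S := by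
      intro e
      have := DFunLike.congr_fun h (MulAut.conjNormal q.out e)
      simp only [MonoidHom.comp_apply, MulEquiv.coe_toMonoidHom] at this
      rw [← MulAut.mul_apply, ← map_mul, ← MulAut.mul_apply, ← map_mul, inv_mul_cancel, map_one,
        MulAut.one_apply] at this
      exact this.symm
    have : (q'.out : M ⧸ S) = (q.out : M ⧸ S) := (QuotientGroup.eq (s := S)).2 hmem
    rw [QuotientGroup.out_eq', QuotientGroup.out_eq'] at this
    exact this.symm
  have hidx : S.index ≠ 0 := Subgroup.index_ne_zero_of_finite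
  have hrel : S.relIndex A ≠ 0 := by
    have : S.FiniteIndex := ⟨hidx⟩
    exact (Subgroup.isFiniteRelIndex_of_finiteIndex (H := S) (K := A)).relIndex_ne_zero
  exact hA S hrel ha e

/-- the commutator subgroup of `E`, with its index -/
theorem red_b1 {M : Type u} [Group M] (A0 B0 : Subgroup M) (hA : NFI A0) (hB : NFI B0)
    (R : Finset M) (hR : ∀ x ∈ R, (x ∈ A0 ∨ x ∈ B0) ∧ IsOfFinOrder x) (hn : (Subgroup.closure (R : Set M)).Normal)
    (hinf : ¬ ((Subgroup.closure (R : Set M)) : Set M).Finite) :
    ∃ N : Subgroup M, N.Normal ∧ N.FG ∧ NFI N ∧ N ≠ ⊥ ∧ N ≤ Subgroup.closure (R : Set M) ∧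
      N.relIndex (Subgroup.closure (R : Set M)) ≠ 0 := by
  classical
  set E := Subgroup.closure (R : Set M) with hEdef
  have hEfg : E.FG := ⟨R, rfl⟩
  have hEg : Group.FG E := (Group.fg_iff_subgroup_fg E).2 hEfg
  set N : Subgroup M := ⁅E, E⁆ with hNdef
  have hNn : N.Normal := Subgroup.commutator_normal E E
  have hNE : N ≤ E := Subgroup.commutator_le_left E E
  -- the abelianization of `E` is finite
  have hgen : Subgroup.closure {x : E | (x : M) ∈ (R : Set M)} = ⊤ := by
    rw [hEdef]
    exact Subgroup.closure_closure_coe_preimage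
  have hfab : Finite (Abelianization E) := by
    have hab : Group.FG (Abelianization E) :=
      Group.fg_of_surjective (f := Abelianization.of) (QuotientGroup.mk'_surjective (commutator E))
    apply CommGroup.finite_of_fg_isMulTorsion
    have htop : (⊤ : Subgroup (Abelianization E)) =
        Subgroup.closure (Set.image (fun x : E => Abelianization.of x) {x : E | (x : M) ∈ R}) := by
      symm
      rw [← MonoidHom.map_closure]
      have h1 : Subgroup.closure {x : E | (x : M) ∈ R} = ⊤ := by
        rw [hEdef]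
        exact Subgroup.closure_closure_coe_preimage
      rw [h1]
      rw [← MonoidHom.range_eq_map]
      exact MonoidHom.range_eq_top.2 (QuotientGroup.mk'_surjective (commutator E))
    intro x
    have hx : x ∈ (CommGroup.torsion (Abelianization E)) := by
      have : x ∈ (⊤ : Subgroup (Abelianization E)) := trivial
      rw [htop] at this
      refine (Subgroup.closure_le _).2 ?_ this
      rintro _ ⟨y, hy, rfl⟩
      have h2 : IsOfFinOrder y := by
        exact Submonoid.isOfFinOrder_coe.1 (hR _ hy).2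
      exact MonoidHom.isOfFinOrder _ h2
    exact hx
  have hNsub : N.subgroupOf E = commutator E := by
    rw [hNdef, ← Subgroup.map_subtype_commutator]
    exact Subgroup.comap_map_eq_self_of_injective (Subgroup.subtype_injective E) _
  have hNidx : N.relIndex E ≠ 0 := by
    rw [Subgroup.relIndex, hNsub]
    have : Finite (E ⧸ commutator E) := hfab
    exact Subgroup.index_ne_zero_of_finite
  have hNfg : N.FG := by
    have h1 : (N.subgroupOf E).FiniteIndex := ⟨hNidx⟩
    have h2 : Group.FG (N.subgroupOf E) := inferInstance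
    have h3 : Group.FG N := by
      have e : N.subgroupOf E ≃* N := Subgroup.subgroupOfEquivOfLe hNE
      exact Group.fg_of_surjective (f := e.toMonoidHom) e.surjective
    exact (Group.fg_iff_subgroup_fg N).1 h3
  refine ⟨N, hNn, hNfg, ?_, ?_, hNE, hNidx⟩
  · intro D hD
    -- `F = D ⊓ N` has finite index in `E`
    have h1 : (D ⊓ N).relIndex E ≠ 0 := by
      rw [← Subgroup.relIndex_mul_relIndex (D ⊓ N) N E inf_le_right hNE]
      refine mul_ne_zero ?_ hNidx
      rw [Subgroup.inf_relIndex_right]
      exact hD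
    set F : Subgroup E := ((D ⊓ N).subgroupOf E).normalCore with hF
    have h2 : ((D ⊓ N).subgroupOf E).FiniteIndex := ⟨h1⟩
    have h3 : F.FiniteIndex := by rw [hF]; infer_instance
    have h4 : Finite (E ⧸ F) := inferInstance
    have hc : ∀ x ∈ R, ∀ e : E, ∀ hx : x ∈ E,
        (QuotientGroup.mk' F) (⟨x, hx⟩ * e) = (QuotientGroup.mk' F) (e * ⟨x, hx⟩) := by
      intro x hx e hxE
      have key : (QuotientGroup.mk' F) (MulAut.conjNormal x e) = (QuotientGroup.mk' F) e := by
        rcases (hR x hx).1 with h | h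
        · exact conj_trivial A0 E hA hEfg _ x h e
        · exact conj_trivial B0 E hB hEfg _ x h e
      have h5 : MulAut.conjNormal x e = ⟨x, hxE⟩ * e * (⟨x, hxE⟩)⁻¹ := by
        apply Subtype.ext
        simp [MulAut.conjNormal_apply]
      rw [h5, map_mul, map_inv] at key
      rw [mul_inv_eq_iff_eq_mul] at key
      rw [key, map_mul]
    have hcen : (Subgroup.center (E ⧸ F)).comap (QuotientGroup.mk' F) = ⊤ := by
      rw [eq_top_iff, ← hgen, Subgroup.closure_le]
      intro x hx
      rw [SetLike.mem_coe, Subgroup.mem_comap, Subgroup.mem_center_iff]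
      intro q
      obtain ⟨e, rfl⟩ := QuotientGroup.mk'_surjective F q
      rw [← map_mul, ← map_mul]
      exact (hc x hx e x.2).symm
    have hle : commutator E ≤ F := by
      rw [commutator_def, Subgroup.commutator_le]
      intro x _ y _
      have hx : x ∈ (Subgroup.center (E ⧸ F)).comap (QuotientGroup.mk' F) := hcen ▸ trivial
      rw [Subgroup.mem_comap, Subgroup.mem_center_iff] at hx
      rw [← QuotientGroup.eq_one_iff, ← QuotientGroup.mk'_apply, map_commutatorElement,
        commutatorElement_eq_one_iff_mul_comm]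
      exact (hx _).symm
    intro x hx
    have h6 : (⟨x, hNE hx⟩ : E) ∈ commutator E := by
      rw [← hNsub]; exact hx
    have h7 : (⟨x, hNE hx⟩ : E) ∈ (D ⊓ N).subgroupOf E :=
      Subgroup.normalCore_le _ (hle h6)
    exact (Subgroup.mem_subgroupOf.1 h7).1
  · intro h
    apply hinf
    rw [h] at hNidx
    have h1 : (⊥ : Subgroup E).index ≠ 0 := by
      rw [Subgroup.relIndex, Subgroup.bot_subgroupOf] at hNidx
      exact hNidx
    rw [Subgroup.index_bot] at h1
    have : Finite E := Nat.finite_of_card_ne_zero h1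
    exact Set.toFinite _

theorem red_b {M : Type u} [Group M] (A0 B0 : Subgroup M) (_hM : A0 ⊔ B0 = ⊤) (hA : NFI A0) (hB : NFI B0)
    (R : Finset M) (hR : ∀ x ∈ R, (x ∈ A0 ∨ x ∈ B0) ∧ IsOfFinOrder x) (hn : (Subgroup.closure (R : Set M)).Normal)
    (hinf : ¬ ((Subgroup.closure (R : Set M)) : Set M).Finite) :
    ∃ N : Subgroup M, N.Normal ∧ N.FG ∧ NFI N ∧ N ≠ ⊥ := by
  obtain ⟨N, h1, h2, h3, h4, -, -⟩ := red_b1 A0 B0 hA hB R hR hn hinf
  exact ⟨N, h1, h2, h3, h4⟩

/-- a subgroup containing `A` and a subgroup of finite index of the normal subgroup `E` has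
finite index in `A ⊔ E` -/
theorem index_sup_ne_zero {M : Type u} [Group M] (A E N : Subgroup M) [hE : E.Normal]
    (h : A ⊔ E = ⊤) (hN : N.relIndex E ≠ 0) : (A ⊔ N).index ≠ 0 := by
  have h1 : (N.subgroupOf E).FiniteIndex := ⟨hN⟩
  have h2 : Finite (E ⧸ N.subgroupOf E) := inferInstance
  have h3 : Finite (M ⧸ (A ⊔ N)) := by
    apply Finite.of_surjective (fun q : E ⧸ N.subgroupOf E => (((q.out : E) : M) : M ⧸ (A ⊔ N)))
    intro q
    obtain ⟨m, rfl⟩ := QuotientGroup.mk_surjective q
    have hm : m ∈ E ⊔ A := by rw [sup_comm, h]; trivial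
    rw [Subgroup.mem_sup_of_normal_left] at hm
    obtain ⟨e, he, a, ha, rfl⟩ := hm
    refine ⟨((⟨e, he⟩ : E) : E ⧸ N.subgroupOf E), ?_⟩
    have h4 : ((((⟨e, he⟩ : E) : E ⧸ N.subgroupOf E)).out)⁻¹ * (⟨e, he⟩ : E) ∈ N.subgroupOf E := by
      rw [← QuotientGroup.eq (s := N.subgroupOf E), QuotientGroup.out_eq']
    rw [QuotientGroup.eq]
    rw [← mul_assoc]
    refine Subgroup.mul_mem _ ?_ (Subgroup.mem_sup_left ha)
    exact Subgroup.mem_sup_right (Subgroup.mem_subgroupOf.1 h4)
  exact Subgroup.index_ne_zero_of_finite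

theorem red_b2 {M : Type u} [Group M] (A0 B0 : Subgroup M) (hM : A0 ⊔ B0 = ⊤) (hA : NFI A0) (hB : NFI B0)
    (R : Finset M) (hR : ∀ x ∈ R, (x ∈ A0 ∨ x ∈ B0) ∧ IsOfFinOrder x) (hn : (Subgroup.closure (R : Set M)).Normal)
    (hinf : ¬ ((Subgroup.closure (R : Set M)) : Set M).Finite)
    (hAE : A0 ⊔ Subgroup.closure (R : Set M) = ⊤) :
    ∃ N : Subgroup M, N.Normal ∧ N.FG ∧ NFI N ∧ N ≠ ⊥ ∧ A0 ⊔ N = ⊤ := by
  obtain ⟨N, h1, h2, h3, h4, -, h6⟩ := red_b1 A0 B0 hA hB R hR hn hinf
  refine ⟨N, h1, h2, h3, h4, ?_⟩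
  have h7 : (A0 ⊔ N).index ≠ 0 := index_sup_ne_zero A0 _ N hAE h6
  have h8 : (A0 ⊔ N).FiniteIndex := ⟨h7⟩
  rw [eq_top_iff, ← hM, sup_le_iff]
  exact ⟨le_sup_left, hB _
    (Subgroup.isFiniteRelIndex_of_finiteIndex (H := A0 ⊔ N) (K := B0)).relIndex_ne_zero⟩

end Pool.Agent.Chern
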