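import Pool.Agent.Chern.Defs

/-!
# Row RC: passing to a quotient where a finitely generated normal subgroup without proper
subgroups of finite index becomes the smallest non-trivial normal subgroup
-/

set_option autoImplicit false

namespace Pool.Agent.Chern

universe u

/-- a maximal normal subgroup not containing a given finitely generated subgroup -/
theorem exists_max_not_ge {M : Type u} [Group M] (N : Subgroup M) (hfg : N.FG) (h0 : N ≠ ⊥) :
    ∃ K : Subgroup M, K.Normal ∧ ¬ N ≤ K ∧
      ∀ L : Subgroup M, L.Normal → K ≤ L → ¬ N ≤ L → L ≤ K := by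
  have hz := zorn_le_nonempty₀ {K : Subgroup M | K.Normal ∧ ¬ N ≤ K} (fun c hc hchain y hy => by
    have hdir : DirectedOn (· ≤ ·) c := hchain.directedOn
    have hne : c.Nonempty := ⟨y, hy⟩
    refine ⟨sSup c, ⟨⟨fun n hn g => ?_⟩, fun hle => ?_⟩, fun z hz => le_sSup hz⟩
    · rw [Subgroup.mem_sSup_of_directedOn hne hdir] at hn ⊢
      obtain ⟨K, hK, hnK⟩ := hn
      exact ⟨K, hK, (hc hK).1.conj_mem n hnK g⟩
    · obtain ⟨S, hS⟩ := hfg
      have key : ∀ S : Finset M, (∀ x ∈ S, x ∈ sSup c) → ∃ K ∈ c, ∀ x ∈ S, x ∈ K := by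
        intro S
        classical
        induction S using Finset.induction_on with
        | empty => intro _; exact ⟨y, hy, fun x hx => by simp at hx⟩
        | insert a S ha ih =>
          intro h
          obtain ⟨K, hK, hKS⟩ := ih (fun x hx => h x (Finset.mem_insert_of_mem hx))
          obtain ⟨K', hK', ha'⟩ := (Subgroup.mem_sSup_of_directedOn hne hdir).1
            (h a (Finset.mem_insert_self a S))
          obtain ⟨K2, hK2, h1, h2⟩ := hdir K hK K' hK'
          refine ⟨K2, hK2, fun x hx => ?_⟩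
          rcases Finset.mem_insert.1 hx with rfl | hx
          · exact h2 ha'
          · exact h1 (hKS x hx)
      obtain ⟨K, hK, hKS⟩ := key S (fun x hx => hle (hS ▸ Subgroup.subset_closure hx))
      exact (hc hK).2 (hS ▸ (Subgroup.closure_le K).2 hKS)) ⊥
      ⟨inferInstance, fun h => h0 (le_bot_iff.1 h)⟩
  obtain ⟨K, -, hK⟩ := hz
  exact ⟨K, hK.prop.1, hK.prop.2, fun L hL hKL hNL => hK.le_of_ge ⟨hL, hNL⟩ hKL⟩

/-- a non-trivial finitely generated abelian subgroup has a proper subgroup of finite index -/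
theorem not_nfi_of_comm {H : Type u} [Group H] (T : Subgroup H) (hfg : T.FG) (hT : NFI T)
    (hc : ∀ x ∈ T, ∀ y ∈ T, x * y = y * x) : T = ⊥ := by
  by_contra h0
  let _ : CommGroup T := { (inferInstance : Group T) with
    mul_comm := fun x y => Subtype.ext (hc x x.2 y y.2) }
  have hfg' : (⊤ : Subgroup T).FG := Group.fg_def.1 ((Group.fg_iff_subgroup_fg T).2 hfg)
  have hne : (⊤ : Subgroup T) ≠ ⊥ := by
    intro h
    apply h0
    rw [eq_bot_iff]
    intro x hx
    have : (⟨x, hx⟩ : T) ∈ (⊤ : Subgroup T) := trivial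
    rw [h, Subgroup.mem_bot] at this
    rw [Subgroup.mem_bot]
    exact congrArg Subtype.val this
  obtain ⟨K, hK, hnK, hmax⟩ := exists_max_not_ge (⊤ : Subgroup T) hfg' hne
  have hKt : K ≠ ⊤ := fun h => hnK (h ▸ le_rfl)
  have hs : IsSimpleGroup (T ⧸ K) := by
    have : Nontrivial (T ⧸ K) := by
      exact QuotientGroup.nontrivial_iff.2 hKt
    refine ⟨fun L hL => ?_⟩
    by_cases hL2 : L = ⊤
    · exact Or.inr hL2
    · left
      have h1 : L.comap (QuotientGroup.mk' K) ≤ K := by
        apply hmax _ inferInstance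
        · intro x hx
          rw [Subgroup.mem_comap]
          have : (QuotientGroup.mk' K) x = 1 := by
            rw [QuotientGroup.mk'_apply, QuotientGroup.eq_one_iff]; exact hx
          rw [this]; exact L.one_mem
        · intro h
          apply hL2
          rw [eq_top_iff]
          intro x _
          obtain ⟨y, rfl⟩ := QuotientGroup.mk'_surjective K x
          exact h (x := y) trivial
      rw [eq_bot_iff]
      intro x hx
      obtain ⟨y, rfl⟩ := QuotientGroup.mk'_surjective K x
      have : y ∈ K := h1 hx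
      rw [Subgroup.mem_bot, QuotientGroup.mk'_apply, QuotientGroup.eq_one_iff]
      exact this
  have hfin : Finite (T ⧸ K) := by
    have := (CommGroup.is_simple_iff_prime_card (α := T ⧸ K)).1 hs
    exact Nat.finite_of_card_ne_zero this.ne_zero
  have hidx : K.index ≠ 0 := Subgroup.index_ne_zero_of_finite
  have h2 : T ≤ K.map T.subtype := by
    apply hT
    have : (K.map T.subtype).relIndex T = K.index := by
      rw [Subgroup.relIndex, Subgroup.subgroupOf]
      congr 1
      exact Subgroup.comap_map_eq_self_of_injective (Subgroup.subtype_injective T) K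
    rw [this]; exact hidx
  apply hKt
  rw [eq_top_iff]
  intro x _
  obtain ⟨y, hy, hyx⟩ := h2 x.2
  have : y = x := Subtype.ext hyx
  exact this ▸ hy

theorem red_c {M : Type u} [Group M] (N : Subgroup M) (hn : N.Normal) (hfg : N.FG) (hN : NFI N) (h0 : N ≠ ⊥) :
    ∃ K : Subgroup M, ∃ _ : K.Normal, (N.map (QuotientGroup.mk' K)).Normal ∧ (N.map (QuotientGroup.mk' K)).FG ∧
      NFI (N.map (QuotientGroup.mk' K)) ∧ (∀ L : Subgroup (M ⧸ K), L.Normal → L ≠ ⊥ → N.map (QuotientGroup.mk' K) ≤ L) ∧
      Subgroup.centralizer ((N.map (QuotientGroup.mk' K) : Subgroup (M ⧸ K)) : Set (M ⧸ K)) = ⊥ ∧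
      N.map (QuotientGroup.mk' K) ≠ ⊥ := by
  obtain ⟨K, hK, hnK, hmax⟩ := exists_max_not_ge N hfg h0
  refine ⟨K, hK, ?_⟩
  set T := N.map (QuotientGroup.mk' K) with hTdef
  have hTn : T.Normal := Subgroup.Normal.map hn _ (QuotientGroup.mk'_surjective K)
  have hTfg : T.FG := by
    obtain ⟨S, hS⟩ := hfg
    classical
    refine ⟨S.image (QuotientGroup.mk' K), ?_⟩
    rw [hTdef, ← hS, MonoidHom.map_closure, Finset.coe_image]
  have hTnfi : NFI T := by
    intro D hD
    have h1 : (D.comap (QuotientGroup.mk' K)).relIndex N ≠ 0 := by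
      rw [Subgroup.relIndex_comap]; exact hD
    have h2 := hN _ h1
    exact Subgroup.map_le_iff_le_comap.2 h2
  have hTmin : ∀ L : Subgroup (M ⧸ K), L.Normal → L ≠ ⊥ → T ≤ L := by
    intro L hL hL0
    by_contra hTL
    apply hL0
    have h1 : L.comap (QuotientGroup.mk' K) ≤ K := by
      apply hmax _ inferInstance
      · intro x hx
        rw [Subgroup.mem_comap]
        have : (QuotientGroup.mk' K) x = 1 := by
          rw [QuotientGroup.mk'_apply, QuotientGroup.eq_one_iff]; exact hx
        rw [this]; exact L.one_mem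
      · intro h
        exact hTL (Subgroup.map_le_iff_le_comap.2 h)
    rw [eq_bot_iff]
    intro x hx
    obtain ⟨y, rfl⟩ := QuotientGroup.mk'_surjective K x
    have : y ∈ K := h1 hx
    rw [Subgroup.mem_bot, QuotientGroup.mk'_apply, QuotientGroup.eq_one_iff]
    exact this
  have hT0 : T ≠ ⊥ := by
    intro h
    apply hnK
    intro x hx
    have : (QuotientGroup.mk' K) x ∈ T := Subgroup.mem_map_of_mem _ hx
    rw [h, Subgroup.mem_bot, QuotientGroup.mk'_apply, QuotientGroup.eq_one_iff] at this
    exact this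
  refine ⟨hTn, hTfg, hTnfi, hTmin, ?_, hT0⟩
  by_contra hc
  have h1 : T ≤ Subgroup.centralizer (T : Set (M ⧸ K)) := hTmin _ inferInstance hc
  apply hT0
  apply not_nfi_of_comm T hTfg hTnfi
  intro x hx y hy
  exact ((Subgroup.mem_centralizer_iff.1 (h1 hx)) y hy).symm

end Pool.Agent.Chern
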