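import Pool.Agent.Chern.Core
import Pool.Agent.Chern.RedA
import Pool.Agent.Chern.RedB
import Pool.Agent.Chern.RedC
import Pool.Agent.Chern.AmenExt

/-!
# Amenable products of two Chernikov groups are locally finite
-/

set_option autoImplicit false

namespace Pool.Agent.Chern

universe u v

theorem NFI.map {G : Type u} {H : Type v} [Group G] [Group H] {A : Subgroup G} (hA : NFI A) (φ : G →* H) : NFI (A.map φ) := by
  intro D hD
  have h1 : (D.comap φ).relIndex A = D.relIndex (A.map φ) := Subgroup.relIndex_comap D φ A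
  rw [← h1] at hD
  exact Subgroup.map_le_iff_le_comap.2 (hA _ hD)

theorem NFI.subgroupOf {G : Type u} [Group G] {A M : Subgroup G} (hA : NFI A) (hAM : A ≤ M) : NFI (A.subgroupOf M) := by
  intro D hD
  have h1 : (D.map M.subtype).relIndex ((A.subgroupOf M).map M.subtype) = D.relIndex (A.subgroupOf M) :=
    Subgroup.relIndex_map_map_of_injective _ _ M.subtype_injective
  rw [Subgroup.map_subgroupOf_eq_of_le hAM] at h1
  rw [← h1] at hD
  have h2 := hA _ hD
  intro x hx
  obtain ⟨y, hy, e⟩ := h2 hx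
  have : y = x := Subtype.ext e
  rwa [← this]

/-- the group `M` and its quotient -/
theorem false_of_red {G : Type u} [Group G] (A0 B0 M : Subgroup G) (hM : A0 ⊔ B0 = M) (hA : ∀ x ∈ A0, ∀ y ∈ A0, x * y = y * x)
    (hB : ∀ x ∈ B0, ∀ y ∈ B0, x * y = y * x) (hAi : NFI A0) (hBi : NFI B0)
    (hS : ∃ S : Finset G, ∀ h ∈ M, ∃ g ∈ S, g ∈ M ∧ ∃ a ∈ A0, ∃ b ∈ B0, h = a * g * b)
    (N : Subgroup ↥M) (hn : N.Normal) (hfg : N.FG) (hNi : NFI N) (h0 : N ≠ ⊥)
    (hamen : ∀ K : Subgroup ↥M, ∀ _ : K.Normal, Amen (↥M ⧸ K)) : False := by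
  classical
  obtain ⟨S, hS⟩ := hS
  have hAM : A0 ≤ M := hM ▸ le_sup_left
  have hBM : B0 ≤ M := hM ▸ le_sup_right
  obtain ⟨K, hK, h1, h2, h3, h4, h5, h6⟩ := red_c N hn hfg hNi h0
  let π : M →* M ⧸ K := QuotientGroup.mk' K
  have hπ : Function.Surjective π := QuotientGroup.mk'_surjective K
  let A : Subgroup (M ⧸ K) := (A0.subgroupOf M).map π
  let B : Subgroup (M ⧸ K) := (B0.subgroupOf M).map π
  have hAi' : NFI A := (hAi.subgroupOf hAM).map π
  have hBi' : NFI B := (hBi.subgroupOf hBM).map π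
  have hsup : A ⊔ B = ⊤ := by
    have e1 : A0.subgroupOf M ⊔ B0.subgroupOf M = ⊤ := by
      rw [← Subgroup.subgroupOf_sup hAM hBM, hM, Subgroup.subgroupOf_self]
    rw [← Subgroup.map_sup, e1, ← MonoidHom.range_eq_map, MonoidHom.range_eq_top.2 hπ]
  refine core (hamen K hK) A B (N.map π) ?_ ?_ hAi' hBi' ((S.subtype (fun x => x ∈ M)).image π) ?_ ?_ h1 h2 h3 h4 h5 h6
  · rintro _ ⟨x, hx, rfl⟩ _ ⟨y, hy, rfl⟩
    rw [← map_mul, ← map_mul]
    congr 1
    exact Subtype.ext (hA x hx y hy)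
  · rintro _ ⟨x, hx, rfl⟩ _ ⟨y, hy, rfl⟩
    rw [← map_mul, ← map_mul]
    congr 1
    exact Subtype.ext (hB x hx y hy)
  · intro h
    obtain ⟨x, rfl⟩ := hπ h
    obtain ⟨g, hgS, hgM, a, ha, b, hb, e⟩ := hS x x.2
    refine ⟨π ⟨g, hgM⟩, Finset.mem_image_of_mem _ (by simpa using hgS), π ⟨a, hAM ha⟩, ⟨_, ha, rfl⟩, π ⟨b, hBM hb⟩, ⟨_, hb, rfl⟩, ?_⟩
    rw [← map_mul, ← map_mul]
    congr 1
    exact Subtype.ext e
  · intro D hD
    have hD' : ∀ L : Subgroup (M ⧸ K), D.relIndex L ≠ 0 := fun L h => hD (by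
      rw [← Subgroup.relIndex_top_right]
      exact Subgroup.relIndex_eq_zero_of_le_right le_top h)
    rw [eq_top_iff, ← hsup]
    exact sup_le (hAi' D (hD' A)) (hBi' D (hD' B))

/-- an abelian torsion group is locally finite -/
theorem lf_of_comm {G : Type u} [Group G] (hc : ∀ x y : G, x * y = y * x) (ht : ∀ x : G, IsOfFinOrder x) : LF G := by
  intro S
  let _ : CommGroup G := { ‹Group G› with mul_comm := hc }
  have : Group.FG (Subgroup.closure (S : Set G)) := (Group.fg_iff_subgroup_fg _).2 ⟨S, rfl⟩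
  have h1 : IsMulTorsion (Subgroup.closure (S : Set G)) := fun x => Submonoid.isOfFinOrder_coe.1 (ht x)
  have h2 : Finite (Subgroup.closure (S : Set G)) := CommGroup.finite_of_fg_isMulTorsion _ h1
  exact Set.toFinite _

/-- a group generated by an abelian torsion subgroup and an amenable normal subgroup is amenable -/
theorem amen_of_sup {G : Type u} [Group G] (A T : Subgroup G) (hT : T.Normal) (hTa : Amen T) (hAT : A ⊔ T = ⊤)
    (hc : ∀ x ∈ A, ∀ y ∈ A, x * y = y * x) (ht : ∀ x ∈ A, IsOfFinOrder x) : Amen G := by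
  have h1 : ∀ q : G ⧸ T, ∃ x ∈ A, (x : G ⧸ T) = q := by
    intro q
    obtain ⟨g, rfl⟩ := QuotientGroup.mk'_surjective T q
    have hg : g ∈ A ⊔ T := by rw [hAT]; trivial
    obtain ⟨x, hx, t, ht', e⟩ := Subgroup.mem_sup_of_normal_right.1 hg
    refine ⟨x, hx, ?_⟩
    rw [QuotientGroup.mk'_apply, QuotientGroup.eq, ← e]
    simpa using ht'
  refine amen_ext T hTa (amen_of_lf (lf_of_comm ?_ ?_))
  · intro q r
    obtain ⟨x, hx, rfl⟩ := h1 q
    obtain ⟨y, hy, rfl⟩ := h1 r
    rw [← QuotientGroup.mk_mul, ← QuotientGroup.mk_mul, hc x hx y hy]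
  · intro q
    obtain ⟨x, hx, rfl⟩ := h1 q
    exact (QuotientGroup.mk' T).isOfFinOrder (ht x hx)

/-- **the theorem, second form**: a product of two Chernikov groups is locally finite if its finitely generated subgroups
without proper subgroups of finite index are amenable -/
theorem lf_of_fg {G : Type u} [Group G] (hG : ∀ N : Subgroup G, N.FG → NFI N → Amen N) (A B : Subgroup G)
    (hA : IsChernikov A) (hB : IsChernikov B) (hAB : ∀ g : G, ∃ a ∈ A, ∃ b ∈ B, a * b = g) : LF G := by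
  classical
  by_contra hLF
  obtain ⟨A0, B0, cA, cB, iA, iB, hS, R, hR, hRn, hRf, hAR, hAt, -⟩ := red_a2 A B (good_of_chernikov hA) (good_of_chernikov hB)
    (fun g => by obtain ⟨a, ha, b, hb, e⟩ := hAB g; exact ⟨a, ha, b, hb, e.symm⟩) hLF
  set M : Subgroup G := A0 ⊔ B0 with hM
  have hAM : A0 ≤ M := le_sup_left
  have hBM : B0 ≤ M := le_sup_right
  let R' : Finset M := R.subtype (fun x => x ∈ M)
  have hmem : ∀ x : M, x ∈ R' ↔ (x : G) ∈ R := fun x => by simp [R']
  have hRM : ∀ x ∈ R, x ∈ M := fun x hx => (hR x hx).1.elim (fun h => hAM h) fun h => hBM h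
  have hcl : (Subgroup.closure (R' : Set M)).map M.subtype = Subgroup.closure (R : Set G) := by
    rw [MonoidHom.map_closure]
    congr 1
    ext x
    constructor
    · rintro ⟨y, hy, rfl⟩
      exact (hmem y).1 hy
    · intro hx
      exact ⟨⟨x, hRM x hx⟩, (hmem _).2 hx, rfl⟩
  have hn : (Subgroup.closure (R' : Set M)).Normal := by
    refine ⟨fun x hx g => ?_⟩
    have h1 : (x : G) ∈ Subgroup.closure (R : Set G) := by
      rw [← hcl]
      exact ⟨x, hx, rfl⟩
    have h2 := (Subgroup.le_normalizer_iff.1 hRn) (g : G) g.2 _ h1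
    rw [← hcl] at h2
    obtain ⟨y, hy, e⟩ := h2
    have : y = g * x * g⁻¹ := Subtype.ext e
    rwa [← this]
  have hinf : ¬ ((Subgroup.closure (R' : Set M)) : Set M).Finite := by
    intro h
    apply hRf
    rw [← hcl, Subgroup.coe_map]
    exact h.image _
  have e1 : A0.subgroupOf M ⊔ B0.subgroupOf M = ⊤ := by
    rw [← Subgroup.subgroupOf_sup hAM hBM, ← hM, Subgroup.subgroupOf_self]
  have e2 : A0.subgroupOf M ⊔ Subgroup.closure (R' : Set M) = ⊤ := by
    apply Subgroup.map_injective M.subtype_injective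
    rw [Subgroup.map_sup, hcl, Subgroup.map_subgroupOf_eq_of_le hAM, hAR, ← MonoidHom.range_eq_map, Subgroup.range_subtype]
  obtain ⟨N, hNn, hNfg, hNi, hN0, hAN⟩ := red_b2 (A0.subgroupOf M) (B0.subgroupOf M) e1 (iA.subgroupOf hAM) (iB.subgroupOf hBM) R'
    (fun x hx => by
      obtain ⟨h1, h2⟩ := hR x ((hmem x).1 hx)
      refine ⟨h1.imp (fun h => h) (fun h => h), ?_⟩
      exact Submonoid.isOfFinOrder_coe.1 h2) hn hinf e2
  have hNa : Amen N := by
    have h0 : (N.map M.subtype).FG := by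
      obtain ⟨S, hS⟩ := hNfg
      exact ⟨S.image M.subtype, by rw [Finset.coe_image, ← MonoidHom.map_closure, hS]⟩
    have h1 : Amen (N.map M.subtype) := hG _ h0 (hNi.map M.subtype)
    let e := N.equivMapOfInjective M.subtype M.subtype_injective
    exact h1.map e.symm.toMonoidHom e.symm.surjective
  have hMa : Amen M := amen_of_sup (A0.subgroupOf M) N hNn hNa hAN
    (fun x hx y hy => Subtype.ext (cA x hx y hy)) fun x hx => Submonoid.isOfFinOrder_coe.1 (hAt x hx)
  exact false_of_red A0 B0 M hM.symm cA cB iA iB hS N hNn hNfg hNi hN0 fun K hK =>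
    hMa.map (QuotientGroup.mk' K) (QuotientGroup.mk'_surjective K)

/-- **the theorem, first form**: an amenable product of two Chernikov groups is locally finite -/
theorem lf_of_amen {G : Type u} [Group G] (hG : Amen G) (A B : Subgroup G) (hA : IsChernikov A) (hB : IsChernikov B)
    (hAB : ∀ g : G, ∃ a ∈ A, ∃ b ∈ B, a * b = g) : LF G :=
  lf_of_fg (fun N _ _ => hG.subgroup N) A B hA hB hAB

end Pool.Agent.Chern
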