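import Pool.Agent.Chern.MeanBasic

/-!
# Amenable groups: bi-invariant means, subgroups, quotients
-/

set_option autoImplicit false

namespace Pool.Agent.Chern

universe u v

theorem exists_bi {G : Type u} [Group G] (h : Amen G) :
    ∃ m : (G → ℝ) → ℝ, IsMean G m ∧ ∀ (g : G) (f : G → ℝ), Bd f → m (fun x => f (x * g)) = m f := by
  obtain ⟨m0, hm⟩ := h
  have hin : ∀ f : G → ℝ, Bd f → Bd fun x => m0 fun y => f (x * y⁻¹) := by
    rintro f ⟨C, hC⟩
    exact ⟨C, fun x => hm.abs_le ⟨C, fun y => hC _⟩ fun y => hC _⟩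
  have hin2 : ∀ (f : G → ℝ) (x : G), Bd f → Bd fun y => f (x * y⁻¹) := by
    rintro f x ⟨C, hC⟩
    exact ⟨C, fun y => hC _⟩
  refine ⟨fun f => m0 fun x => m0 fun y => f (x * y⁻¹), ?_, ?_⟩
  · refine ⟨?_, ?_, ?_, ?_, ?_⟩
    · intro f g hf hg
      have h1 : (fun x => m0 fun y => f (x * y⁻¹) + g (x * y⁻¹)) = fun x => (m0 fun y => f (x * y⁻¹)) + m0 fun y => g (x * y⁻¹) := by
        ext x
        exact hm.add _ _ (hin2 f x hf) (hin2 g x hg)
      rw [h1, hm.add _ _ (hin f hf) (hin g hg)]
    · intro c f hf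
      have h1 : (fun x => m0 fun y => c * f (x * y⁻¹)) = fun x => c * m0 fun y => f (x * y⁻¹) := by
        ext x
        exact hm.smul _ _ (hin2 f x hf)
      rw [h1, hm.smul _ _ (hin f hf)]
    · intro f hf h0
      exact hm.nonneg _ (hin f hf) fun x => hm.nonneg _ (hin2 f x hf) fun y => h0 _
    · have h1 : (fun _ : G => m0 fun _ : G => (1 : ℝ)) = fun _ => 1 := by
        ext x
        exact hm.one
      rw [h1, hm.one]
    · intro g f hf
      have h1 := hm.left g (fun x => m0 fun y => f (x * y⁻¹)) (hin f hf)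
      simpa [mul_assoc] using h1
  · intro g f hf
    refine congrArg m0 (funext fun x => ?_)
    have h1 := hm.left g⁻¹ (fun y => f (x * y⁻¹)) (hin2 f x hf)
    simpa [mul_assoc] using h1

theorem Amen.map {G : Type u} {H : Type v} [Group G] [Group H] (h : Amen G) (φ : G →* H) (hφ : Function.Surjective φ) : Amen H := by
  obtain ⟨m, hm⟩ := h
  refine ⟨fun f => m fun x => f (φ x), ?_⟩
  refine ⟨?_, ?_, ?_, ?_, ?_⟩
  · intro f g hf hg
    exact hm.add _ _ (hf.comp φ) (hg.comp φ)
  · intro c f hf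
    exact hm.smul _ _ (hf.comp φ)
  · intro f hf h0
    exact hm.nonneg _ (hf.comp φ) fun x => h0 _
  · exact hm.one
  · intro g f hf
    obtain ⟨k, rfl⟩ := hφ g
    have h1 := hm.left k (fun x => f (φ x)) (hf.comp φ)
    simpa using h1

theorem Amen.subgroup {G : Type u} [Group G] (h : Amen G) (K : Subgroup G) : Amen K := by
  obtain ⟨m, hm⟩ := h
  -- a left `K`-equivariant map `G → K`
  obtain ⟨r, hr⟩ : ∃ r : G → K, ∀ (k : K) (x : G), r (k * x) = k * r x := by
    let s : G → G := fun x => (Quotient.out (Quotient.mk (QuotientGroup.rightRel K) x) : G)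
    have hs : ∀ x, s x * x⁻¹ ∈ K := by
      intro x
      have h1 : (QuotientGroup.rightRel K) (s x) x := Quotient.mk_out (s := QuotientGroup.rightRel K) x
      rw [QuotientGroup.rightRel_apply] at h1
      have h2 := K.inv_mem h1
      rwa [mul_inv_rev, inv_inv] at h2
    have hk : ∀ (k : K) (x : G), s (k * x) = s x := by
      intro k x
      have h1 : (Quotient.mk (QuotientGroup.rightRel K) ((k : G) * x)) = Quotient.mk (QuotientGroup.rightRel K) x := by
        apply Quotient.sound
        change (QuotientGroup.rightRel K) ((k : G) * x) x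
        rw [QuotientGroup.rightRel_apply]
        have : x * ((k : G) * x)⁻¹ = (k : G)⁻¹ := by group
        rw [this]
        exact K.inv_mem k.2
      simp only [s, h1]
    refine ⟨fun x => ⟨x * (s x)⁻¹, ?_⟩, ?_⟩
    · have := K.inv_mem (hs x)
      rwa [mul_inv_rev, inv_inv] at this
    · intro k x
      ext
      simp only [Subgroup.coe_mul, hk]
      rw [mul_assoc]
  refine ⟨fun f => m fun x => f (r x), ?_⟩
  refine ⟨?_, ?_, ?_, ?_, ?_⟩
  · intro f g hf hg
    exact hm.add _ _ (hf.comp r) (hg.comp r)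
  · intro c f hf
    exact hm.smul _ _ (hf.comp r)
  · intro f hf h0
    exact hm.nonneg _ (hf.comp r) fun x => h0 _
  · exact hm.one
  · intro g f hf
    have h1 := hm.left (g : G) (fun x => f (r x)) (hf.comp r)
    simp only [hr] at h1
    exact h1

end Pool.Agent.Chern
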