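import Pool.Agent.Chern.Defs

/-!
# Elementary facts on means
-/

set_option autoImplicit false

namespace Pool.Agent.Chern

universe u
variable {X : Type*} {G : Type u} [Group G] {m : (G → ℝ) → ℝ}

theorem Bd.add {f g : X → ℝ} (hf : Bd f) (hg : Bd g) : Bd fun x => f x + g x := by
  obtain ⟨C, hC⟩ := hf
  obtain ⟨D, hD⟩ := hg
  exact ⟨C + D, fun x => (abs_add_le _ _).trans (add_le_add (hC x) (hD x))⟩

theorem Bd.mul {f g : X → ℝ} (hf : Bd f) (hg : Bd g) : Bd fun x => f x * g x := by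
  obtain ⟨C, hC⟩ := hf
  obtain ⟨D, hD⟩ := hg
  refine ⟨C * D, fun x => ?_⟩
  rw [abs_mul]
  exact mul_le_mul (hC x) (hD x) (abs_nonneg _) ((abs_nonneg _).trans (hC x))

theorem bd_const (c : ℝ) : Bd fun _ : X => c := ⟨|c|, fun _ => le_rfl⟩

theorem Bd.smul {f : X → ℝ} (c : ℝ) (hf : Bd f) : Bd fun x => c * f x := (bd_const c).mul hf

theorem Bd.neg {f : X → ℝ} (hf : Bd f) : Bd fun x => - f x := by
  obtain ⟨C, hC⟩ := hf
  exact ⟨C, fun x => by rw [abs_neg]; exact hC x⟩

theorem Bd.sub {f g : X → ℝ} (hf : Bd f) (hg : Bd g) : Bd fun x => f x - g x := by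
  simpa [sub_eq_add_neg] using hf.add hg.neg

theorem Bd.comp {Y : Type*} {f : X → ℝ} (hf : Bd f) (φ : Y → X) : Bd fun y => f (φ y) := by
  obtain ⟨C, hC⟩ := hf
  exact ⟨C, fun x => hC _⟩

theorem bd_sum {ι : Type*} (s : Finset ι) {f : ι → X → ℝ} (hf : ∀ i ∈ s, Bd (f i)) : Bd fun x => ∑ i ∈ s, f i x := by
  classical
  induction s using Finset.induction_on with
  | empty => simpa using bd_const (X := X) 0
  | insert i s hi ih =>
    have h1 := (hf i (by simp)).add (ih fun j hj => hf j (by simp [hj]))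
    simpa [Finset.sum_insert hi] using h1

theorem bd_of_mem {f : X → ℝ} {C : ℝ} (h0 : ∀ x, 0 ≤ f x) (h1 : ∀ x, f x ≤ C) : Bd f :=
  ⟨C, fun x => by rw [abs_of_nonneg (h0 x)]; exact h1 x⟩

theorem ind_apply (E : Set X) (x : X) [Decidable (x ∈ E)] : ind E x = if x ∈ E then 1 else 0 := by
  classical
  by_cases h : x ∈ E <;> simp [ind, h]

theorem ind_of_mem {E : Set X} {x : X} (h : x ∈ E) : ind E x = 1 := by simp [ind, h]

theorem ind_of_notMem {E : Set X} {x : X} (h : x ∉ E) : ind E x = 0 := by simp [ind, h]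

theorem ind_nonneg (E : Set X) (x : X) : 0 ≤ ind E x := by
  by_cases h : x ∈ E <;> simp [ind, h]

theorem ind_le_one (E : Set X) (x : X) : ind E x ≤ 1 := by
  by_cases h : x ∈ E <;> simp [ind, h]

theorem bd_ind (E : Set X) : Bd (ind E) := bd_of_mem (ind_nonneg E) (ind_le_one E)

theorem ind_mono {E F : Set X} (h : E ⊆ F) (x : X) : ind E x ≤ ind F x := by
  by_cases hx : x ∈ E
  · rw [ind_of_mem hx, ind_of_mem (h hx)]
  · rw [ind_of_notMem hx]; exact ind_nonneg F x

theorem ind_inter (E F : Set X) (x : X) : ind (E ∩ F) x = ind E x * ind F x := by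
  by_cases hx : x ∈ E <;> by_cases hy : x ∈ F <;> simp [ind, hx, hy]

namespace IsMean

variable (hm : IsMean G m)
include hm

theorem neg {f : G → ℝ} (hf : Bd f) : m (fun x => - f x) = - m f := by
  have := hm.smul (-1) f hf
  simpa using this

theorem sub {f g : G → ℝ} (hf : Bd f) (hg : Bd g) : m (fun x => f x - g x) = m f - m g := by
  have := hm.add f (fun x => - g x) hf hg.neg
  simpa [sub_eq_add_neg, hm.neg hg] using this

theorem mono {f g : G → ℝ} (hf : Bd f) (hg : Bd g) (h : ∀ x, f x ≤ g x) : m f ≤ m g := by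
  have h1 := hm.nonneg (fun x => g x - f x) (hg.sub hf) fun x => sub_nonneg.2 (h x)
  rw [hm.sub hg hf] at h1
  linarith

theorem const (c : ℝ) : m (fun _ => c) = c := by
  have := hm.smul c (fun _ => 1) (bd_const 1)
  simpa [hm.one] using this

theorem le_const {f : G → ℝ} (hf : Bd f) {c : ℝ} (h : ∀ x, f x ≤ c) : m f ≤ c := by
  have := hm.mono hf (bd_const c) h
  rwa [hm.const] at this

theorem const_le {f : G → ℝ} (hf : Bd f) {c : ℝ} (h : ∀ x, c ≤ f x) : c ≤ m f := by
  have := hm.mono (bd_const c) hf h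
  rwa [hm.const] at this

theorem abs_le {f : G → ℝ} (hf : Bd f) {c : ℝ} (h : ∀ x, |f x| ≤ c) : |m f| ≤ c := by
  rw [_root_.abs_le]
  exact ⟨hm.const_le hf fun x => (_root_.abs_le.1 (h x)).1, hm.le_const hf fun x => (_root_.abs_le.1 (h x)).2⟩

theorem sum {ι : Type*} (s : Finset ι) {f : ι → G → ℝ} (hf : ∀ i ∈ s, Bd (f i)) :
    m (fun x => ∑ i ∈ s, f i x) = ∑ i ∈ s, m (f i) := by
  classical
  induction s using Finset.induction_on with
  | empty => simpa using hm.const 0
  | insert i s hi ih =>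
    have h1 := hm.add (f i) (fun x => ∑ j ∈ s, f j x) (hf i (by simp)) (bd_sum s fun j hj => hf j (by simp [hj]))
    rw [ih fun j hj => hf j (by simp [hj])] at h1
    simpa [Finset.sum_insert hi] using h1

theorem ind_mono {E F : Set G} (h : E ⊆ F) : m (ind E) ≤ m (ind F) :=
  hm.mono (bd_ind E) (bd_ind F) (Chern.ind_mono h)

/-- recurrence: sets of measure at least `w`, more than `1/w` of them -/
theorem recur {n : ℕ} (E : Fin n → Set G) (w : ℝ) (hw : ∀ i, w ≤ m (ind (E i))) (hn : 1 < n * w) :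
    ∃ i j, i ≠ j ∧ 0 < m (ind (E i ∩ E j)) := by
  classical
  by_contra hcon
  push Not at hcon
  have h0 : ∀ i j, i ≠ j → m (ind (E i ∩ E j)) = 0 := fun i j hij =>
    le_antisymm (hcon i j hij) (hm.nonneg _ (bd_ind _) (ind_nonneg _))
  -- pointwise s ≤ 1 + sum over i ≠ j
  have hpt : ∀ x, ∑ i, ind (E i) x ≤ 1 + ∑ p ∈ Finset.univ.filter (fun p : Fin n × Fin n => p.1 ≠ p.2), ind (E p.1 ∩ E p.2) x := by
    intro x
    have hx0 : ∀ p : Fin n × Fin n, 0 ≤ ind (E p.1 ∩ E p.2) x := fun p => ind_nonneg _ _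
    by_cases hex : ∃ i, x ∈ E i
    · obtain ⟨i, hi⟩ := hex
      rw [← Finset.add_sum_erase Finset.univ _ (Finset.mem_univ i), ind_of_mem hi]
      refine add_le_add le_rfl ?_
      have h1 : ∑ j ∈ Finset.univ.erase i, ind (E j) x = ∑ p ∈ (Finset.univ.erase i).image (fun j => (i, j)), ind (E p.1 ∩ E p.2) x := by
        rw [Finset.sum_image (by intro a _ b _ h; exact (Prod.mk.inj h).2)]
        refine Finset.sum_congr rfl fun j _ => ?_
        rw [ind_inter, ind_of_mem hi, one_mul]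
      rw [h1]
      refine Finset.sum_le_sum_of_subset_of_nonneg ?_ fun p _ _ => hx0 p
      intro p hp
      rw [Finset.mem_image] at hp
      obtain ⟨j, hj, rfl⟩ := hp
      simp only [Finset.mem_filter, Finset.mem_univ, true_and]
      exact (Finset.ne_of_mem_erase hj).symm
    · push Not at hex
      have : ∑ i, ind (E i) x = 0 := Finset.sum_eq_zero fun i _ => ind_of_notMem (hex i)
      rw [this]
      have := Finset.sum_nonneg (s := Finset.univ.filter (fun p : Fin n × Fin n => p.1 ≠ p.2)) fun p _ => hx0 p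
      linarith
  have h1 : m (fun x => ∑ i, ind (E i) x) = ∑ i, m (ind (E i)) := hm.sum _ fun i _ => bd_ind _
  have h2 : m (fun x => 1 + ∑ p ∈ Finset.univ.filter (fun p : Fin n × Fin n => p.1 ≠ p.2), ind (E p.1 ∩ E p.2) x) = 1 := by
    rw [hm.add (fun _ => 1) _ (bd_const 1) (bd_sum _ fun p _ => bd_ind _), hm.one, hm.sum _ fun p _ => bd_ind _]
    rw [Finset.sum_eq_zero, add_zero]
    intro p hp
    simp only [Finset.mem_filter, Finset.mem_univ, true_and] at hp
    exact h0 _ _ hp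
  have h3 := hm.mono (bd_sum Finset.univ fun i _ => bd_ind (E i)) ((bd_const 1).add (bd_sum _ fun p _ => bd_ind _)) hpt
  rw [h1, h2] at h3
  have h4 : (n : ℝ) * w ≤ ∑ i, m (ind (E i)) := by
    have := Finset.card_nsmul_le_sum Finset.univ (fun i => m (ind (E i))) w fun i _ => hw i
    simpa using this
  linarith

/-- pairwise small intersections: `n p ≤ 1 + n² ε` -/
theorem count {n : ℕ} (E : Fin n → Set G) (p ε : ℝ) (hp : ∀ i, p ≤ m (ind (E i)))
    (hε : ∀ i j, i ≠ j → m (ind (E i ∩ E j)) ≤ ε) (hε0 : 0 ≤ ε) : n * p ≤ 1 + n ^ 2 * ε := by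
  classical
  have hpt : ∀ x, ∑ i, ind (E i) x ≤ 1 + ∑ p ∈ Finset.univ.filter (fun p : Fin n × Fin n => p.1 ≠ p.2), ind (E p.1 ∩ E p.2) x := by
    intro x
    have hx0 : ∀ p : Fin n × Fin n, 0 ≤ ind (E p.1 ∩ E p.2) x := fun p => ind_nonneg _ _
    by_cases hex : ∃ i, x ∈ E i
    · obtain ⟨i, hi⟩ := hex
      rw [← Finset.add_sum_erase Finset.univ _ (Finset.mem_univ i), ind_of_mem hi]
      refine add_le_add le_rfl ?_
      have h1 : ∑ j ∈ Finset.univ.erase i, ind (E j) x = ∑ p ∈ (Finset.univ.erase i).image (fun j => (i, j)), ind (E p.1 ∩ E p.2) x := by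
        rw [Finset.sum_image (by intro a _ b _ h; exact (Prod.mk.inj h).2)]
        refine Finset.sum_congr rfl fun j _ => ?_
        rw [ind_inter, ind_of_mem hi, one_mul]
      rw [h1]
      refine Finset.sum_le_sum_of_subset_of_nonneg ?_ fun p _ _ => hx0 p
      intro p hp
      rw [Finset.mem_image] at hp
      obtain ⟨j, hj, rfl⟩ := hp
      simp only [Finset.mem_filter, Finset.mem_univ, true_and]
      exact (Finset.ne_of_mem_erase hj).symm
    · push Not at hex
      have : ∑ i, ind (E i) x = 0 := Finset.sum_eq_zero fun i _ => ind_of_notMem (hex i)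
      rw [this]
      have := Finset.sum_nonneg (s := Finset.univ.filter (fun p : Fin n × Fin n => p.1 ≠ p.2)) fun p _ => hx0 p
      linarith
  have h1 : m (fun x => ∑ i, ind (E i) x) = ∑ i, m (ind (E i)) := hm.sum _ fun i _ => bd_ind _
  have h2 : m (fun x => 1 + ∑ p ∈ Finset.univ.filter (fun p : Fin n × Fin n => p.1 ≠ p.2), ind (E p.1 ∩ E p.2) x) ≤ 1 + n ^ 2 * ε := by
    rw [hm.add (fun _ => 1) _ (bd_const 1) (bd_sum _ fun p _ => bd_ind _), hm.one, hm.sum _ fun p _ => bd_ind _]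
    refine add_le_add le_rfl ?_
    have h5 : ∑ q ∈ Finset.univ.filter (fun p : Fin n × Fin n => p.1 ≠ p.2), m (ind (E q.1 ∩ E q.2)) ≤
        (Finset.univ.filter (fun p : Fin n × Fin n => p.1 ≠ p.2)).card • ε := by
      refine Finset.sum_le_card_nsmul _ _ _ fun q hq => ?_
      simp only [Finset.mem_filter, Finset.mem_univ, true_and] at hq
      exact hε _ _ hq
    refine h5.trans ?_
    rw [nsmul_eq_mul]
    refine mul_le_mul_of_nonneg_right ?_ hε0
    have h6 : (Finset.univ.filter (fun p : Fin n × Fin n => p.1 ≠ p.2)).card ≤ n * n := by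
      refine (Finset.card_filter_le _ _).trans ?_
      simp
    have h7 : ((Finset.univ.filter (fun p : Fin n × Fin n => p.1 ≠ p.2)).card : ℝ) ≤ ((n * n : ℕ) : ℝ) := by exact_mod_cast h6
    rw [pow_two]
    push_cast at h7
    exact h7
  have h3 := hm.mono (bd_sum Finset.univ fun i _ => bd_ind (E i)) ((bd_const 1).add (bd_sum _ fun p _ => bd_ind _)) hpt
  rw [h1] at h3
  have h4 : (n : ℝ) * p ≤ ∑ i, m (ind (E i)) := by
    have := Finset.card_nsmul_le_sum Finset.univ (fun i => m (ind (E i))) p fun i _ => hp i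
    simpa using this
  linarith

/-- left translates have the same measure -/
theorem ind_left (g : G) (E : Set G) : m (ind {x | g⁻¹ * x ∈ E}) = m (ind E) := by
  rw [← hm.left g⁻¹ (ind E) (bd_ind E)]
  congr 1

/-- pairwise disjoint left translates: measure zero -/
theorem null_of_translates (E : Set G) (h : ∀ n : ℕ, ∃ f : Fin n → G, ∀ i j, i ≠ j → ∀ x, (f i)⁻¹ * x ∈ E → (f j)⁻¹ * x ∉ E) :
    m (ind E) = 0 := by
  classical
  by_contra hne
  have hpos : 0 < m (ind E) := lt_of_le_of_ne (hm.nonneg _ (bd_ind _) (ind_nonneg _)) (Ne.symm hne)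
  obtain ⟨n, hn⟩ := exists_nat_gt (1 / m (ind E))
  obtain ⟨f, hf⟩ := h n
  have hn' : 1 < n * m (ind E) := by
    rwa [div_lt_iff₀ hpos] at hn
  obtain ⟨i, j, hij, hpos2⟩ := hm.recur (fun i => {x | (f i)⁻¹ * x ∈ E}) (m (ind E)) (fun i => (hm.ind_left (f i) E).ge) hn'
  have hempty : ({x | (f i)⁻¹ * x ∈ E} ∩ {x | (f j)⁻¹ * x ∈ E} : Set G) = ∅ := by
    ext x
    simp only [Set.mem_inter_iff, Set.mem_ofPred_eq, Set.mem_empty_iff_false, iff_false, not_and]
    exact hf i j hij x
  rw [hempty] at hpos2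
  have : m (ind (∅ : Set G)) = 0 := by
    have h1 : ind (∅ : Set G) = fun _ => 0 := by ext x; simp [ind]
    rw [h1]; exact hm.const 0
  linarith

end IsMean

/-- elements in different cosets of a subgroup of infinite relative index -/
theorem exists_cosets {G : Type*} [Group G] {D A : Subgroup G} (h : D.relIndex A = 0) (n : ℕ) :
    ∃ f : Fin n → G, (∀ i, f i ∈ A) ∧ ∀ i j, i ≠ j → (f i)⁻¹ * f j ∉ D := by
  classical
  have hinf : Infinite (A ⧸ D.subgroupOf A) := by
    rw [← not_finite_iff_infinite]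
    intro hfin
    exact (Subgroup.index_ne_zero_of_finite (H := D.subgroupOf A)) h
  obtain ⟨g⟩ : Nonempty (Fin n ↪ (A ⧸ D.subgroupOf A)) := by
    exact ⟨(Fin.valEmbedding).trans (Infinite.natEmbedding _)⟩
  refine ⟨fun i => ((g i).out : A), fun i => ((g i).out : A).2, fun i j hij hmem => ?_⟩
  apply hij
  apply g.injective
  rw [← Quotient.out_eq (g i), ← Quotient.out_eq (g j)]
  apply QuotientGroup.eq.2
  rw [Subgroup.mem_subgroupOf]
  simpa using hmem

end Pool.Agent.Chern
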