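import Pool.Agent.Chern.Defs

/-!
# The minimal pair

In a product `G = AB` of two groups with the minimal condition which is not locally finite there is a
minimal pair `A1 ≤ A`, `B1 ≤ B` whose product is a subgroup that is not locally finite; then the
factorised normaliser argument applies.
-/

set_option autoImplicit false

namespace Pool.Agent.Chern

universe u

namespace MP

theorem good_sub {G : Type u} [Group G] {A B : Subgroup G} (h : Good A) (hBA : B ≤ A) : Good B := by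
  obtain ⟨hw, N, hN, hc⟩ := h
  refine ⟨?_, N.comap (Subgroup.inclusion hBA), ?_, ?_⟩
  · have hs : StrictMono (fun C : Subgroup B => C.map (Subgroup.inclusion hBA)) := by
      intro C D hCD
      exact (Subgroup.map_lt_map_iff_of_injective (Subgroup.inclusion_injective hBA)).2 hCD
    exact hs.wellFoundedLT
  · rw [Subgroup.index_comap]
    exact fun h0 => hN (Subgroup.index_eq_zero_of_relIndex_eq_zero h0)
  · intro x hx y hy
    have := hc _ hx _ hy
    exact Subtype.ext (congrArg (fun z : A => (z : G)) this)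

theorem isOfFinOrder_of_good {A : Type u} [Group A] (h : Good A) (x : A) : IsOfFinOrder x := by
  obtain ⟨hw, -⟩ := h
  by_contra hx
  have hinj : Function.Injective fun n : ℤ => x ^ n := injective_zpow_iff_not_isOfFinOrder.2 hx
  have hanti : StrictAnti fun n : ℕ => Subgroup.zpowers (x ^ (2 ^ n : ℕ)) := by
    apply strictAnti_nat_of_succ_lt
    intro n
    refine lt_of_le_of_ne ?_ ?_
    · rw [Subgroup.zpowers_le]
      refine ⟨2, ?_⟩
      simp only
      rw [← zpow_natCast, ← zpow_natCast, ← zpow_mul, pow_succ]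
      push_cast
      rfl
    · intro heq
      have h1 : x ^ (2 ^ n : ℕ) ∈ Subgroup.zpowers (x ^ (2 ^ (n + 1) : ℕ)) := by
        rw [heq]
        exact Subgroup.mem_zpowers _
      obtain ⟨k, hk⟩ := h1
      simp only at hk
      rw [← zpow_natCast, ← zpow_natCast, ← zpow_mul] at hk
      have h2 := hinj hk
      push_cast at h2
      have h3 : (2 : ℤ) ^ n * (2 * k - 1) = 0 := by
        rw [pow_succ] at h2
        linear_combination h2
      rcases mul_eq_zero.1 h3 with h4 | h4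
      · exact (pow_ne_zero n two_ne_zero) h4
      · omega
  exact (not_strictAnti_of_wellFoundedLT _ hanti)

theorem finite_closure {G : Type u} [Group G] {K : Subgroup G} (h : LF K) {S : Set G} (hS : S.Finite)
    (hSK : S ⊆ K) : (Subgroup.closure S : Set G).Finite := by
  classical
  have hT : ((K.subtype : K → G) ⁻¹' S).Finite := hS.preimage (Subtype.val_injective.injOn)
  have h1 := h hT.toFinset
  rw [Set.Finite.coe_toFinset] at h1
  have h2 : Subgroup.closure S = (Subgroup.closure ((K.subtype : K → G) ⁻¹' S)).map K.subtype := by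
    rw [MonoidHom.map_closure]
    congr 1
    rw [Set.image_preimage_eq_of_subset]
    intro x hx
    exact ⟨⟨x, hSK hx⟩, rfl⟩
  rw [h2, Subgroup.coe_map]
  exact h1.image _

theorem conj_iter {G : Type u} [Group G] {E : Subgroup G} {a : G} (ha : IsOfFinOrder a)
    (h : ∀ x ∈ E, a * x * a⁻¹ ∈ E) : ∀ x, x ∈ E ↔ a * x * a⁻¹ ∈ E := by
  intro x
  refine ⟨h x, fun hx => ?_⟩
  have h1 : ∀ (n : ℕ) (y : G), y ∈ E → a ^ n * y * (a ^ n)⁻¹ ∈ E := by
    intro n
    induction n with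
    | zero => intro y hy; simpa using hy
    | succ n ih =>
      intro y hy
      have h2 := ih _ (h y hy)
      have h3 : a ^ n * (a * y * a⁻¹) * (a ^ n)⁻¹ = a ^ (n + 1) * y * (a ^ (n + 1))⁻¹ := by
        rw [pow_succ]
        group
      rwa [h3] at h2
  obtain ⟨n, hn, hna⟩ := (isOfFinOrder_iff_pow_eq_one).1 ha
  obtain ⟨k, rfl⟩ := Nat.exists_eq_succ_of_ne_zero hn.ne'
  have h4 := h1 k _ hx
  have h5 : a ^ k * (a * x * a⁻¹) * (a ^ k)⁻¹ = a ^ (k + 1) * x * (a ^ (k + 1))⁻¹ := by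
    rw [pow_succ]
    group
  rw [h5] at h4
  rw [Nat.succ_eq_add_one] at hna
  rw [hna] at h4
  simpa using h4

/-- The factorised normaliser. -/
theorem fact_normalizer {G : Type u} [Group G] {A1 B1 U V : Subgroup G} (hfin : ∀ a ∈ A1, IsOfFinOrder a)
    (hUn : ∀ a ∈ A1, ∀ x ∈ U, a * x * a⁻¹ ∈ U) (hVn : ∀ b ∈ B1, ∀ x ∈ V, b * x * b⁻¹ ∈ V)
    {a b : G} (ha : a ∈ A1) (hb : b ∈ B1)
    (hab : a * b ∈ Subgroup.normalizer ((U ⊔ V : Subgroup G) : Set G)) :
    a ∈ Subgroup.normalizer ((U ⊔ V : Subgroup G) : Set G) ∧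
      b ∈ Subgroup.normalizer ((U ⊔ V : Subgroup G) : Set G) := by
  set E := U ⊔ V with hE
  have hN := Subgroup.mem_normalizer_iff.1 hab
  -- `a E a⁻¹ ⊆ E`
  have h1 : E ≤ E.map (MulAut.conj b).toMonoidHom := by
    rw [hE]
    apply sup_le
    · intro x hx
      -- `a x a⁻¹ ∈ U`
      have h2 : a * x * a⁻¹ ∈ E := le_sup_left (a := U) (hUn a ha x hx)
      refine ⟨b⁻¹ * x * b, ?_, ?_⟩
      · have h3 := (hN (b⁻¹ * x * b)).2 (by
          have : a * b * (b⁻¹ * x * b) * (a * b)⁻¹ = a * x * a⁻¹ := by group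
          rw [this]
          exact h2)
        exact h3
      · simp
        group
    · intro x hx
      refine ⟨b⁻¹ * x * b, ?_, ?_⟩
      · have h3 := hVn b⁻¹ (B1.inv_mem hb) x hx
        rw [inv_inv] at h3
        exact le_sup_right (a := U) h3
      · simp
        group
  have h2 : ∀ x ∈ E, a * x * a⁻¹ ∈ E := by
    intro x hx
    obtain ⟨y, hy, hyx⟩ := h1 hx
    have h3 := (hN y).1 hy
    have h4 : a * b * y * (a * b)⁻¹ = a * x * a⁻¹ := by
      rw [← hyx]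
      simp
      group
    rwa [h4] at h3
  have haN : a ∈ Subgroup.normalizer (E : Set G) := by
    rw [Subgroup.mem_normalizer_iff]
    exact conj_iter (hfin a ha) h2
  refine ⟨haN, ?_⟩
  have h5 := Subgroup.mul_mem _ (Subgroup.inv_mem _ haN) hab
  simpa using h5

end MP

open MP in
theorem min_pair2 {G : Type u} [Group G] (A B : Subgroup G) (hA : Good A) (hB : Good B)
    (hAB : ∀ g : G, ∃ a ∈ A, ∃ b ∈ B, g = a * b) (hLF : ¬ LF G) :
    ∃ A1 B1 K : Subgroup G, Good A1 ∧ Good B1 ∧ (∀ g, g ∈ K ↔ ∃ a ∈ A1, ∃ b ∈ B1, g = a * b) ∧ ¬ LF K ∧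
      (∀ A2 B2 K2 : Subgroup G, A2 ≤ A1 → B2 ≤ B1 → (∀ g, g ∈ K2 ↔ ∃ a ∈ A2, ∃ b ∈ B2, g = a * b) →
        ¬ LF K2 → A1 ≤ A2 ∧ B1 ≤ B2) ∧
      ∀ U V : Subgroup G, U ≤ A1 → V ≤ B1 → (U : Set G).Finite → (V : Set G).Finite →
        (∀ a ∈ A1, ∀ x ∈ U, a * x * a⁻¹ ∈ U) → (∀ b ∈ B1, ∀ x ∈ V, b * x * b⁻¹ ∈ V) →
        ((U ⊔ V : Subgroup G) : Set G).Finite ∨ (A1 ≤ Subgroup.normalizer (U ⊔ V : Subgroup G) ∧
          B1 ≤ Subgroup.normalizer (U ⊔ V : Subgroup G)) := by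
  have hwA : WellFoundedLT (Subgroup A) := hA.1
  have hwB : WellFoundedLT (Subgroup B) := hB.1
  let P : Set (Subgroup A × Subgroup B) := {p | ∃ K : Subgroup G,
    (∀ g, g ∈ K ↔ ∃ a ∈ p.1.map A.subtype, ∃ b ∈ p.2.map B.subtype, g = a * b) ∧ ¬ LF K}
  have hP : P.Nonempty := by
    refine ⟨(⊤, ⊤), ⊤, ?_, ?_⟩
    · intro g
      refine ⟨fun _ => ?_, fun _ => trivial⟩
      obtain ⟨a, ha, b, hb, rfl⟩ := hAB g
      exact ⟨a, ⟨⟨a, ha⟩, trivial, rfl⟩, b, ⟨⟨b, hb⟩, trivial, rfl⟩, rfl⟩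
    · intro h
      apply hLF
      intro S
      exact finite_closure h S.finite_toSet (fun x _ => trivial)
  have hwf : WellFounded ((· < ·) : Subgroup A × Subgroup B → Subgroup A × Subgroup B → Prop) :=
    wellFounded_lt
  obtain ⟨K, hK, hKLF⟩ := hwf.min_mem P hP
  set p := hwf.min P hP with hp
  have hfinA : ∀ a ∈ p.1.map A.subtype, IsOfFinOrder a := by
    rintro _ ⟨a, -, rfl⟩
    exact A.subtype.isOfFinOrder (isOfFinOrder_of_good hA a)
  refine ⟨p.1.map A.subtype, p.2.map B.subtype, K, good_sub hA (Subgroup.map_subtype_le _),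
    good_sub hB (Subgroup.map_subtype_le _), hK, hKLF, ?_, ?_⟩
  · intro A2 B2 K2 hA2 hB2 hK2 hlf
    let q : Subgroup A × Subgroup B := (p.1 ⊓ A2.comap A.subtype, p.2 ⊓ B2.comap B.subtype)
    have h1 : q.1.map A.subtype = A2 := by
      ext x
      constructor
      · rintro ⟨a, ⟨-, ha⟩, rfl⟩
        exact ha
      · intro hx
        obtain ⟨a, ha, rfl⟩ := hA2 hx
        exact ⟨a, ⟨ha, hx⟩, rfl⟩
    have h2 : q.2.map B.subtype = B2 := by
      ext x
      constructor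
      · rintro ⟨a, ⟨-, ha⟩, rfl⟩
        exact ha
      · intro hx
        obtain ⟨a, ha, rfl⟩ := hB2 hx
        exact ⟨a, ⟨ha, hx⟩, rfl⟩
    have hqP : q ∈ P := by
      refine ⟨K2, ?_, hlf⟩
      rw [h1, h2]
      exact hK2
    have hq : q = p := by
      by_contra hne
      exact hwf.not_lt_min P hqP (lt_of_le_of_ne ⟨inf_le_left, inf_le_left⟩ hne)
    rw [← h1, ← h2, hq]
    exact ⟨le_rfl, le_rfl⟩
  intro U V hUA hVB hUf hVf hUn hVn
  by_contra hcon
  rw [not_or] at hcon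
  obtain ⟨hinf, hnn⟩ := hcon
  set N := Subgroup.normalizer ((U ⊔ V : Subgroup G) : Set G) with hN
  let q : Subgroup A × Subgroup B := (p.1 ⊓ N.comap A.subtype, p.2 ⊓ N.comap B.subtype)
  have hqp : q < p := by
    refine lt_of_le_of_ne ⟨inf_le_left, inf_le_left⟩ ?_
    intro heq
    apply hnn
    constructor
    · rw [Subgroup.map_le_iff_le_comap]
      exact inf_eq_left.1 (congrArg Prod.fst heq)
    · rw [Subgroup.map_le_iff_le_comap]
      exact inf_eq_left.1 (congrArg Prod.snd heq)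
  have hqP : q ∉ P := fun h => hwf.not_lt_min P h hqp
  apply hinf
  have hKN : LF (K ⊓ N : Subgroup G) := by
    by_contra hlf
    apply hqP
    refine ⟨K ⊓ N, ?_, hlf⟩
    intro g
    constructor
    · rintro ⟨hgK, hgN⟩
      obtain ⟨a, ha, b, hb, rfl⟩ := (hK g).1 hgK
      obtain ⟨haN, hbN⟩ := fact_normalizer hfinA hUn hVn ha hb hgN
      obtain ⟨a', ha', rfl⟩ := ha
      obtain ⟨b', hb', rfl⟩ := hb
      exact ⟨_, ⟨a', ⟨ha', haN⟩, rfl⟩, _, ⟨b', ⟨hb', hbN⟩, rfl⟩, rfl⟩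
    · rintro ⟨_, ⟨a', ⟨ha', haN⟩, rfl⟩, _, ⟨b', ⟨hb', hbN⟩, rfl⟩, rfl⟩
      exact ⟨(hK _).2 ⟨_, ⟨a', ha', rfl⟩, _, ⟨b', hb', rfl⟩, rfl⟩, N.mul_mem haN hbN⟩
  have hUK : U ≤ K ⊓ N := by
    refine le_inf ?_ ?_
    · intro x hx
      exact (hK x).2 ⟨x, hUA hx, 1, Subgroup.one_mem _, by simp⟩
    · exact le_sup_left.trans Subgroup.le_normalizer
  have hVK : V ≤ K ⊓ N := by
    refine le_inf ?_ ?_
    · intro x hx
      exact (hK x).2 ⟨1, Subgroup.one_mem _, x, hVB hx, by simp⟩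
    · exact le_sup_right.trans Subgroup.le_normalizer
  have h1 := finite_closure hKN (hUf.union hVf) (Set.union_subset hUK hVK)
  rw [Subgroup.closure_union, Subgroup.closure_eq, Subgroup.closure_eq] at h1
  exact h1

theorem min_pair {G : Type u} [Group G] (A B : Subgroup G) (hA : Good A) (hB : Good B)
    (hAB : ∀ g : G, ∃ a ∈ A, ∃ b ∈ B, g = a * b) (hLF : ¬ LF G) :
    ∃ A1 B1 K : Subgroup G, Good A1 ∧ Good B1 ∧ (∀ g, g ∈ K ↔ ∃ a ∈ A1, ∃ b ∈ B1, g = a * b) ∧ ¬ LF K ∧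
      ∀ U V : Subgroup G, U ≤ A1 → V ≤ B1 → (U : Set G).Finite → (V : Set G).Finite →
        (∀ a ∈ A1, ∀ x ∈ U, a * x * a⁻¹ ∈ U) → (∀ b ∈ B1, ∀ x ∈ V, b * x * b⁻¹ ∈ V) →
        ((U ⊔ V : Subgroup G) : Set G).Finite ∨ (A1 ≤ Subgroup.normalizer (U ⊔ V : Subgroup G) ∧
          B1 ≤ Subgroup.normalizer (U ⊔ V : Subgroup G)) := by
  obtain ⟨A1, B1, K, h1, h2, h3, h4, -, h5⟩ := min_pair2 A B hA hB hAB hLF
  exact ⟨A1, B1, K, h1, h2, h3, h4, h5⟩

end Pool.Agent.Chern
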