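import Mathlib.GroupTheory.Index
import Mathlib.GroupTheory.GroupAction.Quotient
import Mathlib.Data.Set.Finite.Lattice
import Mathlib.Order.WellFounded
import Mathlib.Tactic

/-!
# Groups without subgroups of finite index, covered by finitely many members of a noetherian family
-/

set_option autoImplicit false

namespace Pool.Agent.Chern

universe u v

section NC

variable {M : Type u} [Group M]

/-- irreducible members of a family of sets -/
def Irr (F : Set (Set M)) (C : Set M) : Prop :=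
  C ∈ F ∧ ∀ T : Set (Set M), T.Finite → T ⊆ F → C ⊆ ⋃₀ T → ∃ D ∈ T, C ⊆ D

omit [Group M] in
theorem exists_irr (F : Set (Set M)) (hint : ∀ E ∈ F, ∀ E' ∈ F, E ∩ E' ∈ F)
    (hdcc : ∀ f : ℕ → Set M, (∀ n, f n ∈ F) → Antitone f → ∃ n, ∀ m, n ≤ m → f m = f n)
    (E : Set M) (hE : E ∈ F) :
    ∃ T : Set (Set M), T.Finite ∧ (∀ C ∈ T, Irr F C) ∧ E = ⋃₀ T := by
  have hwf : WellFounded fun A B : F => (A : Set M) ⊂ B := by
    rw [RelEmbedding.wellFounded_iff_isEmpty]
    constructor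
    intro f
    have hf : ∀ n, ((f (n + 1) : F) : Set M) ⊂ f n := fun n =>
      f.map_rel_iff.2 (Nat.lt_succ_self n)
    obtain ⟨n, hn⟩ := hdcc (fun n => f n) (fun n => (f n).2)
      (antitone_nat_of_succ_le fun n => (hf n).subset)
    exact (hf n).ne (hn (n + 1) (Nat.le_succ n))
  have key : ∀ A : F, ∃ T : Set (Set M), T.Finite ∧ (∀ C ∈ T, Irr F C) ∧ (A : Set M) = ⋃₀ T := by
    intro A
    induction A using hwf.induction with
    | _ A ih =>
      by_cases hA : Irr F (A : Set M)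
      · refine ⟨{(A : Set M)}, Set.finite_singleton _, ?_, ?_⟩
        · intro C hC
          rw [Set.mem_singleton_iff] at hC
          rw [hC]
          exact hA
        · exact (Set.sUnion_singleton _).symm
      · unfold Irr at hA
        push Not at hA
        obtain ⟨T, hTf, hTF, hAT, hT⟩ := hA A.2
        have h1 : ∀ D : T, ∃ U : Set (Set M), U.Finite ∧ (∀ C ∈ U, Irr F C) ∧
            (A : Set M) ∩ D = ⋃₀ U := by
          intro D
          have hDF : (A : Set M) ∩ D ∈ F := hint _ A.2 _ (hTF D.2)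
          refine ih ⟨_, hDF⟩ ?_
          refine ⟨Set.inter_subset_left, fun h => ?_⟩
          exact hT D D.2 fun x hx => (h hx).2
        choose U hU1 hU2 hU3 using h1
        have := hTf.to_subtype
        refine ⟨⋃ D : T, U D, Set.finite_iUnion hU1, ?_, ?_⟩
        · intro C hC
          obtain ⟨D, hD⟩ := Set.mem_iUnion.1 hC
          exact hU2 D C hD
        · ext x
          constructor
          · intro hx
            obtain ⟨D, hD, hxD⟩ := hAT hx
            have hx2 : x ∈ ⋃₀ U ⟨D, hD⟩ := by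
              rw [← hU3]
              exact ⟨hx, hxD⟩
            obtain ⟨C, hC, hxC⟩ := hx2
            exact ⟨C, Set.mem_iUnion.2 ⟨_, hC⟩, hxC⟩
          · rintro ⟨C, hC, hxC⟩
            obtain ⟨D, hD⟩ := Set.mem_iUnion.1 hC
            have hx2 : x ∈ ⋃₀ U D := ⟨C, hD, hxC⟩
            rw [← hU3] at hx2
            exact hx2.1
  exact key ⟨E, hE⟩

/-- row NC -/
theorem noetherian_cover (hM : ∀ D : Subgroup M, D.index ≠ 0 → D = ⊤)
    (F : Set (Set M)) (hint : ∀ E ∈ F, ∀ E' ∈ F, E ∩ E' ∈ F)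
    (htr : ∀ E ∈ F, ∀ g : M, (fun x => x * g) ⁻¹' E ∈ F)
    (hdcc : ∀ f : ℕ → Set M, (∀ n, f n ∈ F) → Antitone f → ∃ n, ∀ m, n ≤ m → f m = f n)
    {ι : Type v} [Finite ι] (E : ι → Set M) (hE : ∀ i, E i ∈ F) (hcov : ∀ x, ∃ i, x ∈ E i) :
    ∃ i, E i = Set.univ := by
  choose T hT1 hT2 hT3 using fun i => exists_irr F hint hdcc (E i) (hE i)
  set W : Set (Set M) := ⋃ i, T i with hW
  have hWf : W.Finite := Set.finite_iUnion hT1
  have hWirr : ∀ C ∈ W, Irr F C := by
    intro C hC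
    obtain ⟨i, hi⟩ := Set.mem_iUnion.1 hC
    exact hT2 i C hi
  have hWcov : ∀ x, ∃ C ∈ W, x ∈ C := by
    intro x
    obtain ⟨i, hi⟩ := hcov x
    rw [hT3 i] at hi
    obtain ⟨C, hC, hx⟩ := hi
    exact ⟨C, Set.mem_iUnion.2 ⟨i, hC⟩, hx⟩
  obtain ⟨C0, hC0, -⟩ := hWcov 1
  obtain ⟨C, hC⟩ := hWf.exists_maximal ⟨C0, hC0⟩
  have hCW : C ∈ W := hC.prop
  -- translation of irreducible sets
  have htrirr : ∀ D : Set M, Irr F D → ∀ g : M, Irr F ((fun x => x * g) ⁻¹' D) := by
    intro D hD g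
    refine ⟨htr D hD.1 g, fun S hSf hSF hDS => ?_⟩
    obtain ⟨D', hD', hDD'⟩ := hD.2 ((fun A : Set M => (fun x => x * g⁻¹) ⁻¹' A) '' S)
      (hSf.image _) (by
        rintro _ ⟨A, hA, rfl⟩
        exact htr A (hSF hA) g⁻¹) (by
        intro x hx
        have hx' : x * g⁻¹ ∈ ⋃₀ S := by
          refine hDS ?_
          change x * g⁻¹ * g ∈ D
          rwa [inv_mul_cancel_right]
        obtain ⟨A, hA, hxA⟩ := hx'
        exact ⟨_, ⟨A, hA, rfl⟩, hxA⟩)
    obtain ⟨A, hA, rfl⟩ := hD'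
    refine ⟨A, hA, fun x hx => ?_⟩
    have h2 : x * g * g⁻¹ ∈ A := hDD' hx
    rwa [mul_inv_cancel_right] at h2
  have hsub : ∀ D : Set M, Irr F D → ∃ C' ∈ W, D ⊆ C' := by
    intro D hD
    exact hD.2 W hWf (fun A hA => (hWirr A hA).1) fun x _ => by
      obtain ⟨A, hA, hx⟩ := hWcov x
      exact ⟨A, hA, hx⟩
  have horb : ∀ g : M, (fun x => x * g) ⁻¹' C ∈ W := by
    intro g
    obtain ⟨C1, hC1, h1⟩ := hsub _ (htrirr C (hWirr C hCW) g)
    obtain ⟨C2, hC2, h2⟩ := hsub _ (htrirr C1 (hWirr C1 hC1) g⁻¹)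
    have h3 : C ⊆ (fun x => x * g⁻¹) ⁻¹' C1 := by
      intro x hx
      apply h1
      change x * g⁻¹ * g ∈ C
      rwa [inv_mul_cancel_right]
    have h4 : C2 ⊆ C := hC.2 hC2 (h3.trans h2)
    have h5 : (fun x => x * g) ⁻¹' C = C1 := by
      apply Set.Subset.antisymm h1
      intro x hx
      have h6 : x * g ∈ C2 := by
        apply h2
        change x * g * g⁻¹ ∈ C1
        rwa [mul_inv_cancel_right]
      exact h4 h6
    rw [h5]
    exact hC1
  -- the stabiliser
  let S : Subgroup M :=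
    { carrier := {g | (fun x => x * g) ⁻¹' C = C}
      one_mem' := by
        ext x
        change x * 1 ∈ C ↔ x ∈ C
        rw [mul_one]
      mul_mem' := by
        intro a b ha hb
        ext x
        change x * (a * b) ∈ C ↔ x ∈ C
        have h1 : x * a * b ∈ C ↔ x * a ∈ C := Set.ext_iff.1 hb (x * a)
        have h2 : x * a ∈ C ↔ x ∈ C := Set.ext_iff.1 ha x
        rw [← mul_assoc, h1, h2]
      inv_mem' := by
        intro a ha
        ext x
        change x * a⁻¹ ∈ C ↔ x ∈ C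
        have h1 : x * a⁻¹ * a ∈ C ↔ x * a⁻¹ ∈ C := Set.ext_iff.1 ha (x * a⁻¹)
        rw [inv_mul_cancel_right] at h1
        exact h1.symm }
  have hfin : Finite (M ⧸ S) := by
    have := hWf.to_subtype
    let φ : M ⧸ S → W := Quotient.lift (fun g => (⟨_, horb g⟩ : W)) (by
      intro a b hab
      have hab' : a⁻¹ * b ∈ S := QuotientGroup.leftRel_apply.1 hab
      apply Subtype.ext
      ext x
      change x * a ∈ C ↔ x * b ∈ C
      have h1 : x * a * (a⁻¹ * b) ∈ C ↔ x * a ∈ C := Set.ext_iff.1 hab' (x * a)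
      have h2 : x * a * (a⁻¹ * b) = x * b := by group
      rw [h2] at h1
      exact h1.symm)
    refine Finite.of_injective φ ?_
    intro a b
    induction a using Quotient.inductionOn
    induction b using Quotient.inductionOn
    rename_i a b
    intro h
    apply Quotient.sound
    apply QuotientGroup.leftRel_apply.2
    have h1 : (fun x => x * a) ⁻¹' C = (fun x => x * b) ⁻¹' C := congrArg Subtype.val h
    change (fun x => x * (a⁻¹ * b)) ⁻¹' C = C
    ext x
    change x * (a⁻¹ * b) ∈ C ↔ x ∈ C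
    have h2 : x * a⁻¹ * a ∈ C ↔ x * a⁻¹ * b ∈ C := Set.ext_iff.1 h1 (x * a⁻¹)
    rw [inv_mul_cancel_right, mul_assoc] at h2
    exact h2.symm
  have hS : S = ⊤ := hM S Subgroup.index_ne_zero_of_finite
  have hCu : C = Set.univ := by
    obtain ⟨A, hA, hx⟩ : ∃ A ∈ ({C} : Set (Set M)), C ⊆ A := ⟨C, rfl, subset_rfl⟩
    have hne : C.Nonempty := by
      by_contra hemp
      rw [Set.not_nonempty_iff_eq_empty] at hemp
      obtain ⟨D, hD, -⟩ := (hWirr C hCW).2 ∅ Set.finite_empty (Set.empty_subset _)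
        (by rw [hemp]; exact Set.empty_subset _)
      exact hD
    obtain ⟨c, hc⟩ := hne
    apply Set.eq_univ_of_forall
    intro x
    have h1 : x⁻¹ * c ∈ S := by
      rw [hS]
      exact Subgroup.mem_top _
    have h2 : x * (x⁻¹ * c) ∈ C ↔ x ∈ C := Set.ext_iff.1 h1 x
    rw [mul_inv_cancel_left] at h2
    exact h2.1 hc
  obtain ⟨D, ⟨i, rfl⟩, hD⟩ := (hWirr C hCW).2 (Set.range E) (Set.finite_range E)
    (by rintro _ ⟨i, rfl⟩; exact hE i) (fun x _ => by
      obtain ⟨i, hi⟩ := hcov x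
      exact ⟨_, ⟨i, rfl⟩, hi⟩)
  exact ⟨i, Set.eq_univ_of_univ_subset (hCu ▸ hD)⟩

end NC

end Pool.Agent.Chern
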