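import Pool.Agent.Chern.Defs3
import Pool.Agent.Chern.DvBasic
import Pool.Agent.Chern.ENS

/-!
# The subgroups above `P`, generation by `P` and a conjugate of `Q` (row NE)
-/

set_option autoImplicit false

namespace Pool.Agent.Chern

universe u v

namespace NE

variable {G : Type u} [Group G]

theorem relIndex_of_le {D K L : Subgroup G} (h : D.relIndex K ≠ 0) (hL : L ≤ K) : D.relIndex L ≠ 0 :=
  fun h0 => h (Subgroup.relIndex_eq_zero_of_le_right hL h0)

/-- an NFI subgroup of finite index in `K` is normal in `K` -/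
theorem conj_mem {D K : Subgroup G} (hD : NFI D) (hDK : D ≤ K) (hi : D.relIndex K ≠ 0) {k x : G} (hk : k ∈ K)
    (hx : x ∈ D) : k * x * k⁻¹ ∈ D := by
  have h1 : K.map (MulAut.conj k).toMonoidHom = K := by
    have := EN.cj_eq (g := k) (Q := K) (fun y hy => K.mul_mem (K.mul_mem hk hy) (K.inv_mem hk))
      (fun y hy => K.mul_mem (K.mul_mem (K.inv_mem hk) hy) hk)
    exact this
  have h2 : (D.comap (MulAut.conj k).toMonoidHom).relIndex K ≠ 0 := by
    rw [Subgroup.relIndex_comap, h1]
    exact hi
  have h3 := hD _ (relIndex_of_le h2 hDK) hx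
  simpa using h3

/-- the core of `m2P` -/
theorem m2 {N : ℕ} (hN : 0 < N) {P D K : Subgroup G} (hP : Dv N P) (hPK : P ≤ K) (hK : DvF N K) (hPD : P ≤ D) (P1 : P ≠ ⊥)
    (ti : ∀ g : G, ∀ x ∈ D, x ≠ 1 → g * x * g⁻¹ ∈ D → g ∈ Subgroup.normalizer (D : Set G))
    (ci : ∀ x ∈ D, x ≠ 1 → D.relIndex (Subgroup.centralizer {x}) ≠ 0) : K ≤ Subgroup.normalizer (D : Set G) := by
  obtain ⟨E, hEK, hEi, hE⟩ := hK
  have hEn := hE.nfi hN
  have hPE : P ≤ E := hP.nfi hN E (relIndex_of_le hEi hPK)
  obtain ⟨x, hx, hx1⟩ : ∃ x ∈ P, x ≠ 1 := by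
    by_contra hcon
    push Not at hcon
    exact P1 ((Subgroup.eq_bot_iff_forall _).2 hcon)
  have hEc : E ≤ Subgroup.centralizer {x} := fun e he =>
    Subgroup.mem_centralizer_singleton_iff.2 (hE.comm e he x (hPE hx))
  have hED : E ≤ D := hEn D (relIndex_of_le (ci x (hPD hx) hx1) hEc)
  intro k hk
  exact ti k x (hPD hx) hx1 (hED (conj_mem hEn hEK hEi hk (hPE hx)))

end NE

open NE in
theorem exists_neS {N : ℕ} (hN : 0 < N) {H : Type u} [Group H] {P Q DP DQ : Subgroup H} (h : TIsS N H P Q DP DQ) :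
    NES N H P Q DP DQ := by
  classical
  have hm2P : ∀ K : Subgroup H, K ≠ ⊤ → P ≤ K → K ≤ Subgroup.normalizer (DP : Set H) := fun K hK hP =>
    m2 hN h.dP hP (h.prP K hK hP) h.hP h.P1 h.tiP h.ciP
  have hm2Q : ∀ K : Subgroup H, K ≠ ⊤ → Q ≤ K → K ≤ Subgroup.normalizer (DQ : Set H) := fun K hK hQ =>
    m2 hN h.dQ hQ (h.prQ K hK hQ) h.hQ h.Q1 h.tiQ h.ciQ
  have hne : ∀ g : H, ∀ x ∈ DP, x ∈ cj g DQ → x = 1 := by
    intro g x hx hxg
    by_contra hx1
    have hD : cj g DQ = DP := h.meet g x hx hx1 hxg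
    have hQ' : cj g Q ≤ DP := by rw [← hD]; exact EN.cj_mono h.hQ
    obtain ⟨S, hS⟩ := h.fdc
    -- an element outside of the normaliser
    obtain ⟨s, hs⟩ : ∃ s : H, s ∉ Subgroup.normalizer (DP : Set H) := by
      by_contra hcon
      push Not at hcon
      exact h.nP (eq_top_iff.2 fun y _ => hcon y)
    have hint : ∀ d ∈ DP, s * d * s⁻¹ ∈ DP → d = 1 := by
      intro d hd hd'
      by_contra hd1
      exact hs (h.tiP s d hd hd1 hd')
    have hint' : ∀ d ∈ DP, s⁻¹ * d * s ∈ DP → d = 1 := by
      intro d hd hd'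
      by_contra hd1
      have h1 : s⁻¹ * d * s ≠ 1 := by
        intro h2
        apply hd1
        have : d = s * (s⁻¹ * d * s) * s⁻¹ := by group
        rw [this, h2]; group
      exact h1 (hint _ hd' (by
        have : s * (s⁻¹ * d * s) * s⁻¹ = d := by group
        rwa [this]))
    -- the double cosets of `P` and `Q'`
    have hS' : ∀ y : H, ∃ t ∈ S, ∃ p ∈ P, ∃ b ∈ cj g Q, y = p * (t * g⁻¹) * b := by
      intro y
      obtain ⟨t, ht, p, hp, q, hq, e⟩ := hS (y * g)
      refine ⟨t, ht, p, hp, g * q * g⁻¹, EN.conj_mem_cj hq, ?_⟩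
      have : y = (y * g) * g⁻¹ := by group
      rw [this, e]; group
    choose t ht p hp b hb e using hS'
    -- `P` has finite index in `DP`
    have hPi : P.relIndex DP ≠ 0 := by
      have hinj : ∀ d d' : DP, t (d * s) = t (d' * s) → (d : DP ⧸ P.subgroupOf DP) = d' := by
        intro d d' he
        have e1 := e ((d : H) * s)
        have e2 := e ((d' : H) * s)
        rw [← he] at e2
        -- d' s = (p' p⁻¹) d s (b⁻¹ b')
        have e3 : (d' : H) * s = (p (d' * s) * (p (d * s))⁻¹) * d * s * ((b (d * s))⁻¹ * b (d' * s)) := by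
          have e4 : t (d * s) * g⁻¹ = (p (d * s))⁻¹ * (d * s) * (b (d * s))⁻¹ := by
            nth_rw 3 [e1]; group
          rw [e4] at e2
          refine e2.trans ?_
          group
        set π := p (d' * s) * (p (d * s))⁻¹ with hπ
        set β := (b (d * s))⁻¹ * b (d' * s) with hβ
        have hπm : π ∈ P := P.mul_mem (hp _) (P.inv_mem (hp _))
        have hβm : β ∈ DP := hQ' ((cj g Q).mul_mem ((cj g Q).inv_mem (hb _)) (hb _))
        have e5 : s * β * s⁻¹ = (π * d)⁻¹ * d' := by
          have : (d' : H) = π * d * (s * β * s⁻¹) := by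
            calc (d' : H) = (d' * s) * s⁻¹ := by group
              _ = π * d * s * β * s⁻¹ := by rw [e3]
              _ = _ := by group
          rw [this]; group
        have hβ1 : β = 1 := hint β hβm (by
          rw [e5]
          exact DP.mul_mem (DP.inv_mem (DP.mul_mem (h.hP hπm) d.2)) d'.2)
        have e6 : (d' : H) = π * d := by
          rw [hβ1] at e5
          have : (π * d)⁻¹ * (d' : H) = 1 := by rw [← e5]; group
          exact (inv_mul_eq_one.1 this).symm
        rw [QuotientGroup.eq, Subgroup.mem_subgroupOf]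
        have : ((d⁻¹ * d' : DP) : H) = π := by
          have h1 : ((d⁻¹ * d' : DP) : H) = (d : H)⁻¹ * d' := rfl
          rw [h1, e6, ← h.dvP.comm d d.2 π (h.hP hπm)]
          group
        rw [this]
        exact hπm
      let f : DP ⧸ P.subgroupOf DP → S := fun q => ⟨t ((Quotient.out q : DP) * s), ht _⟩
      have hf : Function.Injective f := by
        intro a c hac
        have h1 := hinj (Quotient.out a) (Quotient.out c) (congrArg Subtype.val hac)
        rwa [QuotientGroup.out_eq', QuotientGroup.out_eq'] at h1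
      have : Finite (DP ⧸ P.subgroupOf DP) := Finite.of_injective f hf
      exact Subgroup.index_ne_zero_of_finite
    have hPD : DP ≤ P := h.dvP.nfi hN P hPi
    have hQi : (cj g Q).relIndex DP ≠ 0 := by
      have hinj : ∀ d d' : DP, t (s * d) = t (s * d') → (d : DP ⧸ (cj g Q).subgroupOf DP) = d' := by
        intro d d' he
        have e1 := e (s * (d : H))
        have e2 := e (s * (d' : H))
        rw [← he] at e2
        have e3 : s * (d' : H) = (p (s * d') * (p (s * d))⁻¹) * s * d * ((b (s * d))⁻¹ * b (s * d')) := by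
          have e4 : t (s * d) * g⁻¹ = (p (s * d))⁻¹ * (s * d) * (b (s * d))⁻¹ := by
            nth_rw 3 [e1]; group
          rw [e4] at e2
          refine e2.trans ?_
          group
        set π := p (s * d') * (p (s * d))⁻¹ with hπ
        set β := (b (s * d))⁻¹ * b (s * d') with hβ
        have hπm : π ∈ P := P.mul_mem (hp _) (P.inv_mem (hp _))
        have hβQ : β ∈ cj g Q := (cj g Q).mul_mem ((cj g Q).inv_mem (hb _)) (hb _)
        have hβm : β ∈ DP := hQ' hβQ
        have e5 : s⁻¹ * π * s = d' * β⁻¹ * (d : H)⁻¹ := by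
          have : (d' : H) = (s⁻¹ * π * s) * d * β := by
            calc (d' : H) = s⁻¹ * (s * d') := by group
              _ = s⁻¹ * (π * s * d * β) := by rw [e3]
              _ = _ := by group
          nth_rw 1 [this]
          group
        have hπ1 : π = 1 := hint' π (h.hP hπm) (by
          rw [e5]
          exact DP.mul_mem (DP.mul_mem d'.2 (DP.inv_mem hβm)) (DP.inv_mem d.2))
        have e6 : (d' : H) = d * β := by
          rw [hπ1] at e5
          have : (d' : H) * β⁻¹ * (d : H)⁻¹ = 1 := by rw [← e5]; group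
          have h1 : (d' : H) = ((d' : H) * β⁻¹ * (d : H)⁻¹) * d * β := by group
          rw [h1, this, one_mul]
        rw [QuotientGroup.eq, Subgroup.mem_subgroupOf]
        have : ((d⁻¹ * d' : DP) : H) = β := by
          have h1 : ((d⁻¹ * d' : DP) : H) = (d : H)⁻¹ * d' := rfl
          rw [h1, e6]
          group
        rw [this]
        exact hβQ
      let f : DP ⧸ (cj g Q).subgroupOf DP → S := fun q => ⟨t (s * (Quotient.out q : DP)), ht _⟩
      have hf : Function.Injective f := by
        intro a c hac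
        have h1 := hinj (Quotient.out a) (Quotient.out c) (congrArg Subtype.val hac)
        rwa [QuotientGroup.out_eq', QuotientGroup.out_eq'] at h1
      have : Finite (DP ⧸ (cj g Q).subgroupOf DP) := Finite.of_injective f hf
      exact Subgroup.index_ne_zero_of_finite
    have hQD : DP ≤ cj g Q := h.dvP.nfi hN _ hQi
    -- `DP` is finite
    have hfin : (DP : Set H).Finite := (h.fint g).subset fun y hy => Subgroup.mem_inf.2 ⟨hPD hy, hQD hy⟩
    have hbot : DP ≤ ⊥ := by
      refine h.dvP.nfi hN ⊥ ?_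
      have : Finite DP := hfin
      exact Subgroup.index_ne_zero_of_finite
    exact h.P1 (le_bot_iff.1 (h.hP.trans hbot))
  refine { h with m2P := hm2P, m2Q := hm2Q, ne := hne, gen := ?_ }
  intro g
  by_contra hK
  have h1 := hm2P _ hK le_sup_left
  have h2 : cj g Q ≤ Subgroup.normalizer (DP : Set H) := le_sup_right.trans h1
  have h3 : Dv N (cj g Q) := (h.dQ.map hN (MulAut.conj g).toMonoidHom).1
  have h4 : cj g Q ≤ DP := h3.nfi hN DP (relIndex_of_le h.norP h2)
  have h5 : ∀ q ∈ Q, q = 1 := by
    intro q hq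
    have h6 : g * q * g⁻¹ ∈ cj g Q := EN.conj_mem_cj hq
    have h7 := hne g _ (h4 h6) (EN.cj_mono h.hQ h6)
    have : q = g⁻¹ * (g * q * g⁻¹) * g := by group
    rw [this, h7]; group
  exact h.Q1 ((Subgroup.eq_bot_iff_forall _).2 h5)

end Pool.Agent.Chern
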