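import Pool.Agent.Chern.TI
import Pool.Agent.Chern.Defs3

/-!
# Row TI2: the trivial intersection property without local finiteness
-/

set_option autoImplicit false

namespace Pool.Agent.Chern

universe u

theorem exists_tiS {N : ℕ} (hN : 0 < N) {H : Type u} [Group H] {P Q : Subgroup H} (h : CritS N H P Q) :
    ∃ DP DQ : Subgroup H, TIsS N H P Q DP DQ := by
  have hP1 : P ≠ ⊥ := by
    intro hP
    have hfin : Finite (H ⧸ Q) := by
      obtain ⟨S, hS⟩ := h.fdc
      apply Finite.of_surjective (fun g : S => ((g : H) : H ⧸ Q))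
      intro q
      obtain ⟨m, rfl⟩ := QuotientGroup.mk_surjective q
      obtain ⟨g, hg, p, hp, q, hq, rfl⟩ := hS m
      rw [hP, Subgroup.mem_bot] at hp
      refine ⟨⟨g, hg⟩, ?_⟩
      rw [QuotientGroup.eq, hp, one_mul, ← mul_assoc, inv_mul_cancel, one_mul]
      exact hq
    have : Q = ⊤ := h.nfi Q Subgroup.index_ne_zero_of_finite
    apply h.bad
    rw [← this]
    exact ⟨Q, le_rfl, by rw [Subgroup.relIndex_self]; exact one_ne_zero, h.dQ⟩
  have hQ1 : Q ≠ ⊥ := by
    intro hQ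
    have hfin : Finite (H ⧸ P) := by
      obtain ⟨S, hS⟩ := h.fdc
      apply Finite.of_surjective (fun g : S => (((g : H)⁻¹ : H) : H ⧸ P))
      intro q
      obtain ⟨m, rfl⟩ := QuotientGroup.mk_surjective q
      obtain ⟨g, hg, p, hp, q, hq, hm⟩ := hS m⁻¹
      rw [hQ, Subgroup.mem_bot] at hq
      refine ⟨⟨g, hg⟩, ?_⟩
      have : m = g⁻¹ * p⁻¹ := by
        rw [hq, mul_one] at hm
        rw [← inv_inv m, hm, mul_inv_rev]
      rw [QuotientGroup.eq, this, ← mul_assoc, inv_inv, mul_inv_cancel, one_mul]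
      exact P.inv_mem hp
    have : P = ⊤ := h.nfi P Subgroup.index_ne_zero_of_finite
    apply h.bad
    rw [← this]
    exact ⟨P, le_rfl, by rw [Subgroup.relIndex_self]; exact one_ne_zero, h.dP⟩
  obtain ⟨DP, hDP, hPD, hiP, huP, hntP, hnP⟩ := ti_one hN h.dP hP1 h.nfi h.prP h.cen
  obtain ⟨DQ, hDQ, hQD, hiQ, huQ, hntQ, hnQ⟩ := ti_one hN h.dQ hQ1 h.nfi h.prQ h.cen
  have hti : ∀ (D : Subgroup H), Dv N D →
      (∀ x ∈ D, x ≠ 1 → D ≤ Subgroup.centralizer {x} ∧ D.relIndex (Subgroup.centralizer {x}) ≠ 0) →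
      (∀ x ∈ D, x ≠ 1 → ∀ D' : Subgroup H, D' ≤ Subgroup.centralizer {x} →
        D'.relIndex (Subgroup.centralizer {x}) ≠ 0 → Dv N D' → D' = D) →
      ∀ g : H, ∀ x ∈ D, x ≠ 1 → g * x * g⁻¹ ∈ D → g ∈ Subgroup.normalizer (D : Set H) := by
    intro D hD hi hu g x hx hx1 hgx
    apply mem_normalizer_of_cj_eq
    have hne : g * x * g⁻¹ ≠ 1 := by
      intro he
      apply hx1
      have : x = g⁻¹ * (g * x * g⁻¹) * g := by group
      rw [this, he]; group
    apply hu _ hgx hne _ ?_ ?_ (hD.cj g)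
    · rw [← cj_centralizer]; exact cj_le_cj (hi x hx hx1).1
    · rw [← cj_centralizer, relIndex_cj]; exact (hi x hx hx1).2
  refine ⟨DP, DQ, { h with
    hP := hPD
    hQ := hQD
    P1 := hP1
    Q1 := hQ1
    dvP := hDP
    dvQ := hDQ
    tiP := hti DP hDP hiP huP
    tiQ := hti DQ hDQ hiQ huQ
    cenP := ?_
    cenQ := ?_
    ciP := fun x hx hx1 => (hiP x hx hx1).2
    ciQ := fun x hx hx1 => (hiQ x hx hx1).2
    norP := hnP
    norQ := hnQ
    nP := hntP
    nQ := hntQ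
    meet := ?_ }⟩
  · intro x hx hx1 g hg
    apply hti DP hDP hiP huP g x hx hx1
    rw [Subgroup.mem_centralizer_singleton_iff.1 hg, mul_inv_cancel_right]
    exact hx
  · intro x hx hx1 g hg
    apply hti DQ hDQ hiQ huQ g x hx hx1
    rw [Subgroup.mem_centralizer_singleton_iff.1 hg, mul_inv_cancel_right]
    exact hx
  · intro g x hx hx1 hxg
    have hy := mem_cj.1 hxg
    set y := g⁻¹ * x * g with hydef
    have hxy : g * y * g⁻¹ = x := by rw [hydef]; group
    have hy1 : y ≠ 1 := by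
      intro he
      apply hx1
      rw [← hxy, he]; group
    apply huP x hx hx1 _ ?_ ?_ (hDQ.cj g)
    · rw [← hxy, ← cj_centralizer]; exact cj_le_cj (hiQ y hy hy1).1
    · rw [← hxy, ← cj_centralizer, relIndex_cj]; exact (hiQ y hy hy1).2

end Pool.Agent.Chern
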