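import Pool.Agent.Chern.Defs3
import Pool.Agent.Chern.DvBasic
import Pool.Agent.Chern.RedB
import Pool.Agent.Chern.ENS

/-!
# From the normal subgroup `E` to `T` (row TT)
-/

set_option autoImplicit false

namespace Pool.Agent.Chern

universe u v

namespace TT

/-- a finitely generated abelian group without proper subgroups of finite index is trivial -/
theorem triv_of_comm {X : Type u} [Group X] (hc : ∀ x y : X, x * y = y * x) (hfg : Group.FG X)
    (hnfi : ∀ D : Subgroup X, D.index ≠ 0 → D = ⊤) : ∀ x : X, x = 1 := by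
  classical
  let _ : CommGroup X := { (inferInstance : Group X) with mul_comm := hc }
  -- squares
  let sq : X →* X := powMonoidHom 2
  have hq : Group.FG (X ⧸ sq.range) := inferInstance
  have htor : IsMulTorsion (X ⧸ sq.range) := by
    intro y
    obtain ⟨x, rfl⟩ := QuotientGroup.mk'_surjective sq.range y
    rw [isOfFinOrder_iff_pow_eq_one]
    refine ⟨2, by norm_num, ?_⟩
    rw [← map_pow]
    exact (QuotientGroup.eq_one_iff _).2 ⟨x, rfl⟩
  have hfin : Finite (X ⧸ sq.range) := CommGroup.finite_of_fg_isMulTorsion _ htor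
  have hr : sq.range = ⊤ := hnfi _ Subgroup.index_ne_zero_of_finite
  -- Nakayama
  have hfgA : AddGroup.FG (Additive X) := inferInstance
  have hM : Module.Finite ℤ (Additive X) := Module.Finite.iff_addGroup_fg.2 hfgA
  obtain ⟨r, hr1, hr2⟩ := Submodule.exists_sub_one_mem_and_smul_eq_zero_of_fg_of_le_smul (Ideal.span {(2 : ℤ)})
    (⊤ : Submodule ℤ (Additive X)) hM.1 (by
      intro x _
      have h1 : x.toMul ∈ sq.range := by rw [hr]; trivial
      obtain ⟨y, hy⟩ := h1
      have h2 : x = (2 : ℤ) • Additive.ofMul y := by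
        have : x = Additive.ofMul (y ^ 2) := congrArg Additive.ofMul hy.symm
        rw [this, ofMul_pow]
        exact_mod_cast (natCast_zsmul (Additive.ofMul y) 2).symm
      rw [h2]
      exact Submodule.smul_mem_smul (Ideal.mem_span_singleton_self 2) trivial)
  have hr0 : r ≠ 0 := by
    rintro rfl
    rw [Ideal.mem_span_singleton] at hr1
    omega
  have htor2 : IsMulTorsion X := by
    intro x
    rw [isOfFinOrder_iff_zpow_eq_one]
    refine ⟨r, hr0, ?_⟩
    have := hr2 (Additive.ofMul x) trivial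
    exact this
  have hfin2 : Finite X := CommGroup.finite_of_fg_isMulTorsion X htor2
  have hb : (⊥ : Subgroup X) = ⊤ := hnfi ⊥ Subgroup.index_ne_zero_of_finite
  intro x
  have : x ∈ (⊥ : Subgroup X) := by rw [hb]; trivial
  exact Subgroup.mem_bot.1 this

theorem nfi_top {G : Type u} [Group G] {T : Subgroup G} (h : NFI T) (D : Subgroup T) (hD : D.index ≠ 0) : D = ⊤ := by
  have h1 : (D.map T.subtype).relIndex T = D.index := by
    rw [Subgroup.relIndex, Subgroup.subgroupOf, Subgroup.comap_map_eq_self_of_injective T.subtype_injective]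
  have h2 := h (D.map T.subtype) (by rwa [h1])
  rw [eq_top_iff]
  intro x _
  obtain ⟨y, hy, e⟩ := Subgroup.mem_map.1 (h2 x.2)
  have : y = x := Subtype.ext e
  rwa [← this]

/-- the image in an abelian group is trivial -/
theorem map_eq_one {G : Type u} [Group G] {T : Subgroup G} (h : NFI T) (hfg : T.FG) {A : Type u} [CommGroup A]
    (φ : G →* A) : ∀ t ∈ T, φ t = 1 := by
  have hTfg : Group.FG T := (Group.fg_iff_subgroup_fg T).2 hfg
  let ψ : T →* (φ.comp T.subtype).range := (φ.comp T.subtype).rangeRestrict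
  have hψ : Function.Surjective ψ := MonoidHom.rangeRestrict_surjective _
  have hfg2 : Group.FG (φ.comp T.subtype).range := Group.fg_of_surjective hψ
  have h1 := triv_of_comm (X := (φ.comp T.subtype).range) (fun x y => mul_comm x y) hfg2 (fun D hD => by
    have h2 : (D.comap ψ).index ≠ 0 := by rwa [Subgroup.index_comap_of_surjective D hψ]
    have h3 := nfi_top h _ h2
    rw [eq_top_iff]
    intro y _
    obtain ⟨x, rfl⟩ := hψ y
    have : x ∈ D.comap ψ := by rw [h3]; trivial
    exact this)
  intro t ht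
  have h4 := h1 (ψ ⟨t, ht⟩)
  exact congrArg Subtype.val h4

theorem le_commutator {G : Type u} [Group G] {T : Subgroup G} (h : NFI T) (hfg : T.FG) : T ≤ commutator G := by
  intro t ht
  rw [← Abelianization.ker_of, MonoidHom.mem_ker]
  exact map_eq_one h hfg Abelianization.of t ht

theorem not_comm {G : Type u} [Group G] {T : Subgroup G} (h : NFI T) (hfg : T.FG) (h1 : T ≠ ⊥)
    (hc : ∀ x ∈ T, ∀ y ∈ T, x * y = y * x) : False := by
  have hTfg : Group.FG T := (Group.fg_iff_subgroup_fg T).2 hfg
  have h2 := triv_of_comm (X := T) (fun x y => Subtype.ext (hc _ x.2 _ y.2)) hTfg (nfi_top h)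
  exact h1 ((Subgroup.eq_bot_iff_forall _).2 fun x hx => congrArg Subtype.val (h2 ⟨x, hx⟩))

/-- the quotient by a normal subgroup which generates everything together with an abelian subgroup is abelian -/
theorem commutator_le_of_sup {G : Type u} [Group G] {C P : Subgroup G} (hC : C.Normal) (hP : ∀ x ∈ P, ∀ y ∈ P, x * y = y * x)
    (h : C ⊔ P = ⊤) : commutator G ≤ C := by
  rw [commutator_def, Subgroup.commutator_le]
  intro a _ b _
  have h1 : ∀ g : G, ∃ p ∈ P, (g : G ⧸ C) = p := by
    intro g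
    have hg : g ∈ C ⊔ P := by rw [h]; trivial
    obtain ⟨c, hc, p, hp, rfl⟩ := Subgroup.mem_sup_of_normal_left.1 hg
    refine ⟨p, hp, ?_⟩
    rw [QuotientGroup.mk_mul, (QuotientGroup.eq_one_iff c).2 hc, one_mul]
  obtain ⟨p, hp, e1⟩ := h1 a
  obtain ⟨q, hq, e2⟩ := h1 b
  rw [← QuotientGroup.eq_one_iff, commutatorElement_def, QuotientGroup.mk_mul, QuotientGroup.mk_mul, QuotientGroup.mk_mul,
    QuotientGroup.mk_inv, QuotientGroup.mk_inv, e1, e2, ← QuotientGroup.mk_inv, ← QuotientGroup.mk_inv, ← QuotientGroup.mk_mul,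
    ← QuotientGroup.mk_mul, ← QuotientGroup.mk_mul, hP p hp q hq]
  have : q * p * p⁻¹ * q⁻¹ = 1 := by group
  rw [this]
  rfl

theorem finite_gen {G : Type u} [Group G] (D : Subgroup G) (z : G) {x : G}
    (hx : x ∈ Subgroup.closure {x : G | ∃ a ∈ D, x = a * z * a⁻¹}) :
    ∃ Y : Finset G, (∀ y ∈ Y, y ∈ D) ∧ x ∈ Subgroup.closure {x : G | ∃ y ∈ Y, x = y * z * y⁻¹} := by
  classical
  induction hx using Subgroup.closure_induction with
  | mem x hx =>
    obtain ⟨a, ha, rfl⟩ := hx
    exact ⟨{a}, by simpa using ha, Subgroup.subset_closure ⟨a, by simp, rfl⟩⟩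
  | one => exact ⟨∅, by simp, Subgroup.one_mem _⟩
  | mul x y _ _ hx hy =>
    obtain ⟨Y1, h1, h2⟩ := hx
    obtain ⟨Y2, h3, h4⟩ := hy
    refine ⟨Y1 ∪ Y2, fun w hw => (Finset.mem_union.1 hw).elim (h1 w) (h3 w), Subgroup.mul_mem _ ?_ ?_⟩
    · refine Subgroup.closure_mono ?_ h2
      rintro _ ⟨w, hw, rfl⟩
      exact ⟨w, Finset.mem_union_left _ hw, rfl⟩
    · refine Subgroup.closure_mono ?_ h4
      rintro _ ⟨w, hw, rfl⟩
      exact ⟨w, Finset.mem_union_right _ hw, rfl⟩
  | inv x _ hx =>
    obtain ⟨Y1, h1, h2⟩ := hx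
    exact ⟨Y1, h1, Subgroup.inv_mem _ h2⟩

end TT

open TT in
theorem exists_alg {N : ℕ} (hN : 0 < N) {H : Type u} [Group H] {P Q DP DQ : Subgroup H} (h : NES N H P Q DP DQ)
    {g : H} {R : Finset H} (hR : ∀ x ∈ R, (x ∈ P ∨ x ∈ cj g Q) ∧ IsOfFinOrder x)
    (hn : (Subgroup.closure (R : Set H)).Normal) (hinf : ¬ ((Subgroup.closure (R : Set H)) : Set H).Finite) :
    ∃ T : Subgroup H, Alg H DP DQ T := by
  classical
  have hPn := h.dP.nfi hN
  have hQn := (h.dQ.map hN (MulAut.conj g).toMonoidHom).1.nfi hN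
  obtain ⟨T, hTn, hTfg, hTi, hT1⟩ := red_b P (cj g Q) (h.gen g) hPn hQn R hR hn hinf
  have hTc : T ≤ commutator H := le_commutator hTi hTfg
  have hnab := not_comm hTi hTfg hT1
  refine ⟨T, ?_⟩
  -- the centraliser of `T`
  have hcT : ∀ x : H, (∀ t ∈ T, x * t = t * x) → x = 1 := by
    intro x hx
    set C := Subgroup.centralizer (T : Set H) with hC
    have hCn : C.Normal := Subgroup.normal_centralizer
    have hxC : x ∈ C := Subgroup.mem_centralizer_iff.2 fun t ht => (hx t ht).symm
    by_cases htop : C ⊔ P = ⊤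
    · exfalso
      have h1 : T ≤ C := hTc.trans (commutator_le_of_sup hCn h.dP.comm htop)
      exact hnab fun a ha b hb => (Subgroup.mem_centralizer_iff.1 (h1 hb) a ha)
    · have h1 : C ≤ Subgroup.normalizer (DP : Set H) := le_sup_left.trans (h.m2P _ htop le_sup_right)
      obtain ⟨s, hs⟩ : ∃ s : H, s ∉ Subgroup.normalizer (DP : Set H) := by
        by_contra hcon
        push Not at hcon
        exact h.nP (eq_top_iff.2 fun y _ => hcon y)
      have h2 : DP.relIndex C ≠ 0 := fun h0 => h.norP (Subgroup.relIndex_eq_zero_of_le_right h1 h0)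
      have h3 : (DP.comap (MulAut.conj s).toMonoidHom).relIndex C ≠ 0 := by
        rw [Subgroup.relIndex_comap]
        have : C.map (MulAut.conj s).toMonoidHom = C :=
          EN.cj_eq (g := s) (fun y hy => hCn.conj_mem y hy s) (fun y hy => by
            have := hCn.conj_mem y hy s⁻¹
            simpa using this)
        rw [this]
        exact h2
      have h4 : (DP ⊓ DP.comap (MulAut.conj s).toMonoidHom).relIndex C ≠ 0 := Subgroup.relIndex_inf_ne_zero h2 h3
      have h5 : DP ⊓ DP.comap (MulAut.conj s).toMonoidHom = ⊥ := by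
        rw [Subgroup.eq_bot_iff_forall]
        intro y hy
        obtain ⟨hy1, hy2⟩ := Subgroup.mem_inf.1 hy
        by_contra hy3
        exact hs (h.tiP s y hy1 hy3 (by simpa using hy2))
      rw [h5] at h4
      have hfin : Finite C := by
        have h6 : (⊥ : Subgroup C).index ≠ 0 := by
          have : (⊥ : Subgroup H).subgroupOf C = ⊥ := by
            rw [Subgroup.eq_bot_iff_forall]
            intro y hy
            exact Subtype.ext (Subgroup.mem_bot.1 (Subgroup.mem_subgroupOf.1 hy))
          rw [← this]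
          exact h4
        rw [Subgroup.index_bot] at h6
        exact Nat.finite_of_card_ne_zero h6
      -- `x` is central
      have h7 : (Subgroup.centralizer {x}).index ≠ 0 := by
        let f : H ⧸ Subgroup.centralizer {x} → C := fun q => ⟨(Quotient.out q : H) * x * (Quotient.out q : H)⁻¹, hCn.conj_mem x hxC _⟩
        have hf : Function.Injective f := by
          intro a b hab
          have e1 : (Quotient.out a : H) * x * (Quotient.out a : H)⁻¹ = (Quotient.out b : H) * x * (Quotient.out b : H)⁻¹ :=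
            congrArg Subtype.val hab
          have e2 : ((Quotient.out a : H) : H ⧸ Subgroup.centralizer {x}) = (Quotient.out b : H) := by
            rw [QuotientGroup.eq, Subgroup.mem_centralizer_singleton_iff]
            have e3 : (Quotient.out b : H) * x = (Quotient.out a : H) * x * (Quotient.out a : H)⁻¹ * (Quotient.out b : H) := by
              rw [e1]; group
            rw [mul_assoc, e3]; group
          rwa [QuotientGroup.out_eq', QuotientGroup.out_eq'] at e2
        have : Finite (H ⧸ Subgroup.centralizer {x}) := Finite.of_injective f hf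
        exact Subgroup.index_ne_zero_of_finite
      have h8 := h.nfi _ h7
      refine h.cen x fun y => ?_
      have : y ∈ Subgroup.centralizer {x} := by rw [h8]; trivial
      exact (Subgroup.mem_centralizer_singleton_iff.1 this).symm
  refine { cA := h.dvP.comm, cB := h.dvQ.comm, fdc := ?_, nfiA := h.dvP.nfi hN, A1 := ?_, tiA := h.tiP, tiB := h.tiQ,
           cenA := h.cenP, cenB := h.cenQ, norA := h.norP, norB := h.norQ, nA := ?_, ne := h.ne, nT := hTn, cT := hcT, gT := ?_ }
  · obtain ⟨S, hS⟩ := h.fdc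
    refine ⟨S, fun y => ?_⟩
    obtain ⟨s, hs, p, hp, q, hq, e⟩ := hS y
    exact ⟨s, hs, p, h.hP hp, q, h.hQ hq, e⟩
  · intro hb
    exact h.P1 (le_bot_iff.1 (hb ▸ h.hP))
  · by_contra hcon
    exact h.nP (h.nfi _ hcon)
  · intro z hz
    set Nz := Subgroup.closure {x : H | ∃ a ∈ DP, x = a * z * a⁻¹} with hNz
    have hzN : z ∈ Nz := Subgroup.subset_closure ⟨1, DP.one_mem, by group⟩
    have hconj : ∀ b ∈ DP, ∀ x ∈ Nz, b * x * b⁻¹ ∈ Nz := by
      intro b hb x hx
      have : Nz ≤ Nz.comap (MulAut.conj b).toMonoidHom := by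
        rw [hNz, Subgroup.closure_le]
        rintro _ ⟨a, ha, rfl⟩
        refine Subgroup.subset_closure ⟨b * a, DP.mul_mem hb ha, ?_⟩
        show b * (a * z * a⁻¹) * b⁻¹ = b * a * z * (b * a)⁻¹
        group
      exact this hx
    have hsup : Nz ⊔ DP = ⊤ := by
      by_contra hK
      exact hz (h.m2P _ hK (h.hP.trans le_sup_right) ((le_sup_left : Nz ≤ Nz ⊔ DP) hzN))
    have hNn : Nz.Normal := by
      rw [← Subgroup.normalizer_eq_top_iff, eq_top_iff, ← hsup]
      refine sup_le Subgroup.le_normalizer fun b hb => EN.mem_normalizer_of_cj (EN.cj_eq (hconj b hb) fun x hx => ?_)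
      have := hconj b⁻¹ (DP.inv_mem hb) x hx
      rwa [inv_inv] at this
    have hTN : T ≤ Nz := hTc.trans (commutator_le_of_sup hNn h.dvP.comm hsup)
    obtain ⟨S, hS⟩ := hTfg
    have hmem : ∀ s : H, s ∈ S → ∃ Y : Finset H, (∀ y ∈ Y, y ∈ DP) ∧ s ∈ Subgroup.closure {x : H | ∃ y ∈ Y, x = y * z * y⁻¹} :=
      fun s hs => finite_gen DP z (hTN (hS ▸ Subgroup.subset_closure hs))
    choose! Y hY1 hY2 using hmem
    refine ⟨S.biUnion Y, ?_, ?_⟩
    · intro y hy
      obtain ⟨s, hs, hy'⟩ := Finset.mem_biUnion.1 hy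
      exact hY1 s hs y hy'
    · rw [← hS, Subgroup.closure_le]
      intro s hs
      refine Subgroup.closure_mono ?_ (hY2 s hs)
      rintro _ ⟨y, hy, rfl⟩
      exact ⟨y, Finset.mem_biUnion.2 ⟨s, hs, hy⟩, rfl⟩

end Pool.Agent.Chern
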