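import Pool.Agent.Chern.MB2S
import Pool.Agent.Chern.TI2S
import Pool.Agent.Chern.NES
import Pool.Agent.Chern.ENS
import Pool.Agent.Chern.TTS
import Pool.Agent.Chern.ASMS
import Pool.Agent.Chern.FINS
import Pool.Agent.Chern.LFC

/-!
# Every product of two Chernikov groups is a Chernikov group
-/

set_option autoImplicit false

namespace Pool.Agent.Chern

universe u

/-- **Theorem T***: a group which is the union of finitely many double cosets `P g Q` of divisible abelian Chernikov subgroups
`P`, `Q`, such that `P` has finite intersections with the conjugates of `Q`, has a divisible abelian Chernikov subgroup of finite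
index -/
theorem dvF_of_trS {N : ℕ} (hN : 0 < N) {H : Type u} [Group H] {P Q : Subgroup H} (h : TrS N H P Q) :
    DvF N (⊤ : Subgroup H) := by
  by_contra hbad
  obtain ⟨H', _, P', Q', hcr⟩ := exists_critS hN h hbad
  obtain ⟨DP, DQ, hti⟩ := exists_tiS hN hcr
  have hne := exists_neS hN hti
  by_cases hlf : LF H'
  · exact hne.bad (dvF_of_tr hN ⟨hlf, hne.dP, hne.dQ, hne.fdc, hne.fint⟩)
  · obtain ⟨g, R, h1, h2, h3⟩ := exists_en hN hne hlf
    obtain ⟨T, hT⟩ := exists_alg hN hne h1 h2 h3
    exact alg_false hT

/-- **main theorem**: every product of two Chernikov groups is a Chernikov group -/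
theorem chernikov_of_prod {G : Type u} [Group G] (A B : Subgroup G) (hA : IsChernikov A) (hB : IsChernikov B)
    (hAB : ∀ g : G, ∃ a ∈ A, ∃ b ∈ B, a * b = g) : IsChernikov G :=
  chernikov_of_trS (fun _ hN _ _ _ _ h => dvF_of_trS hN h) A B hA hB hAB

end Pool.Agent.Chern
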