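import Pool.Agent.Chern.Defs3
import Pool.Agent.Chern.Ito
import Pool.Agent.Chern.DYNS

/-!
# Row REC: Ito's argument and the choice of `u`
-/

set_option autoImplicit false

namespace Pool.Agent.Chern

universe u v

section

variable {H : Type u} [Group H] {A B : Subgroup H}

/-- a nontrivial subgroup without proper subgroups of finite index is infinite -/
theorem infinite_of_nfi (hA : NFI A) (h1 : A ≠ ⊥) : Infinite A := by
  by_contra hf
  rw [not_infinite_iff_finite] at hf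
  apply h1
  rw [eq_bot_iff]
  apply hA
  rw [Subgroup.relIndex_bot_left]
  exact Nat.card_pos.ne'

/-- `{u ∈ A : g u g⁻¹ ∈ N(A)}` is finite for `g ∉ N(A)` -/
theorem finite_conj_mem (tiA : ∀ g : H, ∀ x ∈ A, x ≠ 1 → g * x * g⁻¹ ∈ A →
      g ∈ Subgroup.normalizer (A : Set H))
    (norA : A.relIndex (Subgroup.normalizer (A : Set H)) ≠ 0) {g : H}
    (hg : g ∉ Subgroup.normalizer (A : Set H)) :
    {u : A | g * u * g⁻¹ ∈ Subgroup.normalizer (A : Set H)}.Finite := by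
  have hfi : (A.subgroupOf (Subgroup.normalizer (A : Set H))).FiniteIndex := ⟨norA⟩
  have hfin : Finite (↥(Subgroup.normalizer (A : Set H)) ⧸
    A.subgroupOf (Subgroup.normalizer (A : Set H))) := inferInstance
  rw [← Set.finite_coe_iff]
  let f : {u : A | g * u * g⁻¹ ∈ Subgroup.normalizer (A : Set H)} →
      ↥(Subgroup.normalizer (A : Set H)) ⧸ A.subgroupOf (Subgroup.normalizer (A : Set H)) :=
    fun u => QuotientGroup.mk ⟨g * (u.1 : H) * g⁻¹, u.2⟩
  apply Finite.of_injective f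
  intro u u' huu
  have h1 := QuotientGroup.eq.1 huu
  rw [Subgroup.mem_subgroupOf] at h1
  have h2 : g * ((u.1 : H)⁻¹ * (u'.1 : H)) * g⁻¹ ∈ A := by
    have e : g * ((u.1 : H)⁻¹ * (u'.1 : H)) * g⁻¹ =
        (g * (u.1 : H) * g⁻¹)⁻¹ * (g * (u'.1 : H) * g⁻¹) := by group
    rw [e]
    simpa using h1
  have h3 : (u.1 : H)⁻¹ * (u'.1 : H) = 1 := by
    by_contra h4
    exact hg (tiA g _ (A.mul_mem (A.inv_mem u.1.2) u'.1.2) h4 h2)
  have h4 : (u.1 : H) = (u'.1 : H) := inv_mul_eq_one.1 h3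
  exact Subtype.ext (Subtype.ext h4)

end

theorem rec_of_good {H : Type u} [Group H] {A B T : Subgroup H} (h : Alg H A B T)
    (hgood : ∃ Good : Finset H → Prop,
      (∀ F F' : Finset H, F ⊆ F' → Good F' → Good F) ∧
      (∀ F : Finset H, ∀ a ∈ A, Good F → ∀ F' : Finset H, (∀ x ∈ F', ∃ y ∈ F, x = a * y) → Good F') ∧
      (∀ F : Finset H, Good F → ∃ h : H, ∀ x ∈ F, ∃ b ∈ cj h B, ∃ a ∈ A, x = b * a) ∧
      (∀ F : Finset H, Good F → ∃ (n : ℕ) (χ : H → Fin n), ∀ a ∈ A, ∀ b ∈ A, χ a = χ b →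
        ∀ F' : Finset H, (∀ x ∈ F', x ∈ F ∨ ∃ y ∈ F, x = a * b⁻¹ * y) → Good F') ∧
      (∃ g : H, g ∉ Subgroup.normalizer (A : Set H) ∧ Good {g})) :
    ∃ (K : Type u) (_ : CommGroup K) (ι : K →* H) (z : H) (Gd : Finset K → Prop),
      Function.Injective ι ∧ ι.range = A ∧ z ∉ Subgroup.normalizer (A : Set H) ∧ Rec H K ι z Gd := by
  classical
  obtain ⟨Good, hmono, htr, hco, hret, g0, hg0, hGg0⟩ := hgood
  have hAM : A ≤ Subgroup.normalizer (A : Set H) := Subgroup.le_normalizer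
  have hAinf : Infinite A := infinite_of_nfi h.nfiA h.A1
  obtain ⟨n, χ, hχ⟩ := hret {g0} hGg0
  obtain ⟨i, hi⟩ := Finite.exists_infinite_fiber (fun a : A => χ a)
  have hi' : Set.Infinite ((fun a : A => χ a) ⁻¹' {i}) := Set.infinite_coe_iff.1 hi
  obtain ⟨b, hb⟩ := hi'.nonempty
  have hS := finite_conj_mem h.tiA h.norA hg0
  -- the choice of `u = a * b⁻¹`
  have hinf2 : Set.Infinite ((fun a : A => a * b⁻¹) '' ((fun a : A => χ a) ⁻¹' {i})) :=
    hi'.image (mul_left_injective b⁻¹).injOn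
  obtain ⟨u, ⟨a, ha, hau⟩, hu⟩ := (hinf2.sdiff hS).nonempty
  have hu2 : g0 * (u : H) * g0⁻¹ ∉ Subgroup.normalizer (A : Set H) := hu
  have hab : χ (a : H) = χ (b : H) := by
    have e1 : χ (a : H) = i := ha
    have e2 : χ (b : H) = i := hb
    rw [e1, e2]
  have hGu : Good {g0, (u : H) * g0} := by
    apply hχ a a.2 b b.2 hab
    intro x hx
    rw [Finset.mem_insert, Finset.mem_singleton] at hx
    rcases hx with hx | hx
    · left
      rw [hx]
      exact Finset.mem_singleton_self _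
    · right
      refine ⟨g0, Finset.mem_singleton_self _, ?_⟩
      rw [hx, ← hau]
      simp
  let cg : CommGroup A :=
    { (inferInstance : Group A) with mul_comm := fun x y => Subtype.ext (h.cA x x.2 y y.2) }
  let S : Finset A → Finset H := fun W =>
    W.image (fun w : A => (w : H) * g0) ∪ W.image (fun w : A => (w : H) * ((u : H) * g0))
  have hSmem : ∀ (W : Finset A) (x : H), x ∈ S W ↔
      (∃ w ∈ W, (w : H) * g0 = x) ∨ ∃ w ∈ W, (w : H) * ((u : H) * g0) = x := by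
    intro W x
    simp only [S, Finset.mem_union, Finset.mem_image]
  refine ⟨A, cg, A.subtype, (u : H)⁻¹ * g0 * u * g0⁻¹, fun W => Good (S W), ?_, ?_, ?_, ?_⟩
  · exact Subtype.val_injective
  · exact Subgroup.range_subtype A
  · intro hz
    apply hu2
    have e : g0 * (u : H) * g0⁻¹ = (u : H) * ((u : H)⁻¹ * g0 * u * g0⁻¹) := by group
    rw [e]
    exact (Subgroup.normalizer (A : Set H)).mul_mem (hAM u.2) hz
  · refine ⟨?_, ?_, ?_, ?_, ?_⟩
    · -- one
      apply hmono _ _ _ hGu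
      intro x hx
      rw [hSmem] at hx
      rw [Finset.mem_insert, Finset.mem_singleton]
      rcases hx with ⟨w, hw, hx⟩ | ⟨w, hw, hx⟩
      · left
        rw [Finset.mem_singleton] at hw
        rw [← hx, hw]
        simp
      · right
        rw [Finset.mem_singleton] at hw
        rw [← hx, hw]
        simp
    · -- mono
      intro W W' hWW hG
      apply hmono _ _ _ hG
      intro x hx
      rw [hSmem] at hx ⊢
      rcases hx with ⟨w, hw, hx⟩ | ⟨w, hw, hx⟩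
      · exact Or.inl ⟨w, hWW hw, hx⟩
      · exact Or.inr ⟨w, hWW hw, hx⟩
    · -- tr
      intro W a' hG W' hW'
      apply htr (S W) (a' : H) a'.2 hG
      intro x hx
      rw [hSmem] at hx
      rcases hx with ⟨w, hw, hx⟩ | ⟨w, hw, hx⟩
      · obtain ⟨w0, hw0, e⟩ := hW' w hw
        refine ⟨(w0 : H) * g0, (hSmem _ _).2 (Or.inl ⟨w0, hw0, rfl⟩), ?_⟩
        rw [← hx, e, ← mul_assoc]
        rfl
      · obtain ⟨w0, hw0, e⟩ := hW' w hw
        refine ⟨(w0 : H) * ((u : H) * g0), (hSmem _ _).2 (Or.inr ⟨w0, hw0, rfl⟩), ?_⟩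
        rw [← hx, e, ← mul_assoc, ← mul_assoc, ← mul_assoc]
        rfl
    · -- com
      intro W hG w hw w' hw'
      obtain ⟨hh, hhh⟩ := hco _ hG
      obtain ⟨b1, hb1, a1, ha1, e1⟩ := hhh ((w : H) * g0) ((hSmem _ _).2 (Or.inl ⟨w, hw, rfl⟩))
      obtain ⟨b2, hb2, a2, ha2, e2⟩ := hhh ((w' : H) * g0) ((hSmem _ _).2 (Or.inl ⟨w', hw', rfl⟩))
      obtain ⟨b3, hb3, a3, ha3, e3⟩ := hhh ((w : H) * ((u : H) * g0))
        ((hSmem _ _).2 (Or.inr ⟨w, hw, rfl⟩))
      obtain ⟨b4, hb4, a4, ha4, e4⟩ := hhh ((w' : H) * ((u : H) * g0))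
        ((hSmem _ _).2 (Or.inr ⟨w', hw', rfl⟩))
      have hcB : ∀ x ∈ cj hh B, ∀ y ∈ cj hh B, x * y = y * x := by
        intro x hx y hy
        obtain ⟨x', hx', rfl⟩ := hx
        obtain ⟨y', hy', rfl⟩ := hy
        rw [← map_mul, ← map_mul, h.cB x' hx' y' hy']
      -- the two hypotheses of Ito's argument
      have key : ∀ (w : A) (b1 a1 b3 a3 : H), a1 ∈ A → a3 ∈ A → b3 ∈ cj hh B →
          (w : H) * g0 = b1 * a1 → (w : H) * ((u : H) * g0) = b3 * a3 →
          (∃ x ∈ A, ∃ y ∈ cj hh B, b1⁻¹ * (u : H)⁻¹ = x * y) ∧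
          zk A.subtype ((u : H)⁻¹ * g0 * u * g0⁻¹) w = (u : H)⁻¹ * (b1⁻¹)⁻¹ * u * b1⁻¹ := by
        intro w b1 a1 b3 a3 ha1 ha3 hb3 e1 e3
        have c1 : (w : H) * (u : H) = (u : H) * (w : H) := h.cA w w.2 u u.2
        have c2 : a1 * (u : H) = (u : H) * a1 := h.cA a1 ha1 u u.2
        have c3 : (w : H) * (u : H)⁻¹ = (u : H)⁻¹ * (w : H) := h.cA w w.2 _ (A.inv_mem u.2)
        constructor
        · refine ⟨a1 * a3⁻¹, A.mul_mem ha1 (A.inv_mem ha3), b3⁻¹, (cj hh B).inv_mem hb3, ?_⟩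
          have e5 : (u : H) * b1 * a1 = b3 * a3 := by
            rw [← e3, mul_assoc, ← e1, ← mul_assoc, ← mul_assoc, c1]
          have e6 : (u : H) * b1 = b3 * a3 * a1⁻¹ := by
            rw [← e5]
            group
          have e7 : b1⁻¹ * (u : H)⁻¹ = ((u : H) * b1)⁻¹ := by group
          rw [e7, e6]
          group
        · have e8 : g0 = (w : H)⁻¹ * (b1 * a1) := by
            rw [← e1]
            group
          unfold zk
          calc A.subtype w * ((u : H)⁻¹ * g0 * u * g0⁻¹) * (A.subtype w)⁻¹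
              = ((w : H) * (u : H)⁻¹) * g0 * u * g0⁻¹ * (w : H)⁻¹ := by
                simp only [Subgroup.subtype_apply]
                group
            _ = ((u : H)⁻¹ * (w : H)) * g0 * u * g0⁻¹ * (w : H)⁻¹ := by rw [c3]
            _ = (u : H)⁻¹ * ((w : H) * g0) * u * ((w : H) * g0)⁻¹ := by group
            _ = (u : H)⁻¹ * (b1 * a1) * u * (b1 * a1)⁻¹ := by rw [e1]
            _ = (u : H)⁻¹ * b1 * (a1 * u) * a1⁻¹ * b1⁻¹ := by group
            _ = (u : H)⁻¹ * b1 * (u * a1) * a1⁻¹ * b1⁻¹ := by rw [c2]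
            _ = (u : H)⁻¹ * (b1⁻¹)⁻¹ * u * b1⁻¹ := by group
      obtain ⟨k1, k2⟩ := key w b1 a1 b3 a3 ha1 ha3 hb3 e1 e3
      obtain ⟨k3, k4⟩ := key w' b2 a2 b4 a4 ha2 ha4 hb4 e2 e4
      have hfin := ito h.cA hcB u.2 u.2 ((cj hh B).inv_mem hb1) ((cj hh B).inv_mem hb2) k1 k3
      rw [← k2, ← k4] at hfin
      exact hfin
    · -- ret
      intro W hG
      obtain ⟨m, ψ, hψ⟩ := hret _ hG
      refine ⟨m, fun k => ψ (k : H), ?_⟩
      intro a' b' hab' W' hW'
      apply hψ a' a'.2 b' b'.2 hab'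
      intro x hx
      rw [hSmem] at hx
      rcases hx with ⟨w, hw, hx⟩ | ⟨w, hw, hx⟩
      · rcases hW' w hw with hw1 | ⟨w0, hw0, e⟩
        · exact Or.inl ((hSmem _ _).2 (Or.inl ⟨w, hw1, hx⟩))
        · right
          refine ⟨(w0 : H) * g0, (hSmem _ _).2 (Or.inl ⟨w0, hw0, rfl⟩), ?_⟩
          rw [← hx, e, ← mul_assoc]
          rfl
      · rcases hW' w hw with hw1 | ⟨w0, hw0, e⟩
        · exact Or.inl ((hSmem _ _).2 (Or.inr ⟨w, hw1, hx⟩))
        · right
          refine ⟨(w0 : H) * ((u : H) * g0), (hSmem _ _).2 (Or.inr ⟨w0, hw0, rfl⟩), ?_⟩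
          rw [← hx, e, ← mul_assoc, ← mul_assoc, ← mul_assoc]
          rfl

theorem exists_rec {H : Type u} [Group H] {A B T : Subgroup H} (h : Alg H A B T) :
    ∃ (K : Type u) (_ : CommGroup K) (ι : K →* H) (z : H) (Gd : Finset K → Prop),
      Function.Injective ι ∧ ι.range = A ∧ z ∉ Subgroup.normalizer (A : Set H) ∧ Rec H K ι z Gd :=
  rec_of_good h (exists_good h.cA h.fdc Subgroup.le_normalizer h.nA)

end Pool.Agent.Chern
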